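import Pool.Agent.MP_c34dea_an.H23.BChain

set_option autoImplicit false

open scoped Pointwise ENNReal

namespace Pool.Agent.MP_c34dea_an.H23

open Pool.Agent.MP_c34dea_an.H66

namespace Step

section PFs

variable {Γ : Type} [Group Γ] {r : ℕ} {X X' : Type} [MulAction Γ X] [MulAction Γ X']

theorem walk_map {P : PF r Γ X} {Q : PF r Γ X'} (π : X → X') (hπ : ∀ (g : Γ) x, π (g • x) = g • π x)
    (h : ∀ x l g, P.lab x l = some g → Q.lab (π x) l = some g) {w : List (Fin r × Bool)} {x : X}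
    {g : Γ} (hw : P.walk w x = some g) : Q.walk w (π x) = some g := by
  induction w generalizing x g with
  | nil => exact hw
  | cons l w ih =>
    obtain ⟨a, k, h1, h2, rfl⟩ := P.walk_cons_eq_some.1 hw
    exact Q.walk_cons_eq_some.2 ⟨a, k, h _ _ _ h1, hπ a x ▸ ih h2, rfl⟩

theorem walk_le {Z P : PF r Γ X} (h : Z.Le P) {w : List (Fin r × Bool)} {x : X} {g : Γ}
    (hw : Z.walk w x = some g) : P.walk w x = some g :=
  walk_map id (fun _ _ => rfl) h hw

theorem walk_inv {P : PF r Γ X} {w : List (Fin r × Bool)} {x : X} {g : Γ}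
    (hw : P.walk w x = some g) : P.walk (FreeGroup.invRev w) (g • x) = some g⁻¹ := by
  induction w generalizing x g with
  | nil =>
    obtain rfl : 1 = g := Option.some.inj hw
    simp
  | cons l w ih =>
    obtain ⟨a, k, h1, h2, rfl⟩ := P.walk_cons_eq_some.1 hw
    rw [FreeGroup.invRev_cons]
    refine P.walk_append_eq_some.2 ⟨k⁻¹, a⁻¹, by rw [mul_smul]; exact ih h2, ?_, by group⟩
    rw [mul_smul, inv_smul_smul]
    exact P.walk_cons_eq_some.2 ⟨a⁻¹, 1, P.symm' h1, rfl, by simp⟩

theorem red_inv {w : List (Fin r × Bool)} (h : FreeGroup.IsReduced w) :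
    FreeGroup.IsReduced (FreeGroup.invRev w) := by
  unfold FreeGroup.IsReduced FreeGroup.invRev at *
  rw [List.isChain_reverse, List.isChain_map]
  exact h.imp fun a b hab e => congrArg not (hab e.symm).symm

/-- two different reduced walks of the same length are joined by a short reduced walk -/
theorem two_walks {P : PF r Γ X} {w w' : List (Fin r × Bool)} {x : X} {g g' : Γ}
    (hw : P.walk w x = some g) (hw' : P.walk w' x = some g') (hr : FreeGroup.IsReduced w)
    (hr' : FreeGroup.IsReduced w') (hl : w.length = w'.length) (hne : w ≠ w') :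
    ∃ u, u ≠ [] ∧ FreeGroup.IsReduced u ∧ u.length ≤ 2 * w.length ∧
      P.walk u (g • x) = some (g' * g⁻¹) := by
  induction w generalizing w' x g g' with
  | nil => exact absurd (List.length_eq_zero_iff.1 hl.symm).symm hne
  | cons l w ih =>
    cases w' with
    | nil => simp at hl
    | cons l' w' =>
      by_cases e : l = l'
      · subst e
        obtain ⟨a, k, h1, h2, rfl⟩ := P.walk_cons_eq_some.1 hw
        obtain ⟨a', k', h1', h2', rfl⟩ := P.walk_cons_eq_some.1 hw'
        obtain rfl : a = a' := Option.some.inj (h1.symm.trans h1')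
        obtain ⟨u, u1, u2, u3, u4⟩ := ih h2 h2' (List.IsChain.tail hr) (List.IsChain.tail hr')
          (by simpa using hl) fun e => hne (by rw [e])
        refine ⟨u, u1, u2, by simp; omega, ?_⟩
        rw [mul_smul, u4]
        congr 1
        group
      · refine ⟨FreeGroup.invRev (l :: w) ++ l' :: w', by simp, ?_, by simp at hl ⊢; omega,
          P.walk_append_eq_some.2 ⟨g⁻¹, g', walk_inv hw, by rwa [inv_smul_smul], rfl⟩⟩
        refine List.IsChain.append (red_inv hr) hr' ?_
        intro a ha b hb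
        simp only [FreeGroup.invRev, List.map_cons, List.reverse_cons, List.getLast?_append,
          List.getLast?_singleton, Option.some_or, Option.mem_def, Option.some.injEq,
          List.head?_cons] at ha hb
        subst ha hb
        obtain ⟨i, b⟩ := l
        obtain ⟨i', b'⟩ := l'
        rintro rfl
        cases b <;> cases b' <;> simp_all

/-- segments of a walk -/
theorem seg {P : PF r Γ X} {w : List (Fin r × Bool)} {x : X} (hw : (P.walk w x).isSome)
    (hr : FreeGroup.IsReduced w) {i j : ℕ} (hij : i ≤ j) (hj : j ≤ w.length) :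
    ∃ (u : List (Fin r × Bool)) (a k : Γ), u.length = j - i ∧ FreeGroup.IsReduced u ∧
      P.walk (w.take i) x = some a ∧ P.walk u (a • x) = some k ∧
      P.walk (w.take j) x = some (k * a) := by
  obtain ⟨g, hg⟩ := Option.isSome_iff_exists.1 hw
  rw [← List.take_append_drop j w] at hg
  obtain ⟨b, -, h1, -, -⟩ := P.walk_append_eq_some.1 hg
  have h2 := h1
  rw [← List.take_append_drop i (w.take j), List.take_take, min_eq_left hij] at h2
  obtain ⟨a, k, h3, h4, rfl⟩ := P.walk_append_eq_some.1 h2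
  exact ⟨_, a, k, by simp [min_eq_left hj], List.IsChain.drop (List.IsChain.take hr j) i, h3, h4,
    h1⟩

open Classical in
/-- the common part of two labellings -/
noncomputable def meet (P Z : PF r Γ X) : PF r Γ X where
  lab x l := if P.lab x l = Z.lab x l then P.lab x l else none
  symm x i b g h := by
    split_ifs at h with e
    rw [P.symm x i b g h, Z.symm x i b g (e ▸ h), if_pos rfl]

theorem meet_le_left (P Z : PF r Γ X) : (meet P Z).Le P := by
  intro x l g h
  simp only [meet] at h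
  split_ifs at h
  exact h

theorem meet_le_right (P Z : PF r Γ X) : (meet P Z).Le Z := by
  intro x l g h
  simp only [meet] at h
  split_ifs at h with e
  exact e ▸ h

theorem meet_size [Finite X] (P Z : PF r Γ X)
    (h : ∀ x l g g', P.lab x l = some g → Z.lab x l = some g' → g = g') :
    P.size + Z.size ≤ (meet P Z).size + Nat.card X * (r * 2) := by
  have e := Set.ncard_union_add_ncard_inter {p : X × (Fin r × Bool) | (P.lab p.1 p.2).isSome}
    {p : X × (Fin r × Bool) | (Z.lab p.1 p.2).isSome}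
  have e1 : ({p : X × (Fin r × Bool) | (P.lab p.1 p.2).isSome} ∩
      {p : X × (Fin r × Bool) | (Z.lab p.1 p.2).isSome}).ncard ≤
      {p : X × (Fin r × Bool) | ((meet P Z).lab p.1 p.2).isSome}.ncard := by
    refine Set.ncard_le_ncard fun p hp => ?_
    obtain ⟨g, hg⟩ := Option.isSome_iff_exists.1 hp.1
    obtain ⟨g', hg'⟩ := Option.isSome_iff_exists.1 hp.2
    obtain rfl := h _ _ _ _ hg hg'
    simp [meet, hg, hg']
  have e2 := Set.ncard_le_card ({p : X × (Fin r × Bool) | (P.lab p.1 p.2).isSome} ∪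
    {p : X × (Fin r × Bool) | (Z.lab p.1 p.2).isSome})
  rw [Nat.card_prod, Nat.card_prod, Nat.card_fin, Nat.card_eq_fintype_card (α := Bool),
    Fintype.card_bool] at e2
  change {p : X × (Fin r × Bool) | (P.lab p.1 p.2).isSome}.ncard +
    {p : X × (Fin r × Bool) | (Z.lab p.1 p.2).isSome}.ncard ≤
    {p : X × (Fin r × Bool) | ((meet P Z).lab p.1 p.2).isSome}.ncard + _
  omega

variable {K K' : Subgroup Γ}

theorem qm_smul (h : K' ≤ K) (g : Γ) (b : Γ ⧸ K') :
    Subgroup.quotientMapOfLE h (g • b) = g • Subgroup.quotientMapOfLE h b := by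
  induction b using QuotientGroup.induction_on with
  | H y => rfl

/-- pull back to a deeper level -/
def pull (h : K' ≤ K) (P : PF r Γ (Γ ⧸ K)) : PF r Γ (Γ ⧸ K') where
  lab b l := P.lab (Subgroup.quotientMapOfLE h b) l
  symm x i b g e := by
    rw [qm_smul]
    exact P.symm _ i b g e

theorem pull_walk (h : K' ≤ K) {P : PF r Γ (Γ ⧸ K)} {w : List (Fin r × Bool)} {y g : Γ}
    (hw : (pull h P).walk w (y : Γ ⧸ K') = some g) : P.walk w (y : Γ ⧸ K) = some g :=
  walk_map (Subgroup.quotientMapOfLE h) (qm_smul h) (fun _ _ _ e => e) hw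

theorem pull_size (h : K' ≤ K) (P : PF r Γ (Γ ⧸ K)) :
    (pull h P).size = P.size * Nat.card (K ⧸ K'.subgroupOf K) := by
  let e := Subgroup.quotientEquivProdOfLE h
  have he : ∀ b, (e b).1 = Subgroup.quotientMapOfLE h b := fun b => by
    induction b using QuotientGroup.induction_on with
    | H y => rfl
  unfold PF.size
  rw [← Nat.card_prod]
  refine Nat.card_congr
    ⟨fun p => (⟨((e p.1.1).1, p.1.2), by rw [he]; exact p.2⟩, (e p.1.1).2),
      fun q => ⟨(e.symm (q.1.1.1, q.2), q.1.1.2), ?_⟩, fun p => by simp, fun q => by simp⟩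
  show (P.lab (Subgroup.quotientMapOfLE h _) _).isSome
  rw [← he, e.apply_symm_apply]
  exact q.1.2

theorem pull_big (h : K' ≤ K) (P : PF r Γ (Γ ⧸ K)) {a b : ℕ}
    (hP : a * Nat.card (Γ ⧸ K) ≤ b * P.size) : a * Nat.card (Γ ⧸ K') ≤ b * (pull h P).size := by
  rw [pull_size, Nat.card_congr (Subgroup.quotientEquivProdOfLE h), Nat.card_prod, ← mul_assoc,
    ← mul_assoc]
  exact Nat.mul_le_mul_right _ hP

end PFs

section Lev

variable {Γ V : Type} [Group Γ] [Group V] {H : Subgroup Γ} {p : Γ → V}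

theorem p_one (hp : ∀ h ∈ H, ∀ y, p (y * h) = p h * p y) : p 1 = 1 := by
  simpa using hp 1 H.one_mem 1

theorem p_inv (hp : ∀ h ∈ H, ∀ y, p (y * h) = p h * p y) {h : Γ} (hh : h ∈ H) :
    p h⁻¹ = (p h)⁻¹ := by
  have := hp h hh h⁻¹
  rw [inv_mul_cancel, p_one hp] at this
  exact eq_inv_of_mul_eq_one_right this.symm

/-- the elements whose position lies in `N` -/
def lev (hp : ∀ h ∈ H, ∀ y, p (y * h) = p h * p y) (N : Subgroup V) : Subgroup Γ where
  carrier := {h | h ∈ H ∧ p h ∈ N}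
  one_mem' := ⟨H.one_mem, by rw [p_one hp]; exact N.one_mem⟩
  mul_mem' := fun ha hb => ⟨H.mul_mem ha.1 hb.1, by rw [hp _ hb.1]; exact N.mul_mem hb.2 ha.2⟩
  inv_mem' := fun ha => ⟨H.inv_mem ha.1, by rw [p_inv hp ha.1]; exact N.inv_mem ha.2⟩

theorem lev_fi (hp : ∀ h ∈ H, ∀ y, p (y * h) = p h * p y) (hH : H.FiniteIndex) {N : Subgroup V}
    (hN : N.FiniteIndex) : (lev hp N).FiniteIndex := by
  have : Finite (Γ ⧸ lev hp N) := by
    refine Finite.of_injective (fun q => ((q.out : Γ ⧸ H), (((p q.out)⁻¹ : V) : V ⧸ N)))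
      fun q q' e => ?_
    obtain ⟨e1, e2⟩ := Prod.ext_iff.1 e
    rw [← QuotientGroup.out_eq' q, ← QuotientGroup.out_eq' q', QuotientGroup.eq]
    have h1 := QuotientGroup.eq.1 e1
    have h2 := QuotientGroup.eq.1 e2
    have h3 := hp _ h1 q.out
    rw [mul_inv_cancel_left] at h3
    refine ⟨h1, ?_⟩
    rw [h3] at h2
    simpa using h2
  exact Subgroup.finiteIndex_of_finite_quotient

end Lev

theorem NF.inf {S : Type} {G : SimpleGraph S} {N N' : Subgroup (W G)} (h : NF N) (h' : NF N') :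
    NF (N ⊓ N') := by
  obtain ⟨h1, h2⟩ := h
  obtain ⟨h3, h4⟩ := h'
  exact ⟨inferInstance, inferInstance⟩

theorem InjP.mono {S : Type} {G : SimpleGraph S} {N N' : Subgroup (W G)} {R : ℕ} (h : InjP N R)
    (hN : N' ≤ N) : InjP N' R := fun g hg => h g (hN hg)

variable (σ : Stage)

theorem d_pos (y g : Γ5) : d (σ.pos y) (σ.pos (g * y)) ≤ d 1 g := by
  obtain ⟨l, hl, e⟩ := exists_geodesic 1 g
  rw [← e, ← hl, one_mul]
  clear hl e
  induction l with
  | nil => simp
  | cons s l ih =>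
    obtain ⟨t, ht⟩ := σ.edge (word G5 l * y) s
    have := d_triangle (σ.pos y) (σ.pos (word G5 l * y)) (σ.pos (gen G5 s * (word G5 l * y)))
    rw [ht, d_gen, ← ht] at this
    rw [word_cons, mul_assoc, List.length_cons]
    omega

theorem pos_conj {y g : Γ5} (h : y⁻¹ * g * y ∈ σ.H) :
    σ.pos (g * y) = σ.pos (y⁻¹ * g * y) * σ.pos y := by
  rw [← σ.mul _ h]
  congr 1
  group

theorem ker_of_inj {N : Subgroup (W σ.G)} {R : ℕ} (hN : InjP N R) {y g : Γ5} (hg : d 1 g ≤ R)
    (h : y⁻¹ * g * y ∈ lev σ.mul N) : σ.Ker (y⁻¹ * g * y) :=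
  ⟨h.1, hN _ h.2 (σ.pos y) (by rw [← pos_conj σ h.1]; exact (d_pos σ y g).trans hg)⟩

theorem sub_fi {K : Subgroup Γ5} (h : σ.Sub K) : K.FiniteIndex := by
  obtain ⟨-, N, hN, h⟩ := h
  have := lev_fi σ.mul σ.fi hN.2
  exact Subgroup.finiteIndex_of_le (H := lev σ.mul N) fun k hk => h k hk.1 hk.2

variable {N : Subgroup (W σ.G)} (hN : NF N) {S' : Type} [Finite S'] {G' : SimpleGraph S'}
  (L : Lab σ.G G') (hL : ∀ n ∈ N, ∀ h, L.lab (n • h) = L.lab h)

/-- the stage defined by an invariant labelling -/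
noncomputable def nw : Stage where
  S := S'
  fin := inferInstance
  G := G'
  pos y := L.phi (σ.pos y)
  H := lev σ.mul N
  fi := lev_fi σ.mul σ.fi hN.2
  edge y s := by
    obtain ⟨l, hl⟩ := σ.edge y s
    exact ⟨_, by rw [hl, L.phi_mul_gen]⟩
  mul h hh y := by rw [σ.mul h hh.1, L.phi_mul_of_inv (hL _ hh.2)]

theorem ext_nw : σ.Ext (nw σ hN L hL) := by
  refine ⟨fun k hk => ⟨⟨hk.1, by rw [hk.2]; exact N.one_mem⟩, ?_⟩, ?_⟩
  · show L.phi (σ.pos k) = 1
    rw [hk.2, L.phi_one]
  · rintro K ⟨hK, N', hN', h⟩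
    have hp : ∀ n ∈ N, ∀ y, L.phi (y * n)⁻¹ = L.phi n⁻¹ * L.phi y⁻¹ := fun n hn y => by
      rw [mul_inv_rev, L.phi_mul_of_inv (hL _ (N.inv_mem hn))]
    have := lev_fi (p := fun y => L.phi y⁻¹) hp hN.2 hN'.2
    refine ⟨fun k hk => (hK hk).1, (lev (p := fun y => L.phi y⁻¹) hp N').normalCore,
      ⟨inferInstance, inferInstance⟩, fun k hk hk' => ?_⟩
    have h1 := Subgroup.normalCore_le _ hk'
    refine (K.inv_mem_iff).1 (h k⁻¹ (Subgroup.inv_mem _ ⟨hk, h1.1⟩) ?_)
    show L.phi (σ.pos k⁻¹) ∈ N'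
    rw [p_inv σ.mul hk]
    exact h1.2

theorem inj_nw {ρ : ℕ} (h : InjP N ρ) : (nw σ hN L hL).Inj ρ := fun _ _ hg hh =>
  (ext_nw σ hN L hL).1 _ (ker_of_inj σ h hg hh)

end Step

end Pool.Agent.MP_c34dea_an.H23
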