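import Pool.Agent.MP_c34dea_an.H23.BChain

set_option autoImplicit false

open scoped ENNReal

namespace Pool.Agent.MP_c34dea_an.H23

open Pool.Agent.MP_c34dea_an.H66

namespace Cost

theorem tsum_ind_le {ι τ : Type} (P : ι → Prop) [DecidablePred P] (f : ι → τ) (F : Finset τ)
    (hF : ∀ i, P i → f i ∈ F) (hinj : ∀ i j, P i → P j → f i = f j → i = j) :
    ∑' i, (if P i then (1 : ℝ≥0∞) else 0) ≤ F.card := by
  have h1 : ∑' i, (if P i then (1 : ℝ≥0∞) else 0) = ∑' _ : {i | P i}, (1 : ℝ≥0∞) := by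
    rw [tsum_subtype {i | P i} (fun _ => (1 : ℝ≥0∞))]
    refine tsum_congr fun i => ?_
    by_cases c : P i <;> simp [Set.indicator, c]
  rw [h1, ENNReal.tsum_set_one]
  have h2 : {i | P i}.encard ≤ (F : Set τ).encard :=
    Set.encard_le_encard_of_injOn (f := f) (fun i hi => hF i hi)
      fun i hi j hj e => hinj i j hi hj e
  rw [Set.encard_coe_eq_coe_finsetCard] at h2
  exact_mod_cast h2

theorem small {q : ℝ≥0∞} (hq : q < 1) {C : ℝ≥0∞} (hC : C ≠ ∞) (m : ℕ) :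
    ∃ n, m ≤ n ∧ q ^ n * C ≤ 1 / 600 := by
  have h1 : Filter.Tendsto (fun n : ℕ => q ^ n * C) Filter.atTop (nhds (0 * C)) :=
    ENNReal.Tendsto.mul_const (ENNReal.tendsto_pow_atTop_nhds_zero_of_lt_one hq) (Or.inr hC)
  rw [zero_mul] at h1
  have h2 := h1.eventually_le_const (u := 1 / 600) (by simp)
  obtain ⟨n, hn⟩ := ((Filter.eventually_ge_atTop m).and h2).exists
  exact ⟨n, hn⟩

theorem tail_le (q : ℝ≥0∞) (s : ℕ) :
    ∑' n : ℕ, (if s ≤ n then q ^ n else 0) ≤ q ^ s * (1 - q)⁻¹ := by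
  rw [← ENNReal.tsum_geometric, ← ENNReal.tsum_mul_left]
  have hinj : Function.Injective (fun m : ℕ => s + m) := fun a b e => Nat.add_left_cancel e
  rw [← hinj.tsum_eq (f := fun n : ℕ => if s ≤ n then q ^ n else 0)]
  · refine le_of_eq (tsum_congr fun m => ?_)
    rw [if_pos (Nat.le_add_right _ _), pow_add]
  · intro n hn
    by_cases c : s ≤ n
    · exact ⟨n - s, by simp only []; omega⟩
    · simp [c] at hn

theorem tsum_len {α : Type} (f : List α → ℝ≥0∞) :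
    ∑' w, f w = ∑' n : ℕ, ∑' w, if w.length = n then f w else 0 := by
  rw [ENNReal.tsum_comm]
  refine tsum_congr fun w => ?_
  rw [tsum_eq_single w.length]
  · simp
  · intro n hn
    rw [if_neg (Ne.symm hn)]

theorem exists_reps {Y T : Type} (f : Y → T) (F : Finset T) :
    ∃ Z : Finset Y, Z.card ≤ F.card ∧ ∀ y, f y ∈ F → ∃ z ∈ Z, f z = f y := by
  classical
  induction F using Finset.induction_on with
  | empty => exact ⟨∅, le_rfl, by simp⟩
  | insert t F ht ih =>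
    obtain ⟨Z, h1, h2⟩ := ih
    rw [Finset.card_insert_of_notMem ht]
    by_cases c : ∃ y, f y = t
    · obtain ⟨y₀, hy₀⟩ := c
      refine ⟨insert y₀ Z, (Finset.card_insert_le _ _).trans (by omega), fun y hy => ?_⟩
      rcases Finset.mem_insert.1 hy with e | hy
      · exact ⟨y₀, by simp, by rw [hy₀, e]⟩
      · obtain ⟨z, hz, e⟩ := h2 y hy
        exact ⟨z, by simp [hz], e⟩
    · refine ⟨Z, by omega, fun y hy => ?_⟩
      rcases Finset.mem_insert.1 hy with e | hy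
      · exact absurd ⟨y, e⟩ c
      · exact h2 y hy

theorem red_aux (n : ℕ) : ∀ a : Lt2, ∃ F : Finset (List Lt2), F.card ≤ 3 ^ n ∧
    ∀ w : List Lt2, w.length = n → FreeGroup.IsReduced (a :: w) → w ∈ F := by
  classical
  induction n with
  | zero =>
    intro a
    exact ⟨{[]}, by simp, fun w hw _ => by simp [List.length_eq_zero_iff.1 hw]⟩
  | succ n ih =>
    intro a
    choose F h1 h2 using ih
    refine ⟨(Finset.univ.erase (a.1, !a.2)).biUnion fun b => (F b).image (b :: ·), ?_, ?_⟩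
    · refine (Finset.card_biUnion_le_card_mul _ _ (3 ^ n) fun b _ =>
        Finset.card_image_le.trans (h1 b)).trans ?_
      rw [Finset.card_erase_of_mem (Finset.mem_univ _), pow_succ, mul_comm]
      simp
    · intro w hw hr
      cases w with
      | nil => simp at hw
      | cons b w =>
        rw [FreeGroup.isReduced_cons_cons] at hr
        refine Finset.mem_biUnion.2 ⟨b, Finset.mem_erase.2 ⟨?_, Finset.mem_univ _⟩,
          Finset.mem_image.2 ⟨w, h2 b w (by simpa using hw) hr.2, rfl⟩⟩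
        rintro rfl
        have := hr.1 rfl
        simp at this

theorem red_card (n : ℕ) : ∃ F : Finset (List Lt2), F.card ≤ 4 * 3 ^ n ∧
    ∀ w : List Lt2, w.length = n → FreeGroup.IsReduced w → w ∈ F := by
  classical
  choose F h1 h2 using red_aux n
  refine ⟨Finset.univ.biUnion F, ?_, fun w hw hr => ?_⟩
  · refine (Finset.card_biUnion_le_card_mul _ _ (3 ^ n) fun b _ => h1 b).trans ?_
    simp
  · cases w with
    | nil => exact Finset.mem_biUnion.2 ⟨(0, true), Finset.mem_univ _, h2 _ _ hw (by simp)⟩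
    | cons b w =>
      refine Finset.mem_biUnion.2 ⟨b, Finset.mem_univ _, h2 _ _ hw ?_⟩
      rw [FreeGroup.isReduced_cons_cons]
      exact ⟨fun _ => rfl, hr⟩

variable {S : Type} {G : SimpleGraph S}

theorem ball_unif [Finite S] (G : SimpleGraph S) (n : ℕ) :
    ∃ N : ℕ, ∀ p : W G, ∃ F : Finset (W G), F.card ≤ N ∧ ∀ q, d p q ≤ n → q ∈ F := by
  classical
  refine ⟨(ball_finite (1 : W G) n).toFinset.card, fun p =>
    ⟨(ball_finite (1 : W G) n).toFinset.image (p * ·), Finset.card_image_le, fun q hq => ?_⟩⟩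
  refine Finset.mem_image.2 ⟨p⁻¹ * q, ?_, by simp⟩
  rw [Set.Finite.mem_toFinset]
  show d 1 (p⁻¹ * q) ≤ n
  rw [← d_smul p]
  simpa using hq

/-- few words of a given length end in a given finite set -/
theorem cnt {V' : Type} [Finite V'] {e : List Lt2 → W G} {v : List Lt2 → V'}
    {Q : List Lt2 → Prop} (hinj : ∀ w w', Q w → Q w' → e w = e w' → v w = v w' → w = w')
    (F : Finset (W G)) {N : ℕ} (hN : F.card ≤ N) (P : List Lt2 → Prop) [DecidablePred P]
    (hP : ∀ w, P w → Q w ∧ e w ∈ F) :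
    ∑' w, (if P w then (1 : ℝ≥0∞) else 0) ≤ (N * Nat.card V' : ℕ) := by
  classical
  have := Fintype.ofFinite V'
  refine (tsum_ind_le P (fun w => (e w, v w)) (F ×ˢ Finset.univ) (fun w hw => ?_)
    fun w w' hw hw' h => ?_).trans ?_
  · simp [(hP w hw).2]
  · exact hinj w w' (hP w hw).1 (hP w' hw').1 (congrArg Prod.fst h) (congrArg Prod.snd h)
  · rw [Finset.card_product, Finset.card_univ, Nat.card_eq_fintype_card]
    exact_mod_cast Nat.mul_le_mul_right _ hN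

variable {A Y : Type} {step : Y → A → Y} {pos : Y → W G} {R : Hyp G → Hyp G → Prop}
  {θ x K : ℝ≥0∞}

/-- the words whose end point is close to the starting point in the potential -/
theorem near_le (h : Good step pos R θ x K) (h1 : θ < 1) (ζ : Y) {e : List Lt2 → W G}
    {Q : List Lt2 → Prop} [DecidablePred Q] {ρ : ℕ} {M r : ℝ≥0∞}
    (hM : ∀ p, ∑' w, (if Q w ∧ d (e w) p ≤ ρ then (1 : ℝ≥0∞) else 0) ≤ M)
    (hr : ∀ w, Q w → r ≤ θ ^ D R (pos ζ) (e w)) :
    r * θ ^ ρ * ∑' w, (if Q w then Gr step x ζ (fun ζ' => d (e w) (pos ζ') ≤ ρ) else 0) ≤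
      M * K := by
  classical
  have e1 : ∀ w, (if Q w then Gr step x ζ (fun ζ' => d (e w) (pos ζ') ≤ ρ) else 0) =
      ∑' γ : List A, if Q w ∧ d (e w) (pos (run step ζ γ)) ≤ ρ then x ^ γ.length else 0 := by
    intro w
    by_cases c : Q w
    · simp only [c, if_true, true_and, Gr]
      exact tsum_congr fun γ => by congr
    · simp [c]
  simp only [e1]
  rw [ENNReal.tsum_comm, ← ENNReal.tsum_mul_left]
  have e2 := h (pos ζ) ζ
  rw [D_self, pow_zero, mul_one] at e2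
  refine le_trans ?_ (mul_le_mul_right e2 M)
  rw [← ENNReal.tsum_mul_left]
  refine ENNReal.tsum_le_tsum fun γ => ?_
  refine le_trans ?_ (mul_le_mul_left (hM (pos (run step ζ γ))) _)
  rw [← ENNReal.tsum_mul_left, ← ENNReal.tsum_mul_right]
  refine ENNReal.tsum_le_tsum fun w => ?_
  split_ifs with c
  · rw [one_mul, mul_comm]
    refine mul_le_mul_right ?_ _
    have t1 := D_triangle (R := R) (pos ζ) (e w) (pos (run step ζ γ))
    have t2 := D_le_d (R := R) (e w) (pos (run step ζ γ))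
    calc r * θ ^ ρ ≤ θ ^ D R (pos ζ) (e w) * θ ^ ρ := mul_le_mul_left (hr w c.1) _
      _ = θ ^ (D R (pos ζ) (e w) + ρ) := (pow_add _ _ _).symm
      _ ≤ _ := pow_le_pow_right_of_le_one' h1.le (by have := c.2; omega)
  · simp

/-- the words whose end point is far from the starting point in the potential -/
theorem far_le (h : Good step pos R θ x K) (h0 : θ ≠ 0) (h1 : θ < 1) (ζ : Y) {e : List Lt2 → W G}
    {Q : List Lt2 → Prop} [DecidablePred Q] (ρ : ℕ) {M r : ℝ≥0∞}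
    (hM : ∑' w, (if Q w then (1 : ℝ≥0∞) else 0) ≤ M)
    (hr : ∀ w, Q w → θ ^ D R (pos ζ) (e w) ≤ r) :
    ∑' w, (if Q w then Gr step x ζ (fun ζ' => d (e w) (pos ζ') ≤ ρ) else 0) ≤
      M * (θ⁻¹ ^ ρ * (K * r)) := by
  refine le_trans ?_ (mul_le_mul_left hM _)
  rw [← ENNReal.tsum_mul_right]
  refine ENNReal.tsum_le_tsum fun w => ?_
  split_ifs with c
  · rw [one_mul]
    refine (h.gr_le h0 h1 (e w) ζ (n := ρ) fun y' hy' => (D_le_d _ _).trans hy').trans ?_
    rw [D_comm]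
    exact mul_le_mul_right (mul_le_mul_right (hr w c) _) _
  · simp

theorem num1 : (11 / 20 : ℝ≥0∞) ≤ 957 / 1000 * (29 / 50) := by
  rw [← ENNReal.toReal_le_toReal (by finiteness) (by finiteness)]
  simp only [ENNReal.toReal_mul, ENNReal.toReal_div, ENNReal.toReal_ofNat]
  norm_num

theorem num2 : (11 / 20 : ℝ≥0∞) * 3 * (29 / 50) ≤ 957 / 1000 := by
  rw [← ENNReal.toReal_le_toReal (by finiteness) (by finiteness)]
  simp only [ENNReal.toReal_mul, ENNReal.toReal_div, ENNReal.toReal_ofNat]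
  norm_num

theorem num3 : (1 / 600 : ℝ≥0∞) + 1 / 600 + 1 / 600 ≤ 1 / 200 := by
  rw [← ENNReal.toReal_le_toReal (by finiteness) (by finiteness),
    ENNReal.toReal_add (by finiteness) (by finiteness),
    ENNReal.toReal_add (by finiteness) (by finiteness)]
  simp only [ENNReal.toReal_div, ENNReal.toReal_ofNat, ENNReal.toReal_one]
  norm_num

theorem num4 : (11 / 20 : ℝ≥0∞) < 1 := by
  rw [← ENNReal.toReal_lt_toReal (by finiteness) (by finiteness)]
  simp only [ENNReal.toReal_div, ENNReal.toReal_ofNat, ENNReal.toReal_one]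
  norm_num

theorem num5 : (957 / 1000 : ℝ≥0∞) < 1 := by
  rw [← ENNReal.toReal_lt_toReal (by finiteness) (by finiteness)]
  simp only [ENNReal.toReal_div, ENNReal.toReal_ofNat, ENNReal.toReal_one]
  norm_num

/-- the long walks seen from one starting point -/
theorem one_le (h : Good step pos R θ x K) (h0 : θ ≠ 0) (h1 : θ < 1) (ζ : Y) {e : List Lt2 → W G}
    {Q : List Lt2 → Prop} [DecidablePred Q] {ρ k : ℕ} {M : ℝ≥0∞}
    (hM : ∀ p, ∑' w, (if Q w ∧ d (e w) p ≤ ρ then (1 : ℝ≥0∞) else 0) ≤ M)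
    (hQ : ∀ w, Q w → w.length = k ∧ FreeGroup.IsReduced w) :
    (11 / 20) ^ k * ∑' w, (if Q w then Gr step x ζ (fun ζ' => d (e w) (pos ζ') ≤ ρ) else 0) ≤
      (957 / 1000) ^ k * ((M + 4) * (θ⁻¹ ^ ρ * K)) := by
  classical
  set r : ℝ≥0∞ := (29 / 50) ^ k with hr
  have a1 := near_le h h1 ζ (e := e) (Q := fun w => Q w ∧ r ≤ θ ^ D R (pos ζ) (e w)) (ρ := ρ)
    (M := M) (r := r) (fun p => le_trans (ENNReal.tsum_le_tsum fun w => ?_) (hM p))
    fun w hw => hw.2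
  swap
  · by_cases c : (Q w ∧ r ≤ θ ^ D R (pos ζ) (e w)) ∧ d (e w) p ≤ ρ
    · rw [if_pos c, if_pos ⟨c.1.1, c.2⟩]
    · rw [if_neg c]; exact zero_le
  obtain ⟨F, hF1, hF2⟩ := red_card k
  have a2 := far_le h h0 h1 ζ (e := e) (Q := fun w => Q w ∧ ¬ r ≤ θ ^ D R (pos ζ) (e w)) ρ
    (M := 4 * 3 ^ k) (r := r) ((tsum_ind_le _ id F
      (fun w hw => hF2 w (hQ w hw.1).1 (hQ w hw.1).2) fun _ _ _ _ e => e).trans
      (by exact_mod_cast hF1)) fun w hw => (not_le.1 hw.2).le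
  set S1 := ∑' w, (if Q w ∧ r ≤ θ ^ D R (pos ζ) (e w) then
    Gr step x ζ (fun ζ' => d (e w) (pos ζ') ≤ ρ) else 0) with hS1
  set S2 := ∑' w, (if Q w ∧ ¬ r ≤ θ ^ D R (pos ζ) (e w) then
    Gr step x ζ (fun ζ' => d (e w) (pos ζ') ≤ ρ) else 0) with hS2
  have a3 : ∑' w, (if Q w then Gr step x ζ (fun ζ' => d (e w) (pos ζ') ≤ ρ) else 0) ≤ S1 + S2 := by
    rw [hS1, hS2, ← ENNReal.tsum_add]
    refine ENNReal.tsum_le_tsum fun w => ?_
    by_cases c : Q w <;> by_cases c' : r ≤ θ ^ D R (pos ζ) (e w) <;> simp [c, c']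
  have e1 : θ⁻¹ ^ ρ * θ ^ ρ = 1 := by
    rw [← mul_pow, ENNReal.inv_mul_cancel h0 (h1.trans ENNReal.one_lt_top).ne, one_pow]
  have b1 : (11 / 20) ^ k * S1 ≤ (957 / 1000) ^ k * (M * (θ⁻¹ ^ ρ * K)) := by
    calc (11 / 20) ^ k * S1 ≤ (957 / 1000 * (29 / 50)) ^ k * S1 := by
          gcongr
          exact num1
      _ = (957 / 1000) ^ k * θ⁻¹ ^ ρ * (r * θ ^ ρ * S1) := by
          rw [mul_pow, ← hr]
          calc (957 / 1000) ^ k * r * S1 = (957 / 1000) ^ k * r * S1 * (θ⁻¹ ^ ρ * θ ^ ρ) := by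
                rw [e1, mul_one]
            _ = _ := by ring
      _ ≤ (957 / 1000) ^ k * θ⁻¹ ^ ρ * (M * K) := mul_le_mul_right a1 _
      _ = _ := by ring
  have b2 : (11 / 20) ^ k * S2 ≤ (957 / 1000) ^ k * (4 * (θ⁻¹ ^ ρ * K)) := by
    calc (11 / 20) ^ k * S2 ≤ (11 / 20) ^ k * (4 * 3 ^ k * (θ⁻¹ ^ ρ * (K * r))) :=
          mul_le_mul_right a2 _
      _ = (11 / 20 * 3 * (29 / 50)) ^ k * (4 * (θ⁻¹ ^ ρ * K)) := by
          rw [mul_pow, mul_pow, ← hr]; ring
      _ ≤ _ := by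
          gcongr
          exact num2
  calc _ ≤ (11 / 20) ^ k * (S1 + S2) := mul_le_mul_right a3 _
    _ = (11 / 20) ^ k * S1 + (11 / 20) ^ k * S2 := mul_add _ _ _
    _ ≤ _ := add_le_add b1 b2
    _ = _ := by ring

/-- the cost of a long walk is bounded by a sum over finitely many starting points -/
theorem fh_le {S' : Type} {G' : SimpleGraph S'} {ψ : W G → W G'} {V : Type} [Finite V]
    {κ : Y → V} {c u N : ℕ} (hd : ∀ p q, d (ψ p) (ψ q) ≤ D TB0 p q * c)
    (hκ : ∀ ζ ζ' γ, κ ζ = κ ζ' → ψ (pos ζ) = ψ (pos ζ') →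
      ψ (pos (run step ζ γ)) = ψ (pos (run step ζ' γ)))
    (hN : ∀ p : W G', ∃ F : Finset (W G'), F.card ≤ N ∧ ∀ q, d p q ≤ u * c → q ∈ F) (α : W G) :
    ∃ Z : Finset Y, Z.card ≤ N * Nat.card V ∧ ∀ β, Fh step pos x u α β ≤
      ∑ ζ ∈ Z, Gr step x ζ (fun ζ' => d (ψ β) (ψ (pos ζ')) ≤ u * c) := by
  classical
  have := Fintype.ofFinite V
  obtain ⟨F, hF1, hF2⟩ := hN (ψ α)
  obtain ⟨Z, hZ1, hZ2⟩ := exists_reps (fun ζ => (ψ (pos ζ), κ ζ)) (F ×ˢ Finset.univ)
  refine ⟨Z, hZ1.trans ?_, fun β => iSup₂_le fun ζ hζ => ?_⟩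
  · rw [Finset.card_product, Finset.card_univ, Nat.card_eq_fintype_card]
    exact Nat.mul_le_mul_right _ hF1
  · have m : ψ (pos ζ) ∈ F := by
      refine hF2 _ ((hd _ _).trans (Nat.mul_le_mul_right _ ?_))
      rwa [D_comm]
    obtain ⟨z, hz, e⟩ := hZ2 ζ (by simp [m])
    refine le_trans ?_ (Finset.single_le_sum
      (f := fun ζ => Gr step x ζ (fun ζ' => d (ψ β) (ψ (pos ζ')) ≤ u * c)) (fun _ _ => zero_le) hz)
    refine ENNReal.tsum_le_tsum fun γ => ?_
    by_cases h : D TB0 (pos (run step ζ γ)) β ≤ u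
    · rw [if_pos h, if_pos]
      show d (ψ β) (ψ (pos (run step z γ))) ≤ u * c
      rw [hκ z ζ γ (congrArg Prod.snd e) (congrArg Prod.fst e)]
      refine (hd _ _).trans (Nat.mul_le_mul_right _ ?_)
      rwa [D_comm]
    · rw [if_neg h]
      exact zero_le

end Cost

open Cost in
theorem cost : CostStmt := by
  classical
  intro S G S' _ G' ψ A Y step pos x V _ κ V' _ c L ν hd hgood hκ
  obtain ⟨R, θ, K, -, h0, h1, hK, hG⟩ := hgood
  choose N hN using ball_unif G'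
  have hθ : θ⁻¹ ≠ ∞ := ENNReal.inv_ne_top.2 h0
  have hq : (1 - 11 / 20 : ℝ≥0∞)⁻¹ ≠ ∞ := ENNReal.inv_ne_top.2 (tsub_pos_of_lt num4).ne'
  obtain ⟨s, hs1, hs⟩ := small num4
    (C := (1 - 11 / 20 : ℝ≥0∞)⁻¹ * (N ((2 * L + 2) * c) * Nat.card V' : ℕ)) (by finiteness) 1
  obtain ⟨g, hg1, hg⟩ := small num4
    (C := (N ((2 * s * L + ν) * c) * Nat.card V' : ℕ)) (by finiteness) s
  obtain ⟨k, hk1, hk⟩ := small num5
    (C := 2 * (N ((g * L + 1) * c) * Nat.card V : ℕ) *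
      (((N ((g * L + 1) * c) * Nat.card V' : ℕ) + 4) * (θ⁻¹ ^ ((g * L + 1) * c) * K)))
    (by finiteness) (2 * g)
  refine ⟨s, g, k, hs1, hg1, hk1, fun α B e v hred hinj => ?_⟩
  have hinj' : ∀ n ≤ k, ∀ w w', (w ∈ B ∧ w.length = n) → (w' ∈ B ∧ w'.length = n) →
      ψ (e w) = ψ (e w') → v w = v w' → w = w' := fun n hn w w' hw hw' =>
    hinj w hw.1 w' hw'.1 (hw.2.trans hw'.2.symm) (hw.2 ▸ hn)
  have hcnt : ∀ n ≤ k, ∀ u, ∑' w, (if w ∈ B ∧ w.length = n ∧ D TB0 α (e w) < u then (1 : ℝ≥0∞)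
      else 0) ≤ (N (u * c) * Nat.card V' : ℕ) := by
    intro n hn u
    obtain ⟨F, hF1, hF2⟩ := hN (u * c) (ψ α)
    exact cnt (e := fun w => ψ (e w)) (hinj' n hn) F hF1 _ fun w hw =>
      ⟨⟨hw.1, hw.2.1⟩, hF2 _ ((hd _ _).trans (Nat.mul_le_mul_right _ hw.2.2.le))⟩
  have t1 : ∑' w, (if w ∈ B ∧ s ≤ w.length ∧ w.length ≤ g ∧ D TB0 α (e w) < 2 * L + 2 then
      (11 / 20 : ℝ≥0∞) ^ w.length else 0) ≤ 1 / 600 := by
    refine le_trans ?_ hs
    rw [tsum_len, ← mul_assoc]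
    refine le_trans ?_ (mul_le_mul_left (tail_le _ s) _)
    rw [← ENNReal.tsum_mul_right]
    refine ENNReal.tsum_le_tsum fun n => ?_
    by_cases c1 : s ≤ n ∧ n ≤ g
    · rw [if_pos c1.1]
      refine le_trans ?_ (mul_le_mul_right (hcnt n (by omega) (2 * L + 2)) _)
      rw [← ENNReal.tsum_mul_left]
      refine ENNReal.tsum_le_tsum fun w => ?_
      by_cases c2 : w.length = n
      · rw [if_pos c2]
        by_cases c3 : w ∈ B ∧ s ≤ w.length ∧ w.length ≤ g ∧ D TB0 α (e w) < 2 * L + 2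
        · rw [if_pos c3, if_pos ⟨c3.1, c2, c3.2.2.2⟩, c2, mul_one]
        · rw [if_neg c3]; exact zero_le
      · rw [if_neg c2]; exact zero_le
    · refine le_trans (le_of_eq (ENNReal.tsum_eq_zero.2 fun w => ?_)) zero_le
      by_cases c2 : w.length = n
      · rw [if_pos c2, if_neg]
        exact fun c3 => c1 (c2 ▸ ⟨c3.2.1, c3.2.2.1⟩)
      · rw [if_neg c2]
  have t2 : ∑' w, (if w ∈ B ∧ w.length = g ∧ D TB0 α (e w) < 2 * s * L + ν then
      (11 / 20 : ℝ≥0∞) ^ w.length else 0) ≤ 1 / 600 := by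
    refine le_trans ?_ hg
    refine le_trans ?_ (mul_le_mul_right (hcnt g (by omega) (2 * s * L + ν)) _)
    rw [← ENNReal.tsum_mul_left]
    refine ENNReal.tsum_le_tsum fun w => ?_
    split_ifs with c1
    · rw [c1.2.1, mul_one]
    · exact zero_le
  have t3 : ∑' w, (if w ∈ B ∧ w.length = k then
      (11 / 20 : ℝ≥0∞) ^ w.length * (2 * Fh step pos x (g * L + 1) α (e w)) else 0) ≤ 1 / 600 := by
    refine le_trans ?_ hk
    obtain ⟨Z, hZ1, hZ2⟩ := fh_le (x := x) hd hκ (hN ((g * L + 1) * c)) α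
    have b : ∀ ζ, (11 / 20 : ℝ≥0∞) ^ k * ∑' w, (if w ∈ B ∧ w.length = k then Gr step x ζ
        (fun ζ' => d (ψ (e w)) (ψ (pos ζ')) ≤ (g * L + 1) * c) else 0) ≤ (957 / 1000) ^ k *
        ((((N ((g * L + 1) * c) * Nat.card V' : ℕ) : ℝ≥0∞) + 4) *
          (θ⁻¹ ^ ((g * L + 1) * c) * K)) := by
      intro ζ
      refine one_le hG h0 h1 ζ (e := fun w => ψ (e w)) (fun p => ?_)
        fun w hw => ⟨hw.2, hred w hw.1⟩
      obtain ⟨F, hF1, hF2⟩ := hN ((g * L + 1) * c) p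
      exact cnt (e := fun w => ψ (e w)) (hinj' k le_rfl) F hF1 _ fun w hw =>
        ⟨hw.1, hF2 _ (by rw [d_comm]; exact hw.2)⟩
    calc _ ≤ ∑' w, ∑ ζ ∈ Z, 2 * ((11 / 20 : ℝ≥0∞) ^ k * (if w ∈ B ∧ w.length = k then Gr step x ζ
          (fun ζ' => d (ψ (e w)) (ψ (pos ζ')) ≤ (g * L + 1) * c) else 0)) := by
          refine ENNReal.tsum_le_tsum fun w => ?_
          split_ifs with c1
          · rw [← Finset.mul_sum, ← Finset.mul_sum, c1.2, mul_left_comm]
            exact mul_le_mul_right (mul_le_mul_right (hZ2 _) _) _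
          · exact zero_le
      _ = ∑ ζ ∈ Z, 2 * ((11 / 20 : ℝ≥0∞) ^ k * ∑' w, (if w ∈ B ∧ w.length = k then Gr step x ζ
          (fun ζ' => d (ψ (e w)) (ψ (pos ζ')) ≤ (g * L + 1) * c) else 0)) := by
          rw [Summable.tsum_finsetSum fun _ _ => ENNReal.summable]
          simp only [ENNReal.tsum_mul_left]
      _ ≤ ∑ _ζ ∈ Z, 2 * ((957 / 1000) ^ k *
          ((((N ((g * L + 1) * c) * Nat.card V' : ℕ) : ℝ≥0∞) + 4) *
            (θ⁻¹ ^ ((g * L + 1) * c) * K))) :=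
          Finset.sum_le_sum fun ζ _ => mul_le_mul_right (b ζ) _
      _ ≤ ((N ((g * L + 1) * c) * Nat.card V : ℕ) : ℝ≥0∞) * (2 * ((957 / 1000) ^ k *
          ((((N ((g * L + 1) * c) * Nat.card V' : ℕ) : ℝ≥0∞) + 4) *
            (θ⁻¹ ^ ((g * L + 1) * c) * K)))) := by
          rw [Finset.sum_const, nsmul_eq_mul]
          exact mul_le_mul_left (by exact_mod_cast hZ1) _
      _ = _ := by ring
  refine le_trans ?_ ((add_le_add (add_le_add t1 t2) t3).trans num3)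
  rw [← ENNReal.tsum_add, ← ENNReal.tsum_add]
  refine ENNReal.tsum_le_tsum fun w => ?_
  by_cases c0 : w ∈ B
  · simp only [c0, if_true, true_and, mul_add, mul_ite, mul_one, mul_zero, le_refl]
  · simp only [c0, if_false, zero_le]

end Pool.Agent.MP_c34dea_an.H23
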