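import Pool.Agent.MP_c34dea_an.H23.Loc
import Pool.Agent.MP_c34dea_an.H6.Fold

set_option autoImplicit false

open scoped Pointwise ENNReal

namespace Pool.Agent.MP_c34dea_an.H23

open Pool.Agent.MP_c34dea_an.H66

namespace FaithAux

variable {S : Type} {G : SimpleGraph S}

/-- among three pairwise strongly separated walls one avoids two given stars -/
theorem exists_avoid {B : Finset (Hyp G)} (h3 : 3 ≤ B.card) (hB : (B : Set (Hyp G)).Pairwise TB0)
    (h r : Hyp G) : ∃ e ∈ B, ¬ Stt h e ∧ ¬ Stt r e := by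
  obtain ⟨a, b, c, ha, hb, hc, hab, hac, hbc⟩ := Finset.two_lt_card_iff.1 (show 2 < B.card by omega)
  have t1 := hB ha hb hab
  have t2 := hB ha hc hac
  have t3 := hB hb hc hbc
  by_contra hn
  push Not at hn
  have k1 := hn a ha
  have k2 := hn b hb
  have k3 := hn c hc
  have l1 := t1.not_both (k := h)
  have l2 := t2.not_both (k := h)
  have l3 := t3.not_both (k := h)
  have m1 := t1.not_both (k := r)
  have m2 := t2.not_both (k := r)
  have m3 := t3.not_both (k := r)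
  tauto

/-- a wall between the start and `p` that is crossed late gives a closer point of the sequence -/
theorem closer (hC : LocStmt) {x : ℕ → W G} {n L s g ν : ℕ} (hs : 1 ≤ s) (hsg : s ≤ g)
    (hν : 3 ≤ ν) (hP : Prog x n L s g ν) {p : W G} {h : Hyp G} {m : ℕ} (hm : m < n)
    (hg : 2 * g ≤ m) (h1 : h ∈ sep (x 0) p) (h2 : h ∈ sep (x m) (x (m + 1))) :
    d p (x g) < d p (x 0) := by
  obtain ⟨c1, c2⟩ := hC S G x n L s g ν hs hsg (by omega) hP
  obtain ⟨B, hB1, hB2, hB3⟩ := c2 g (by omega)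
  obtain ⟨w, hw, hcw, -, -⟩ := exists_cross_pt h2
  have key : sep (x 0) (x g) \ LocAux.crossed x g s ⊆ sep (x 0) p ∩ sep (x 0) (x g) := by
    intro r hr
    rw [Finset.mem_sdiff] at hr
    refine Finset.mem_inter.2 ⟨?_, hr.1⟩
    obtain ⟨e, he, n1, n2⟩ := exists_avoid (by omega) hB2 h r
    obtain ⟨l1, l2⟩ := hB3 e he
    have a1 := l2 m (by omega) hm.le
    have a2 := l2 (m + 1) (by omega) hm
    have a3 : e ∉ sep (x m) w := fun hx => by
      have := hw hx
      simp only [mem_sep_sd] at a1 a2 this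
      grind
    have a4 : e ∈ sep (x 0) w := by
      simp only [mem_sep_sd] at a1 a3 ⊢
      grind
    have a5 : e ∈ sep (x 0) p := mem_sep_of_car h1 hcw a4 n1
    have a6 : e ∈ sep (x g) (x (g + g)) := by
      have b1 := l1 g le_rfl
      have b2 := l2 (g + g) le_rfl (by omega)
      simp only [mem_sep_sd] at b1 b2 ⊢
      grind
    obtain ⟨c, d1, d2, d3⟩ := LocAux.exists_step_of_sep x (Nat.le_add_right g g) a6
    obtain ⟨v, hv, hcv, -, -⟩ := exists_cross_pt d3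
    obtain ⟨c', -, e2, e3⟩ := LocAux.exists_step_of_sep x (Nat.zero_le g) hr.1
    have late : ∀ a, g ≤ a → a < n → r ∉ sep (x a) (x (a + 1)) := fun a f1 f2 hx => by
      have := c1 c' a r (by omega) f2 e3 hx
      exact hr.2 (LocAux.mem_crossed f1 (by omega) hx)
    have a7 : r ∉ sep (x g) (x c) := fun hx => by
      obtain ⟨a, f1, f2, f3⟩ := LocAux.exists_step_of_sep x d1 hx
      exact late a f1 (by omega) f3
    have a8 : r ∉ sep (x c) v := fun hx => late c d1 (by omega) (hv hx)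
    have a9 : r ∈ sep (x 0) v := by
      have b1 := hr.1
      simp only [mem_sep_sd] at b1 a7 a8 ⊢
      grind
    exact mem_sep_of_car a5 hcv a9 fun hx => n2 hx.symm
  have k1 := Finset.card_le_card key
  have k2 := Finset.le_card_sdiff (LocAux.crossed x g s) (sep (x 0) (x g))
  have k3 := LocAux.card_crossed hP.step (j := g) (s := s) (by omega)
  have k4 := d_add_eq p (x 0) (x g)
  have k5 := hP.big 0 (by omega)
  have k6 := D_le_d (R := TB0) (x 0) (x g)
  rw [zero_add] at k5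
  have k7 : 2 * s * L = s * L + s * L := by ring
  unfold gp at k4
  unfold d at k4 k6 ⊢
  omega

theorem d_le_of_step {x : ℕ → W G} {n L : ℕ} (hL : ∀ i < n, d (x i) (x (i + 1)) ≤ L) {m : ℕ}
    (hm : m ≤ n) : d (x 0) (x m) ≤ m * L := by
  induction m with
  | zero => simp
  | succ m ih =>
    have h1 := ih (by omega)
    have h2 := hL m (by omega)
    have h3 := d_triangle (x 0) (x m) (x (m + 1))
    rw [Nat.succ_mul]
    omega

variable {Γ X : Type} [Group Γ] [MulAction Γ X]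

theorem walk_reduce (Z : PF 2 Γ X) {w : List Lt2} {b : X} {g : Γ} (h : Z.walk w b = some g) :
    ∃ w', FreeGroup.IsReduced w' ∧ Z.walk w' b = some g := by
  induction w generalizing b g with
  | nil => exact ⟨[], by simp, h⟩
  | cons l w ih =>
    obtain ⟨g1, k, h1, h2, rfl⟩ := Z.walk_cons_eq_some.1 h
    obtain ⟨w', hr, hw⟩ := ih h2
    cases w' with
    | nil => exact ⟨[l], by simp, Z.walk_cons_eq_some.2 ⟨g1, k, h1, hw, rfl⟩⟩
    | cons l' w1 =>
      by_cases c : l.1 = l'.1 → l.2 = l'.2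
      · exact ⟨l :: l' :: w1, FreeGroup.isReduced_cons_cons.2 ⟨c, hr⟩,
          Z.walk_cons_eq_some.2 ⟨g1, k, h1, hw, rfl⟩⟩
      · have e : l' = (l.1, !l.2) := by
          obtain ⟨a, b⟩ := l
          obtain ⟨a', b'⟩ := l'
          simp only [Classical.not_imp] at c
          obtain ⟨rfl, c⟩ := c
          cases b <;> cases b' <;> simp_all
        obtain ⟨g2, k', h3, h4, rfl⟩ := Z.walk_cons_eq_some.1 hw
        rw [e, Z.symm' h1] at h3
        obtain rfl := Option.some.inj h3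
        refine ⟨w1, List.IsChain.tail hr, ?_⟩
        rw [inv_smul_smul] at h4
        rw [h4]
        simp

theorem walk_inv (Z : PF 2 Γ X) {w : List Lt2} {b : X} {g : Γ} (h : Z.walk w b = some g) :
    ∃ w', Z.walk w' (g • b) = some g⁻¹ := by
  induction w generalizing b g with
  | nil =>
    obtain rfl := Option.some.inj h
    exact ⟨[], by simp⟩
  | cons l w ih =>
    obtain ⟨g1, k, h1, h2, rfl⟩ := Z.walk_cons_eq_some.1 h
    obtain ⟨w', hw⟩ := ih h2
    refine ⟨w' ++ [(l.1, !l.2)], Z.walk_append_eq_some.2 ⟨k⁻¹, g1⁻¹, by rwa [mul_smul], ?_, by group⟩⟩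
    refine Z.walk_cons_eq_some.2 ⟨g1⁻¹, 1, ?_, rfl, by simp⟩
    rw [mul_smul, inv_smul_smul]
    exact Z.symm' h1

theorem walk_take (Z : PF 2 Γ X) {w : List Lt2} {b : X} {g : Γ} (h : Z.walk w b = some g)
    (i : ℕ) : ∃ g', Z.walk (w.take i) b = some g' := by
  rw [← List.take_append_drop i w] at h
  obtain ⟨g', -, h1, -⟩ := Z.walk_append_eq_some.1 h
  exact ⟨g', h1⟩

variable {δ : Γ → X → W G} {Z : PF 2 Γ X}

theorem pt_eq {υ : W G × X} {w : List Lt2} {g : Γ} (h : Z.walk w υ.2 = some g) :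
    pt δ Z υ w = υ.1 * δ g υ.2 := by
  unfold pt
  rw [h]
  rfl

theorem pt_mem {υ : W G × X} {w : List Lt2} {g : Γ} (h : Z.walk w υ.2 = some g) :
    pt δ Z υ w ∈ Tree δ Z υ := ⟨w, g, h, pt_eq h⟩

theorem self_mem (hδ : Coc δ) (υ : W G × X) : υ.1 ∈ Tree δ Z υ :=
  ⟨[], 1, rfl, by rw [hδ.one, mul_one]⟩

theorem tree_sub (hδ : Coc δ) {υ : W G × X} {w : List Lt2} {g : Γ} (h : Z.walk w υ.2 = some g) :
    Tree δ Z (υ.1 * δ g υ.2, g • υ.2) ⊆ Tree δ Z υ := by
  rintro _ ⟨w', g', h', rfl⟩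
  exact ⟨w ++ w', g' * g, Z.walk_append_eq_some.2 ⟨g, g', h, h', rfl⟩, by rw [hδ.mul, mul_assoc]⟩

theorem tree_eq (hδ : Coc δ) {υ : W G × X} {w : List Lt2} {g : Γ} (h : Z.walk w υ.2 = some g) :
    Tree δ Z (υ.1 * δ g υ.2, g • υ.2) = Tree δ Z υ := by
  refine Set.Subset.antisymm (tree_sub hδ h) ?_
  obtain ⟨w', hw⟩ := walk_inv Z h
  have := tree_sub hδ (υ := (υ.1 * δ g υ.2, g • υ.2)) hw
  simp only [inv_smul_smul] at this
  rwa [mul_assoc, ← hδ.mul, inv_mul_cancel, hδ.one, mul_one] at this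

theorem tree_smul (c a : W G) (b : X) : Tree δ Z (c * a, b) = c • Tree δ Z (a, b) := by
  ext α
  constructor
  · rintro ⟨w, g, h, rfl⟩
    exact ⟨a * δ g b, ⟨w, g, h, rfl⟩, by simp [mul_assoc]⟩
  · rintro ⟨_, ⟨w, g, h, rfl⟩, rfl⟩
    exact ⟨w, g, h, by simp [mul_assoc]⟩

/-- the hull of a tree stays within bounded distance of the tree -/
theorem hull [Finite S] (hC : LocStmt) {L s g ν : ℕ} (hδ : Coc δ) (hs : 1 ≤ s) (hsg : s ≤ g)
    (hν : 3 ≤ ν) (hZ : ZProg δ Z L s g ν) : ∃ M : ℕ, ∀ (υ : W G × X) (p : W G),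
      (∀ k ∈ sep υ.1 p, k ∈ WH (Tree δ Z υ)) → ∃ a ∈ Tree δ Z υ, d a p ≤ M := by
  classical
  let U : Finset (Hyp G) := (ball_finite (1 : W G) (2 * g * L)).toFinset.biUnion fun y => sep 1 y
  refine ⟨U.card, fun υ p hp => ?_⟩
  have hex : ∃ n, ∃ a ∈ Tree δ Z υ, d p a = n := ⟨_, υ.1, self_mem hδ υ, rfl⟩
  obtain ⟨a, ha, e⟩ := Nat.find_spec hex
  have hmin : ∀ y ∈ Tree δ Z υ, d p a ≤ d p y := fun y hy => by
    rw [e]; exact Nat.find_min' hex ⟨y, hy, rfl⟩
  refine ⟨a, ha, ?_⟩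
  have hU : ∀ y, d a y ≤ 2 * g * L → ∀ h ∈ sep a y, a⁻¹ • h ∈ U := by
    intro y hy h hh
    refine Finset.mem_biUnion.2 ⟨a⁻¹ * y, ?_, ?_⟩
    · rw [Set.Finite.mem_toFinset]
      show d 1 (a⁻¹ * y) ≤ 2 * g * L
      rwa [← d_smul a, mul_one, mul_inv_cancel_left]
    · rw [← smul_mem_sep a⁻¹] at hh
      simpa using hh
  have key : ∀ h ∈ sep a p, a⁻¹ • h ∈ U := by
    intro h hh
    have hW : h ∈ WH (Tree δ Z υ) := by
      rw [mem_sep_trans a υ.1 p] at hh
      rcases hh with hh | hh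
      · exact ⟨a, ha, υ.1, self_mem hδ υ, hh.1⟩
      · exact hp h hh.1
    have hy : ∃ y ∈ Tree δ Z υ, h ∈ sep a y := by
      obtain ⟨y, hy, y', hy', hyy⟩ := hW
      rw [mem_sep_trans y a y', sep_comm y a] at hyy
      rcases hyy with c | c
      · exact ⟨y, hy, c.1⟩
      · exact ⟨y', hy', c.1⟩
    obtain ⟨y, hy, hay⟩ := hy
    obtain ⟨w0, g0, hw0, ea⟩ := ha
    have eT := tree_eq hδ hw0
    rw [← ea] at eT
    rw [← eT] at hy hmin
    obtain ⟨w1, g1, hw1, ey⟩ := hy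
    obtain ⟨w, hr, hw⟩ := walk_reduce Z hw1
    have hP := hZ (a, g0 • υ.2) w hr (by rw [hw]; rfl)
    set x : ℕ → W G := fun i => pt δ Z (a, g0 • υ.2) (w.take i) with hx
    have x0 : x 0 = a := by
      simp only [hx, List.take_zero]
      rw [pt_eq (g := 1) rfl, hδ.one, mul_one]
    have xn : x w.length = y := by
      simp only [hx, List.take_length]
      rw [pt_eq hw, ey]
    have xT : ∀ i, x i ∈ Tree δ Z (a, g0 • υ.2) := fun i => by
      obtain ⟨g', hg'⟩ := walk_take Z hw i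
      exact pt_mem hg'
    rw [← x0, ← xn] at hay
    obtain ⟨m, -, m2, m3⟩ := LocAux.exists_step_of_sep x (Nat.zero_le _) hay
    have hm : m < 2 * g := by
      by_contra hc
      have := closer hC hs hsg hν hP m2 (by omega) (p := p) (by rw [x0]; exact hh) m3
      rw [x0] at this
      exact absurd (hmin _ (xT g)) (by omega)
    have d1 := d_le_of_step hP.step m2.le
    have d2 := d_le_of_step hP.step (m := m + 1) m2
    have d3 : m * L ≤ 2 * g * L := Nat.mul_le_mul_right L hm.le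
    have d4 : (m + 1) * L ≤ 2 * g * L := Nat.mul_le_mul_right L hm
    rw [x0] at d1 d2
    rw [mem_sep_trans (x m) a, sep_comm (x m) a] at m3
    rcases m3 with c | c
    · exact hU _ (d1.trans d3) h c.1
    · exact hU _ (d2.trans d4) h c.1
  exact Finset.card_le_card_of_injOn (fun h => a⁻¹ • h) key
    (fun h _ h' _ e => smul_left_cancel a⁻¹ e)

/-- faithfulness for the tree through `(1, b)` -/
theorem faith_one [Finite S] [Finite X] (hC : LocStmt) {L s g ν : ℕ} (hδ : Coc δ) (hs : 1 ≤ s)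
    (hsg : s ≤ g) (hν : 3 ≤ ν) (hZ : ZProg δ Z L s g ν) (R : ℕ) (b : X) :
    ∃ N : Subgroup (W G), N.Normal ∧ N.FiniteIndex ∧
      ∀ (t u : Hyp G) (y y' n : W G), H6.Br t u y y' → d y y' ≤ R → n ∈ N →
        t ∈ WH (Tree δ Z (1, b)) → n • u ∈ WH (Tree δ Z (1, b)) →
        ∃ c : W G, c • t ∈ WH (Tree δ Z (1, b)) ∧ c • u ∈ WH (Tree δ Z (1, b)) := by
  classical
  obtain ⟨M, hM⟩ := hull hC hδ hs hsg hν hZ
  have hrep : ∀ b' : X, ∃ α : W G, (∃ α', Tree δ Z (α', b') = Tree δ Z (1, b)) →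
      Tree δ Z (α, b') = Tree δ Z (1, b) := by
    intro b'
    by_cases c : ∃ α', Tree δ Z (α', b') = Tree δ Z (1, b)
    · exact ⟨c.choose, fun _ => c.choose_spec⟩
    · exact ⟨1, fun h => absurd h c⟩
  choose rep hrep using hrep
  refine H6.faith_of_hull (A := WH (Tree δ Z (1, b)))
    (Ω := {p | ∀ k ∈ sep 1 p, k ∈ WH (Tree δ Z (1, b))})
    (F := ⋃ b' : X, {q | d (rep b') q ≤ M}) ?_ ?_ ?_
    (Set.finite_iUnion fun b' => ball_finite _ _) ?_ R
  · intro p hp q hq k hk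
    rw [mem_sep_trans 1 p q] at hk
    rcases hk with hk | hk
    · exact hp k hk.1
    · exact hq k hk.1
  · intro p hp q hq k hk
    rw [mem_sep_trans p 1 q, sep_comm p 1] at hk
    rcases hk with hk | hk
    · exact hp k hk.1
    · exact hq k hk.1
  · rintro t ⟨a, ha, a', ha', ht⟩
    obtain ⟨z, hz, hcz, -, -⟩ := exists_cross_pt ht
    refine ⟨z, fun k hk => ?_, hcz⟩
    rw [mem_sep_trans 1 a z] at hk
    rcases hk with hk | hk
    · exact ⟨1, self_mem hδ (1, b), a, ha, hk.1⟩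
    · exact ⟨a, ha, a', ha', hz hk.1⟩
  · intro p hp
    obtain ⟨a, ⟨w, g0, hw, ea⟩, hd⟩ := hM (1, b) p hp
    have eT := tree_eq hδ hw
    rw [← ea] at eT
    have eR := hrep _ ⟨a, eT⟩
    set α := rep (g0 • b) with hα
    have eS : (a * α⁻¹) • Tree δ Z (1, b) = Tree δ Z (1, b) := by
      conv_lhs => rw [← eR]
      rw [← tree_smul, inv_mul_cancel_right]
      exact eT
    refine ⟨a * α⁻¹, fun k => ?_, Set.mem_iUnion.2 ⟨g0 • b, ?_⟩⟩
    · conv_lhs => rw [← eS]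
      exact smul_mem_WH _
    · show d α ((a * α⁻¹)⁻¹ * p) ≤ M
      rwa [← d_smul (a * α⁻¹), mul_inv_cancel_left, inv_mul_cancel_right]

end FaithAux

theorem faith (hL : LevelsStmt) (hC : LocStmt) : FaithStmt := by
  intro S _ G Γ X _ _ _ δ Z L s g ν hδ hs hsg hν hZ R
  have _ := hL
  choose N hN1 hN2 hN3 using FaithAux.faith_one hC hδ hs hsg (by omega) hZ R
  refine ⟨⨅ b, N b, ⟨Subgroup.normal_iInf_normal hN1, Subgroup.finiteIndex_iInf hN2⟩, ?_⟩
  rintro t u ⟨z, hz, z', hz', hd⟩ hne hnc ⟨c, b⟩ n hn ht hu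
  obtain ⟨y, y', hb⟩ := H6.exists_br (t := t) (u := u) (by
    rintro (e | e)
    · exact hne e.symm
    · exact hnc e)
  have eT : Tree δ Z (c, b) = c • Tree δ Z (1, b) := by rw [← FaithAux.tree_smul, mul_one]
  rw [eT] at ht hu
  have hn' : c⁻¹ * n * c⁻¹⁻¹ ∈ N b := (hN1 b).conj_mem _ (Subgroup.mem_iInf.1 hn b) _
  obtain ⟨e, h1, h2⟩ := hN3 b (c⁻¹ • t) (c⁻¹ • u) _ _ _ (hb.smul c⁻¹)
    (by rw [d_smul]; exact (hb.d_le hz hz').trans hd) hn'
    (by rw [← smul_mem_WH c]; simpa using ht)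
    (by rw [← smul_mem_WH c]; simpa [mul_smul] using hu)
  refine ⟨((e * c⁻¹)⁻¹ * 1, b), ?_, ?_⟩
  · rw [FaithAux.tree_smul, ← smul_mem_WH (e * c⁻¹), smul_inv_smul, mul_smul]
    exact h1
  · rw [FaithAux.tree_smul, ← smul_mem_WH (e * c⁻¹), smul_inv_smul, mul_smul]
    exact h2

end Pool.Agent.MP_c34dea_an.H23
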