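import Pool.Agent.MP_c34dea_an.H23.ThinA

set_option autoImplicit false

open scoped Pointwise ENNReal

namespace Pool.Agent.MP_c34dea_an.H23.Thin

open Pool.Agent.MP_c34dea_an.H66

section Sums

variable {A Y : Type} {step : Y → A → Y} {x : ℝ≥0∞}

open Classical in
/-- the weighted number of words with a property -/
noncomputable def sm (x : ℝ≥0∞) (P : List A → Prop) : ℝ≥0∞ :=
  ∑' γ : List A, if P γ then x ^ γ.length else 0

theorem Gr_eq (y : Y) (P : Y → Prop) : Gr step x y P = sm x (fun γ => P (run step y γ)) := rfl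

theorem sm_cover {ι : Type} {P : List A → Prop} {Q : ι → List A → Prop}
    (h : ∀ γ, P γ → ∃ i, Q i γ) : sm x P ≤ ∑' i, sm x (Q i) := by
  classical
  unfold sm
  rw [ENNReal.tsum_comm]
  refine ENNReal.tsum_le_tsum fun γ => ?_
  by_cases c : P γ
  · obtain ⟨i, hi⟩ := h γ c
    refine le_trans ?_ (ENNReal.le_tsum i)
    rw [if_pos c, if_pos hi]
  · rw [if_neg c]; exact zero_le

theorem sm_false {P : List A → Prop} (h : ∀ γ, ¬ P γ) : sm x P = 0 := by
  unfold sm
  simp [h]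

theorem sm_split {P Q : List A → Prop} {R : List A → List A → Prop} {C : ℝ≥0∞}
    (h : ∀ γ, P γ → ∃ γ1 γ2, γ = γ1 ++ γ2 ∧ Q γ1 ∧ R γ1 γ2)
    (hR : ∀ γ1, Q γ1 → sm x (R γ1) ≤ C) : sm x P ≤ sm x Q * C := by
  classical
  refine le_trans (tsum_split (F' := fun γ1 γ2 => (if Q γ1 then x ^ γ1.length else 0) *
    (if R γ1 γ2 then x ^ γ2.length else 0)) fun γ => ?_) ?_
  · by_cases c : P γ
    · obtain ⟨γ1, γ2, e, h1, h2⟩ := h γ c
      refine Or.inr ⟨γ1, γ2, e, ?_⟩
      rw [if_pos c, if_pos h1, if_pos h2, e, List.length_append, pow_add]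
    · exact Or.inl (if_neg c)
  · unfold sm
    rw [← ENNReal.tsum_mul_right]
    refine ENNReal.tsum_le_tsum fun γ1 => ?_
    rw [ENNReal.tsum_mul_left]
    by_cases c : Q γ1
    · exact mul_le_mul_right (hR γ1 c) _
    · rw [if_neg c, zero_mul, zero_mul]

theorem sm_fin {ι : Type} {P : List A → Prop} {Q : ι → List A → Prop} (F : Finset ι) {C : ℝ≥0∞}
    (h : ∀ γ, P γ → ∃ i ∈ F, Q i γ) (hQ : ∀ i ∈ F, sm x (Q i) ≤ C) : sm x P ≤ F.card * C := by
  refine le_trans (sm_cover (ι := F) (Q := fun i => Q i.1) fun γ c => ?_) ?_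
  · obtain ⟨i, hi, h'⟩ := h γ c
    exact ⟨⟨i, hi⟩, h'⟩
  · rw [Finset.tsum_subtype F (fun i => sm x (Q i)), ← nsmul_eq_mul]
    exact Finset.sum_le_card_nsmul _ _ _ hQ

theorem sm_or {P Q R : List A → Prop} (h : ∀ γ, P γ → Q γ ∨ R γ) :
    sm x P ≤ sm x Q + sm x R := by
  refine le_trans (sm_cover (ι := Bool) (Q := fun b => cond b Q R) fun γ c => ?_) ?_
  · rcases h γ c with a | a
    · exact ⟨true, a⟩
    · exact ⟨false, a⟩
  · rw [tsum_bool, add_comm]
    rfl

end Sums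

variable {S : Type} {G : SimpleGraph S} {Γ X : Type} [Group Γ] [MulAction Γ X]
  {A Y : Type}

/-- words that follow the tree for `q` long steps -/
def Ev (δ : Γ → X → W G) (Z : PF 2 Γ X) (step : Y → A → Y) (pos : Y → W G) (k u3 u4 : ℕ) :
    ℕ → W G × X → Y → List A → Prop
  | 0, _, ζ, γ => D TB0 (pos ζ) (pos (run step ζ γ)) ≤ u4
  | q + 1, υ, ζ, γ => ∃ w, (w.length = k ∧ FreeGroup.IsReduced w ∧ (Z.walk w υ.2).isSome) ∧
      ∃ γ1 γ2, γ = γ1 ++ γ2 ∧ D TB0 (pos (run step ζ γ1)) (pt δ Z υ w) ≤ u3 ∧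
        Ev δ Z step pos k u3 u4 q (nx δ Z υ w) (run step ζ γ1) γ2

variable {δ : Γ → X → W G} {Z : PF 2 Γ X} {step : Y → A → Y} {pos : Y → W G} {x : ℝ≥0∞}

open Classical in
theorem ev_le {k u3 u4 : ℕ} {C : ℝ≥0∞}
    (hC : ∀ y, Gr step x y (fun y' => D TB0 (pos y) (pos y') ≤ u4) ≤ C)
    (hF : ∀ υ : W G × X, ∑' w : List Lt2,
      (if w.length = k ∧ FreeGroup.IsReduced w ∧ (Z.walk w υ.2).isSome then
        Fh step pos x u3 υ.1 (pt δ Z υ w) else 0) ≤ 1 / 2) (q : ℕ) :
    ∀ (υ : W G × X) (ζ : Y), D TB0 (pos ζ) υ.1 ≤ u3 →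
      sm x (Ev δ Z step pos k u3 u4 q υ ζ) ≤ (2⁻¹) ^ q * C := by
  induction q with
  | zero =>
    intro υ ζ _
    rw [pow_zero, one_mul]
    exact hC ζ
  | succ q ih =>
    intro υ ζ hζ
    refine le_trans (sm_cover (ι := List Lt2) (Q := fun w γ =>
      (w.length = k ∧ FreeGroup.IsReduced w ∧ (Z.walk w υ.2).isSome) ∧
      ∃ γ1 γ2, γ = γ1 ++ γ2 ∧ D TB0 (pos (run step ζ γ1)) (pt δ Z υ w) ≤ u3 ∧
        Ev δ Z step pos k u3 u4 q (nx δ Z υ w) (run step ζ γ1) γ2) fun γ c => c) ?_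
    have h1 := mul_le_mul_left (hF υ) ((2⁻¹) ^ q * C)
    rw [← ENNReal.tsum_mul_right] at h1
    refine le_trans (ENNReal.tsum_le_tsum fun w => ?_) (h1.trans (le_of_eq ?_))
    · by_cases c : w.length = k ∧ FreeGroup.IsReduced w ∧ (Z.walk w υ.2).isSome
      · rw [if_pos c]
        refine le_trans (sm_split
          (Q := fun γ1 => D TB0 (pos (run step ζ γ1)) (pt δ Z υ w) ≤ u3)
          (R := fun γ1 γ2 => Ev δ Z step pos k u3 u4 q (nx δ Z υ w) (run step ζ γ1) γ2)
          (fun γ h => h.2) fun γ1 h => ih _ _ h) (mul_le_mul_left ?_ _)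
        exact le_iSup₂ (f := fun (ζ : Y) (_ : D TB0 (pos ζ) υ.1 ≤ u3) =>
          Gr step x ζ (fun ζ' => D TB0 (pos ζ') (pt δ Z υ w) ≤ u3)) ζ hζ
      · rw [sm_false fun γ h => c h.1]
        exact zero_le
    · rw [pow_succ', one_div, mul_assoc]

theorem ev_ex (hδ : Coc δ) (hE : Edge step pos) {L g ν k : ℕ} (hg : 1 ≤ g) (hk : 2 * g ≤ k)
    {υ : W G × X} {w : List Lt2} (hr : FreeGroup.IsReduced w) (hs : (Z.walk w υ.2).isSome)
    (h : Lw (fun i => pt δ Z υ (w.take i)) w.length L g ν) {z' : W G}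
    (hz : D TB0 z' (pt δ Z υ (w.take w.length)) ≤ L + 1) (m : ℕ) :
    ∀ j ζ γ, j ≤ w.length → w.length - j = m → pos (run step ζ γ) = z' →
      D TB0 (pos ζ) (pt δ Z υ (w.take j)) ≤ g * L + 1 →
      (∀ j' K, j + 2 * g ≤ j' → j' + g ≤ w.length →
        Loc (fun i => pt δ Z υ (w.take i)) w.length g j' K →
        K ∉ sep (pt δ Z υ (w.take 0)) (pos ζ)) →
      ∃ q, Ev δ Z step pos k (g * L + 1) (g * L + 1 + (k + 2 * g) * L + (L + 1)) q
        (nx δ Z υ (w.take j)) ζ γ := by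
  induction m using Nat.strong_induction_on with
  | _ m ih =>
    intro j ζ γ hj hm he hD hn
    by_cases c : j + k + 2 * g ≤ w.length
    · obtain ⟨K, hK⟩ := h.ex (j := j + k) (by omega)
      have a1 := hn (j + k) K (by omega) (by omega) hK
      have a2 := h.stop hK c hz
      have a3 : K ∈ sep (pos ζ) (pos (run step ζ γ)) := by
        rw [he]
        simp only [mem_sep_sd] at *
        grind
      obtain ⟨γ1, γ2, e, b1, -⟩ := hE.exists_cut a3
      have b2 := h.close hK (by omega) b1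
      obtain ⟨q, hq⟩ := ih (w.length - (j + k)) (by omega) (j + k) (run step ζ γ1) γ2 (by omega)
        rfl (by rw [← run_append, ← e, he]) b2 fun j' K' c1 c2 c3 => h.near hK c3 c1 c2 b1
      obtain ⟨d1, d2⟩ := nx_append hδ (υ := υ) (w1 := w.take j) (w2 := (w.drop j).take k)
        (by rw [← List.take_add]; exact isSome_take hs _)
      rw [← List.take_add] at d2
      refine ⟨q + 1, (w.drop j).take k, ⟨?_, List.IsChain.take (List.IsChain.drop hr j) k, d1⟩,
        γ1, γ2, e, ?_, ?_⟩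
      · rw [List.length_take, List.length_drop]
        omega
      · have : pt δ Z (nx δ Z υ (w.take j)) ((w.drop j).take k) = pt δ Z υ (w.take (j + k)) :=
          congrArg Prod.fst d2
        rw [this]
        exact b2
      · rw [d2]
        exact hq
    · refine ⟨0, ?_⟩
      show D TB0 (pos ζ) (pos (run step ζ γ)) ≤ _
      rw [he]
      have a1 := h.d_le w.length hj le_rfl
      have a2 : (w.length - j) * L ≤ (k + 2 * g) * L := Nat.mul_le_mul_right _ (by omega)
      have a3 := D_triangle (R := TB0) (pos ζ) (pt δ Z υ (w.take j)) z'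
      have a4 := D_triangle (R := TB0) (pt δ Z υ (w.take j)) (pt δ Z υ (w.take w.length)) z'
      have a5 := D_le_d (R := TB0) (pt δ Z υ (w.take j)) (pt δ Z υ (w.take w.length))
      rw [D_comm] at hz
      omega

theorem start (hδ : Coc δ) (hE : Edge step pos) {L g ν k : ℕ} (hg : 1 ≤ g) (hk : 2 * g ≤ k)
    {υ : W G × X} {w : List Lt2} (hr : FreeGroup.IsReduced w) (hs : (Z.walk w υ.2).isSome)
    (h : Lw (fun i => pt δ Z υ (w.take i)) w.length L g ν) {y : Y} {γ : List A}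
    (hy : D TB0 (pos y) (pt δ Z υ (w.take 0)) ≤ L + 1)
    (hz : D TB0 (pos (run step y γ)) (pt δ Z υ (w.take w.length)) ≤ L + 1) :
    D TB0 (pos y) (pos (run step y γ)) ≤ 5 * (g * L) + 2 * L + 2 ∨
    ∃ γ1 γ', γ = γ1 ++ γ' ∧ D TB0 (pos y) (pos (run step y γ1)) ≤ 5 * (g * L) + 2 * L + 2 ∧
      ∃ γ2 γ3, γ' = γ2 ++ γ3 ∧ D TB0 (pos (run step y γ1)) (pos (run step (run step y γ1) γ2)) ≤
        5 * (g * L) + 2 * L + 2 ∧ ∃ υ' : W G × X,
          Cand (2 * g * L) (pos (run step y γ1)) (pos (run step (run step y γ1) γ2)) υ'.1 ∧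
          D TB0 (pos (run step (run step y γ1) γ2)) υ'.1 ≤ g * L + 1 ∧
          ∃ q, Ev δ Z step pos k (g * L + 1) (g * L + 1 + (k + 2 * g) * L + (L + 1)) q υ'
            (run step (run step y γ1) γ2) γ3 := by
  by_cases c : 5 * g ≤ w.length
  · right
    obtain ⟨K1, h1⟩ := h.ex (j := g) (by omega)
    obtain ⟨K3, h3⟩ := h.ex (j := 3 * g) (by omega)
    have a1 := h.start h1 le_rfl (by omega) hy
    have a2 := h.stop h1 (by omega) hz
    have a3 : K1 ∈ sep (pos y) (pos (run step y γ)) := by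
      simp only [mem_sep_sd] at *
      grind
    obtain ⟨γ1, γ', e1, b1, -⟩ := hE.exists_cut a3
    have e1' : run step y γ = run step (run step y γ1) γ' := by rw [e1, run_append]
    have a4 := h.near h1 h3 (by omega) (by omega) b1
    have a5 := h.stop h3 (by omega) hz
    have a6 : K3 ∈ sep (pos (run step y γ1)) (pos (run step (run step y γ1) γ')) := by
      rw [← e1']
      clear a1 a2 a3
      simp only [mem_sep_sd] at *
      grind
    obtain ⟨γ2, γ3, e2, b2, -⟩ := hE.exists_cut a6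
    have c1 := h.close h1 (by omega) b1
    have c3 := h.close h3 (by omega) b2
    refine ⟨γ1, γ', e1, ?_, γ2, γ3, e2, ?_, nx δ Z υ (w.take (3 * g)), ?_, c3, ?_⟩
    · have d1 := h.d_le (i := 0) g (by omega) (by omega)
      have d2 := D_le_d (R := TB0) (pt δ Z υ (w.take 0)) (pt δ Z υ (w.take g))
      have d3 := D_triangle (R := TB0) (pos y) (pt δ Z υ (w.take 0)) (pos (run step y γ1))
      have d4 := D_triangle (R := TB0) (pt δ Z υ (w.take 0)) (pt δ Z υ (w.take g))
        (pos (run step y γ1))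
      rw [D_comm] at c1
      rw [Nat.sub_zero] at d1
      omega
    · have d1 := h.d_le (i := g) (3 * g) (by omega) (by omega)
      have d2 := D_le_d (R := TB0) (pt δ Z υ (w.take g)) (pt δ Z υ (w.take (3 * g)))
      have d3 := D_triangle (R := TB0) (pos (run step y γ1)) (pt δ Z υ (w.take g))
        (pos (run step (run step y γ1) γ2))
      have d4 := D_triangle (R := TB0) (pt δ Z υ (w.take g)) (pt δ Z υ (w.take (3 * g)))
        (pos (run step (run step y γ1) γ2))
      rw [D_comm] at c3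
      rw [show 3 * g - g = 2 * g by omega, mul_assoc] at d1
      omega
    · exact ⟨K1, K3, b1, b2, h.tb h1 h3 (by omega) (by omega),
        h.dist_car h1 (by omega) (by omega) (by omega) (by omega),
        h.dist_car h3 (by omega) (by omega) (by omega) (by omega)⟩
    · exact ev_ex hδ hE hg hk hr hs h hz _ (3 * g) _ γ3 (by omega) rfl
        (by rw [← run_append, ← e2, ← e1']) c3 fun j' K' x1 x2 x3 => h.near h3 x3 x1 x2 b2
  · left
    have d1 := h.d_le (i := 0) w.length (by omega) le_rfl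
    have d0 : (w.length - 0) * L ≤ 5 * g * L := Nat.mul_le_mul_right _ (by omega)
    have d2 := D_le_d (R := TB0) (pt δ Z υ (w.take 0)) (pt δ Z υ (w.take w.length))
    have d3 := D_triangle (R := TB0) (pos y) (pt δ Z υ (w.take 0)) (pos (run step y γ))
    have d4 := D_triangle (R := TB0) (pt δ Z υ (w.take 0)) (pt δ Z υ (w.take w.length))
      (pos (run step y γ))
    rw [D_comm] at hz
    rw [mul_assoc] at d0
    omega

end Pool.Agent.MP_c34dea_an.H23.Thin

namespace Pool.Agent.MP_c34dea_an.H23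

open Pool.Agent.MP_c34dea_an.H66 Thin

theorem thin (hC : LocStmt) : ThinStmt := by
  classical
  intro S _ G Γ X _ _ _ δ Z L s g ν k A _ Y step pos x hδ hs hsg hν hk hZ hE hG hF
  have := Fintype.ofFinite X
  obtain ⟨C4, hC4, h4⟩ := hG.gr_tb (g * L + 1 + (k + 2 * g) * L + (L + 1))
  obtain ⟨C5, hC5, h5⟩ := hG.gr_tb (5 * (g * L) + 2 * L + 2)
  obtain ⟨M, hM⟩ := cand_card (G := G) (2 * g * L)
  refine ⟨C5 + C5 * (C5 * (((M * Fintype.card X : ℕ) : ℝ≥0∞) * (2 * C4))), ?_, fun y => ?_⟩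
  · exact ENNReal.add_ne_top.2 ⟨hC5, ENNReal.mul_ne_top hC5 (ENNReal.mul_ne_top hC5
      (ENNReal.mul_ne_top (ENNReal.natCast_ne_top _)
        (ENNReal.mul_ne_top ENNReal.ofNat_ne_top hC4)))⟩
  rw [Gr_eq]
  refine le_trans (sm_or fun γ h => ?_) (add_le_add (h5 y) (le_trans (sm_split
    (Q := fun γ1 => D TB0 (pos y) (pos (run step y γ1)) ≤ 5 * (g * L) + 2 * L + 2)
    (R := fun γ1 γ' => ∃ γ2 γ3, γ' = γ2 ++ γ3 ∧
      D TB0 (pos (run step y γ1)) (pos (run step (run step y γ1) γ2)) ≤ 5 * (g * L) + 2 * L + 2 ∧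
      ∃ υ' : W G × X,
        Cand (2 * g * L) (pos (run step y γ1)) (pos (run step (run step y γ1) γ2)) υ'.1 ∧
        D TB0 (pos (run step (run step y γ1) γ2)) υ'.1 ≤ g * L + 1 ∧
        ∃ q, Ev δ Z step pos k (g * L + 1) (g * L + 1 + (k + 2 * g) * L + (L + 1)) q υ'
          (run step (run step y γ1) γ2) γ3)
    (fun γ h => h) fun γ1 _ => ?_) (mul_le_mul_left (h5 y) _)))
  · obtain ⟨t, u, h1, h2, h3⟩ := h
    obtain ⟨υ, w, a1, a2, a3, a4⟩ := exists_path hδ hZ h1 h2 h3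
    have P := hZ υ w a1 a2
    exact start hδ hE (hs.trans hsg) hk a1 a2
      ⟨P.step, (hC S G _ _ L s g ν hs hsg (by omega) P).2, hν⟩ a3 a4
  · refine le_trans (sm_split (fun γ h => h) fun γ2 _ => ?_)
      (mul_le_mul_left (h5 (run step y γ1)) _)
    obtain ⟨F, f1, f2⟩ := hM (pos (run step y γ1)) (pos (run step (run step y γ1) γ2))
    refine le_trans (sm_fin (C := 2 * C4) (F ×ˢ (Finset.univ : Finset X))
      (Q := fun υ' γ3 => D TB0 (pos (run step (run step y γ1) γ2)) υ'.1 ≤ g * L + 1 ∧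
        ∃ q, Ev δ Z step pos k (g * L + 1) (g * L + 1 + (k + 2 * g) * L + (L + 1)) q υ'
          (run step (run step y γ1) γ2) γ3) (fun γ3 h => ?_) fun υ' _ => ?_) ?_
    · obtain ⟨υ', a1, a2⟩ := h
      exact ⟨υ', Finset.mem_product.2 ⟨f2 _ a1, Finset.mem_univ _⟩, a2⟩
    · by_cases c : D TB0 (pos (run step (run step y γ1) γ2)) υ'.1 ≤ g * L + 1
      · refine le_trans (sm_cover fun γ h => h.2)
          (le_trans (ENNReal.tsum_le_tsum fun q => ev_le h4 hF q υ' _ c) (le_of_eq ?_))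
        rw [ENNReal.tsum_mul_right, ENNReal.tsum_geometric, ENNReal.one_sub_inv_two, inv_inv]
      · rw [sm_false fun γ h => c h.1]
        exact zero_le
    · refine mul_le_mul_left ?_ _
      rw [Finset.card_product, Finset.card_univ]
      exact_mod_cast Nat.mul_le_mul_right _ f1

end Pool.Agent.MP_c34dea_an.H23
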