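import Mathlib

set_option autoImplicit false

namespace Pool.Agent.MP_c34dea_an.H23

open FreeGroup

theorem pow_mul_startsWith (k : ℕ) (v : FreeGroup (Fin 2)) (hv : v ∉ startsWith ((0 : Fin 2), false)) :
    (of (0 : Fin 2)) ^ (k + 1) * v ∈ startsWith ((0 : Fin 2), true) := by
  induction k with
  | zero =>
    have := startsWith_mk_mul (w := ((0 : Fin 2), true)) v (by simpa using hv)
    simpa [of] using this
  | succ k ih =>
    have h2 : (of (0 : Fin 2)) ^ (k + 1) * v ∉ startsWith ((0 : Fin 2), false) := by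
      intro h
      simp only [startsWith, Set.mem_ofPred_eq] at h ih
      rw [ih] at h
      simp at h
    have := startsWith_mk_mul (w := ((0 : Fin 2), true)) _ (by simpa using h2)
    rw [pow_succ' _ (k + 1), mul_assoc]
    simpa [of] using this

theorem startsWith_sep {i j : ℕ} {b c : Bool} {w : FreeGroup (Fin 2)}
    (hi : ((of (0 : Fin 2)) ^ i)⁻¹ * w ∈ startsWith ((1 : Fin 2), b))
    (hj : ((of (0 : Fin 2)) ^ j)⁻¹ * w ∈ startsWith ((1 : Fin 2), c)) : i = j ∧ b = c := by
  have key : ∀ {i j : ℕ} {b c : Bool}, ((of (0 : Fin 2)) ^ i)⁻¹ * w ∈ startsWith ((1 : Fin 2), b) →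
      ((of (0 : Fin 2)) ^ j)⁻¹ * w ∈ startsWith ((1 : Fin 2), c) → ¬ i < j := by
    intro i j b c hi hj hij
    obtain ⟨k, rfl⟩ := Nat.exists_eq_add_of_lt hij
    have h1 : ((of (0 : Fin 2)) ^ (i + k + 1))⁻¹ * w ∉ startsWith ((0 : Fin 2), false) := by
      intro h
      simp only [startsWith, Set.mem_ofPred_eq] at h hj
      rw [hj] at h
      simp at h
    have h2 := pow_mul_startsWith k _ h1
    have h3 : (of (0 : Fin 2)) ^ (k + 1) * (((of (0 : Fin 2)) ^ (i + k + 1))⁻¹ * w)
        = ((of (0 : Fin 2)) ^ i)⁻¹ * w := by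
      rw [add_assoc, pow_add]; group
    rw [h3] at h2
    simp only [startsWith, Set.mem_ofPred_eq] at h2 hi
    rw [hi] at h2
    simp at h2
  have hij : i = j := le_antisymm (not_lt.1 (key hj hi)) (not_lt.1 (key hi hj))
  subst hij
  refine ⟨rfl, ?_⟩
  simp only [startsWith, Set.mem_ofPred_eq] at hi hj
  rw [hi] at hj
  simpa using hj

open scoped Pointwise in
theorem exists_injective_nat :
    ∃ f : FreeGroup ℕ →* FreeGroup (Fin 2), Function.Injective f := by
  refine ⟨FreeGroup.lift fun i : ℕ => (of (0 : Fin 2)) ^ i * of 1 * ((of (0 : Fin 2)) ^ i)⁻¹, ?_⟩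
  refine FreeGroup.injective_lift_of_ping_pong _
    (α := FreeGroup (Fin 2))
    (fun i => {w | ((of (0 : Fin 2)) ^ i)⁻¹ * w ∈ startsWith ((1 : Fin 2), true)})
    (fun i => {w | ((of (0 : Fin 2)) ^ i)⁻¹ * w ∈ startsWith ((1 : Fin 2), false)})
    ?_ ?_ ?_ ?_ ?_ ?_
  · intro i
    refine ⟨(of (0 : Fin 2)) ^ i * of 1, ?_⟩
    simp [startsWith, toWord_of]
  · intro i j hij
    exact Set.disjoint_left.2 fun w h1 h2 => hij (startsWith_sep h1 h2).1
  · intro i j hij
    exact Set.disjoint_left.2 fun w h1 h2 => hij (startsWith_sep h1 h2).1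
  · intro i j
    exact Set.disjoint_left.2 fun w h1 h2 => by simpa using (startsWith_sep h1 h2).2
  · rintro i _ ⟨w, hw, rfl⟩
    have := startsWith_mk_mul (w := ((1 : Fin 2), true)) (((of (0 : Fin 2)) ^ i)⁻¹ * w)
      (by simpa using hw)
    simp only [Set.mem_ofPred_eq, smul_eq_mul]
    convert this using 1
    change _ = of 1 * _
    group
  · rintro i _ ⟨w, hw, rfl⟩
    have := startsWith_mk_mul (w := ((1 : Fin 2), false)) (((of (0 : Fin 2)) ^ i)⁻¹ * w)
      (by simpa using hw)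
    simp only [Set.mem_ofPred_eq, smul_eq_mul, Pi.inv_apply]
    convert this using 1
    change _ = (of 1)⁻¹ * _
    group

theorem exists_injective_fin (r : ℕ) :
    ∃ f : FreeGroup (Fin r) →* FreeGroup (Fin 2), Function.Injective f := by
  obtain ⟨f, hf⟩ := exists_injective_nat
  exact ⟨f.comp (FreeGroup.map Fin.val), hf.comp (FreeGroup.map_injective Fin.val_injective)⟩

end Pool.Agent.MP_c34dea_an.H23
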