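import Pool.Agent.MP_c34dea_an.H23.NonFree
import Pool.Agent.MP_c34dea_an.H23.Embed

set_option autoImplicit false
open MeasureTheory
open scoped ENNReal

namespace Pool.Agent.MP_c34dea_an.H23

variable {Γ : Type} [Group Γ] {H : ℕ → Subgroup Γ} {X : Type} [MeasurableSpace X] [MulAction Γ X]
  {μ : Measure X}

theorem PF.size_add {r : ℕ} {Y : Type} [MulAction Γ Y] [Finite Y] (P : PF r Γ Y) :
    P.size + Nat.card {p : Y × (Fin r × Bool) // P.lab p.1 p.2 = none} = 2 * r * Nat.card Y := by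
  classical
  unfold PF.size
  have e : {p : Y × (Fin r × Bool) // P.lab p.1 p.2 = none} ≃
      {p : Y × (Fin r × Bool) // ¬ (P.lab p.1 p.2).isSome} :=
    Equiv.subtypeEquivRight fun p => by simp
  rw [Nat.card_congr e, ← Nat.card_sum, Nat.card_congr (Equiv.sumCompl _)]
  rw [Nat.card_prod, Nat.card_prod]
  simp only [Nat.card_eq_fintype_card, Fintype.card_fin, Fintype.card_bool]
  ring

namespace Sys

variable (S : Sys H X μ)

include S in
theorem no_label [Countable Γ] [IsProbabilityMeasure μ] (hH : Antitone H)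
    (hfi : ∀ n, (H n).FiniteIndex) (hG : TowerG H) : ∃ r, ∀ W : PF r Γ X,
    (∀ l v, MeasurableSet ((fun x => W.lab x l) ⁻¹' {v})) → (∀ l, μ {x | W.lab x l = none} = 0) →
    ¬ ∀ w x g, w ≠ [] → FreeGroup.IsReduced w → W.walk w x = some g → g • x ≠ x := by
  classical
  obtain ⟨r, ε, hε, hG⟩ := hG
  refine ⟨r, fun W hW h0 hac => ?_⟩
  set η₁ := ε / (3 * (2 * r + 1)) with hη₁
  have hη₁0 : 0 < η₁ := by positivity
  choose Tl hTl using fun l => exists_finset_tail (μ := μ) (hW l) hη₁0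
  let T₀ : Finset Γ := Finset.univ.biUnion fun l => (Tl l).eraseNone
  let T : Finset Γ := T₀ ∪ T₀.image (·⁻¹)
  have hT : ∀ l g, some g ∈ Tl l → g ∈ T ∧ g⁻¹ ∈ T := by
    intro l g h
    have : g ∈ T₀ := Finset.mem_biUnion.2 ⟨l, Finset.mem_univ _, Finset.mem_eraseNone.2 h⟩
    exact ⟨Finset.mem_union_left _ this, Finset.mem_union_right _ (Finset.mem_image_of_mem _ this)⟩
  obtain ⟨δ, hδ, hG⟩ := hG T
  set η₂ := min η₁ (δ / (2 * (2 * r + 1))) with hη₂
  have hη₂0 : 0 < η₂ := lt_min hη₁0 (by positivity)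
  choose j₁ hj₁ using fun l => S.densW hfi (hW l) (θ := 1 / 2) (by norm_num) hη₂0
  obtain ⟨j, hj, hG⟩ := hG (Finset.univ.sup j₁)
  have hDj := fun l => hj₁ l j (le_trans (Finset.le_sup (Finset.mem_univ l)) hj)
  have := hfi j
  obtain ⟨Q, hQ⟩ := S.exists_level j W hW (θ := 1 / 2) le_rfl (fun _ _ g => g ∈ T ∧ g⁻¹ ∈ T)
    (fun _ _ g h => ⟨h.2, by simpa using h.1⟩)
  obtain ⟨R, hG⟩ := hG Q fun x l g h => ((hQ x l g).1 h).1.1
  set θ : ℝ := 1 - 1 / (R + 2) with hθ
  have hR : (0 : ℝ) < 1 / (R + 2) := by positivity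
  have hθ1 : θ < 1 := by linarith
  have hθ2 : 1 / 2 ≤ θ := by
    have : (1 : ℝ) / (R + 2) ≤ 1 / 2 :=
      one_div_le_one_div_of_le two_pos (by linarith [Nat.cast_nonneg (α := ℝ) R])
    linarith
  choose m₁ hm₁ using fun l => S.densW hfi (hW l) hθ1 hη₂0
  obtain ⟨m, hm, hG⟩ := hG (max j (Finset.univ.sup m₁))
  have hjm : j ≤ m := le_trans (le_max_left _ _) hm
  have hDm := fun l => hm₁ l m
    (le_trans (le_trans (Finset.le_sup (Finset.mem_univ l)) (le_max_right _ _)) hm)
  have := hfi m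
  obtain ⟨P, hP⟩ := S.exists_level m W hW hθ2
    (fun a l g => Q.lab ((a.out : Γ) : Γ ⧸ H j) l = some g)
    (fun a l g h => by rw [out_smul_eq (hH hjm)]; exact Q.symm' h)
  have hN := card_pos' (H := H) m
  have hr : (0 : ℝ) ≤ r := Nat.cast_nonneg r
  have hgood : ∀ x l g, W.lab x l = some g → Q.lab (S.p j x) l = some g →
      x ∉ {x | S.cond m ((fun x => W.lab x l) ⁻¹' {W.lab x l}) (S.p m x) ≤ θ} →
      P.lab (S.p m x) l = some g := by
    intro x l g h1 h2 h3
    refine (hP _ _ _).2 ⟨by rwa [S.out_p hjm], ?_⟩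
    rw [← h1]
    exact not_le.1 h3
  obtain ⟨y, w, g, hw, hred, hlen, hwalk, hdeep⟩ := hG P (by
      intro y l g h
      have h1 := ((hP _ _ _).1 h).1
      rwa [coe_eq_of_le (hH hjm) (QuotientGroup.out_eq' (y : Γ ⧸ H m))] at h1) (by
      have h1 := S.card_le m (fun a l => P.lab a l = none) (c := 3 * η₁) (by
        intro l
        have hsub : {x | P.lab (S.p m x) l = none} ⊆ (({x | W.lab x l = none} ∪
            {x | W.lab x l ∉ Tl l}) ∪
            {x | S.cond j ((fun x => W.lab x l) ⁻¹' {W.lab x l}) (S.p j x) ≤ 1 / 2}) ∪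
            {x | S.cond m ((fun x => W.lab x l) ⁻¹' {W.lab x l}) (S.p m x) ≤ θ} := by
          intro x hx
          by_contra hc
          simp only [Set.mem_union, not_or] at hc
          obtain ⟨⟨⟨c1, c2⟩, c3⟩, c4⟩ := hc
          obtain ⟨g, hg⟩ := Option.ne_none_iff_exists'.1 c1
          have c2' : some g ∈ Tl l := hg ▸ not_not.1 c2
          have c5 := hgood x l g hg ((hQ _ _ _).2 ⟨hT l g c2', hg ▸ not_le.1 c3⟩) c4
          rw [show P.lab (S.p m x) l = none from hx] at c5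
          exact absurd c5 (by simp)
        have b1 := measureReal_mono (μ := μ) hsub
        have b2 := measureReal_union_le (μ := μ) (({x | W.lab x l = none} ∪
            {x | W.lab x l ∉ Tl l}) ∪
            {x | S.cond j ((fun x => W.lab x l) ⁻¹' {W.lab x l}) (S.p j x) ≤ 1 / 2})
            {x | S.cond m ((fun x => W.lab x l) ⁻¹' {W.lab x l}) (S.p m x) ≤ θ}
        have b3 := measureReal_union_le (μ := μ) ({x | W.lab x l = none} ∪
            {x | W.lab x l ∉ Tl l})
            {x | S.cond j ((fun x => W.lab x l) ⁻¹' {W.lab x l}) (S.p j x) ≤ 1 / 2}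
        have b4 := measureReal_union_le (μ := μ) {x | W.lab x l = none} {x | W.lab x l ∉ Tl l}
        have b5 : μ.real {x | W.lab x l = none} = 0 := by simp [Measure.real, h0 l]
        have b6 : η₂ ≤ η₁ := min_le_left _ _
        linarith [hTl l, hDj l, hDm l])
      have h2 : ((P.size : ℝ) + Nat.card {p : (Γ ⧸ H m) × (Fin r × Bool) // P.lab p.1 p.2 = none})
          = 2 * r * Nat.card (Γ ⧸ H m) := by exact_mod_cast P.size_add
      have h3 : η₁ * (3 * (2 * r + 1)) = ε := by rw [hη₁]; field_simp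
      simp only [Fintype.card_prod, Fintype.card_fin, Fintype.card_bool, Nat.cast_mul,
        Nat.cast_ofNat] at h1
      have h4 : r * 2 * (3 * η₁) ≤ ε := by nlinarith
      nlinarith) (by
      have h1 := S.card_le m (fun a l => (Q.lab ((a.out : Γ) : Γ ⧸ H j) l).isSome ∧
          P.lab a l = none) (c := 2 * η₂) (by
        intro l
        have hsub : {x | (Q.lab (((S.p m x).out : Γ) : Γ ⧸ H j) l).isSome ∧
            P.lab (S.p m x) l = none} ⊆
            {x | S.cond j ((fun x => W.lab x l) ⁻¹' {W.lab x l}) (S.p j x) ≤ 1 / 2} ∪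
            {x | S.cond m ((fun x => W.lab x l) ⁻¹' {W.lab x l}) (S.p m x) ≤ θ} := by
          rintro x ⟨hx1, hx2⟩
          by_contra hc
          simp only [Set.mem_union, not_or] at hc
          obtain ⟨c3, c4⟩ := hc
          rw [S.out_p hjm] at hx1
          obtain ⟨g, hg⟩ := Option.isSome_iff_exists.1 hx1
          obtain ⟨z, z1, z2⟩ := S.cond_unique j (hW l _) _ (not_le.1 c3) ((hQ _ _ _).1 hg).2
          have c5 := hgood x l g ((show W.lab z l = _ from z1).symm.trans z2) hg c4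
          rw [hx2] at c5
          exact absurd c5 (by simp)
        have b1 := (measureReal_mono (μ := μ) hsub).trans (measureReal_union_le _ _)
        linarith [hDj l, hDm l])
      refine h1.trans (mul_le_mul_of_nonneg_right ?_ hN.le)
      have h3 : δ / (2 * (2 * r + 1)) * (2 * (2 * r + 1)) = δ := by field_simp
      have h4 : η₂ ≤ δ / (2 * (2 * r + 1)) := min_le_right _ _
      simp only [Fintype.card_prod, Fintype.card_fin, Fintype.card_bool, Nat.cast_mul,
        Nat.cast_ofNat]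
      nlinarith)
    (S.arb m hW hac fun a l g h => hθ2.trans_lt ((hP a l g).1 h).2)
  have h1 := S.cond_walk m hW (fun a l g h => ((hP a l g).1 h).2) hwalk
  have h2 : (w.length : ℝ) * (1 - θ) < 1 := by
    have : (w.length : ℝ) ≤ R := by exact_mod_cast hlen
    rw [hθ, sub_sub_cancel, mul_one_div, div_lt_one (by positivity)]
    linarith
  have h3 : S.cond m Set.univ (y : Γ ⧸ H m) ≤ S.cond m {x | W.walk w x ≠ some g} (y : Γ ⧸ H m) :=
    S.cond_mono m _ fun x _ hx h => hac w x g hw hred h (S.deep_fix hdeep hx)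
  rw [S.cond_univ] at h3
  linarith

end Sys

/-- The measure module. -/
theorem measThm : MeasThm := by
  intro Γ _ _ H hH hfi hN hG hMain
  obtain ⟨μ, hμ, ⟨S⟩⟩ := exists_sys H hH hfi
  have h := hMain (LimX H) {q | ∃ g : Γ, q.2 = g • q.1} μ ?_ ?_ ?_ ?_ ?_ ?_ ?_
  · rcases h with ⟨⟨Y, hY, hY0, F, h1, h2, h3, h4, h5, h6, h7⟩, _⟩ |
      ⟨⟨A, hA, _, hA1, a, h1, h2, h3, h4, h5, h6⟩, _⟩
    · exact S.not_hyperfinite hfi hN hY hY0 h1 h2 h3 h4 h5 h6 h7
    · obtain ⟨r, hr⟩ := S.no_label hH hfi hG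
      obtain ⟨f, hf⟩ := exists_injective_fin r
      obtain ⟨W, hW, hW0, hac⟩ := S.exists_label (r := r) hA (b := fun g => a (f g))
        (fun g => h1 _) (fun g => h2 _) (fun x hx => by rw [map_one]; exact h3 x hx)
        (fun g h x hx => by rw [map_mul]; exact h4 _ _ x hx)
        (fun g hg => h5 _ fun e => hg (hf (by rw [e, map_one]))) (fun g => h6 _)
      refine hr W hW (fun l => measure_mono_null (t := Aᶜ) (fun x hx hxA => hW0 l x hxA hx) ?_) hac
      exact (prob_compl_eq_zero_iff hA).2 hA1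
  · rw [Set.ofPred_exists]
    exact MeasurableSet.iUnion fun g =>
      measurableSet_eq_fun measurable_snd ((S.mp g).measurable.comp measurable_fst)
  · exact fun x => ⟨1, (one_smul _ _).symm⟩
  · rintro x y ⟨g, hg⟩
    exact ⟨g⁻¹, by simp only at hg ⊢; rw [hg, inv_smul_smul]⟩
  · rintro x y z ⟨g, hg⟩ ⟨k, hk⟩
    exact ⟨k * g, by simp only at hg hk ⊢; rw [hk, hg, mul_smul]⟩
  · intro x
    refine (Set.countable_range fun g : Γ => g • x).mono ?_
    rintro y ⟨g, hg⟩
    exact ⟨g, hg.symm⟩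
  · exact fun f hf hb hE => S.map_eq hf hb hE
  · intro B hB hinv
    refine S.ergodic hfi hB fun g => ?_
    ext x
    exact ⟨fun h => hinv _ x ⟨g⁻¹, (inv_smul_smul _ _).symm⟩ h, fun h => hinv x _ ⟨g, rfl⟩ h⟩

end Pool.Agent.MP_c34dea_an.H23
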