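import Pool.Agent.MP_c34dea_an.H23.BChain

set_option autoImplicit false

open scoped Pointwise ENNReal

namespace Pool.Agent.MP_c34dea_an.H23

open Pool.Agent.MP_c34dea_an.H66

namespace TowI

theorem tsum_list {A : Type} (F : List A → ℝ≥0∞) :
    ∑' γ, F γ = F [] + ∑' a, ∑' γ, F (a :: γ) := by
  classical
  rw [ENNReal.tsum_eq_add_tsum_ite [], ← ENNReal.tsum_prod (f := fun a γ => F (a :: γ))]
  congr 1
  have hi : Function.Injective (fun p : A × List A => p.1 :: p.2) := by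
    rintro ⟨a, l⟩ ⟨b, m⟩ h
    simpa using h
  refine (hi.tsum_eq ?_).symm.trans (tsum_congr fun p => if_neg (by simp))
  · intro γ hγ
    cases γ with
    | nil => simp at hγ
    | cons a l => exact ⟨(a, l), rfl⟩

theorem super {A Y : Type} {step : Y → A → Y} {f : Y → ℝ≥0∞} {x K : ℝ≥0∞}
    (h : ∀ y, f y + K * (x * ∑' a, f (step y a)) ≤ K * f y) (y : Y) :
    ∑' γ : List A, x ^ γ.length * f (run step y γ) ≤ K * f y := by
  classical
  have key : ∀ n y, ∑' γ : List A,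
      (if γ.length < n then x ^ γ.length * f (run step y γ) else 0) ≤ K * f y := by
    intro n
    induction n with
    | zero => simp
    | succ n ih =>
      intro y
      rw [tsum_list]
      refine le_trans (add_le_add (le_of_eq (by simp [run])) ?_) (h y)
      rw [mul_left_comm, ← ENNReal.tsum_mul_left, ← ENNReal.tsum_mul_left]
      refine ENNReal.tsum_le_tsum fun a => le_trans ?_ (mul_le_mul_right (ih (step y a)) _)
      rw [← ENNReal.tsum_mul_left]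
      refine ENNReal.tsum_le_tsum fun γ => le_of_eq ?_
      simp only [List.length_cons, Nat.add_lt_add_iff_right]
      split_ifs
      · rw [pow_succ]
        change _ * f (run step (step y a) γ) = _
        ring
      · simp
  rw [ENNReal.tsum_eq_iSup_sum]
  refine iSup_le fun s => le_trans ?_ (key (s.sup List.length + 1) y)
  refine le_trans (le_of_eq (Finset.sum_congr rfl fun γ hγ => ?_)) (ENNReal.sum_le_tsum s)
  rw [if_pos (Nat.lt_succ_of_le (Finset.le_sup (f := List.length) hγ))]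

theorem gen_inv5 (s : Fin 5) : (gen G5 s)⁻¹ = gen G5 s := inv_eq_of_mul_eq_one_right (gen_mul_self s)

/-- the first stage -/
noncomputable def base : Stage where
  S := Fin 5
  fin := inferInstance
  G := G5
  pos y := y⁻¹
  H := ⊤
  fi := inferInstance
  edge y s := ⟨s, by rw [mul_inv_rev, gen_inv5]⟩
  mul h _ y := mul_inv_rev y h

theorem D5 (p q : Γ5) : D TB0 p q = d p q :=
  le_antisymm (D_le_d p q) (le_ht le_rfl fun _ _ _ _ hne =>
    ⟨hne, fun c => c.adj, fun _ c => c.1.adj⟩)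

theorem sum5 (o p : Γ5) : ∑ s, (2⁻¹ : ℝ≥0∞) ^ d o (p * gen G5 s) ≤ 4 * 2⁻¹ ^ d o p := by
  classical
  have e2 : (2⁻¹ : ℝ≥0∞) * 2 = 1 := ENNReal.inv_mul_cancel (by simp) (by simp)
  have up : ∀ s, hyp p s ∉ sep p o →
      (2⁻¹ : ℝ≥0∞) ^ d o (p * gen G5 s) = 2⁻¹ ^ d o p * 2⁻¹ := by
    intro s hs
    rw [d_comm o, d_step_not hs, d_comm p, pow_succ]
  by_cases h : ∃ s, hyp p s ∈ sep p o
  · obtain ⟨s, hs⟩ := h
    rw [← Finset.add_sum_erase _ _ (Finset.mem_univ s), Finset.sum_congr rfl fun t ht => up t (by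
      intro c
      rcases desc hs c with e | e
      · exact (Finset.mem_erase.1 ht).1 e
      · exact e)]
    have e1 : (2⁻¹ : ℝ≥0∞) ^ d o (p * gen G5 s) = 2⁻¹ ^ d o p * 2 := by
      rw [d_comm o p, ← d_step hs, d_comm o, pow_succ, mul_assoc, e2, mul_one]
    rw [e1, Finset.sum_const, Finset.card_erase_of_mem (Finset.mem_univ s)]
    refine le_of_eq ?_
    simp only [Finset.card_univ, Fintype.card_fin, nsmul_eq_mul]
    calc (2⁻¹ : ℝ≥0∞) ^ d o p * 2 + ((5 - 1 : ℕ) : ℝ≥0∞) * (2⁻¹ ^ d o p * 2⁻¹)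
        = 2⁻¹ ^ d o p * 2 + 2 * 2⁻¹ ^ d o p * (2⁻¹ * 2) := by norm_num; ring
      _ = _ := by rw [e2]; ring
  · push Not at h
    rw [Finset.sum_congr rfl fun t _ => up t (h t)]
    simp only [Finset.sum_const, Finset.card_univ, Fintype.card_fin, nsmul_eq_mul]
    calc ((5 : ℕ) : ℝ≥0∞) * (2⁻¹ ^ d o p * 2⁻¹) ≤ 8 * (2⁻¹ ^ d o p * 2⁻¹) := by
          gcongr; norm_num
      _ = 4 * 2⁻¹ ^ d o p * (2⁻¹ * 2) := by ring
      _ = _ := by rw [e2, mul_one]

theorem base_gd : base.Gd (6 / 25) := by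
  refine ⟨TB0, 2⁻¹, 25, adm_tb0, by simp, ENNReal.one_half_lt_one, by simp, fun o y => ?_⟩
  refine super (f := fun y : Γ5 => (2⁻¹ : ℝ≥0∞) ^ D TB0 o (base.pos y)) (fun y => ?_) y
  have h : ∑' s, (2⁻¹ : ℝ≥0∞) ^ D TB0 o (base.pos (st5 y s)) ≤
      4 * 2⁻¹ ^ D TB0 o (base.pos y) := by
    rw [tsum_fintype]
    refine le_trans (le_of_eq (Finset.sum_congr rfl fun s _ => ?_))
      ((sum5 o y⁻¹).trans (le_of_eq ?_))
    · congr 1
      refine (D5 _ _).trans ?_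
      congr 1
      change (gen G5 s * y)⁻¹ = _
      rw [mul_inv_rev, gen_inv5]
    · exact congrArg (fun n => 4 * (2⁻¹ : ℝ≥0∞) ^ n) (D5 o y⁻¹).symm
  have e : (25 : ℝ≥0∞) * (6 / 25) = 6 := ENNReal.mul_div_cancel (by simp) (by simp)
  refine le_trans (add_le_add_right (mul_le_mul_right (mul_le_mul_right h _) _) _) (le_of_eq ?_)
  rw [← mul_assoc, e]
  ring

/-- the tasks -/
def Task : Type := Σ B : {B : Subgroup Γ5 // B.FiniteIndex}, PF 2 Γ5 (Γ5 ⧸ B.1)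

instance : Countable Γ5 :=
  Function.Surjective.countable (f := word G5) fun g => exists_word g

instance : Countable Task := by
  have h1 : Group.FG Γ5 := ⟨(Subgroup.fg_iff _).2 ⟨gen G5 '' Set.univ, Par_univ,
    Set.finite_univ.image _⟩⟩
  have h2 : Countable {B : Subgroup Γ5 // B.FiniteIndex} := by
    refine ((Set.countable_range fun T : Finset Γ5 => Subgroup.closure (T : Set Γ5)).mono
      (s₁ := {B : Subgroup Γ5 | B.FiniteIndex}) fun B hB => ?_).to_subtype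
    have : B.FiniteIndex := hB
    exact (Group.fg_iff_subgroup_fg B).1 inferInstance
  have h3 : ∀ B : {B : Subgroup Γ5 // B.FiniteIndex}, Countable (PF 2 Γ5 (Γ5 ⧸ B.1)) := by
    intro B
    have := B.2
    refine Function.Injective.countable (f := PF.lab) ?_
    rintro ⟨a, _⟩ ⟨b, _⟩ h
    cases h
    rfl
  unfold Task
  infer_instance

instance : Nonempty Task := ⟨⟨⟨⊤, inferInstance⟩, ⟨fun _ _ => none, by simp⟩⟩⟩

theorem pos_one (σ : Stage) : σ.pos 1 = 1 := by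
  have := σ.mul 1 σ.H.one_mem 1
  simpa using this

theorem ker_conj {σ : Stage} {k h : Γ5} (hk : σ.Ker k) (hh : h ∈ σ.H) : σ.Ker (h⁻¹ * k * h) := by
  refine ⟨σ.H.mul_mem (σ.H.mul_mem (σ.H.inv_mem hh) hk.1) hh, ?_⟩
  rw [σ.mul h hh, σ.mul k hk.1, hk.2, one_mul, ← σ.mul h hh, inv_mul_cancel, pos_one]

theorem sub_self (σ : Stage) : σ.Sub σ.H :=
  ⟨le_rfl, ⊤, ⟨inferInstance, inferInstance⟩, fun _ h _ => h⟩

theorem ext_refl (σ : Stage) : σ.Ext σ := ⟨fun _ h => h, fun _ h => h⟩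

theorem ext_trans {σ σ' σ'' : Stage} (h : σ.Ext σ') (h' : σ'.Ext σ'') : σ.Ext σ'' :=
  ⟨fun k c => h'.1 k (h.1 k c), fun K c => h.2 K (h'.2 K c)⟩

theorem ext_le {σ σ' : Stage} (h : σ.Ext σ') : σ'.H ≤ σ.H := (h.2 _ (sub_self σ')).1

theorem schur (σ : Stage) {x : ℝ≥0∞} (hx : 2 / 9 ≤ x) (hG : σ.Gd x) {ρ : ℕ} (hI : σ.Inj ρ)
    (T : Finset Γ5) (hT : ∀ a ∈ T, ∀ b ∈ T, ∀ s, d 1 (b⁻¹ * gen G5 s * a) ≤ ρ)
    (r : Setoid (Γ5 ⧸ σ.H)) (hr : ∀ a b, r a b → ∃ γ ∈ T, b = γ • a) :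
    (1 / 2 : ℝ) * Nat.card (Γ5 ⧸ σ.H) ≤
      Nat.card {p : (Γ5 ⧸ σ.H) × Fin 5 // ¬ r p.1 (gen G5 p.2 • p.1)} := by
  classical
  have := σ.fi
  have : Fintype (Γ5 ⧸ σ.H) := Fintype.ofFinite _
  obtain ⟨R, θ, K, -, h0, h1, hK, hG⟩ := hG.mono hx
  let F : Γ5 → ℝ≥0∞ := fun y =>
    ∑' γ : List (Fin 5), (2 / 9 : ℝ≥0∞) ^ γ.length * θ ^ D R 1 (σ.pos (run st5 y γ))
  have F1 : ∀ y, F y ≠ ∞ := fun y => ne_top_of_le_ne_top
    (ENNReal.mul_ne_top hK (ENNReal.pow_ne_top (ne_top_of_lt h1))) (hG 1 y)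
  have F2 : ∀ y, F y = θ ^ D R 1 (σ.pos y) + 2 / 9 * ∑ s, F (gen G5 s * y) := by
    intro y
    refine (tsum_list _).trans ?_
    rw [tsum_fintype, Finset.mul_sum]
    congr 1
    · simp [run]
    · refine Finset.sum_congr rfl fun s _ => ?_
      rw [← ENNReal.tsum_mul_left]
      refine tsum_congr fun γ => ?_
      rw [List.length_cons, pow_succ]
      change _ * θ ^ D R 1 (σ.pos (run st5 (gen G5 s * y) γ)) = _
      ring
  have F3 : ∀ y, F y ≠ 0 := fun y => by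
    rw [F2]
    exact fun c => pow_ne_zero _ h0 (add_eq_zero.1 c).1
  have F4 : ∀ y k, σ.Ker k → F (y * k) = F y := by
    intro y k hk
    refine tsum_congr fun γ => ?_
    have e := run_map (step := st5) (step' := st5) (f := fun y => y * k)
      (fun y a => mul_assoc _ _ _) y γ
    rw [← e, σ.mul k hk.1, hk.2, one_mul]
  let a : Γ5 ⧸ σ.H → Γ5 ⧸ σ.H := fun b => (Quotient.mk r b).out
  have ha : ∀ b, r (a b) b := fun b => Quotient.mk_out (s := r) b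
  choose c hc1 hc2 using fun b => hr _ _ (ha b)
  let l : Γ5 ⧸ σ.H → Γ5 := fun b => c b * (a b).out
  have hl : ∀ b, (l b : Γ5 ⧸ σ.H) = b := by
    intro b
    conv_rhs => rw [hc2 b, ← QuotientGroup.out_eq' (a b)]
    rfl
  let φ : Γ5 ⧸ σ.H → ℝ := fun b => (F (l b)).toReal
  have φ0 : ∀ b, 0 < φ b := fun b => ENNReal.toReal_pos (F3 _) (F1 _)
  have F5 : ∀ b s, r b (gen G5 s • b) → F (gen G5 s * l b) = F (l (gen G5 s • b)) := by
    intro b s h
    have e : a (gen G5 s • b) = a b := congrArg Quotient.out (Quotient.sound (r.symm h))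
    have m : (l (gen G5 s • b))⁻¹ * (gen G5 s * l b) ∈ σ.H := by
      rw [← QuotientGroup.eq, hl]
      conv_lhs => rw [← hl b]
      rfl
    have e2 : (l (gen G5 s • b))⁻¹ * (gen G5 s * l b) =
        (a b).out⁻¹ * ((c (gen G5 s • b))⁻¹ * gen G5 s * c b) * (a b).out := by
      simp only [l, e]
      group
    have k := hI (a b).out _ (hT _ (hc1 b) _ (hc1 _) s) (e2 ▸ m)
    rw [← F4 (l (gen G5 s • b)) _ k, ← e2]
    congr 1
    group
  have F6 : ∀ b, ∑ s, (if r b (gen G5 s • b) then φ (gen G5 s • b) / φ b else 0) ≤ 9 / 2 := by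
    intro b
    have e1 : 2 / 9 * ∑ s, F (gen G5 s * l b) ≤ F (l b) := by
      conv_rhs => rw [F2]
      exact le_add_self
    have e2 := ENNReal.toReal_mono (F1 _) e1
    rw [ENNReal.toReal_mul, ENNReal.toReal_sum (fun s _ => F1 _)] at e2
    have e3 : (2 / 9 : ℝ≥0∞).toReal = 2 / 9 := by simp
    rw [e3] at e2
    have e4 : ∑ s, (if r b (gen G5 s • b) then φ (gen G5 s • b) / φ b else 0) ≤
        ∑ s, (F (gen G5 s * l b)).toReal / φ b := by
      refine Finset.sum_le_sum fun s _ => ?_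
      split_ifs with h
      · rw [F5 b s h]
      · exact div_nonneg ENNReal.toReal_nonneg (φ0 b).le
    rw [← Finset.sum_div] at e4
    refine e4.trans ?_
    rw [div_le_iff₀ (φ0 b)]
    change _ ≤ 9 / 2 * (F (l b)).toReal
    linarith
  let ι : (Γ5 ⧸ σ.H) × Fin 5 → (Γ5 ⧸ σ.H) × Fin 5 := fun p => (gen G5 p.2 • p.1, p.2)
  have hι : Function.Involutive ι := fun p => by simp [ι, smul_smul, gen_mul_self]
  let u : (Γ5 ⧸ σ.H) × Fin 5 → ℝ := fun p =>
    if r p.1 (gen G5 p.2 • p.1) then φ (gen G5 p.2 • p.1) / φ p.1 else 0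
  have s1 : ∑ p, u p ≤ 9 / 2 * Fintype.card (Γ5 ⧸ σ.H) := by
    rw [Fintype.sum_prod_type]
    refine (Finset.sum_le_sum fun b _ => F6 b).trans (le_of_eq ?_)
    simp [mul_comm]
  have s2 : ∑ p, u (ι p) = ∑ p, u p := hι.bijective.sum_comp u
  have s3 : ∑ p : (Γ5 ⧸ σ.H) × Fin 5, (if r p.1 (gen G5 p.2 • p.1) then (2 : ℝ) else 0) ≤
      ∑ p, (u p + u (ι p)) := by
    refine Finset.sum_le_sum fun p _ => ?_
    have e : gen G5 p.2 • gen G5 p.2 • p.1 = p.1 := by simp [smul_smul, gen_mul_self]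
    simp only [u, ι, e]
    by_cases h : r p.1 (gen G5 p.2 • p.1)
    · rw [if_pos h, if_pos h, if_pos (r.symm h)]
      have p1 := φ0 p.1
      have p2 := φ0 (gen G5 p.2 • p.1)
      rw [div_add_div _ _ p1.ne' p2.ne', le_div_iff₀ (mul_pos p1 p2)]
      nlinarith [sq_nonneg (φ p.1 - φ (gen G5 p.2 • p.1))]
    · rw [if_neg h, if_neg h, if_neg fun c => h (r.symm c)]
      simp
  rw [Finset.sum_add_distrib, s2] at s3
  have s4 : ∑ p : (Γ5 ⧸ σ.H) × Fin 5, (if r p.1 (gen G5 p.2 • p.1) then (2 : ℝ) else 0) +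
      ∑ p : (Γ5 ⧸ σ.H) × Fin 5, (if ¬ r p.1 (gen G5 p.2 • p.1) then (2 : ℝ) else 0) =
      10 * Fintype.card (Γ5 ⧸ σ.H) := by
    rw [← Finset.sum_add_distrib, Finset.sum_congr rfl (g := fun _ => (2 : ℝ))
      fun p _ => by split_ifs <;> simp]
    simp
    ring
  have s5 : ∑ p : (Γ5 ⧸ σ.H) × Fin 5, (if ¬ r p.1 (gen G5 p.2 • p.1) then (2 : ℝ) else 0) =
      2 * Nat.card {p : (Γ5 ⧸ σ.H) × Fin 5 // ¬ r p.1 (gen G5 p.2 • p.1)} := by
    rw [← Finset.sum_filter, Nat.card_eq_fintype_card, Fintype.card_subtype]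
    simp [mul_comm]
  rw [Nat.card_eq_fintype_card (α := Γ5 ⧸ σ.H)]
  linarith

theorem seq (hS : StepStmt) (e : ℕ → Task) : ∃ (σ : ℕ → Stage) (x : ℕ → ℝ≥0∞),
    (∀ n, 2 / 9 < x n ∧ (σ n).Gd (x n)) ∧ ∀ n, (σ n).Ext (σ (n + 1)) ∧ (σ (n + 1)).Inj n ∧
      ∃ R, (σ (n + 1)).Far (e n).2 R := by
  have nx : ∀ (n : ℕ) (z : {z : Stage × ℝ≥0∞ // 2 / 9 < z.2 ∧ z.1.Gd z.2}),
      ∃ z' : {z : Stage × ℝ≥0∞ // 2 / 9 < z.2 ∧ z.1.Gd z.2},
        z.1.1.Ext z'.1.1 ∧ z'.1.1.Inj n ∧ ∃ R, z'.1.1.Far (e n).2 R := by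
    rintro n ⟨⟨σ, x⟩, h1, h2⟩
    obtain ⟨x', h3, h4⟩ := exists_between h1
    obtain ⟨σ', a1, a2, a3, a4⟩ := hS σ x x' _ (e n).2 n (e n).1.2 h4 h2
    exact ⟨⟨(σ', x'), h3, a2⟩, a1, a3, a4⟩
  choose f hf using nx
  have b0 : (2 / 9 : ℝ≥0∞) < 6 / 25 := by
    rw [← ENNReal.toReal_lt_toReal (by finiteness) (by finiteness)]
    norm_num
  let z : ℕ → {z : Stage × ℝ≥0∞ // 2 / 9 < z.2 ∧ z.1.Gd z.2} := fun n =>
    Nat.rec ⟨(base, 6 / 25), b0, base_gd⟩ f n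
  exact ⟨fun n => (z n).1.1, fun n => (z n).1.2, fun n => (z n).2, fun n => hf n (z n)⟩

end TowI

open TowI in
theorem towerI : TowerBStmt := by
  intro hS
  obtain ⟨e, he⟩ := exists_surjective_nat Task
  obtain ⟨σ, x, hx, hσ⟩ := seq hS e
  have ext : ∀ {m n}, m ≤ n → (σ m).Ext (σ n) := by
    intro m n h
    induction h with
    | refl => exact ext_refl _
    | step _ ih => exact ext_trans ih (hσ _).1
  refine ⟨fun n => (σ n).H, fun m n h => ext_le (ext h), fun n => (σ n).fi,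
    ⟨5, gen G5, 1 / 2, by norm_num, fun T m₀ => ?_⟩, 1 / 10, by norm_num, fun j Q => ?_⟩
  · classical
    obtain ⟨ρ, hρ⟩ := ((T ×ˢ T ×ˢ (Finset.univ : Finset (Fin 5))).image
      fun p => d 1 (p.2.1⁻¹ * gen G5 p.2.2 * p.1)).bddAbove
    refine ⟨max ρ m₀ + 1, by omega, fun r hr => schur _ (hx _).1.le (hx _).2 (hσ _).2.1 T
      (fun a ha b hb s => le_trans (hρ ?_) (le_max_left ρ m₀)) r hr⟩
    exact Finset.mem_coe.2 (Finset.mem_image.2 ⟨(a, b, s), by simp [ha, hb], rfl⟩)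
  · obtain ⟨n, hn⟩ := he ⟨⟨(σ j).H, (σ j).fi⟩, Q⟩
    have h3 : ∃ R, (σ (n + 1)).Far Q R := by
      have := (hσ n).2.2
      rw [hn] at this
      exact this
    obtain ⟨R, hR⟩ := h3
    refine ⟨R, fun m₀ => ⟨max (n + 1) m₀, le_max_right _ _, fun P hP hs => ?_⟩⟩
    have hx := ext (le_max_left (n + 1) m₀)
    obtain ⟨y, w, g, a1, a2, a3, a4, a5⟩ := hR _ (hx.2 _ (sub_self _)) P hP (by
      have : (39 : ℝ) * Nat.card (Γ5 ⧸ (σ (max (n + 1) m₀)).H) ≤ 10 * P.size := by linarith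
      exact_mod_cast this)
    refine ⟨y, w, g, a1, a2, a3, a4, fun h hh k => ?_⟩
    have a6 := ker_conj (hx.1 _ a5) hh
    rcases le_total k (max (n + 1) m₀) with c | c
    · exact ext_le (ext c) a6.1
    · exact ((ext c).1 _ a6).1

end Pool.Agent.MP_c34dea_an.H23
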