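import Pool.Agent.MP_c34dea_an.H23.BChain
import Pool.Agent.MP_c34dea_an.H6.Levels

set_option autoImplicit false

open scoped Pointwise ENNReal

namespace Pool.Agent.MP_c34dea_an.H23

open Pool.Agent.MP_c34dea_an.H66

theorem bridge : BridgeStmt := by
  intro S G t u
  by_cases h : H6.Stc t u
  · obtain ⟨y, h1, h2⟩ := h.exists_pt
    refine ⟨y, h1, y, h2, fun r => ?_, by simp, by simp⟩
    simp only [sep_self, Finset.notMem_empty, false_iff]
    rintro ⟨hr, n1, n2⟩
    have e1 := mem_sep_car_gen h1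
    rcases h with e | c
    · subst e
      have := hr y (y * gen G u.1) (by rw [e1]; simp) (by rw [e1]; simp)
      rw [e1, Finset.mem_singleton] at this
      exact n1 this
    · have h3 : y * gen G t.1 ∈ car u := mul_gen_mem_car h2 (mem_st_of_adj c.adj.symm)
      have e2 := mem_sep_car_gen h3
      have hne := c.ne
      have := hr y (y * gen G t.1 * gen G u.1)
        (by rw [mem_sep_trans y (y * gen G t.1), e1, e2]; simp [hne])
        (by rw [mem_sep_trans y (y * gen G t.1), e1, e2]; simp [hne.symm])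
      rw [mem_sep_trans y (y * gen G t.1), e1, e2] at this
      simp [n1, n2] at this
  · obtain ⟨a, b, hb⟩ := H6.exists_br h
    refine ⟨a, hb.ha, b, hb.hb, fun r => ⟨fun hr => ?_, ?_⟩,
      fun r hr => ⟨fun c => hb.left r hr (Or.inr c), fun c => hb.right r hr (Or.inr c)⟩,
      fun z hz z' hz' => hb.subset hz hz'⟩
    · obtain ⟨l1, l2⟩ := hb.lt_of_mem hb.lt_base hr
      exact ⟨mem_Btw_of_lt l1 l2, l1.ne.symm, l2.ne⟩
    · rintro ⟨hr, n1, n2⟩
      have e1 := mem_sep_car_gen hb.ha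
      have e2 := mem_sep_car_gen hb.hb
      have m1 : t ∉ sep a b := fun c => hb.left t c (H6.Stc.refl t)
      have m2 : u ∉ sep a b := fun c => hb.right u c (H6.Stc.refl u)
      have key : ∀ k, k ∈ sep (a * gen G t.1) (b * gen G u.1) ↔
          (k = t ∧ ¬ ((k ∈ sep a b ∧ k ≠ u) ∨ (k = u ∧ k ∉ sep a b))) ∨
            (((k ∈ sep a b ∧ k ≠ u) ∨ (k = u ∧ k ∉ sep a b)) ∧ k ≠ t) := by
        intro k
        rw [mem_sep_trans _ a, mem_sep_trans a b, sep_comm _ a, e1, e2]
        simp
      have := hr (a * gen G t.1) (b * gen G u.1) (by rw [key]; simp [m1, hb.ne])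
        (by rw [key]; simp [m2, hb.ne.symm])
      rw [key] at this
      simpa [n1, n2] using this

theorem levels : LevelsStmt := by
  intro S _ G
  constructor
  · rintro N ⟨h1, h2⟩
    exact ⟨H6.PN N, ⟨inferInstance, inferInstance⟩, H6.PN_le N,
      fun n hn p q z f hf hu => H6.use hf hu hn z⟩
  · intro R
    obtain ⟨N, h1, h2, h3⟩ := H6.exists_F0 G R
    have l1 : H6.PN (H6.PN N) ≤ H6.PN N := H6.PN_le _
    have l2 : H6.PN N ≤ N := H6.PN_le _
    refine ⟨H6.PN (H6.PN N), ⟨inferInstance, inferInstance⟩, ?_, ?_, ?_, ?_⟩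
    · rintro t u ⟨y, hy, y', hy', hd⟩ n hn c
      exact h3 t u y y' n hy hy' hd (l2 (l1 hn)) c
    · rintro t u k ⟨y, hy, y', hy', hd⟩ htb n hn ⟨c1, c2⟩
      refine H6.lt_lvl h3 (k := k) hy hy' (by omega) htb (H6.PN N).one_mem (l1 hn) ⟨?_, ?_⟩
      · rw [one_smul]; exact Or.inr c1.symm
      · exact Or.inr c2.symm
    · rintro t u ⟨y, hy, y', hy', hd⟩ hne hc n hn ⟨z, hz, z', hz', hd'⟩
      have := H6.uq_pair h3 (n := 1) (n' := n) (t := t) (u := u) (by
        rintro (e | e)
        · exact hne e.symm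
        · exact hc e) hy hy' (by simpa using hz) hz' hd hd' (H6.PN (H6.PN N)).one_mem hn
      simpa using this
    · intro g hg p hd
      exact h3.inj (p := p) (l1 hg) (by omega)

end Pool.Agent.MP_c34dea_an.H23
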