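import Pool.Agent.MP_c34dea_an.H23.BUpd

set_option autoImplicit false

open scoped Pointwise ENNReal

namespace Pool.Agent.MP_c34dea_an.H23

open Pool.Agent.MP_c34dea_an.H66

namespace UpdAux

variable {S : Type} {G : SimpleGraph S} {A Y : Type} {step : Y → A → Y} {pos : Y → W G}
  {R E : Hyp G → Hyp G → Prop}

theorem cut (hE : Edge step pos) (hR : Adm R) {o : W G} {y : Y} {γ : List A}
    {J : Finset (Hyp G)} {Js : List (Finset (Hyp G))}
    (h : ItvList R E o (pos y) (pos (run step y γ)) (J :: Js)) :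
    ∃ γ₁ γ₂ γ₃, γ = γ₁ ++ (γ₂ ++ γ₃) ∧
      (∃ t u, E t u ∧ pos (run step y γ₁) ∈ car t ∧ pos (run step (run step y γ₁) γ₂) ∈ car u) ∧
      ItvList R E o (pos (run step (run step y γ₁) γ₂)) (pos (run step y γ)) Js ∧
      D R o (pos (run step y γ₁)) + J.card ≤ D R o (pos (run step (run step y γ₁) γ₂)) + 5 := by
  obtain ⟨h1, h2⟩ := h
  have hJ := h1 J (by simp)
  obtain ⟨t, htJ, u, hu, htu, hends⟩ := hJ.ends
  have at1 := hJ.asc t htJ
  have au1 := hJ.asc u hu
  obtain ⟨γ₁, γ', rfl, c1, c2⟩ := hE.exists_cut (k := t) (y := y) (γ := γ) (by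
    have a := at1.1
    have b := at1.2
    simp only [mem_sep_sd] at a b ⊢
    grind)
  have t1 : t ∈ sep o (pos (run step y γ₁)) := by
    have b := at1.2
    simp only [mem_sep_sd] at b c2 ⊢
    grind
  have key : ∃ γ₂ γ₃, γ' = γ₂ ++ γ₃ ∧ pos (run step (run step y γ₁) γ₂) ∈ car u ∧
      u ∈ sep o (pos (run step (run step y γ₁) γ₂)) := by
    rcases (hends u hu).1 with rfl | hlt
    · exact ⟨[], γ', rfl, c1, t1⟩
    · have a := hlt.not_mem_of_car c1
      have b := au1.2
      rw [run_append] at b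
      obtain ⟨γ₂, γ₃, e, c3, c4⟩ := hE.exists_cut (k := u) (y := run step y γ₁) (γ := γ') (by
        simp only [mem_sep_sd] at a b ⊢
        grind)
      refine ⟨γ₂, γ₃, e, c3, ?_⟩
      simp only [mem_sep_sd] at b c4 ⊢
      grind
  obtain ⟨γ₂, γ₃, rfl, c3, u2⟩ := key
  set z₁ := pos (run step y γ₁)
  set z₂ := pos (run step (run step y γ₁) γ₂)
  have t2 : t ∈ sep o z₂ := by
    rcases (hends u hu).1 with rfl | hlt
    · exact u2
    · exact hlt.mem u2
  refine ⟨γ₁, γ₂, γ₃, rfl, ⟨t, u, htu, c1, c3⟩, ⟨fun J' hJ' => ?_, (List.pairwise_cons.1 h2).2⟩, ?_⟩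
  · have hJ'' := h1 J' (by simp [hJ'])
    exact ⟨hJ''.pw, fun r hr => ⟨((List.pairwise_cons.1 h2).1 J' hJ' u hu r hr).not_mem_of_car c3,
      (hJ''.asc r hr).2⟩, hJ''.ends⟩
  · have e1 : D R o z₁ ≤ ht R (sep o z₁ ∩ sep o z₂) + ht R (sep o z₁ \ sep o z₂) := by
      refine le_trans (le_of_eq ?_) (ht_union_le _ _)
      rw [Finset.union_comm, Finset.sdiff_union_inter]
      rfl
    have e2 : ht R (sep o z₁ \ sep o z₂) ≤ 1 := by
      refine ht_le_one_of_stt hR.tb (k := t) fun a ha => ?_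
      rw [Finset.mem_sdiff] at ha
      by_contra hn
      rcases lt_or_lt t1 ha.1 hn with c | c
      · exact c.not_mem_of_car c1 ha.1
      · exact ha.2 (c.mem t2)
    have hB : ∀ b ∈ J.erase t, b ∉ sep o z₁ ∧ b ∈ sep o z₂ := by
      intro b hb
      rw [Finset.mem_erase] at hb
      refine ⟨((hends b hb.2).1.resolve_left hb.1.symm).not_mem_of_car c1, ?_⟩
      rcases (hends b hb.2).2 with rfl | c
      · exact u2
      · exact c.mem u2
    have e3 := ht_superadd hR (o := o) (y := z₁) (y' := z₂) (A := sep o z₁ ∩ sep o z₂)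
      (B := J.erase t) (fun a ha => Finset.mem_inter.1 ha) hB
    have e4 : ht R (sep o z₁ ∩ sep o z₂ ∪ J.erase t) ≤ D R o z₂ :=
      ht_mono (Finset.union_subset Finset.inter_subset_right fun b hb => (hB b hb).2)
    have e5 : (J.erase t).card ≤ ht R (J.erase t) :=
      le_ht le_rfl (hJ.pw.mono (by simp))
    have e6 := Finset.card_erase_of_mem htJ
    change D R o z₁ + J.card ≤ D R o z₂ + 5
    omega

open Classical in
/-- the largest total size of at most `n` exceptional intervals -/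
noncomputable def wmax (R E : Hyp G → Hyp G → Prop) (o : W G) (n : ℕ) (y y' : W G) : ℕ :=
  Nat.findGreatest (fun k => ∃ Js, ItvList R E o y y' Js ∧ Js.length ≤ n ∧
    k = (Js.map Finset.card).sum) (n * d o y')

theorem wmax_spec (o : W G) (n : ℕ) (y y' : W G) : ∃ Js, ItvList R E o y y' Js ∧ Js.length ≤ n ∧
    wmax R E o n y y' = (Js.map Finset.card).sum := by
  classical
  exact Nat.findGreatest_spec (P := fun k => ∃ Js, ItvList R E o y y' Js ∧ Js.length ≤ n ∧
    k = (Js.map Finset.card).sum) (Nat.zero_le _) ⟨[], ⟨by simp, List.Pairwise.nil⟩, by simp, rfl⟩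

theorem le_wmax {o : W G} {n : ℕ} {y y' : W G} {Js : List (Finset (Hyp G))}
    (h : ItvList R E o y y' Js) (hn : Js.length ≤ n) :
    (Js.map Finset.card).sum ≤ wmax R E o n y y' := by
  classical
  refine Nat.le_findGreatest ?_ ⟨Js, h, hn, rfl⟩
  have := List.sum_le_card_nsmul (Js.map Finset.card) (d o y') (by
    intro k hk
    obtain ⟨J, hJ, rfl⟩ := List.mem_map.1 hk
    exact Finset.card_le_card fun r hr => ((h.1 J hJ).asc r hr).2)
  rw [List.length_map, smul_eq_mul] at this
  exact this.trans (Nat.mul_le_mul_right _ hn)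

theorem inv_pow_mul {θ : ℝ≥0∞} (h0 : θ ≠ 0) (h1 : θ < 1) (n : ℕ) : θ⁻¹ ^ n * θ ^ n = 1 := by
  rw [← mul_pow, ENNReal.inv_mul_cancel h0 (h1.trans ENNReal.one_lt_top).ne, one_pow]

theorem pow_le_of {θ : ℝ≥0∞} (h0 : θ ≠ 0) (h1 : θ < 1) {a b c : ℕ} (h : b ≤ a + c) :
    θ ^ a ≤ θ ^ b * θ⁻¹ ^ c := by
  calc θ ^ a = θ ^ (a + c) * θ⁻¹ ^ c := by
        rw [pow_add, mul_assoc, mul_comm (θ ^ c), inv_pow_mul h0 h1, mul_one]
    _ ≤ _ := mul_le_mul_left (pow_le_pow_right_of_le_one' h1.le h) _

theorem dec (hE : Edge step pos) (hR : Adm R) {θ x K Θ : ℝ≥0∞} (h0 : θ ≠ 0) (h1 : θ < 1)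
    (hG : Good step pos R θ x K)
    (hT : ∀ y, Gr step x y (fun y' => ∃ t u, E t u ∧ pos y ∈ car t ∧ pos y' ∈ car u) ≤ Θ)
    (o : W G) (n : ℕ) (y : Y) :
    ∑' γ : List A, x ^ γ.length * (θ ^ D R o (pos (run step y γ)) *
      θ⁻¹ ^ wmax R E o n (pos y) (pos (run step y γ))) ≤
      (1 + θ⁻¹ ^ 5 * Θ * K) ^ n * (K * θ ^ D R o (pos y)) := by
  classical
  induction n generalizing y with
  | zero => simpa [wmax] using hG o y
  | succ n ih =>
    set B := 1 + θ⁻¹ ^ 5 * Θ * K with hB
    let F₁ : List A → ℝ≥0∞ := fun γ => if wmax R E o (n + 1) (pos y) (pos (run step y γ)) = 0 then 0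
      else x ^ γ.length * (θ ^ D R o (pos (run step y γ)) *
        θ⁻¹ ^ wmax R E o (n + 1) (pos y) (pos (run step y γ)))
    let F₃ : Y → List A → List A → ℝ≥0∞ := fun z γ₂ γ₃ =>
      (if ∃ t u, E t u ∧ pos z ∈ car t ∧ pos (run step z γ₂) ∈ car u then x ^ γ₂.length else 0) *
        (θ⁻¹ ^ D R o (pos (run step z γ₂)) * (x ^ γ₃.length *
          (θ ^ D R o (pos (run step (run step z γ₂) γ₃)) *
            θ⁻¹ ^ wmax R E o n (pos (run step z γ₂)) (pos (run step (run step z γ₂) γ₃)))))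
    let F₂ : Y → List A → ℝ≥0∞ := fun z γ => ⨆ (γ₂ : Fin (γ.length + 1)),
      F₃ z (γ.take γ₂) (γ.drop γ₂)
    have s3 : ∀ z, ∑' γ, F₂ z γ ≤ Θ * (B ^ n * K) := by
      intro z
      refine le_trans (tsum_split (F' := F₃ z) fun γ => Or.inr ?_) ?_
      · obtain ⟨i, hi⟩ := exists_eq_ciSup_of_finite
          (f := fun γ₂ : Fin (γ.length + 1) => F₃ z (γ.take γ₂) (γ.drop γ₂))
        exact ⟨γ.take i, γ.drop i, (List.take_append_drop _ _).symm, hi.ge⟩
      · refine le_trans (ENNReal.tsum_le_tsum fun γ₂ => ?_)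
          (le_trans (le_of_eq ENNReal.tsum_mul_right) (mul_le_mul_left (hT z) _))
        simp only [F₃]
        rw [ENNReal.tsum_mul_left, ENNReal.tsum_mul_left]
        refine mul_le_mul_right ((mul_le_mul_right (ih _) _).trans (le_of_eq ?_)) _
        rw [mul_left_comm, mul_left_comm _ K, inv_pow_mul h0 h1, mul_one]
    have s1 : ∑' γ, F₁ γ ≤ θ⁻¹ ^ 5 * (Θ * (B ^ n * K)) * (K * θ ^ D R o (pos y)) := by
      refine le_trans (tsum_split (F' := fun γ₁ γ' => θ⁻¹ ^ 5 *
        (x ^ γ₁.length * θ ^ D R o (pos (run step y γ₁))) * F₂ (run step y γ₁) γ') fun γ => ?_) ?_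
      · by_cases c : wmax R E o (n + 1) (pos y) (pos (run step y γ)) = 0
        · exact Or.inl (if_pos c)
        right
        obtain ⟨Js, hJs, hlen, e⟩ := wmax_spec (R := R) (E := E) o (n + 1) (pos y)
          (pos (run step y γ))
        cases Js with
        | nil => exact absurd e c
        | cons J Js =>
          obtain ⟨γ₁, γ₂, γ₃, rfl, c1, c2, c3⟩ := cut hE hR hJs
          refine ⟨γ₁, γ₂ ++ γ₃, rfl, ?_⟩
          have l1 : F₃ (run step y γ₁) γ₂ γ₃ ≤ F₂ (run step y γ₁) (γ₂ ++ γ₃) := by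
            refine le_iSup_of_le ⟨γ₂.length, by simp⟩ (le_of_eq ?_)
            simp
          refine le_trans ?_ (mul_le_mul_right l1 _)
          have l2 := le_wmax c2 (n := n) (by simpa using hlen)
          simp only [F₁, F₃, if_neg c, if_pos c1]
          rw [e, List.map_cons, List.sum_cons]
          simp only [run_append, List.length_append, pow_add] at l2 ⊢
          have l3 : θ⁻¹ ^ J.card ≤ θ⁻¹ ^ 5 * θ ^ D R o (pos (run step y γ₁)) *
              θ⁻¹ ^ D R o (pos (run step (run step y γ₁) γ₂)) := by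
            have a1 : (1 : ℝ≥0∞) ≤ θ⁻¹ := ENNReal.one_le_inv.2 h1.le
            calc θ⁻¹ ^ J.card = θ ^ D R o (pos (run step y γ₁)) *
                  θ⁻¹ ^ (D R o (pos (run step y γ₁)) + J.card) := by
                  rw [pow_add, ← mul_assoc, mul_comm (θ ^ _), inv_pow_mul h0 h1, one_mul]
              _ ≤ θ ^ D R o (pos (run step y γ₁)) *
                  θ⁻¹ ^ (D R o (pos (run step (run step y γ₁) γ₂)) + 5) :=
                  mul_le_mul_right (pow_le_pow_right' a1 c3) _
              _ = _ := by rw [pow_add]; ring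
          have l4 : θ⁻¹ ^ (Js.map Finset.card).sum ≤ θ⁻¹ ^ wmax R E o n
              (pos (run step (run step y γ₁) γ₂))
              (pos (run step (run step (run step y γ₁) γ₂) γ₃)) :=
            pow_le_pow_right' (ENNReal.one_le_inv.2 h1.le) l2
          calc _ ≤ x ^ γ₁.length * (x ^ γ₂.length * x ^ γ₃.length) *
                (θ ^ D R o (pos (run step (run step (run step y γ₁) γ₂) γ₃)) *
                  ((θ⁻¹ ^ 5 * θ ^ D R o (pos (run step y γ₁)) *
                    θ⁻¹ ^ D R o (pos (run step (run step y γ₁) γ₂))) * θ⁻¹ ^ wmax R E o n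
                    (pos (run step (run step y γ₁) γ₂))
                    (pos (run step (run step (run step y γ₁) γ₂) γ₃)))) := by gcongr
            _ = _ := by ring
      · simp only [ENNReal.tsum_mul_left]
        refine le_trans (ENNReal.tsum_le_tsum fun γ₁ => mul_le_mul_right (s3 _) _) ?_
        rw [ENNReal.tsum_mul_right, ENNReal.tsum_mul_left, mul_right_comm]
        exact mul_le_mul_right (hG o y) _
    calc _ ≤ ∑' γ : List A, (x ^ γ.length * θ ^ D R o (pos (run step y γ)) + F₁ γ) := by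
          refine ENNReal.tsum_le_tsum fun γ => ?_
          by_cases c : wmax R E o (n + 1) (pos y) (pos (run step y γ)) = 0
          · simp [c]
          · simp only [F₁, if_neg c]
            exact le_add_self
      _ ≤ K * θ ^ D R o (pos y) + θ⁻¹ ^ 5 * (Θ * (B ^ n * K)) * (K * θ ^ D R o (pos y)) := by
          rw [ENNReal.tsum_add]
          exact add_le_add (hG o y) s1
      _ ≤ B ^ n * (K * θ ^ D R o (pos y)) +
            θ⁻¹ ^ 5 * (Θ * (B ^ n * K)) * (K * θ ^ D R o (pos y)) := by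
          refine add_le_add_left (le_mul_of_one_le_left' (one_le_pow_of_one_le' ?_ _)) _
          exact le_self_add
      _ = _ := by rw [pow_succ, hB]; ring

theorem total [Finite A] (step : Y → A → Y) {x c : ℝ≥0∞} (hx : x ≠ ∞) (hc : c ≠ ∞) {m : ℕ}
    (hm : 1 ≤ m) : ∃ K : ℝ≥0∞, K ≠ ∞ ∧ ∀ f : Y → ℝ≥0∞,
      (∀ y γ, f (run step y γ) ≤ c ^ γ.length * f y) →
      (∀ y, ∑' γ : List A, (if γ.length = m then x ^ γ.length * f (run step y γ) else 0) ≤
        2⁻¹ * f y) → ∀ y, ∑' γ : List A, x ^ γ.length * f (run step y γ) ≤ K * f y := by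
  classical
  set C := ∑' γ : List A, (if γ.length < m then (x * c) ^ γ.length else 0) with hC
  have hCf : C ≠ ∞ := by
    rw [hC, tsum_eq_sum (s := (List.finite_length_lt A m).toFinset) (by
      intro γ hγ
      rw [if_neg (by simpa using hγ)])]
    refine ENNReal.sum_ne_top.2 fun γ _ => ?_
    split_ifs
    · exact ENNReal.pow_ne_top (ENNReal.mul_ne_top hx hc)
    · exact ENNReal.zero_ne_top
  refine ⟨2 * C, ENNReal.mul_ne_top (by simp) hCf, fun f h1 h2 y => ?_⟩
  have key : ∀ n y, ∑' γ : List A,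
      (if γ.length < n * m then x ^ γ.length * f (run step y γ) else 0) ≤ 2 * C * f y := by
    intro n
    induction n with
    | zero => simp
    | succ n ih =>
      intro y
      have s1 : ∑' γ : List A, (if γ.length < m then x ^ γ.length * f (run step y γ) else 0)
          ≤ C * f y := by
        rw [hC, ← ENNReal.tsum_mul_right]
        refine ENNReal.tsum_le_tsum fun γ => ?_
        split_ifs
        · rw [mul_pow, mul_assoc]
          exact mul_le_mul_right (h1 y γ) _
        · simp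
      have s2 : ∑' γ : List A, (if m ≤ γ.length ∧ γ.length < (n + 1) * m then
          x ^ γ.length * f (run step y γ) else 0) ≤ C * f y := by
        refine le_trans (tsum_split (F' := fun γ₁ γ₂ =>
          (if γ₁.length = m then x ^ γ₁.length else 0) * (if γ₂.length < n * m then
            x ^ γ₂.length * f (run step (run step y γ₁) γ₂) else 0)) fun γ => ?_) ?_
        · by_cases c : m ≤ γ.length ∧ γ.length < (n + 1) * m
          · refine Or.inr ⟨γ.take m, γ.drop m, (List.take_append_drop _ _).symm, le_of_eq ?_⟩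
            have e1 : (γ.take m).length = m := by simp [c.1]
            have e2 : (γ.drop m).length < n * m := by
              have := c.2
              rw [List.length_drop]
              rw [add_mul] at this
              omega
            rw [if_pos c, if_pos e1, if_pos e2, ← run_append, ← mul_assoc, ← pow_add,
              ← List.length_append, List.take_append_drop]
          · exact Or.inl (if_neg c)
        · simp only [ENNReal.tsum_mul_left]
          refine le_trans (ENNReal.tsum_le_tsum fun γ₁ => mul_le_mul_right (ih _) _) ?_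
          calc ∑' γ : List A, (if γ.length = m then x ^ γ.length else 0) *
                (2 * C * f (run step y γ)) = 2 * C * (∑' γ : List A,
                (if γ.length = m then x ^ γ.length * f (run step y γ) else 0) : ℝ≥0∞) := by
                refine Eq.trans (tsum_congr fun γ => ?_) ENNReal.tsum_mul_left
                split_ifs
                · ring
                · simp
            _ ≤ 2 * C * (2⁻¹ * f y) := mul_le_mul_right (h2 y) (2 * C)
            _ = (2 * 2⁻¹) * (C * f y) := by ring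
            _ = _ := by rw [ENNReal.mul_inv_cancel (by simp) (by simp), one_mul]
      calc _ ≤ ∑' γ : List A, ((if γ.length < m then x ^ γ.length * f (run step y γ) else 0) +
            (if m ≤ γ.length ∧ γ.length < (n + 1) * m then
              x ^ γ.length * f (run step y γ) else 0)) := by
            refine ENNReal.tsum_le_tsum fun γ => ?_
            by_cases c1 : γ.length < (n + 1) * m
            · by_cases c2 : γ.length < m
              · rw [if_pos c1, if_pos c2]; exact le_self_add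
              · rw [if_pos c1, if_neg c2, if_pos (show _ ∧ _ from ⟨not_lt.1 c2, c1⟩)]
                exact le_add_self
            · rw [if_neg c1]; exact zero_le
        _ ≤ C * f y + C * f y := by rw [ENNReal.tsum_add]; exact add_le_add s1 s2
        _ = _ := by ring
  rw [ENNReal.tsum_eq_iSup_sum]
  refine iSup_le fun s => le_trans ?_ (key (s.sup List.length + 1) y)
  refine le_trans (le_of_eq (Finset.sum_congr rfl fun γ hγ => ?_)) (ENNReal.sum_le_tsum s)
  rw [if_pos]
  have := Finset.le_sup (f := List.length) hγ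
  nlinarith

theorem exists_pow_mul_le {ρ B : ℝ≥0∞} (hρ : ρ < 1) (hB : B ≠ ∞) :
    ∃ a : ℕ, 1 ≤ a ∧ ρ ^ a * B ≤ 2⁻¹ := by
  have h := ENNReal.Tendsto.mul_const (ENNReal.tendsto_pow_atTop_nhds_zero_of_lt_one hρ)
    (b := B) (Or.inr hB)
  rw [zero_mul] at h
  obtain ⟨a, ha⟩ := ((h.eventually (ge_mem_nhds (a := (2⁻¹ : ℝ≥0∞)) (by simp))).and
    (Filter.eventually_ge_atTop 1)).exists
  exact ⟨a, ha.2, ha.1⟩

end UpdAux

open UpdAux in
theorem update (hB : BlockStmt) : UpdateStmt := by
  classical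
  intro S _ G A _ Y step pos x₀ x' 𝒮 E hE hx hG h1 h2 h3 h4 h5 h6 hT N₀ hN₀
  obtain ⟨x, hx', hx₀⟩ := exists_between hx
  have hxt : x ≠ ∞ := ne_top_of_lt hx₀
  have hx0 : x ≠ 0 := ne_zero_of_lt hx'
  obtain ⟨R, θ, K, hR, h0, hθ, hK, hG⟩ := hG.mono hx₀.le
  obtain ⟨Θ, hΘ, hT⟩ := hT
  have hT' : ∀ y, Gr step x y (fun y' => ∃ t u, E t u ∧ pos y ∈ car t ∧ pos y' ∈ car u) ≤ Θ := by
    refine fun y => le_trans (ENNReal.tsum_le_tsum fun γ => ?_) (hT y)
    split_ifs
    · gcongr
    · exact le_rfl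
  have hinv : θ⁻¹ ≠ ∞ := ENNReal.inv_ne_top.2 h0
  set B := 1 + θ⁻¹ ^ 5 * Θ * K with hBdef
  have hBf : B ≠ ∞ := ENNReal.add_ne_top.2 ⟨by simp,
    ENNReal.mul_ne_top (ENNReal.mul_ne_top (ENNReal.pow_ne_top hinv) hΘ) hK⟩
  have hρ : x' / x < 1 := by
    rw [ENNReal.div_lt_iff (Or.inl hx0) (Or.inl hxt), one_mul]
    exact hx'
  obtain ⟨a, ha, haB⟩ := exists_pow_mul_le hρ hBf
  obtain ⟨q, hq, hqB⟩ := exists_pow_mul_le (ρ := 2⁻¹) (B := θ⁻¹ ^ (200 * a) * K)
    ENNReal.one_half_lt_one (ENNReal.mul_ne_top (ENNReal.pow_ne_top hinv) hK)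
  obtain ⟨N, hN, hle, S', hS', G', L, R', hR', hlab, hclq, hblk⟩ :=
    hB S G R 𝒮 E hR h1 h2 h3 h4 h5 h6 a (a * q) ha N₀ hN₀
  refine ⟨N, hN, hle, S', hS', G', L, hlab, hclq, R', θ ^ (10 * a), ?_⟩
  have hθ0 : θ ^ (10 * a) ≠ 0 := pow_ne_zero _ h0
  have hθ1 : θ ^ (10 * a) < 1 := pow_lt_one' hθ (by omega)
  have hE' : Edge step (fun y => L.phi (pos y)) := by
    intro y c
    obtain ⟨s, hs⟩ := hE y c
    exact ⟨_, by simp only [hs]; exact L.phi_mul_gen _ _⟩
  obtain ⟨K', hK', tot⟩ := total step (x := x') (c := (θ ^ (10 * a))⁻¹)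
    (ne_top_of_lt hx') (ENNReal.inv_ne_top.2 hθ0) (m := a * q) (Nat.mul_pos ha hq)
  refine ⟨K', hR', hθ0, hθ1, hK', fun o => tot
    (fun y => (θ ^ (10 * a)) ^ D R' o (L.phi (pos y))) (fun y γ => ?_) fun y => ?_⟩
  · refine (pow_le_of hθ0 hθ1 ?_).trans (le_of_eq (mul_comm _ _))
    have e1 := D_triangle (R := R') o (L.phi (pos (run step y γ))) (L.phi (pos y))
    have e2 := D_le_d (R := R') (L.phi (pos y)) (L.phi (pos (run step y γ)))
    have e3 := hE'.d_run y γ
    rw [D_comm (L.phi (pos (run step y γ)))] at e1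
    omega
  · obtain ⟨o', ho'⟩ := hblk o (pos y)
    have hd := dec hE hR h0 hθ hG hT' o' q y
    set f₀ := (θ ^ (10 * a)) ^ D R' o (L.phi (pos y))
    calc _ ≤ ∑' γ : List A, (x' / x) ^ (a * q) * (f₀ * θ⁻¹ ^ D R o' (pos y) * θ⁻¹ ^ (200 * a)) *
          (x ^ γ.length * (θ ^ D R o' (pos (run step y γ)) *
            θ⁻¹ ^ wmax R E o' q (pos y) (pos (run step y γ)))) := by
          refine ENNReal.tsum_le_tsum fun γ => ?_
          split_ifs with c
          swap
          · exact zero_le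
          obtain ⟨Js, hJs, l1, l2⟩ := ho' (pos (run step y γ)) (c ▸ hE.d_run y γ)
          have l3 := le_wmax hJs (n := q) (by
            rw [mul_comm a q] at l1
            exact Nat.le_of_mul_le_mul_right l1 ha)
          have l4 := pow_le_of h0 hθ (a := 10 * a * D R' o (L.phi (pos (run step y γ))))
            (b := 10 * a * D R' o (L.phi (pos y)) + D R o' (pos (run step y γ)))
            (c := D R o' (pos y) + wmax R E o' q (pos y) (pos (run step y γ)) + 200 * a)
            (by omega)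
          have l5 : x' ^ γ.length = (x' / x) ^ (a * q) * x ^ γ.length := by
            rw [c, ← mul_pow, ENNReal.div_mul_cancel hx0 hxt]
          rw [l5]
          rw [pow_mul, pow_add, pow_mul θ (10 * a) (D R' o (L.phi (pos y))), pow_add, pow_add] at l4
          refine (mul_le_mul_right l4 _).trans (le_of_eq ?_)
          ring
      _ ≤ (x' / x) ^ (a * q) * (f₀ * θ⁻¹ ^ D R o' (pos y) * θ⁻¹ ^ (200 * a)) *
          (B ^ q * (K * θ ^ D R o' (pos y))) := by
          rw [ENNReal.tsum_mul_left]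
          exact mul_le_mul_right hd _
      _ = ((x' / x) ^ a * B) ^ q * (θ⁻¹ ^ (200 * a) * K) * f₀ *
          (θ⁻¹ ^ D R o' (pos y) * θ ^ D R o' (pos y)) := by
          rw [mul_pow, ← pow_mul]; ring
      _ ≤ 2⁻¹ ^ q * (θ⁻¹ ^ (200 * a) * K) * f₀ * 1 := by
          rw [inv_pow_mul h0 hθ]
          gcongr
      _ ≤ _ := by
          rw [mul_one]
          exact mul_le_mul_left hqB _

end Pool.Agent.MP_c34dea_an.H23
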