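import Pool.Agent.MP_c34dea_an.H23.BChain
import Pool.Agent.MP_c34dea_an.H66.Ord

set_option autoImplicit false

open scoped Pointwise ENNReal

namespace Pool.Agent.MP_c34dea_an.H23

open Pool.Agent.MP_c34dea_an.H66

namespace BStep

variable {S : Type} {G : SimpleGraph S}

/-- hyperplanes that are not strongly separated from `K` -/
def T2 (K : Hyp G) : Set (Hyp G) := {r | ¬ TB0 K r}

/-- there is no long chain between `t` and `u` -/
def E5 (t u : Hyp G) : Prop :=
  ∀ B : Finset (Hyp G), (B : Set (Hyp G)) ⊆ Btw t u → (B : Set (Hyp G)).Pairwise TB0 → B.card ≤ 5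

theorem smul_T2 (g : W G) (K : Hyp G) : g • T2 K = T2 (g • K) := by
  ext r
  rw [Set.mem_smul_set_iff_inv_smul_mem]
  refine not_congr ⟨fun h => ?_, fun h => ?_⟩
  · simpa using tb0_smul g h
  · simpa using tb0_smul g⁻¹ h

theorem T2_convex {K t u : Hyp G} (ht : t ∈ T2 K) (hu : u ∈ T2 K) : Btw t u ⊆ T2 K := by
  intro r hr h
  rcases Btw_or hr h.not_stt with c | c
  · exact ht (adm_tb0.up K t K r h (left_mem_Btw _ _) c)
  · exact hu (adm_tb0.up K u K r h (left_mem_Btw _ _) c)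

theorem E5_smul (g : W G) {t u : Hyp G} (h : E5 t u) : E5 (g • t) (g • u) := by
  intro B h1 h2
  rw [← Finset.card_image_of_injective B (MulAction.injective g⁻¹)]
  refine h _ ?_ ?_
  · rw [Finset.coe_image]
    rintro _ ⟨a, ha, rfl⟩
    simpa using smul_mem_Btw g⁻¹ (h1 ha)
  · rw [Finset.coe_image]
    rintro _ ⟨a, ha, rfl⟩ _ ⟨b, hb, rfl⟩ hne
    exact tb0_smul _ (h2 ha hb fun e => hne (by rw [e]))

theorem d_le_of_mem_I {p q a b : W G} (ha : a ∈ I p q) (hb : b ∈ I p q) : d a b ≤ d p q := by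
  refine Finset.card_le_card fun k hk => ?_
  rw [mem_sep_trans a p b, sep_comm a p] at hk
  rcases hk with x | x
  · exact ha x.1
  · exact hb x.1

theorem sep_sub_of_mem_I {p q a b : W G} (ha : a ∈ I p q) (hb : b ∈ I p q) :
    sep a b ⊆ sep p q := by
  intro k hk
  rw [mem_sep_trans a p b, sep_comm a p] at hk
  rcases hk with x | x
  · exact ha x.1
  · exact hb x.1

theorem sep_or {h : Hyp G} {p q : W G} (r : W G) (hh : h ∈ sep p q) :
    h ∈ sep p r ∨ h ∈ sep r q := Finset.mem_union.1 (sep_subset_union p r q hh)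

/-- translates of two strongly separated hyperplanes are not in a common star -/
theorem not_star {N : Subgroup (W G)} {R : ℕ} (h0 : F0 N R) (h1 : LTP N R) {f f' k : Hyp G}
    (hn : Nr R f f') (ht : TB0 f f') {v v' : W G} (hv : v ∈ N) (hv' : v' ∈ N)
    (c : Stt k (v • f)) (c' : Stt k (v' • f')) : False := by
  have hm : v⁻¹ * v' ∈ N := N.mul_mem (N.inv_mem hv) hv'
  have a : Stt (v⁻¹ • k) f := by simpa using (stt_smul v⁻¹).2 c
  have a' : Stt (v⁻¹ • k) ((v⁻¹ * v') • f') := by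
    rw [mul_smul]; exact (stt_smul v⁻¹).2 c'
  rcases a with e | a
  · exact ht.not_stt (h0 f f' hn _ hm (e ▸ a'))
  rcases a' with e | a'
  · exact ht.not_stt (h0 f f' hn _ hm (Or.inr (e ▸ a.symm)))
  · exact h1 f f' _ hn ht _ hm ⟨a.symm, a'.symm⟩

/-- the faithfulness condition -/
theorem faith (hB : BridgeStmt) {N N' : Subgroup (W G)} {R : ℕ} (hle : N ≤ N') (hU : UseP N' N)
    (h0 : F0 N' R) (h1 : LTP N' R) {t u K : Hyp G} (hn : Nr R t u) {n : W G} (hnN : n ∈ N)
    (ht : t ∈ T2 K) (hu : n • u ∈ T2 K) : E5 t u := by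
  classical
  intro B hB1 hB2
  by_contra hc
  obtain ⟨y, hy, y', hy', b1, b2, b3⟩ := hB S G t u
  have hR : d y y' ≤ R := by
    obtain ⟨z, hz, z', hz', hd⟩ := hn
    exact (Finset.card_le_card (b3 z hz z' hz')).trans hd
  have near : ∀ {a b : Hyp G}, (∃ w ∈ I y y', w ∈ car a) → (∃ w ∈ I y y', w ∈ car b) →
      Nr R a b := by
    rintro a b ⟨w, hw, ha⟩ ⟨w', hw', hb⟩
    exact ⟨w, ha, w', hb, (d_le_of_mem_I hw hw').trans hR⟩
  have pt : ∀ {f : Hyp G}, f ∈ sep y y' → ∃ w ∈ I y y', w ∈ car f := fun hf => by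
    obtain ⟨w, hw, hc, -⟩ := exists_cross_pt hf
    exact ⟨w, hw, hc⟩
  have ptt : ∃ w ∈ I y y', w ∈ car t := ⟨y, left_mem_I _ _, hy⟩
  have ptu : ∃ w ∈ I y y', w ∈ car u := ⟨y', right_mem_I _ _, hy'⟩
  obtain ⟨r1, c1, c1'⟩ : ∃ r, Stt r K ∧ Stt r t := by
    by_contra x
    exact ht (tb0_iff.2 fun k c => x ⟨k, c⟩)
  obtain ⟨r2, c2, c2'⟩ : ∃ r, Stt r K ∧ Stt r (n • u) := by
    by_contra x
    exact hu (tb0_iff.2 fun k c => x ⟨k, c⟩)
  obtain ⟨a1, a1r, a1t⟩ := c1'.exists_mem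
  obtain ⟨a2, a2r, a2K⟩ := c1.exists_mem
  obtain ⟨a3, a3r, a3K⟩ := c2.exists_mem
  obtain ⟨a4, a4r, a4u⟩ := c2'.exists_mem
  have key : ∀ f ∈ sep y y', ∃ k ∈ ({r1, K, r2} : Finset (Hyp G)), ∃ v ∈ N', Stt k (v • f) := by
    intro f hf
    obtain ⟨v, hv, h⟩ := hU n hnN y' y y' f (mem_sep_comm.1 hf) fun v hv hvf => by
      have := h0 f (v • f) (near (pt hf) (pt (mem_sep_comm.1 hvf))) v⁻¹ (N'.inv_mem hv)
        (by rw [inv_smul_smul]; exact Stt.refl f)
      rcases this with e | c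
      · exact e
      · exact absurd c.adj (by simp)
    have h : v • f ∈ sep y (n * y') := h.resolve_left (by simp)
    have nt : ¬ Stt t f := by
      rintro (e | c)
      · exact ((b1 f).1 hf).2.1 e
      · exact (b2 f hf).1 c
    have nu : ¬ Stt u f := by
      rintro (e | c)
      · exact ((b1 f).1 hf).2.2 e
      · exact (b2 f hf).2 c
    rcases sep_or a1 h with h | h
    · exact absurd (h0 t f (near ptt (pt hf)) v hv (stt_of_car hy a1t h)) nt
    rcases sep_or a2 h with h | h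
    · exact ⟨r1, by simp, v, hv, stt_of_car a1r a2r h⟩
    rcases sep_or a3 h with h | h
    · exact ⟨K, by simp, v, hv, stt_of_car a2K a3K h⟩
    rcases sep_or a4 h with h | h
    · exact ⟨r2, by simp, v, hv, stt_of_car a3r a4r h⟩
    · have c := stt_of_car a4u ((smul_mem_car n).2 hy') h
      refine absurd (h0 u f (near ptu (pt hf)) (n⁻¹ * v)
        (N'.mul_mem (N'.inv_mem (hle hnN)) hv) ?_) nu
      rw [← stt_smul n, ← mul_smul, mul_inv_cancel_left]
      exact c
  have : Nonempty (Hyp G) := ⟨K⟩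
  choose! κ hκ hκ' using key
  have hsub : ∀ f ∈ (B.erase t).erase u, f ∈ sep y y' := fun f hf => by
    simp only [Finset.mem_erase] at hf
    exact (b1 f).2 ⟨hB1 hf.2.2, hf.2.1, hf.1⟩
  have hcard : ({r1, K, r2} : Finset (Hyp G)).card < ((B.erase t).erase u).card := by
    have e1 := Finset.pred_card_le_card_erase (s := B) (a := t)
    have e2 := Finset.pred_card_le_card_erase (s := B.erase t) (a := u)
    have e3 : ({r1, K, r2} : Finset (Hyp G)).card ≤ 3 := Finset.card_le_three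
    omega
  obtain ⟨f, hf, f', hf', hne, e⟩ := Finset.exists_ne_map_eq_of_card_lt_of_maps_to hcard
    (f := κ) fun f hf => hκ f (hsub f hf)
  obtain ⟨v, hv, c⟩ := hκ' f (hsub f hf)
  obtain ⟨v', hv', c'⟩ := hκ' f' (hsub f' hf')
  exact not_star h0 h1 (near (pt (hsub f hf)) (pt (hsub f' hf')))
    (hB2 (Finset.mem_of_mem_erase (Finset.mem_of_mem_erase hf))
      (Finset.mem_of_mem_erase (Finset.mem_of_mem_erase hf')) hne) hv hv' c (e ▸ c')

theorem mem_Btw_of_car {t u r : Hyp G} {z z' : W G} (hz : z ∈ car t) (hz' : z' ∈ car u)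
    (hr : r ∈ sep z z') (h1 : ¬ Stt t r) (h2 : ¬ Stt u r) : r ∈ Btw t u := by
  intro p q hp hq
  obtain ⟨a, ha, hca, -⟩ := exists_cross_pt hp
  obtain ⟨b, hb, hcb, -⟩ := exists_cross_pt hq
  refine sep_sub_of_mem_I ha hb ?_
  rcases sep_or a hr with h | h
  · exact absurd (stt_of_car hz hca h) h1
  rcases sep_or b h with h | h
  · exact h
  · exact absurd (stt_of_car hcb hz' h) h2

theorem D_le_seven {t u : Hyp G} {z z' : W G} (h : E5 t u) (hz : z ∈ car t) (hz' : z' ∈ car u) :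
    D TB0 z z' ≤ 7 := by
  classical
  have hs : sep z z' ⊆ (sep z z').filter (Stt t) ∪ (sep z z').filter (Stt u) ∪
      (sep z z').filter (· ∈ Btw t u) := by
    intro r hr
    simp only [Finset.mem_union, Finset.mem_filter]
    by_cases h1 : Stt t r
    · exact Or.inl (Or.inl ⟨hr, h1⟩)
    by_cases h2 : Stt u r
    · exact Or.inl (Or.inr ⟨hr, h2⟩)
    · exact Or.inr ⟨hr, mem_Btw_of_car hz hz' hr h1 h2⟩
  have e0 := ht_mono (R := TB0) hs
  have e1 := ht_union_le (R := TB0) ((sep z z').filter (Stt t) ∪ (sep z z').filter (Stt u))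
    ((sep z z').filter (· ∈ Btw t u))
  have e2 := ht_union_le (R := TB0) ((sep z z').filter (Stt t)) ((sep z z').filter (Stt u))
  have e3 : ht TB0 ((sep z z').filter (Stt t)) ≤ 1 :=
    ht_le_one_of_stt (fun _ _ x => x) fun r hr => (Finset.mem_filter.1 hr).2
  have e4 : ht TB0 ((sep z z').filter (Stt u)) ≤ 1 :=
    ht_le_one_of_stt (fun _ _ x => x) fun r hr => (Finset.mem_filter.1 hr).2
  have e5 : ht TB0 ((sep z z').filter (· ∈ Btw t u)) ≤ 5 :=
    ht_le fun B h1 h2 => h B (fun r hr => (Finset.mem_filter.1 (h1 hr)).2) h2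
  unfold D
  omega

/-- splitting an interval at the first block -/
theorem exists_block {p q : W G} (h : p ≠ q) :
    ∃ K z, (∀ r ∈ sep p z, r ∈ T2 K) ∧ D TB0 z q + 1 ≤ D TB0 p q := by
  classical
  obtain ⟨s, hs⟩ := exists_step h
  have hp : p ∈ car (hyp p s) := mem_car_hyp p s
  generalize hyp p s = K at hs hp
  obtain ⟨z, hz⟩ := exists_downset (p := p) (q := q) (D := (sep p q).filter (· ∈ T2 K))
    (Finset.filter_subset _ _) (by
      intro r hr j hj
      rw [Finset.mem_filter] at hr ⊢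
      refine ⟨hj.mem hr.1, fun c => hr.2 ?_⟩
      rcases lt_or_lt hs (hj.mem hr.1) c.not_stt with l | l
      · exact adm_tb0.up K r K j c (left_mem_Btw _ _) (mem_Btw_of_lt l hj)
      · simpa using l.mem_of_car hp)
  refine ⟨K, z, fun r hr => (Finset.mem_filter.1 (hz ▸ hr)).2, ?_⟩
  have hI : z ∈ I p q := by
    show sep p z ⊆ sep p q
    rw [hz]; exact Finset.filter_subset _ _
  have hr : ∀ r ∈ sep z q, r ∈ sep p q ∧ TB0 K r := fun r hr => by
    rw [sep_eq_sdiff_of_mem_I hI, hz, Finset.mem_sdiff, Finset.mem_filter] at hr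
    exact ⟨hr.1, by_contra fun c => hr.2 ⟨hr.1, c⟩⟩
  obtain ⟨B, h1, h2, e⟩ := exists_ht TB0 (sep z q)
  have hK : K ∉ B := fun c => (hr K (h1 c)).2.1 rfl
  unfold D
  rw [← e, ← Finset.card_insert_of_notMem hK]
  refine le_ht (Finset.insert_subset hs fun r x => (hr r (h1 x)).1) ?_
  rw [Finset.coe_insert]
  exact h2.insert fun r x _ => ⟨(hr r (h1 x)).2, (hr r (h1 x)).2.symm⟩

theorem count {S' : Type} [Finite S'] {G' : SimpleGraph S'} (L : Lab G G')
    (hc : ∀ K, Clq G' (L.lab '' T2 K)) (p q : W G) :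
    d (L.phi p) (L.phi q) ≤ D TB0 p q * Nat.card S' := by
  induction hn : D TB0 p q using Nat.strong_induction_on generalizing p with
  | _ n ih =>
    by_cases e : p = q
    · simp [e]
    obtain ⟨K, z, h1, h2⟩ := exists_block e
    have a1 : d (L.phi p) (L.phi z) ≤ Nat.card S' := d_le_card_of_clq (hc K) fun k hk => by
      obtain ⟨r, hr, rfl⟩ := Finset.mem_image.1 (L.sep_phi_subset p z hk)
      exact ⟨r, h1 r hr, rfl⟩
    have a2 := ih _ (by omega) z rfl
    have a3 := d_triangle (L.phi p) (L.phi z) (L.phi q)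
    have a4 : (D TB0 z q + 1) * Nat.card S' ≤ n * Nat.card S' :=
      Nat.mul_le_mul_right _ (by omega)
    rw [Nat.add_mul, Nat.one_mul] at a4
    omega

end BStep

open BStep in
theorem bstep (hB : BridgeStmt) (hL : LevelsStmt) (hU : UpdateStmt) : BStmt := by
  intro S _ G A _ Y step pos x x' hE hx hG N₀ hN₀
  obtain ⟨N, h1, h2, S', hS', G', L, h3, h4, h5⟩ := hU S G A Y step pos x x' (Set.range T2) E5
    hE hx hG
    (by rintro g _ ⟨K, rfl⟩; exact ⟨g • K, (smul_T2 g K).symm⟩)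
    (by rintro _ ⟨K, rfl⟩ t ht u hu; exact T2_convex ht hu)
    (fun t u h B hb => h B (by rwa [Btw_comm]))
    (fun g t u h => E5_smul g h)
    (fun t u t' u' h a b B hb => h B (hb.trans (Btw_subset a b)))
    (fun R => by
      obtain ⟨N', a1, a2, a3, -⟩ := (hL S G).2 R
      obtain ⟨N, b1, b2, b3⟩ := (hL S G).1 N' a1
      refine ⟨N, b1, ?_⟩
      rintro t u hn - - _ ⟨K, rfl⟩ n hnN ht hu
      exact faith hB b2 b3 a2 a3 hn hnN ht hu)
    (by
      obtain ⟨C, c1, c2⟩ := hG.gr_tb 7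
      refine ⟨C, c1, fun y => le_trans (Gr_mono ?_) (c2 y)⟩
      rintro y' ⟨t, u, e, a, b⟩
      exact D_le_seven e a b)
    N₀ hN₀
  exact ⟨N, h1, h2, S', hS', G', L, h3, h5, count L fun K => h4 _ ⟨K, rfl⟩⟩

end Pool.Agent.MP_c34dea_an.H23
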