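import Mathlib

set_option autoImplicit false
open MeasureTheory
open scoped symmDiff ENNReal

namespace Pool.Agent.MP_c34dea_an.H23

variable {Γ : Type} [Group Γ]

/-- A measured inverse limit of the coset spaces of a chain of subgroups. -/
structure Sys (H : ℕ → Subgroup Γ) (X : Type) [MeasurableSpace X] [MulAction Γ X]
    (μ : Measure X) where
  p : ∀ n, X → Γ ⧸ H n
  meas_p : ∀ n (C : Set (Γ ⧸ H n)), MeasurableSet (p n ⁻¹' C)
  equiv : ∀ n (g : Γ) x, p n (g • x) = g • p n x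
  compat : ∀ m n, m ≤ n → ∀ x (g : Γ), p n x = g → p m x = g
  sep : ∀ x y, (∀ n, p n x = p n y) → x = y
  mp : ∀ g : Γ, MeasurePreserving (fun x : X => g • x) μ μ
  approx : ∀ B, MeasurableSet B → ∀ ε : ℝ≥0∞, 0 < ε →
    ∃ n₀, ∀ n, n₀ ≤ n → ∃ C : Set (Γ ⧸ H n), μ ((p n ⁻¹' C) ∆ B) < ε

/-- A level with the discrete sigma-algebra. -/
def Lv (K : Subgroup Γ) : Type := Γ ⧸ K

instance (K : Subgroup Γ) : MeasurableSpace (Lv K) := ⊤
instance (K : Subgroup Γ) : DiscreteMeasurableSpace (Lv K) := ⟨fun _ => trivial⟩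
instance (K : Subgroup Γ) [Countable Γ] : Countable (Lv K) :=
  (QuotientGroup.mk_surjective (s := K)).countable

/-- Compatible sequences of cosets. -/
def LimSet (H : ℕ → Subgroup Γ) : Set (∀ n, Lv (H n)) :=
  {x | ∀ m n, m ≤ n → ∀ g : Γ, x n = (g : Γ ⧸ H n) → x m = (g : Γ ⧸ H m)}

theorem measurableSet_limSet [Countable Γ] (H : ℕ → Subgroup Γ) : MeasurableSet (LimSet H) := by
  have : LimSet H = ⋂ m, ⋂ n, ⋂ (_ : m ≤ n), ⋂ g : Γ,
      ((fun x : ∀ n, Lv (H n) => x n) ⁻¹' {y | y = (g : Γ ⧸ H n)})ᶜ ∪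
        (fun x : ∀ n, Lv (H n) => x m) ⁻¹' {y | y = (g : Γ ⧸ H m)} := by
    ext x
    simp only [LimSet, Set.mem_ofPred_eq, Set.mem_iInter, Set.mem_union, Set.mem_compl_iff,
      Set.mem_preimage, imp_iff_not_or]
  rw [this]
  refine MeasurableSet.iInter fun m => MeasurableSet.iInter fun n =>
    MeasurableSet.iInter fun _ => MeasurableSet.iInter fun g => ?_
  exact (measurable_pi_apply n (MeasurableSet.of_discrete)).compl.union
    (measurable_pi_apply m (MeasurableSet.of_discrete))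

/-- The inverse limit. -/
def LimX (H : ℕ → Subgroup Γ) : Type := LimSet H

instance (H : ℕ → Subgroup Γ) : MeasurableSpace (LimX H) :=
  inferInstanceAs (MeasurableSpace (LimSet H))

instance [Countable Γ] (H : ℕ → Subgroup Γ) : StandardBorelSpace (LimX H) :=
  (measurableSet_limSet H).standardBorel

/-- Projection to a level. -/
def LimX.p {H : ℕ → Subgroup Γ} (n : ℕ) (x : LimX H) : Γ ⧸ H n := x.1 n

theorem LimX.ext' {H : ℕ → Subgroup Γ} {x y : LimX H} (h : ∀ n, x.p n = y.p n) : x = y :=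
  Subtype.ext (funext h)

theorem LimX.compat {H : ℕ → Subgroup Γ} (x : LimX H) {m n : ℕ} (h : m ≤ n) (g : Γ)
    (hg : x.p n = g) : x.p m = g := x.2 m n h g hg

instance (H : ℕ → Subgroup Γ) : MulAction Γ (LimX H) where
  smul g x := ⟨fun n => (g • x.p n : Γ ⧸ H n), fun m n h k hk => by
    have h1 : x.p n = ((g⁻¹ * k : Γ) : Γ ⧸ H n) := by
      have hk' : g • x.p n = (k : Γ ⧸ H n) := hk
      rw [← smul_eq_mul, ← MulAction.Quotient.smul_coe, ← hk', inv_smul_smul]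
    have h2 := x.compat h _ h1
    change g • x.p m = (k : Γ ⧸ H m)
    rw [h2, MulAction.Quotient.smul_coe]
    simp⟩
  one_smul x := LimX.ext' fun n => one_smul Γ (x.p n)
  mul_smul g h x := LimX.ext' fun n => mul_smul g h (x.p n)

theorem LimX.p_smul {H : ℕ → Subgroup Γ} (n : ℕ) (g : Γ) (x : LimX H) :
    (g • x).p n = g • x.p n := rfl

theorem LimX.meas_p {H : ℕ → Subgroup Γ} (n : ℕ) (C : Set (Γ ⧸ H n)) :
    MeasurableSet (LimX.p n ⁻¹' C : Set (LimX H)) := by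
  have h : Measurable (fun x : LimSet H => x.1 n) :=
    (measurable_pi_apply n).comp measurable_subtype_coe
  exact h (MeasurableSet.of_discrete (α := Lv (H n)) (s := C))

theorem LimX.measurable_of {H : ℕ → Subgroup Γ} {Z : Type} [MeasurableSpace Z] (f : Z → LimX H)
    (hf : ∀ n (C : Set (Γ ⧸ H n)), MeasurableSet ((fun z => (f z).p n) ⁻¹' C)) :
    Measurable f := by
  have h : Measurable (fun z => ((f z).1 : ∀ n, Lv (H n))) :=
    measurable_pi_lambda _ fun n C _ => hf n C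
  exact h.subtype_mk (h := fun z => (f z).2)

theorem LimX.measurable_smul {H : ℕ → Subgroup Γ} (g : Γ) :
    Measurable (fun x : LimX H => g • x) :=
  LimX.measurable_of _ fun n C => LimX.meas_p n ((fun y => g • y) ⁻¹' C)

/-- Permutations of a level with the discrete topology. -/
def DP (K : Subgroup Γ) : Type := Equiv.Perm (Γ ⧸ K)

instance (K : Subgroup Γ) : Group (DP K) := inferInstanceAs (Group (Equiv.Perm (Γ ⧸ K)))
instance (K : Subgroup Γ) : TopologicalSpace (DP K) := ⊥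
instance (K : Subgroup Γ) : DiscreteTopology (DP K) := ⟨rfl⟩
instance (K : Subgroup Γ) [K.FiniteIndex] : Finite (DP K) :=
  inferInstanceAs (Finite (Equiv.Perm (Γ ⧸ K)))

/-- Evaluation of a permutation of a level. -/
def DP.ev {K : Subgroup Γ} (σ : DP K) (y : Γ ⧸ K) : Γ ⧸ K := (show Equiv.Perm (Γ ⧸ K) from σ) y

theorem DP.ev_mul {K : Subgroup Γ} (σ τ : DP K) (y : Γ ⧸ K) : (σ * τ).ev y = σ.ev (τ.ev y) := rfl
theorem DP.ev_one {K : Subgroup Γ} (y : Γ ⧸ K) : (1 : DP K).ev y = y := rfl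

theorem coe_eq_of_le {A B : Subgroup Γ} (h : A ≤ B) {g g' : Γ} (e : (g : Γ ⧸ A) = g') :
    (g : Γ ⧸ B) = g' := QuotientGroup.eq.2 (h (QuotientGroup.eq.1 e))

/-- The compact group of compatible families of permutations. -/
def CG (H : ℕ → Subgroup Γ) (hH : Antitone H) : Subgroup (∀ n, DP (H n)) where
  carrier := {σ | ∀ m n, m ≤ n → ∀ g g' : Γ,
    (σ n).ev (g : Γ ⧸ H n) = (g' : Γ ⧸ H n) → (σ m).ev (g : Γ ⧸ H m) = (g' : Γ ⧸ H m)}
  one_mem' := fun m n h g g' e => coe_eq_of_le (hH h) e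
  mul_mem' := by
    intro σ τ hσ hτ m n h g g' hg
    rw [Pi.mul_apply, DP.ev_mul] at hg ⊢
    obtain ⟨k, hk⟩ := QuotientGroup.mk_surjective ((τ n).ev (g : Γ ⧸ H n))
    rw [hτ m n h g k hk.symm]
    exact hσ m n h k g' (hk ▸ hg)
  inv_mem' := by
    intro σ hσ m n h g g' hg
    have h1 : (σ n).ev (g' : Γ ⧸ H n) = g := by
      rw [← hg, ← DP.ev_mul, Pi.inv_apply, mul_inv_cancel, DP.ev_one]
    rw [← hσ m n h g' g h1, ← DP.ev_mul, Pi.inv_apply, inv_mul_cancel, DP.ev_one]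

theorem isClosed_CG (H : ℕ → Subgroup Γ) (hH : Antitone H) :
    IsClosed (CG H hH : Set (∀ n, DP (H n))) := by
  have : (CG H hH : Set (∀ n, DP (H n))) = ⋂ m, ⋂ n, ⋂ (_ : m ≤ n), ⋂ g : Γ, ⋂ g' : Γ,
      (fun σ : ∀ n, DP (H n) => (σ n, σ m)) ⁻¹'
        {q | q.1.ev (g : Γ ⧸ H n) = (g' : Γ ⧸ H n) → q.2.ev (g : Γ ⧸ H m) = (g' : Γ ⧸ H m)} := by
    ext σ
    simp only [Set.mem_iInter, Set.mem_preimage, Set.mem_ofPred_eq]
    rfl
  rw [this]
  refine isClosed_iInter fun m => isClosed_iInter fun n => isClosed_iInter fun _ =>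
    isClosed_iInter fun g => isClosed_iInter fun g' => ?_
  exact (isClosed_discrete _).preimage ((continuous_apply n).prodMk (continuous_apply m))

/-- The image of `Γ` in the compact group. -/
def toCG (H : ℕ → Subgroup Γ) (hH : Antitone H) (γ : Γ) : CG H hH :=
  ⟨fun n => (MulAction.toPerm γ : Equiv.Perm (Γ ⧸ H n)), fun m n h g g' e => by
    have e' : ((γ * g : Γ) : Γ ⧸ H n) = g' := e
    exact coe_eq_of_le (hH h) e'⟩

/-- The orbit map. -/
def orb (H : ℕ → Subgroup Γ) (hH : Antitone H) (σ : CG H hH) : LimX H :=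
  ⟨fun n => (σ.1 n).ev ((1 : Γ) : Γ ⧸ H n), fun m n h g e => σ.2 m n h 1 g e⟩

theorem orb_mul (H : ℕ → Subgroup Γ) (hH : Antitone H) (γ : Γ) (σ : CG H hH) :
    orb H hH (toCG H hH γ * σ) = γ • orb H hH σ := rfl

theorem exists_invariant (H : ℕ → Subgroup Γ) (hH : Antitone H) (hfi : ∀ n, (H n).FiniteIndex) :
    ∃ μ : Measure (LimX H), IsProbabilityMeasure μ ∧
      ∀ g : Γ, MeasurePreserving (fun x : LimX H => g • x) μ μ := by
  have : CompactSpace (CG H hH) := isCompact_iff_compactSpace.1 (isClosed_CG H hH).isCompact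
  let : MeasurableSpace (CG H hH) := borel _
  have : BorelSpace (CG H hH) := ⟨rfl⟩
  let ν : Measure (CG H hH) := Measure.haarMeasure ⊤
  have : IsProbabilityMeasure ν := ⟨by
    have := Measure.haarMeasure_self (G := CG H hH) (K₀ := ⊤)
    simpa using this⟩
  have hm : Measurable (orb H hH) := by
    refine LimX.measurable_of _ fun n C => ?_
    have hc : Continuous (fun σ : CG H hH => σ.1 n) := (continuous_apply n).comp continuous_subtype_val
    exact ((isOpen_discrete {τ : DP (H n) | τ.ev ((1 : Γ) : Γ ⧸ H n) ∈ C}).preimage hc).measurableSet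
  refine ⟨ν.map (orb H hH), Measure.isProbabilityMeasure_map hm.aemeasurable, fun g => ?_⟩
  refine ⟨LimX.measurable_smul g, ?_⟩
  rw [Measure.map_map (LimX.measurable_smul g) hm]
  have : (fun x : LimX H => g • x) ∘ orb H hH = orb H hH ∘ (fun σ => toCG H hH g * σ) := rfl
  rw [this, ← Measure.map_map hm (measurable_const_mul _), map_mul_left_eq_self]

/-- Cylinder sets. -/
def Cyl (H : ℕ → Subgroup Γ) : Set (Set (LimX H)) :=
  {s | ∃ n, ∃ C : Set (Γ ⧸ H n), s = LimX.p n ⁻¹' C}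

theorem cyl_lift {H : ℕ → Subgroup Γ} {m n : ℕ} (h : m ≤ n) (C : Set (Γ ⧸ H m)) :
    ∃ C' : Set (Γ ⧸ H n), (LimX.p m ⁻¹' C : Set (LimX H)) = LimX.p n ⁻¹' C' := by
  refine ⟨{y | ((y.out : Γ) : Γ ⧸ H m) ∈ C}, ?_⟩
  ext x
  simp only [Set.mem_preimage, Set.mem_ofPred_eq]
  rw [x.compat h (x.p n).out (QuotientGroup.out_eq' _).symm]

theorem isSetRing_cyl (H : ℕ → Subgroup Γ) : IsSetRing (Cyl H) where
  empty_mem := ⟨0, ∅, rfl⟩
  union_mem := by
    rintro _ _ ⟨m, C, rfl⟩ ⟨n, D, rfl⟩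
    obtain ⟨C', hC⟩ := cyl_lift (le_max_left m n) C
    obtain ⟨D', hD⟩ := cyl_lift (le_max_right m n) D
    exact ⟨max m n, C' ∪ D', by rw [hC, hD]; rfl⟩
  sdiff_mem := by
    rintro _ _ ⟨m, C, rfl⟩ ⟨n, D, rfl⟩
    obtain ⟨C', hC⟩ := cyl_lift (le_max_left m n) C
    obtain ⟨D', hD⟩ := cyl_lift (le_max_right m n) D
    exact ⟨max m n, C' \ D', by rw [hC, hD]; rfl⟩

theorem generateFrom_cyl (H : ℕ → Subgroup Γ) :
    (inferInstance : MeasurableSpace (LimX H)) = MeasurableSpace.generateFrom (Cyl H) := by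
  refine le_antisymm ?_ (MeasurableSpace.generateFrom_le ?_)
  · have : @Measurable (LimX H) (LimX H) (MeasurableSpace.generateFrom (Cyl H)) _ id :=
      @LimX.measurable_of _ _ H (LimX H) (MeasurableSpace.generateFrom (Cyl H)) id
        fun n C => MeasurableSpace.measurableSet_generateFrom ⟨n, C, rfl⟩
    exact this.le_map
  · rintro _ ⟨n, C, rfl⟩
    exact LimX.meas_p n C

theorem exists_sys (H : ℕ → Subgroup Γ) (hH : Antitone H) (hfi : ∀ n, (H n).FiniteIndex) :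
    ∃ μ : Measure (LimX H), IsProbabilityMeasure μ ∧ Nonempty (Sys H (LimX H) μ) := by
  obtain ⟨μ, hμ, hinv⟩ := exists_invariant H hH hfi
  refine ⟨μ, hμ, ⟨⟨LimX.p, LimX.meas_p, LimX.p_smul, fun m n h x g e => x.compat h g e,
    fun x y h => LimX.ext' h, hinv, fun B hB ε hε => ?_⟩⟩⟩
  obtain ⟨_, ⟨n₀, C, rfl⟩, ht⟩ := exists_measure_symmDiff_lt_of_generateFrom_isSetRing (μ := μ)
    (isSetRing_cyl H) ⟨{Set.univ}, Set.countable_singleton _, by
      rintro _ rfl
      exact ⟨0, Set.univ, rfl⟩, by simp⟩ (generateFrom_cyl H) hB hε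
  refine ⟨n₀, fun n hn => ?_⟩
  obtain ⟨C', hC⟩ := cyl_lift hn C
  exact ⟨C', hC ▸ ht⟩

end Pool.Agent.MP_c34dea_an.H23
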