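import Pool.Agent.MP_c34dea_an.H23.StepA

set_option autoImplicit false

open scoped Pointwise ENNReal

namespace Pool.Agent.MP_c34dea_an.H23

open Pool.Agent.MP_c34dea_an.H66

namespace Step

section Gen

variable {S : Type} {G : SimpleGraph S} {Γ X : Type} [Group Γ] [MulAction Γ X]
  {δ : Γ → X → W G} {Z : PF 2 Γ X}

theorem pt_eq {α : W G} {b : X} {w : List Lt2} {g : Γ} (h : Z.walk w b = some g) :
    pt δ Z (α, b) w = α * δ g b := by
  simp [pt, h]

theorem tree_smul (g α : W G) (b : X) : g • Tree δ Z (α, b) = Tree δ Z (g * α, b) := by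
  ext p
  constructor
  · rintro ⟨_, ⟨w, k, h, rfl⟩, rfl⟩
    exact ⟨w, k, h, (mul_assoc _ _ _).symm⟩
  · rintro ⟨w, k, h, rfl⟩
    exact ⟨_, ⟨w, k, h, rfl⟩, (mul_assoc _ _ _).symm⟩

theorem WH_smul (g : W G) (Ω : Set (W G)) : g • WH Ω = WH (g • Ω) := by
  ext h
  rw [Set.mem_smul_set_iff_inv_smul_mem, ← smul_mem_WH g, smul_inv_smul]

theorem zprog (hδ : Coc δ) {L s g ν : ℕ} (hL : ∀ b l a, Z.lab b l = some a → d 1 (δ a b) ≤ L)
    (h1 : ∀ b u a, FreeGroup.IsReduced u → Z.walk u b = some a → s ≤ u.length → u.length ≤ g →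
      2 * L + 2 ≤ D TB0 1 (δ a b))
    (h2 : ∀ b u a, FreeGroup.IsReduced u → Z.walk u b = some a → u.length = g →
      2 * s * L + ν ≤ D TB0 1 (δ a b)) : ZProg δ Z L s g ν := by
  rintro ⟨α, b⟩ w hr hw
  have key : ∀ i j, i ≤ j → j ≤ w.length → ∃ (u : List Lt2) (b' : X) (k : Γ), u.length = j - i ∧
      FreeGroup.IsReduced u ∧ Z.walk u b' = some k ∧
      pt δ Z (α, b) (w.take j) = pt δ Z (α, b) (w.take i) * δ k b' := by
    intro i j hij hj
    obtain ⟨u, a, k, e1, e2, e3, e4, e5⟩ := seg hw hr hij hj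
    exact ⟨u, a • b, k, e1, e2, e4, by rw [pt_eq e3, pt_eq e5, hδ.mul, mul_assoc]⟩
  have hD : ∀ p q : W G, D TB0 p (p * q) = D TB0 1 q := fun p q => by
    simpa using D_smul adm_tb0 p 1 q
  refine ⟨fun i hi => ?_, fun i j e1 e2 e3 => ?_, fun i e1 => ?_⟩
  · obtain ⟨u, b', k, c1, -, c3, c4⟩ := key i (i + 1) (by omega) hi
    obtain ⟨l, rfl⟩ := List.length_eq_one_iff.1 (by omega : u.length = 1)
    obtain ⟨a, k', d1, d2, rfl⟩ := Z.walk_cons_eq_some.1 c3
    obtain rfl : 1 = k' := Option.some.inj d2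
    have := d_smul (pt δ Z (α, b) (w.take i)) 1 (δ a b')
    rw [mul_one] at this
    rw [c4, one_mul, this]
    exact hL _ _ _ d1
  · obtain ⟨u, b', k, c1, c2, c3, c4⟩ := key i j (by omega) e3
    rw [c4, hD]
    exact h1 _ _ _ c2 c3 (by omega) (by omega)
  · obtain ⟨u, b', k, c1, c2, c3, c4⟩ := key i (i + g) (by omega) e1
    rw [c4, hD]
    exact h2 _ _ _ c2 c3 (by omega)

end Gen

variable (σ : Stage)

/-- steps of the system of translates -/
noncomputable abbrev stY : W σ.G × Γ5 → Fin 5 → W σ.G × Γ5 := fun z a => (z.1, st5 z.2 a)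

/-- positions of the system of translates -/
noncomputable abbrev posY : W σ.G × Γ5 → W σ.G := fun z => z.1 * σ.pos z.2

theorem edgeY : Edge (stY σ) (posY σ) := fun z a => by
  obtain ⟨l, hl⟩ := σ.edge z.2 a
  exact ⟨l, by simp only [posY, st5, hl, mul_assoc]⟩

theorem runY (γ : List (Fin 5)) : ∃ g : Γ5, ∀ c y, run (stY σ) (c, y) γ = (c, g * y) := by
  induction γ with
  | nil => exact ⟨1, by simp⟩
  | cons a γ ih =>
    obtain ⟨g, hg⟩ := ih
    exact ⟨g * gen G5 a, fun c y => by rw [run_cons, hg, st5, mul_assoc]⟩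

theorem gd_of {S' : Type} {G' : SimpleGraph S'} {f : W σ.G → W G'} {x : ℝ≥0∞}
    (h : GoodAt (stY σ) (fun z => f (posY σ z)) x) : GoodAt st5 (fun y => f (σ.pos y)) x := by
  simpa only [posY, one_mul] using h.comap (step' := st5) (f := fun y => (1, y)) fun _ _ => rfl

theorem Fh_le (x : ℝ≥0∞) (u : ℕ) (c α β : W σ.G) :
    Fh (stY σ) (posY σ) x u α β ≤ Fh (stY σ) (posY σ) x u (c * α) (c * β) := by
  refine iSup₂_le fun ζ hζ => le_iSup₂_of_le (c * ζ.1, ζ.2) ?_ (le_of_eq ?_)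
  · simpa only [posY, mul_assoc, D_smul adm_tb0] using hζ
  · unfold Gr
    refine tsum_congr fun γ => ?_
    obtain ⟨g, hg⟩ := runY σ γ
    rw [hg ζ.1 ζ.2, hg]
    simp only [posY, mul_assoc, D_smul adm_tb0]
    congr

/-- the cocycle on a coset space -/
noncomputable def dl (K : Subgroup Γ5) (g : Γ5) (b : Γ5 ⧸ K) : W σ.G :=
  (σ.pos b.out)⁻¹ * σ.pos (g * b.out)

theorem dl_mk {K : Subgroup Γ5} (hK : K ≤ σ.H) (g y : Γ5) :
    dl σ K g y = (σ.pos y)⁻¹ * σ.pos (g * y) := by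
  obtain ⟨h, hh⟩ := QuotientGroup.mk_out_eq_mul K y
  rw [dl, hh, ← mul_assoc, σ.mul _ (hK h.2), σ.mul _ (hK h.2)]
  group

theorem dl_coc {K : Subgroup Γ5} (hK : K ≤ σ.H) : Coc (dl σ K) := by
  refine ⟨fun b => by simp [dl], fun g g' b => ?_⟩
  induction b using QuotientGroup.induction_on with
  | H y =>
    rw [MulAction.Quotient.smul_mk, dl_mk σ hK, dl_mk σ hK, dl_mk σ hK, smul_eq_mul]
    group

theorem d_dl (K : Subgroup Γ5) (g : Γ5) (b : Γ5 ⧸ K) : d 1 (dl σ K g b) ≤ d 1 g := by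
  rw [← d_smul (σ.pos b.out), dl, mul_one, mul_inv_cancel_left]
  exact d_pos σ _ _

theorem d_walk {X : Type} [MulAction Γ5 X] {P : PF 2 Γ5 X} {L : ℕ}
    (hL : ∀ b l a, P.lab b l = some a → d 1 a ≤ L) {w : List Lt2} {b : X} {g : Γ5}
    (hw : P.walk w b = some g) : d 1 g ≤ w.length * L := by
  induction w generalizing b g with
  | nil =>
    obtain rfl : 1 = g := Option.some.inj hw
    simp
  | cons l w ih =>
    obtain ⟨a, k, h1, h2, rfl⟩ := P.walk_cons_eq_some.1 hw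
    have e := d_smul k 1 a
    rw [mul_one] at e
    have := d_triangle 1 k (k * a)
    have := ih h2
    have := hL _ _ _ h1
    rw [List.length_cons, add_mul]
    omega

theorem exists_bound {B : Subgroup Γ5} (hB : B.FiniteIndex) (Q : PF 2 Γ5 (Γ5 ⧸ B)) :
    ∃ L, ∀ b l a, Q.lab b l = some a → d 1 a ≤ L := by
  obtain ⟨L, hL⟩ := (Set.finite_range fun p : (Γ5 ⧸ B) × Lt2 =>
    d 1 ((Q.lab p.1 p.2).getD 1)).bddAbove
  exact ⟨L, fun b l a h => by simpa [h] using hL ⟨(b, l), rfl⟩⟩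

/-- the new stage has short closed walks -/
theorem far_nw {N : Subgroup (W σ.G)} (hN : NF N) {S' : Type} [Finite S'] {G' : SimpleGraph S'}
    (L : Lab σ.G G') (hL : ∀ n ∈ N, ∀ h, L.lab (n • h) = L.lab h) {B K : Subgroup Γ5}
    (Q : PF 2 Γ5 (Γ5 ⧸ B)) (hK : K ≤ σ.H) (hK' : lev σ.mul N ≤ K) (Z : PF 2 Γ5 (Γ5 ⧸ K))
    (hZ : Z.Below Q) (hs : 21 * Nat.card (Γ5 ⧸ K) ≤ 10 * Z.size)
    (hc : ∀ υ, Clq G' (L.lab '' WH (Tree (dl σ K) Z υ))) : ∃ R, (nw σ hN L hL).Far Q R := by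
  have hfi := lev_fi σ.mul σ.fi hN.2
  have hball := (ball_finite (1 : W G') (Nat.card S')).to_subtype
  refine ⟨Nat.card ({q | d (1 : W G') q ≤ Nat.card S'} × (Γ5 ⧸ lev σ.mul N)), fun K' h' P hP hP' => ?_⟩
  set R := Nat.card ({q | d (1 : W G') q ≤ Nat.card S'} × (Γ5 ⧸ lev σ.mul N)) with hR
  have := sub_fi _ h'
  have := Fintype.ofFinite (Γ5 ⧸ K')
  have hle : K' ≤ K := h'.1.trans hK'
  have h1 := pull_big hle Z hs
  have h2 := meet_size P (pull hle Z) fun b l g g' e e' => by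
    induction b using QuotientGroup.induction_on with
    | H y => exact Option.some.inj ((hP y l g e).symm.trans (hZ y l g' e'))
  obtain ⟨b, -, w, g, hw, hr, hg⟩ := (meet P (pull hle Z)).exists_long_walk Finset.univ
    Finset.univ_nonempty (by
      rw [PF.darts_univ, Finset.card_univ, ← Nat.card_eq_fintype_card]; omega) R
  induction b using QuotientGroup.induction_on with
  | H y =>
  have hsome : ((meet P (pull hle Z)).walk w (y : Γ5 ⧸ K')).isSome := by simp [hg]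
  have ha : ∀ i : Fin (R + 1), ∃ a, (meet P (pull hle Z)).walk (w.take i) (y : Γ5 ⧸ K') = some a :=
    fun i => by
      obtain ⟨-, a, -, -, -, e, -⟩ := seg hsome hr (le_refl (i : ℕ)) (by omega)
      exact ⟨a, e⟩
  choose a ha using ha
  have hd : ∀ i, d 1 ((L.phi (σ.pos y))⁻¹ * L.phi (σ.pos (a i * y))) ≤ Nat.card S' := fun i => by
    rw [← d_smul (L.phi (σ.pos y)), mul_one, mul_inv_cancel_left]
    refine d_le_card_of_clq (hc (σ.pos y, y)) fun k hk => ?_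
    obtain ⟨h, hh, rfl⟩ := Finset.mem_image.1 (L.sep_phi_subset _ _ hk)
    refine ⟨h, ⟨_, ⟨[], 1, rfl, ?_⟩, _, ⟨_, a i,
      pull_walk hle (walk_le (meet_le_right _ _) (ha i)), ?_⟩, hh⟩, rfl⟩
    · simp [dl_mk σ hK]
    · simp [dl_mk σ hK]
  let f : Fin (R + 1) → {q | d (1 : W G') q ≤ Nat.card S'} × (Γ5 ⧸ lev σ.mul N) :=
    fun i => (⟨_, hd i⟩, (a i * y : Γ5))
  have hf : ¬ Function.Injective f := fun h => by
    have := Nat.card_le_card_of_injective f h
    rw [Nat.card_fin] at this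
    omega
  obtain ⟨i, j, e, hij⟩ : ∃ i j, f i = f j ∧ i < j := by
    simp only [Function.Injective, not_forall] at hf
    obtain ⟨i, j, e, hne⟩ := hf
    rcases lt_or_gt_of_ne hne with h | h
    · exact ⟨i, j, e, h⟩
    · exact ⟨j, i, e.symm, h⟩
  obtain ⟨u, a', k, e1, e2, e3, e4, e5⟩ := seg hsome hr hij.le (by omega : (j : ℕ) ≤ w.length)
  obtain rfl : a i = a' := Option.some.inj ((ha i).symm.trans e3)
  have e6 : a j = k * a i := Option.some.inj ((ha j).symm.trans e5)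
  have hij' : (i : ℕ) < j := hij
  obtain ⟨c1, c2⟩ := Prod.ext_iff.1 e
  have c3 : (a i * y)⁻¹ * k * (a i * y) ∈ lev σ.mul N := by
    have := QuotientGroup.eq.1 c2
    rwa [e6, mul_assoc k, ← mul_assoc] at this
  refine ⟨a i * y, u, k, fun h => by simp [h] at e1; omega, e2, by omega,
    walk_le (meet_le_left _ _) e4, c3, ?_⟩
  have c4 := pos_conj (nw σ hN L hL) c3
  have c5 : L.phi (σ.pos (a i * y)) = L.phi (σ.pos (a j * y)) :=
    mul_left_cancel (congrArg Subtype.val c1)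
  rw [← mul_assoc, ← e6] at c4
  exact mul_right_cancel (c4.symm.trans (c5.symm.trans (one_mul _).symm))

theorem kappa {NB : Subgroup (W σ.G)} (hNB : NF NB) {S' : Type} {G' : SimpleGraph S'}
    (ψ : Lab σ.G G') (hψ : ∀ n ∈ NB, ∀ h, ψ.lab (n • h) = ψ.lab h) :
    ∀ (ζ ζ' : W σ.G × Γ5) (γ : List (Fin 5)),
      ((posY σ ζ : W σ.G ⧸ NB), (ζ.2 : Γ5 ⧸ σ.H)) = ((posY σ ζ' : W σ.G ⧸ NB), (ζ'.2 : Γ5 ⧸ σ.H)) →
      ψ.phi (posY σ ζ) = ψ.phi (posY σ ζ') →
      ψ.phi (posY σ (run (stY σ) ζ γ)) = ψ.phi (posY σ (run (stY σ) ζ' γ)) := by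
  rintro ⟨c, y⟩ ⟨c', y'⟩ γ e e'
  obtain ⟨e1, e2⟩ := Prod.ext_iff.1 e
  obtain ⟨a, ha⟩ := runY σ γ
  have h1 : y⁻¹ * y' ∈ σ.H := QuotientGroup.eq.1 e2
  have h2 : ∀ z, σ.pos (z * y') = σ.pos (y⁻¹ * y') * σ.pos (z * y) := fun z => by
    rw [← σ.mul _ h1]
    congr 1
    group
  have h3 : c' * σ.pos (y⁻¹ * y') * c⁻¹ ∈ NB := by
    have := hNB.1.conj_mem _ (QuotientGroup.eq.1 e1) (c * σ.pos y)
    have h4 := h2 1
    simp only [one_mul] at h4
    simp only [posY] at this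
    rw [h4] at this
    convert this using 1
    group
  have h4 : ∀ z, ψ.phi (c' * σ.pos (z * y')) =
      ψ.phi (c' * σ.pos (y⁻¹ * y') * c⁻¹) * ψ.phi (c * σ.pos (z * y)) := fun z => by
    rw [← ψ.phi_mul_of_inv (hψ _ h3), h2]
    congr 1
    group
  have h5 := h4 1
  simp only [one_mul] at h5
  simp only [posY] at e'
  rw [← e', right_eq_mul] at h5
  simp only [ha, posY]
  rw [h4, h5, one_mul]

end Step

open Step

theorem stepB (hL : LevelsStmt) (hBS : BStmt) (hU : UpdateStmt) (hP : PercStmt) (hF : FaithStmt)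
    (hT : ThinStmt) (hK : CostStmt) : StepStmt := by
  classical
  intro σ x x' B Q ρ hB hx hG
  have := σ.fin
  have := σ.fi
  obtain ⟨x1, hx1, hx2⟩ := exists_between hx
  have hY : GoodAt (stY σ) (posY σ) x := GoodAt.translates hG
  obtain ⟨N0, hN0, -, -, -, hI0⟩ := (hL σ.S σ.G).2 ρ
  obtain ⟨NB, hNB, hNB0, SB, _, GB, ψ, hψ, hGB, hd⟩ :=
    hBS σ.S σ.G (Fin 5) _ (stY σ) (posY σ) x x1 (edgeY σ) hx2 hY N0 hN0
  by_cases hfar : ∃ R, (nw σ hNB ψ hψ).Far Q R
  · exact ⟨nw σ hNB ψ hψ, ext_nw σ hNB ψ hψ, (gd_of σ hGB).mono hx1.le,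
      inj_nw σ hNB ψ hψ (InjP.mono hI0 hNB0), hfar⟩
  obtain ⟨L, hLQ⟩ := exists_bound hB Q
  have := hNB.1
  have := hNB.2
  have := lev_fi σ.mul σ.fi hNB.2
  obtain ⟨s, g, k, hs, hsg, hgk, hcost⟩ := hK σ.S σ.G SB GB ψ.phi (Fin 5) _ (stY σ) (posY σ) x1
    ((W σ.G ⧸ NB) × (Γ5 ⧸ σ.H)) (fun z => ((posY σ z : W σ.G), (z.2 : Γ5 ⧸ σ.H)))
    (Γ5 ⧸ lev σ.mul NB) (Nat.card SB) L (L + 4) hd hGB (kappa σ hNB ψ hψ)
  have hfar' := not_exists.1 hfar (2 * k)
  simp only [Stage.Far, not_forall, not_exists, not_and] at hfar'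
  obtain ⟨K, hKs, P, hPQ, hPs, hno⟩ := hfar'
  obtain ⟨-, N2, hN2, hN2K⟩ := (ext_nw σ hNB ψ hψ).2 K hKs
  obtain ⟨N1, hN1, -, -, -, hI1⟩ := (hL σ.S σ.G).2 (k * L)
  have hN3 : NF (N2 ⊓ N1 ⊓ NB) := NF.inf (NF.inf hN2 hN1) hNB
  set H' := lev σ.mul (N2 ⊓ N1 ⊓ NB) with hH'
  have hle : H' ≤ K := fun h hh => hN2K h hh.1 hh.2.1.1
  have hH : H' ≤ σ.H := fun h hh => hh.1
  have : H'.FiniteIndex := lev_fi σ.mul σ.fi hN3.2
  have hP'Q : (pull hle P).Below Q := fun y l a h => hPQ y l a h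
  have hP'L : ∀ b l a, (pull hle P).lab b l = some a → d 1 a ≤ L := fun b l a h => by
    induction b using QuotientGroup.induction_on with
    | H y => exact hLQ _ _ _ (hP'Q y l a h)
  let cst : W σ.G → W σ.G → List Lt2 → ℝ≥0∞ := fun α β w =>
    (if s ≤ w.length ∧ w.length ≤ g ∧ D TB0 α β < 2 * L + 2 then 1 else 0) +
      (if w.length = g ∧ D TB0 α β < 2 * s * L + (L + 4) then 1 else 0) +
      (if w.length = k then 2 * Fh (stY σ) (posY σ) x1 (g * L + 1) α β else 0)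
  let c : Γ5 ⧸ H' → List Lt2 → ℝ≥0∞ := fun b w => if FreeGroup.IsReduced w then
    cst (σ.pos b.out) (pt (dl σ H') (pull hle P) (σ.pos b.out, b) w) w else 0
  obtain ⟨Z, hZ, hZs, hZc⟩ := hP Γ5 (Γ5 ⧸ H') (pull hle P) k c (pull_big hle P hPs)
    (by
      intro b w a h1 h2 h3 h4 h5
      induction b using QuotientGroup.induction_on with
      | H y =>
      refine hno y w a h1 h2 (by omega) (pull_walk hle h4) ((ext_nw σ hNB ψ hψ).1 _ ?_)
      have h6 : y⁻¹ * a * y ∈ H' := by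
        rw [mul_assoc]
        exact QuotientGroup.eq.1 h5.symm
      exact ker_of_inj σ hI1 ((d_walk hP'L h4).trans (Nat.mul_le_mul_right _ h3))
        ⟨h6.1, h6.2.1.2⟩)
    (by
      intro b w h
      by_cases hr : FreeGroup.IsReduced w
      · simp only [c, if_pos hr, cst] at h
        by_contra hc
        have : w.length = 0 ∨ k < w.length := by
          by_cases h0 : w = []
          · simp [h0]
          · exact Or.inr (not_le.1 fun h1 => hc ⟨h0, hr, h1⟩)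
        rw [if_neg (by omega), if_neg (by omega), if_neg (by omega)] at h
        simp at h
      · simp [c, hr] at h)
    (by
      intro b
      refine le_trans (le_of_eq (tsum_congr fun w => ?_)) (hcost (σ.pos b.out)
        {w | FreeGroup.IsReduced w ∧ ((pull hle P).walk w b).isSome}
        (pt (dl σ H') (pull hle P) (σ.pos b.out, b))
        (fun w => ((((pull hle P).walk w b).getD 1 * b.out : Γ5) : Γ5 ⧸ lev σ.mul NB))
        (fun w hw => hw.1) ?_)
      · by_cases hr : FreeGroup.IsReduced w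
        · simp only [c, cst, Set.mem_ofPred_eq, hr, true_and, if_true]
        · simp [c, hr]
      · intro w hw w' hw' e1 e2 e3 e4
        by_contra hne
        obtain ⟨a, ha⟩ := Option.isSome_iff_exists.1 hw.2
        obtain ⟨a', ha'⟩ := Option.isSome_iff_exists.1 hw'.2
        obtain ⟨u, u1, u2, u3, u4⟩ := two_walks ha ha' hw.1 hw'.1 e1 hne
        rw [pt_eq ha, pt_eq ha', dl, dl, mul_inv_cancel_left, mul_inv_cancel_left] at e3
        simp only [ha, ha', Option.getD_some] at e4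
        have c0 : a' * a⁻¹ * (a * b.out) = a' * b.out := by group
        have c3 : (a * b.out)⁻¹ * (a' * a⁻¹) * (a * b.out) ∈ lev σ.mul NB := by
          rw [mul_assoc, c0]
          exact QuotientGroup.eq.1 e4
        have c4 := pos_conj (nw σ hNB ψ hψ) c3
        rw [c0] at c4
        rw [← QuotientGroup.out_eq' b, MulAction.Quotient.smul_mk, smul_eq_mul] at u4
        exact hno _ u _ u1 u2 (by omega) (pull_walk hle u4)
          ⟨c3, mul_right_cancel (c4.symm.trans (e3.symm.trans (one_mul _).symm))⟩)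
  have hc1 : ∀ b u a, FreeGroup.IsReduced u → Z.walk u b = some a →
      cst (σ.pos b.out) (σ.pos b.out * dl σ H' a b) u < 1 := fun b u a h1 h2 => by
    refine lt_of_le_of_lt ?_ (hZc b)
    refine le_trans (le_of_eq ?_) (ENNReal.le_tsum u)
    simp only [h2, Option.isSome_some, if_true, c, if_pos h1, pt_eq (walk_le hZ h2)]
  have hD : ∀ p q : W σ.G, D TB0 p (p * q) = D TB0 1 q := fun p q => by
    simpa using D_smul adm_tb0 p 1 q
  have hZP : ZProg (dl σ H') Z L s g (L + 4) := by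
    refine zprog (dl_coc σ hH) (fun b l a h => (d_dl σ _ _ _).trans (hP'L _ _ _ (hZ _ _ _ h)))
      (fun b u a h1 h2 h3 h4 => ?_) fun b u a h1 h2 h3 => ?_
    · by_contra h5
      have := hc1 b u a h1 h2
      simp only [cst, hD] at this
      rw [if_pos ⟨h3, h4, not_le.1 h5⟩] at this
      exact absurd this (not_lt.2 (le_self_add.trans le_self_add))
    · by_contra h5
      have := hc1 b u a h1 h2
      simp only [cst, hD] at this
      rw [if_pos (show u.length = g ∧ _ from ⟨h3, not_le.1 h5⟩)] at this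
      exact absurd this (not_lt.2 (le_add_self.trans le_self_add))
  have hΘ := hT σ.S σ.G Γ5 (Γ5 ⧸ H') (dl σ H') Z L s g (L + 4) k (Fin 5) _ (stY σ) (posY σ) x1
    (dl_coc σ hH) hs hsg le_rfl hgk hZP (edgeY σ) (hY.mono hx2.le) (by
      rintro ⟨α, b⟩
      rw [ENNReal.le_div_iff_mul_le (by simp) (by simp), ← ENNReal.tsum_mul_right]
      refine le_trans (ENNReal.tsum_le_tsum fun w => ?_) (hZc b).le
      split_ifs with h1 h2
      · obtain ⟨a, ha⟩ := Option.isSome_iff_exists.1 h2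
        simp only [c, if_pos h1.2.1, cst, if_pos h1.1]
        refine le_trans ?_ le_add_self
        rw [mul_comm, pt_eq ha, pt_eq (walk_le hZ ha)]
        refine mul_le_mul_right ((Fh_le σ _ _ (σ.pos b.out * α⁻¹) _ _).trans (le_of_eq ?_)) _
        congr 1 <;> group
      · exact absurd h1.2.2 h2
      · simp
      · simp)
  obtain ⟨N, hN, hNle, S', _, G', L', hL', hclq, hG'⟩ := hU σ.S σ.G (Fin 5) _ (stY σ) (posY σ) x1 x'
    (Set.range fun υ => WH (Tree (dl σ H') Z υ)) (ET (dl σ H') Z) (edgeY σ) hx1 (hY.mono hx2.le)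
    (by
      rintro a _ ⟨⟨α, b⟩, rfl⟩
      exact ⟨(a * α, b), by simp only [WH_smul, tree_smul]⟩)
    (by
      rintro _ ⟨υ, rfl⟩ t ht u hu
      exact Btw_subset_WH ht hu)
    (fun t u ⟨υ, h1, h2⟩ => ⟨υ, h2, h1⟩)
    (by
      rintro a t u ⟨⟨α, b⟩, h1, h2⟩
      exact ⟨(a * α, b), by rw [← tree_smul]; exact (smul_mem_WH a).2 h1,
        by rw [← tree_smul]; exact (smul_mem_WH a).2 h2⟩)
    (fun t u t' u' ⟨υ, h1, h2⟩ h3 h4 => ⟨υ, Btw_subset_WH h1 h2 h3, Btw_subset_WH h1 h2 h4⟩)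
    (by
      intro R
      obtain ⟨N, hN, h⟩ := hF σ.S σ.G Γ5 (Γ5 ⧸ H') (dl σ H') Z L s g (L + 4) (dl_coc σ hH) hs hsg
        (by omega) hZP R
      refine ⟨N, hN, ?_⟩
      rintro t u h1 h2 h3 _ ⟨υ, rfl⟩ n hn h4 h5
      exact h t u h1 h2 h3 υ n hn h4 h5)
    hΘ _ hN3
  have hG2 := gd_of σ hG'
  exact ⟨nw σ hN L' hL', ext_nw σ hN L' hL', hG2,
    inj_nw σ hN L' hL' (InjP.mono hI0 ((hNle.trans inf_le_right).trans hNB0)),
    far_nw σ hN L' hL' Q hH (fun h hh => ⟨hh.1, hNle hh.2⟩) Z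
      (fun y l a h => hP'Q y l a (hZ _ _ _ h)) hZs fun υ => hclq _ ⟨υ, rfl⟩⟩

end Pool.Agent.MP_c34dea_an.H23
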