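import Pool.Agent.MP_c34dea_an.H23.PFUtil
import Pool.Agent.MP_c34dea_an.H23.MeasMain
import Pool.Agent.MP_c34dea_an.H66.Avg

set_option autoImplicit false

namespace Pool.Agent.MP_c34dea_an.H23

open Pool.Agent.MP_c34dea_an.H66

namespace Adapter

theorem towerN_of {H : ℕ → Subgroup Γ0} (hfi : ∀ m, (H m).FiniteIndex)
    (h : ∀ k, ∃ m0, ∀ m, m0 ≤ m → NHK (H m) k) : TowerN H := by
  classical
  refine ⟨5, gen G0, 1, one_pos, fun T m₀ => ?_⟩
  obtain ⟨m₁, hm₁⟩ := h T.card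
  obtain ⟨m, hm0, hm1⟩ : ∃ m, m₀ ≤ m ∧ m₁ ≤ m := ⟨_, le_max_left _ _, le_max_right _ _⟩
  refine ⟨m, hm0, fun r hr => ?_⟩
  have hN := hm₁ m hm1
  have := hfi m
  have := Fintype.ofFinite (Γ0 ⧸ H m)
  set U : Finset ((Γ0 ⧸ H m) × Fin 5) := Finset.univ.filter fun p => r p.1 (gen G0 p.2 • p.1)
  have e1 : U.card = ∑ c : Quotient r, (U.filter fun p => (⟦p.1⟧ : Quotient r) = c).card :=
    Finset.card_eq_sum_card_fiberwise fun _ _ => Finset.mem_univ _
  have e2 : (Finset.univ : Finset (Γ0 ⧸ H m)).card =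
      ∑ c : Quotient r, (Finset.univ.filter fun a : Γ0 ⧸ H m => (⟦a⟧ : Quotient r) = c).card :=
    Finset.card_eq_sum_card_fiberwise fun _ _ => Finset.mem_univ _
  have e3 : ∀ c : Quotient r, (U.filter fun p => (⟦p.1⟧ : Quotient r) = c).card ≤
      4 * (Finset.univ.filter fun a : Γ0 ⧸ H m => (⟦a⟧ : Quotient r) = c).card := by
    intro c
    set B := Finset.univ.filter fun a : Γ0 ⧸ H m => (⟦a⟧ : Quotient r) = c
    have hinj : Function.Injective fun b : Γ0 ⧸ H m => (b.out : Γ0)⁻¹ :=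
      fun a b e => Quotient.out_injective (inv_injective e)
    have hB : B.card ≤ T.card := by
      refine le_trans (Finset.card_le_card (t := T.image fun γ => γ • c.out) fun b hb => ?_)
        Finset.card_image_le
      have hb' : (⟦b⟧ : Quotient r) = c := (Finset.mem_filter.1 hb).2
      obtain ⟨γ, h1, h2⟩ := hr c.out b (Quotient.exact ((Quotient.out_eq c).trans hb'.symm))
      exact Finset.mem_image.2 ⟨γ, h1, h2.symm⟩
    have h1 := hN (B.image fun b => (b.out : Γ0)⁻¹) (by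
      intro g hg g' hg' hk
      obtain ⟨b, _, rfl⟩ := Finset.mem_image.1 hg
      obtain ⟨b', _, rfl⟩ := Finset.mem_image.1 hg'
      have : b = b' := by
        rw [← QuotientGroup.out_eq' b, ← QuotientGroup.out_eq' b']
        exact QuotientGroup.eq.2 (by simpa using hk)
      rw [this]) (Finset.card_image_le.trans hB)
    rw [Finset.card_image_of_injective _ hinj] at h1
    refine le_trans ?_ h1
    rw [← Set.ncard_coe_finset]
    refine Set.ncard_le_ncard_of_injOn (fun p => ((p.1.out : Γ0)⁻¹, p.2)) ?_ ?_ ?_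
    · rintro ⟨b, s⟩ hp
      simp only [U, Finset.coe_filter, Finset.mem_filter, Finset.mem_univ, true_and,
        Set.mem_ofPred_eq] at hp
      refine ⟨Finset.mem_image_of_mem _ (Finset.mem_filter.2 ⟨Finset.mem_univ _, hp.2⟩),
        ((gen G0 s • b).out : Γ0)⁻¹, Finset.mem_image_of_mem _
          (Finset.mem_filter.2 ⟨Finset.mem_univ _, (Quotient.sound hp.1).symm.trans hp.2⟩), ?_⟩
      have e := out_smul_eq' (le_refl (H m)) (gen G0 s) b
      rw [smul_coe'] at e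
      have := QuotientGroup.eq.1 e.symm
      simpa [mul_assoc] using this
    · rintro ⟨b, s⟩ _ ⟨b', s'⟩ _ e
      simp only [Prod.mk.injEq] at e ⊢
      exact ⟨hinj e.1, e.2⟩
    · refine (((B.image fun b => (b.out : Γ0)⁻¹).finite_toSet).prod
        (Set.finite_univ (α := Fin 5))).subset fun p hp => ⟨hp.1, trivial⟩
  have e4 : U.card ≤ 4 * (Finset.univ : Finset (Γ0 ⧸ H m)).card := by
    rw [e1, e2, Finset.mul_sum]
    exact Finset.sum_le_sum fun c _ => e3 c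
  have e5 := Finset.card_filter_add_card_filter_not
    (s := (Finset.univ : Finset ((Γ0 ⧸ H m) × Fin 5))) (fun p => r p.1 (gen G0 p.2 • p.1))
  rw [Nat.subtype_card (Finset.univ.filter fun p : (Γ0 ⧸ H m) × Fin 5 =>
    ¬ r p.1 (gen G0 p.2 • p.1)) (by simp), one_mul, Nat.card_eq_fintype_card]
  simp only [Finset.card_univ, Fintype.card_prod, Fintype.card_fin] at e4 e5
  have : Fintype.card (Γ0 ⧸ H m) ≤ (Finset.univ.filter fun p : (Γ0 ⧸ H m) × Fin 5 =>
    ¬ r p.1 (gen G0 p.2 • p.1)).card := by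
    change U.card + _ = _ at e5
    omega
  exact_mod_cast this

variable {Γ : Type} [Group Γ]

/-- the labelling in the convention of right cosets -/
noncomputable def uOf {A : Subgroup Γ} (P : PF R0 Γ (Γ ⧸ A)) (g : Γ) (i : Fin R0) : Option Γ :=
  (P.lab ((g⁻¹ : Γ) : Γ ⧸ A) (i, true)).map (·⁻¹)

theorem uOf_eq {A : Subgroup Γ} {P : PF R0 Γ (Γ ⧸ A)} {g w : Γ} {i : Fin R0} :
    uOf P g i = some w ↔ P.lab ((g⁻¹ : Γ) : Γ ⧸ A) (i, true) = some w⁻¹ := by
  simp only [uOf, Option.map_eq_some_iff]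
  constructor
  · rintro ⟨a, h, rfl⟩
    simpa using h
  · intro h
    exact ⟨_, h, inv_inv w⟩

theorem uOf_inv {A : Subgroup Γ} (P : PF R0 Γ (Γ ⧸ A)) {γ : Γ} (h : γ ∈ A) (g : Γ) :
    uOf P (γ * g) = uOf P g := by
  have : (((γ * g)⁻¹ : Γ) : Γ ⧸ A) = ((g⁻¹ : Γ) : Γ ⧸ A) := QuotientGroup.eq.2 (by simpa using h)
  funext i
  simp only [uOf, this]

theorem st_lab {A : Subgroup Γ} {P : PF R0 Γ (Γ ⧸ A)} {g g' : Γ} {a : Let}
    (h : St (uOf P) g a g') : P.lab ((g⁻¹ : Γ) : Γ ⧸ A) a = some (g'⁻¹ * g) := by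
  obtain ⟨i, c⟩ := a
  rcases h with ⟨h1, w, h2, rfl⟩ | ⟨h1, w, h2, rfl⟩
  · obtain rfl : c = true := h1
    simpa using uOf_eq.1 h2
  · obtain rfl : c = false := h1
    have := P.symm _ _ _ _ (uOf_eq.1 h2)
    simpa [smul_coe'] using this

theorem wk_walk {A : Subgroup Γ} {P : PF R0 Γ (Γ ⧸ A)} {g g' : Γ} {l : List Let}
    (h : Wk (uOf P) g l g') : P.walk l ((g⁻¹ : Γ) : Γ ⧸ A) = some (g'⁻¹ * g) := by
  induction h with
  | nil g => simp
  | @cons g g' g'' a l h1 _ ih =>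
    refine P.walk_cons_eq_some.2 ⟨_, _, st_lab h1, ?_, (by group : _ = (g''⁻¹ * g') * (g'⁻¹ * g))⟩
    rw [smul_coe']
    simpa using ih

theorem red_iff {l : List Let} : Red l ↔ FreeGroup.IsReduced l := by
  unfold Red FreeGroup.IsReduced
  refine List.IsChain.iff fun a b => ?_
  obtain ⟨i, c⟩ := a
  obtain ⟨j, e⟩ := b
  cases c <;> cases e <;> simp [linv, eq_comm]

theorem deep_of {H : ℕ → Subgroup Γ} (hH : Antitone H) {K : Subgroup Γ} {j m : ℕ} (hjm : j ≤ m)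
    (h1 : ∀ n, K ≤ H n) (h2 : NormalIn K (H j)) {k : Γ} (hk : k ∈ K) : Deep H m k := by
  intro h hh n
  have := h2.2 h⁻¹ ((H j).inv_mem (hH hjm hh)) k hk
  exact h1 n (by simpa using this)

theorem sum_Tr {A : Subgroup Γ} [Fintype (Γ ⧸ A)] {T : Finset Γ} (hT : Tr A T) (f : Γ ⧸ A → ℕ) :
    ∑ t ∈ T, f ((t⁻¹ : Γ) : Γ ⧸ A) = ∑ a, f a := by
  refine Finset.sum_bij (fun t _ => ((t⁻¹ : Γ) : Γ ⧸ A)) (fun _ _ => Finset.mem_univ _)
    (fun a ha b hb e => hT.eq ha hb ?_) (fun a _ => ?_) (fun _ _ => rfl)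
  · simpa using QuotientGroup.eq.1 e
  · obtain ⟨t, ht, h⟩ := (hT (a.out : Γ)⁻¹).exists
    refine ⟨t, ht, ?_⟩
    rw [← QuotientGroup.out_eq' a]
    exact (QuotientGroup.eq.2 (by simpa using h)).symm

theorem task_of {H : ℕ → Subgroup Γ} {m : ℕ} [(H m).FiniteIndex] {K : Subgroup Γ}
    (hK : ∀ k ∈ K, Deep H m k) (P : PF R0 Γ (Γ ⧸ H m))
    (hs : (2 * (R0 : ℝ) - 1) * Nat.card (Γ ⧸ H m) ≤ P.size) (ha : P.Arb H) :
    Task (H m) K (uOf P) := by
  classical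
  have := Fintype.ofFinite (Γ ⧸ H m)
  have hKH : K ≤ H m := fun k hk => by simpa using hK k hk 1 (H m).one_mem m
  refine ⟨fun γ hγ g => uOf_inv P hγ g, fun g a g' g'' h1 h2 => ?_, fun T hT => ?_,
    fun F hF => ?_⟩
  · have := (st_lab h1).symm.trans (st_lab h2)
    simpa using this
  · have e1 := sum_Tr hT (fun a => {i : Fin R0 | P.lab a (i, true) ≠ none}.ncard)
    have e2 := sum_Tr hT (fun _ => 1)
    have e3 : ∀ t, {i | uOf P t i ≠ none} =
        {i : Fin R0 | P.lab ((t⁻¹ : Γ) : Γ ⧸ H m) (i, true) ≠ none} := by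
      intro t
      ext i
      simp [uOf]
    simp only [e3]
    rw [e1]
    simp only [Finset.sum_const, smul_eq_mul, mul_one, Finset.card_univ] at e2
    rw [e2]
    have e4 : P.size ≤ ∑ a : Γ ⧸ H m, ({i : Fin R0 | P.lab a (i, true) ≠ none}.ncard + R0) := by
      unfold PF.size
      rw [Nat.card_congr (Equiv.subtypeProdEquivSigmaSubtype
        (fun (a : Γ ⧸ H m) (l : Fin R0 × Bool) => (P.lab a l).isSome = true)), Nat.card_sigma]
      refine Finset.sum_le_sum fun a _ => ?_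
      change Nat.card {l : Fin R0 × Bool | (P.lab a l).isSome = true} ≤ _
      rw [Nat.card_coe_set_eq]
      have hsub : {l : Fin R0 × Bool | (P.lab a l).isSome = true} ⊆
          (fun i => (i, true)) '' {i : Fin R0 | P.lab a (i, true) ≠ none} ∪
            (fun i => (i, false)) '' Set.univ := by
        rintro ⟨i, c⟩ h
        cases c
        · exact Or.inr ⟨i, trivial, rfl⟩
        · exact Or.inl ⟨i, Option.isSome_iff_ne_none.1 h, rfl⟩
      refine (Set.ncard_le_ncard hsub).trans ((Set.ncard_union_le _ _).trans ?_)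
      refine Nat.add_le_add (Set.ncard_image_le) (le_trans Set.ncard_image_le ?_)
      simp [Set.ncard_univ]
    rw [Finset.sum_add_distrib] at e4
    simp only [Finset.sum_const, Finset.card_univ, smul_eq_mul] at e4
    rw [Nat.card_eq_fintype_card] at hs
    have e5 : (2 * R0 - 1) * Fintype.card (Γ ⧸ H m) ≤ P.size := by
      have : (((2 * R0 - 1 : ℕ) : ℝ)) = 2 * (R0 : ℝ) - 1 := by norm_num [R0]
      rw [← this] at hs
      exact_mod_cast hs
    simp only [R0] at e4 e5 ⊢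
    omega
  · set F' := F.image fun g => ((g⁻¹ : Γ) : Γ ⧸ K)
    have h1 := ha K hK F'
    have h2 := (P.pull hKH).two_mul_pos_le F'
    have h3 : ((P.pull hKH).darts F').ncard ≤ 4 * F'.card := by
      rw [← Nat.card_coe_set_eq]
      exact h1
    have h4 : F'.card ≤ F.card := Finset.card_image_le
    have h5 := Set.ncard_le_ncard_of_injOn
      (s := {p : Γ × Fin R0 | p.1 ∈ F ∧ ∃ w, uOf P p.1 p.2 = some w ∧
        ∃ g' ∈ F, p.1 * w * g'⁻¹ ∈ K})
      (t := {p : (Γ ⧸ K) × Fin R0 | (p.1, (p.2, true)) ∈ (P.pull hKH).darts F'})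
      (fun p => (((p.1⁻¹ : Γ) : Γ ⧸ K), p.2)) (by
        rintro ⟨g, i⟩ ⟨a1, w, a2, g', a3, a4⟩
        refine ⟨Finset.mem_image_of_mem _ a1, w⁻¹, ?_, ?_⟩
        · exact (PF.pull_lab _ _ _ _).trans (uOf_eq.1 a2)
        · refine Finset.mem_image.2 ⟨g', a3, ?_⟩
          rw [smul_coe']
          exact (QuotientGroup.eq.2 (by simpa [mul_assoc] using a4)).symm) (by
        rintro ⟨g, i⟩ a1 ⟨g', i'⟩ a2 e
        simp only [Prod.mk.injEq] at e ⊢
        exact ⟨hF g a1.1 g' a2.1 (by simpa using QuotientGroup.eq.1 e.1), e.2⟩)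
      (((F'.finite_toSet).prod (Set.finite_univ (α := Fin R0))).subset fun p hp => ⟨hp.1, trivial⟩)
    omega

theorem closed_of {H : ℕ → Subgroup Γ} (hH : Antitone H) {n j m : ℕ} (hnm : n ≤ m) (hjm : j ≤ m)
    [(H j).FiniteIndex] [(H m).FiniteIndex] {K : Subgroup Γ} (hK1 : ∀ i, K ≤ H i)
    (hK2 : NormalIn K (H j)) {Q : PF R0 Γ (Γ ⧸ H n)} {b bmax C : ℕ} (hb : b ≤ bmax)
    {Sg : Set (Γ × List Let × Γ)} (hS : H66.Sys (uOf Q) (H j) b Sg)
    (hC : ∀ g, ∃ γ ∈ H j, Cov K {g' | (sysG Sg).Reachable (γ * g) g'} C)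
    (P : PF R0 Γ (Γ ⧸ H m)) (hP : P.Below Q)
    (hl : {l : List Let | l.length ≤ bmax}.ncard ^ 2 * Nat.card {p : (Γ ⧸ H m) × Let //
      (Q.lab ((p.1.out : Γ) : Γ ⧸ H n) p.2).isSome ∧ P.lab p.1 p.2 = none} ≤ Nat.card (Γ ⧸ H m)) :
    P.HasClosed H (C * bmax) := by
  classical
  have := Fintype.ofFinite (Γ ⧸ H m)
  have hS' := hS.of_le (hH hjm)
  set Qm := Q.pull (hH hnm) with hQm
  have hPQ : ∀ x l g, P.lab x l = some g → Qm.lab x l = some g := by
    intro x l g h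
    refine hP x.out l g ?_
    rwa [QuotientGroup.out_eq']
  have hWfin : {l : List Let | l.length ≤ bmax}.Finite := List.finite_length_le _ _
  set Wd := hWfin.toFinset with hWd
  have hdet : ∀ g l g' g'', (g, l, g') ∈ Sg → (g, l, g'') ∈ Sg → g' = g'' :=
    fun g l g' g'' h1 h2 => (hS.imm g l g' l g'' h1 h2 rfl).2
  let 𝒜 : Finset ((Γ ⧸ H m) × List Let) :=
    (Finset.univ ×ˢ Wd).filter fun p => ∃ g', ((p.1.out : Γ)⁻¹, p.2, g') ∈ Sg
  have h𝒜 : ∀ (g : Γ) l, (((g⁻¹ : Γ) : Γ ⧸ H m), l) ∈ 𝒜 ↔ ∃ g', (g, l, g') ∈ Sg := by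
    intro g l
    have hm : g * (((g⁻¹ : Γ) : Γ ⧸ H m).out : Γ) ∈ H m := by
      simpa using QuotientGroup.eq.1 (QuotientGroup.out_eq' ((g⁻¹ : Γ) : Γ ⧸ H m)).symm
    simp only [𝒜, Finset.mem_filter, Finset.mem_product, Finset.mem_univ, true_and]
    constructor
    · rintro ⟨_, g', h⟩
      exact ⟨_, by simpa using hS'.inv _ hm _ _ _ h⟩
    · rintro ⟨g', h⟩
      refine ⟨?_, _, by simpa using hS'.inv _ ((H m).inv_mem hm) _ _ _ h⟩
      simp only [hWd, Set.Finite.mem_toFinset, Set.mem_ofPred_eq]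
      rw [(hS.walk _ _ _ h).2.1]
      exact hb
  have hrep : ∀ a : Γ ⧸ H m, a = ((((a.out : Γ)⁻¹)⁻¹ : Γ) : Γ ⧸ H m) := fun a => by simp
  have hQw : ∀ g l g', (g, l, g') ∈ Sg → Qm.walk l ((g⁻¹ : Γ) : Γ ⧸ H m) = some (g'⁻¹ * g) :=
    fun g l g' h => (PF.pull_walk _ _ _ _).trans (wk_walk (hS.walk _ _ _ h).1)
  -- many segments
  have c1 : 3 * Fintype.card (Γ ⧸ H m) ≤ 𝒜.card := by
    obtain ⟨T, hT⟩ := exists_Tr (H m)
    have d1 := hS'.dense T hT
    have d2 := sum_Tr hT (fun _ => 1)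
    have d3 := sum_Tr hT (fun a => (𝒜.filter fun p => p.1 = a).card)
    have d4 : 𝒜.card = ∑ a, (𝒜.filter fun p => p.1 = a).card :=
      Finset.card_eq_sum_card_fiberwise fun _ _ => Finset.mem_univ _
    simp only [Finset.sum_const, smul_eq_mul, mul_one, Finset.card_univ] at d2
    rw [d4, ← d3, ← d2]
    refine d1.trans ?_
    rw [one_mul]
    refine Finset.sum_le_sum fun t _ => ?_
    rw [← Set.ncard_coe_finset]
    refine Set.ncard_le_ncard_of_injOn (fun p => (((t⁻¹ : Γ) : Γ ⧸ H m), p.1)) ?_ ?_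
      (Finset.finite_toSet _)
    · rintro ⟨l, g'⟩ hp
      exact Finset.mem_coe.2 (Finset.mem_filter.2 ⟨(h𝒜 t l).2 ⟨g', hp⟩, rfl⟩)
    · rintro ⟨l, g'⟩ h1 ⟨l', g''⟩ h2 e
      simp only [Prod.mk.injEq, true_and] at e
      subst e
      rw [hdet t l g' g'' h1 h2]
  -- few segments are lost
  have c2 : (𝒜.filter fun p => ¬ (P.walk p.2 p.1).isSome).card ≤ Fintype.card (Γ ⧸ H m) := by
    have key : ∀ p : (Γ ⧸ H m) × List Let, ∃ q : ((Γ ⧸ H m) × Let) × List Let × List Let,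
        p ∈ (𝒜.filter fun p => ¬ (P.walk p.2 p.1).isSome) → p.2 = q.2.1 ++ q.1.2 :: q.2.2 ∧
          (∃ k, Qm.walk q.2.1 p.1 = some k ∧ q.1.1 = k • p.1) ∧
          (Qm.lab q.1.1 q.1.2).isSome ∧ P.lab q.1.1 q.1.2 = none := by
      rintro ⟨a, l⟩
      by_cases hp : (a, l) ∈ (𝒜.filter fun p => ¬ (P.walk p.2 p.1).isSome)
      · obtain ⟨h1, h2⟩ := Finset.mem_filter.1 hp
        rw [hrep a] at h1
        obtain ⟨g', h3⟩ := (h𝒜 _ _).1 h1
        have h4 := hQw _ _ _ h3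
        rw [← hrep a] at h4
        obtain ⟨w₁, c, w₂, k, e1, e2, e3, e4⟩ := PF.exists_fail hPQ h4 (by simpa using h2)
        exact ⟨((k • a, c), w₁, w₂), fun _ => ⟨e1, ⟨k, e2, rfl⟩, e3, e4⟩⟩
      · exact ⟨((a, (0, true)), [], []), fun h => absurd h hp⟩
    choose f hf using key
    set Lost : Finset ((Γ ⧸ H m) × Let) := Finset.univ.filter fun p =>
      (Q.lab ((p.1.out : Γ) : Γ ⧸ H n) p.2).isSome ∧ P.lab p.1 p.2 = none
    have d1 := Finset.card_le_card_of_injOn (s := 𝒜.filter fun p => ¬ (P.walk p.2 p.1).isSome)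
      (t := Lost ×ˢ Wd ×ˢ Wd) f (by
        intro p hp
        obtain ⟨e1, _, e3, e4⟩ := hf p hp
        have hlen : p.2.length ≤ bmax := by
          have := (Finset.mem_product.1 (Finset.mem_filter.1 (Finset.mem_filter.1 hp).1).1).2
          simpa [hWd] using this
        rw [e1] at hlen
        simp only [List.length_append, List.length_cons] at hlen
        simp only [Finset.coe_product, Set.mem_prod, Finset.mem_coe, Lost, Finset.mem_filter,
          Finset.mem_univ, true_and, hWd, Set.Finite.mem_toFinset, Set.mem_ofPred_eq]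
        exact ⟨⟨e3, e4⟩, by omega, by omega⟩) (by
        intro p hp p' hp' e
        obtain ⟨e1, ⟨k, e2, e3⟩, _⟩ := hf p hp
        obtain ⟨e1', ⟨k', e2', e3'⟩, _⟩ := hf p' hp'
        rw [e] at e1 e2 e3
        exact Prod.ext (Qm.walk_inj e2 e2' (e3.symm.trans e3')) (e1.trans e1'.symm))
    rw [Finset.card_product, Finset.card_product] at d1
    rw [Nat.subtype_card Lost (by simp [Lost]), Set.ncard_eq_toFinset_card _ hWfin,
      Nat.card_eq_fintype_card] at hl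
    refine d1.trans (le_of_eq_of_le ?_ hl)
    ring
  set 𝒟 := 𝒜.filter fun p => (P.walk p.2 p.1).isSome with h𝒟
  have c3 : 𝒟.card + (𝒜.filter fun p => ¬ (P.walk p.2 p.1).isSome).card = 𝒜.card :=
    Finset.card_filter_add_card_filter_not (s := 𝒜) (fun p => (P.walk p.2 p.1).isSome)
  have hD : ∀ (g : Γ) l, (((g⁻¹ : Γ) : Γ ⧸ H m), l) ∈ 𝒟 →
      ∃ g', (g, l, g') ∈ Sg ∧ P.walk l ((g⁻¹ : Γ) : Γ ⧸ H m) = some (g'⁻¹ * g) := by
    intro g l h
    obtain ⟨h1, h2⟩ := Finset.mem_filter.1 h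
    obtain ⟨g', h3⟩ := (h𝒜 _ _).1 h1
    obtain ⟨k, hk⟩ := Option.isSome_iff_exists.1 h2
    exact ⟨g', h3, hk.trans ((PF.walk_mono hPQ hk).symm.trans (hQw _ _ _ h3))⟩
  obtain ⟨e, he⟩ := exists_dart_ray (V := Γ ⧸ H m) Prod.fst
    (fun p => ((P.walk p.2 p.1).getD 1 • p.1, PF.rv p.2)) Finset.univ 𝒟 Finset.univ_nonempty
    (fun _ _ => Finset.mem_univ _) (by
      rintro ⟨a, l⟩ hp
      rw [hrep a] at hp ⊢
      obtain ⟨g', h1, h2⟩ := hD _ _ hp
      have h3 := P.walk_rv h2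
      simp only [h2, Option.getD_some, h3, PF.rv_rv, inv_smul_smul, and_true]
      refine Finset.mem_filter.2 ⟨?_, by simp only [h3]; rfl⟩
      rw [smul_coe', mul_inv_cancel_right]
      exact (h𝒜 _ _).2 ⟨_, hS.rev _ _ _ h1⟩) (by rw [Finset.card_univ]; omega)
  -- lift the ray to the group
  have lift : ∀ i (g : Γ), (e i).1 = ((g⁻¹ : Γ) : Γ ⧸ H m) → ∃ g', (g, (e i).2, g') ∈ Sg ∧
      P.walk (e i).2 ((g⁻¹ : Γ) : Γ ⧸ H m) = some (g'⁻¹ * g) ∧
      (e (i + 1)).1 = ((g'⁻¹ : Γ) : Γ ⧸ H m) := by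
    intro i g hg
    obtain ⟨g', h1, h2⟩ := hD g (e i).2 (by rw [← hg]; exact (he i).1)
    refine ⟨g', h1, h2, ?_⟩
    have := (he i).2.1
    simp only [hg, h2, Option.getD_some, smul_coe', mul_inv_cancel_right] at this
    exact this
  choose! nx hnx using lift
  let x : ℕ → Γ := fun i => Nat.rec ((e 0).1.out : Γ)⁻¹ (fun i g => nx i g) i
  have hx : ∀ i, (e i).1 = (((x i)⁻¹ : Γ) : Γ ⧸ H m) := by
    intro i
    induction i with
    | zero => exact hrep _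
    | succ i ih => exact (hnx i _ ih).2.2
  have hx1 : ∀ i, (x i, (e i).2, x (i + 1)) ∈ Sg := fun i => (hnx i _ (hx i)).1
  have hx2 : ∀ i, P.walk (e i).2 (((x i)⁻¹ : Γ) : Γ ⧸ H m) = some ((x (i + 1))⁻¹ * x i) :=
    fun i => (hnx i _ (hx i)).2.1
  have hne : ∀ i, (e i).2 ≠ [] := by
    intro i h
    have h1 := (hS.walk _ _ _ (hx1 i)).2.1
    have h2 := hS.b_pos
    rw [h] at h1
    simp at h1
    omega
  have hjoin : ∀ i, ∀ a ∈ (e i).2.getLast?, ∀ c ∈ (e (i + 1)).2.head?, c ≠ linv a := by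
    intro i a ha c hc hca
    have h1 := hS.imm _ _ _ _ _ (hx1 (i + 1)) (hS.rev _ _ _ (hx1 i)) (by
      rw [Option.mem_def.1 hc, hca, lrev, List.head?_reverse, List.getLast?_map,
        Option.mem_def.1 ha]
      rfl)
    exact (he i).2.2 (Prod.ext (he i).2.1 h1.1)
  have cat : ∀ k i, ∃ w : List Let, Red w ∧ w.head? = (e i).2.head? ∧ w.length = (k + 1) * b ∧
      P.walk w (((x i)⁻¹ : Γ) : Γ ⧸ H m) = some ((x (i + k + 1))⁻¹ * x i) := by
    intro k
    induction k with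
    | zero =>
      intro i
      exact ⟨(e i).2, (hS.walk _ _ _ (hx1 i)).2.2, rfl, by simp [(hS.walk _ _ _ (hx1 i)).2.1], hx2 i⟩
    | succ k ih =>
      intro i
      obtain ⟨w, h1, h2, h3, h4⟩ := ih (i + 1)
      refine ⟨(e i).2 ++ w, ?_, ?_, ?_, ?_⟩
      · exact List.IsChain.append (hS.walk _ _ _ (hx1 i)).2.2 h1 (by rw [h2]; exact hjoin i)
      · rw [List.head?_append_of_ne_nil _ (hne i)]
      · rw [List.length_append, h3, (hS.walk _ _ _ (hx1 i)).2.1]; ring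
      · refine P.walk_append_eq_some.2 ⟨_, (x (i + 1 + k + 1))⁻¹ * x (i + 1), hx2 i, ?_, ?_⟩
        · rw [smul_coe', mul_inv_cancel_right]; exact h4
        · rw [show i + (k + 1) + 1 = i + 1 + k + 1 by ring]; group
  obtain ⟨γ, hγ, F, hF1, hF2⟩ := hC (x 0)
  have hreach : ∀ i, (sysG Sg).Reachable (γ * x 0) (γ * x i) := by
    intro i
    induction i with
    | zero => rfl
    | succ i ih =>
      by_cases c : γ * x i = γ * x (i + 1)
      · exact c ▸ ih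
      · exact ih.trans (SimpleGraph.Adj.reachable
          ((SimpleGraph.fromRel_adj _ _ _).2 ⟨c, Or.inl ⟨_, hS.inv γ hγ _ _ _ (hx1 i)⟩⟩))
  choose f hf1 hf2 using fun i => hF2 _ (hreach i)
  obtain ⟨i, hi, i', hi', hii, hff⟩ := Finset.exists_ne_map_eq_of_card_lt_of_maps_to
    (s := Finset.range (C + 1)) (t := F) (by simp; omega) (f := f) (fun i _ => hf1 i)
  simp only [Finset.mem_range] at hi hi'
  wlog hlt : i < i' generalizing i i'
  · exact this i' i hii.symm hff.symm hi' hi (by omega)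
  obtain ⟨k, rfl⟩ := Nat.exists_eq_add_of_lt hlt
  obtain ⟨w, h1, h2, h3, h4⟩ := cat k i
  refine ⟨(x i)⁻¹, w, _, ?_, red_iff.1 h1, ?_, h4, deep_of hH hjm hK1 hK2 ?_⟩
  · intro h
    rw [h] at h2
    exact hne i (List.head?_eq_none_iff.1 h2.symm)
  · rw [h3]
    exact Nat.mul_le_mul (by omega) hb
  · have a1 := K.mul_mem (hf2 i) (K.inv_mem (hff ▸ hf2 (i + k + 1)))
    have a2 := hK2.2 γ⁻¹ ((H j).inv_mem hγ) _ a1
    convert a2 using 1
    group

theorem towerG_of {H : ℕ → Subgroup Γ0} (hH : Antitone H) (hfi : ∀ m, (H m).FiniteIndex)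
    (h : ∀ L : ℕ, ∃ bmax : ℕ, ∀ (n : ℕ) (u : Γ0 → Fin R0 → Option Γ0),
      (∀ γ ∈ H n, ∀ g, u (γ * g) = u g) → (∀ g i w, u g i = some w → d 1 w ≤ L) →
      ∃ (j : ℕ) (K : Subgroup Γ0), n ≤ j ∧ (∀ m, K ≤ H m) ∧ NormalIn K (H j) ∧
        ((∃ (H' : Subgroup Γ0) (u' : Γ0 → Fin R0 → Option Γ0), H'.FiniteIndex ∧ K ≤ H' ∧
            H' ≤ H j ∧ (∀ g i w, u' g i = some w → u g i = some w) ∧ Task H' K u') →
          ∃ (j' : ℕ) (K' : Subgroup Γ0) (b : ℕ) (Sg : Set (Γ0 × List Let × Γ0)),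
            n ≤ j' ∧ (∀ m, K' ≤ H m) ∧ NormalIn K' (H j') ∧ b ≤ bmax ∧ H66.Sys u (H j') b Sg ∧
            ∀ g, ∃ C, Cov K' {g' | (sysG Sg).Reachable g g'} C)) : TowerG H := by
  classical
  refine ⟨R0, 1, one_pos, fun T => ?_⟩
  obtain ⟨bmax, h⟩ := h (T.sup fun γ => d 1 γ⁻¹)
  set M := {l : List Let | l.length ≤ bmax}.ncard ^ 2
  refine ⟨1 / (M + 1), by positivity, fun n => ⟨n, le_rfl, fun Q hQ => ?_⟩⟩
  obtain ⟨j, K, hnj, hK1, hK2, h⟩ := h n (uOf Q) (fun γ hγ g => uOf_inv Q hγ g) (fun g i w e => by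
    simpa using Finset.le_sup (f := fun γ => d 1 γ⁻¹) (hQ _ _ _ (uOf_eq.1 e)))
  by_cases hc : ∃ (H' : Subgroup Γ0) (u' : Γ0 → Fin R0 → Option Γ0), H'.FiniteIndex ∧ K ≤ H' ∧
      H' ≤ H j ∧ (∀ g i w, u' g i = some w → uOf Q g i = some w) ∧ Task H' K u'
  · obtain ⟨j', K', b, Sg, hnj', hK1', hK2', hb, hS, hC⟩ := h hc
    choose C hC using hC
    have := hfi j'
    obtain ⟨F, hF⟩ := cover_of_fi (H j')
    refine ⟨F.sup C * bmax, fun m₀ => ⟨max m₀ j', le_max_left _ _, fun P hP _ hl _ => ?_⟩⟩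
    have := hfi (max m₀ j')
    refine closed_of hH (hnj'.trans (le_max_right _ _)) (le_max_right _ _) hK1' hK2' hb hS
      (fun g => ?_) P hP ?_
    · obtain ⟨f, hf, h1⟩ := hF g
      refine ⟨(g * f⁻¹)⁻¹, (H j').inv_mem h1, ?_⟩
      obtain ⟨F', a1, a2⟩ := hC f
      exact ⟨F', a1.trans (Finset.le_sup hf), by simpa using a2⟩
    · rw [div_mul_eq_mul_div, one_mul, le_div_iff₀ (by positivity)] at hl
      have : ((M * Nat.card {p : (Γ0 ⧸ H (max m₀ j')) × Let //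
          (Q.lab ((p.1.out : Γ0) : Γ0 ⧸ H n) p.2).isSome ∧ P.lab p.1 p.2 = none} : ℕ) : ℝ) ≤
          Nat.card (Γ0 ⧸ H (max m₀ j')) := by
        push_cast
        refine le_trans ?_ hl
        rw [mul_comm]
        gcongr
        linarith
      exact_mod_cast this
  · refine ⟨0, fun m₀ => ⟨max m₀ j, le_max_left _ _, fun P hP hs _ ha => absurd ?_ hc⟩⟩
    have := hfi (max m₀ j)
    exact ⟨H (max m₀ j), uOf P, this, hK1 _, hH (le_max_right _ _),
      fun g i w e => uOf_eq.2 (hP _ _ _ (uOf_eq.1 e)),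
      task_of (fun k hk => deep_of hH (le_max_right _ _) hK1 hK2 hk) P hs ha⟩

end Adapter

instance : Countable Γ0 :=
  Function.Surjective.countable (f := word G0) fun g => exists_word g

/-- module K of route A -/
theorem measure : MeasureStmt := by
  rintro ⟨H, h1, h2, h3, h4⟩
  exact measThm Γ0 H h1 h2 (Adapter.towerN_of h2 h3) (Adapter.towerG_of h1 h2 h4)

end Pool.Agent.MP_c34dea_an.H23
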