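import Pool.Agent.MP_c34dea_an.H23.BSpec

set_option autoImplicit false

open scoped Pointwise ENNReal

namespace Pool.Agent.MP_c34dea_an.H23

open Pool.Agent.MP_c34dea_an.H66

variable {S : Type} {G : SimpleGraph S}

/-- the side of a point -/
def sd (h : Hyp G) (p : W G) : Prop := h ∈ sep 1 p

theorem mem_sep_sd {h : Hyp G} {p q : W G} : h ∈ sep p q ↔ ¬ (sd h p ↔ sd h q) := by
  unfold sd
  rw [mem_sep_trans p 1 q, sep_comm p 1]
  tauto

theorem Stt.refl (t : Hyp G) : Stt t t := Or.inl rfl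

theorem Stt.symm {t r : Hyp G} (h : Stt t r) : Stt r t := h.imp Eq.symm Cross.symm

theorem stt_smul {t r : Hyp G} (g : W G) : Stt (g • t) (g • r) ↔ Stt t r := by
  unfold Stt
  rw [cross_smul, smul_left_cancel_iff]

theorem stt_of_car {t r : Hyp G} {a b : W G} (ha : a ∈ car t) (hb : b ∈ car t)
    (hr : r ∈ sep a b) : Stt t r := by
  by_cases e : t = r
  · exact Or.inl e.symm
  · exact Or.inr (cross_of_sep_car ha hb hr e)

theorem Stt.exists_mem {t r : Hyp G} (h : Stt t r) : ∃ y, y ∈ car t ∧ y ∈ car r := by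
  rcases h with rfl | ⟨y, h1, h2, -⟩
  · obtain ⟨y, hy⟩ := car_nonempty r
    exact ⟨y, hy, hy⟩
  · exact ⟨y, h1, h2⟩

theorem TB0.symm {t u : Hyp G} (h : TB0 t u) : TB0 u t :=
  ⟨h.1.symm, fun c => h.2.1 c.symm, fun r c => h.2.2 r ⟨c.2, c.1⟩⟩

theorem TB0.not_stt {t u : Hyp G} (h : TB0 t u) : ¬ Stt t u := by
  rintro (e | c)
  · exact h.1 e.symm
  · exact h.2.1 c

/-- two strongly separated hyperplanes are not in a common star -/
theorem TB0.not_both {t u k : Hyp G} (h : TB0 t u) (h1 : Stt k t) (h2 : Stt k u) : False := by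
  rcases h1 with rfl | c1
  · exact h.not_stt h2
  rcases h2 with rfl | c2
  · exact h.2.1 c1.symm
  · exact h.2.2 k ⟨c1, c2⟩

theorem tb0_iff {t u : Hyp G} : TB0 t u ↔ ∀ k, ¬ (Stt k t ∧ Stt k u) := by
  refine ⟨fun h k c => h.not_both c.1 c.2, fun h => ⟨?_, fun c => ?_, fun r c => ?_⟩⟩
  · rintro rfl
    exact h t ⟨Stt.refl t, Stt.refl t⟩
  · exact h t ⟨Stt.refl t, Or.inr c⟩
  · exact h r ⟨Or.inr c.1, Or.inr c.2⟩

theorem tb0_smul {t u : Hyp G} (g : W G) (h : TB0 t u) : TB0 (g • t) (g • u) := by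
  rw [tb0_iff] at h ⊢
  intro k c
  refine h (g⁻¹ • k) ⟨?_, ?_⟩
  · rw [← stt_smul g]; simpa using c.1
  · rw [← stt_smul g]; simpa using c.2

theorem left_mem_Btw (t u : Hyp G) : t ∈ Btw t u := fun _ _ h _ => h

theorem right_mem_Btw (t u : Hyp G) : u ∈ Btw t u := fun _ _ _ h => h

theorem Btw_comm (t u : Hyp G) : Btw t u = Btw u t :=
  Set.ext fun _ => ⟨fun h p q a b => h p q b a, fun h p q a b => h p q b a⟩

theorem Btw_subset {t u t' u' : Hyp G} (h1 : t' ∈ Btw t u) (h2 : u' ∈ Btw t u) :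
    Btw t' u' ⊆ Btw t u := fun _ hr p q a b => hr p q (h1 p q a b) (h2 p q a b)

theorem smul_mem_Btw {t u r : Hyp G} (g : W G) (h : r ∈ Btw t u) : g • r ∈ Btw (g • t) (g • u) := by
  intro p q a b
  have e1 : p = g * (g⁻¹ * p) := by simp
  have e2 : q = g * (g⁻¹ * q) := by simp
  rw [e1, e2, smul_mem_sep] at a b ⊢
  exact h _ _ a b

theorem mem_Btw_of_lt {p : W G} {t r u : Hyp G} (h1 : Lt p t r) (h2 : Lt p r u) : r ∈ Btw t u := by
  intro a b ha hb
  have e1 := h1.2 a
  have e2 := h1.2 b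
  have e3 := h2.2 a
  have e4 := h2.2 b
  rw [mem_sep_trans a p b, sep_comm a p] at ha hb ⊢
  tauto

theorem mem_Btw_of_le {p : W G} {t r u : Hyp G} (h1 : t = r ∨ Lt p t r) (h2 : r = u ∨ Lt p r u) :
    r ∈ Btw t u := by
  rcases h1 with rfl | h1
  · exact left_mem_Btw _ _
  rcases h2 with rfl | h2
  · exact right_mem_Btw _ _
  · exact mem_Btw_of_lt h1 h2

theorem exists_sep_both {t u : Hyp G} {a a' b b' : W G} (ht : t ∈ sep a a') (hu : u ∈ sep b b') :
    ∃ p, (p = a ∨ p = a' ∨ p = b ∨ p = b') ∧ ∃ q, (q = a ∨ q = a' ∨ q = b ∨ q = b') ∧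
      t ∈ sep p q ∧ u ∈ sep p q := by
  by_contra hc
  push Not at hc
  have h1 := hc a (by simp) a' (by simp)
  have h2 := hc b (by simp) b' (by simp)
  have h3 := hc a (by simp) b (by simp)
  have h4 := hc a (by simp) b' (by simp)
  have h5 := hc a' (by simp) b (by simp)
  have h6 := hc a' (by simp) b' (by simp)
  clear hc
  simp only [mem_sep_sd] at *
  grind

theorem exists_mem_sep (t : Hyp G) : ∃ a b, t ∈ sep a b := by
  obtain ⟨y, hy⟩ := car_nonempty t
  exact ⟨y, y * gen G t.1, by rw [mem_sep_car_gen hy]; simp⟩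

theorem exists_sep_pair (t u : Hyp G) : ∃ p q, t ∈ sep p q ∧ u ∈ sep p q := by
  obtain ⟨a, a', ha⟩ := exists_mem_sep t
  obtain ⟨b, b', hb⟩ := exists_mem_sep u
  obtain ⟨p, -, q, -, h⟩ := exists_sep_both ha hb
  exact ⟨p, q, h⟩

theorem Btw_subset_WH {Ω : Set (W G)} {t u : Hyp G} (ht : t ∈ WH Ω) (hu : u ∈ WH Ω) :
    Btw t u ⊆ WH Ω := by
  obtain ⟨a, ha, a', ha', h1⟩ := ht
  obtain ⟨b, hb, b', hb', h2⟩ := hu
  obtain ⟨p, hp, q, hq, h3, h4⟩ := exists_sep_both h1 h2
  intro r hr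
  refine ⟨p, ?_, q, ?_, hr p q h3 h4⟩
  · rcases hp with rfl | rfl | rfl | rfl <;> assumption
  · rcases hq with rfl | rfl | rfl | rfl <;> assumption

/-- hyperplanes between two members of a star lie in the star -/
theorem stt_of_mem_Btw {k t u r : Hyp G} (h1 : Stt k t) (h2 : Stt k u) (hr : r ∈ Btw t u) :
    Stt k r := by
  have key : ∀ {t : Hyp G}, Stt k t → t ∈ WH (car k) := by
    intro t h
    obtain ⟨y, hy1, hy2⟩ := h.exists_mem
    refine ⟨y, hy1, y * gen G t.1, mul_gen_mem_car hy1 ?_, by rw [mem_sep_car_gen hy2]; simp⟩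
    rcases h with rfl | c
    · exact mem_st_self _
    · exact mem_st_of_adj c.adj
  obtain ⟨a, ha, b, hb, hab⟩ := Btw_subset_WH (key h1) (key h2) hr
  exact stt_of_car ha hb hab

theorem adm_tb0 : Adm (TB0 (G := G)) where
  symm _ _ h := h.symm
  inv g _ _ h := tb0_smul g h
  tb _ _ h := h
  up _ _ _ _ h h1 h2 := tb0_iff.2 fun _ c =>
    h.not_both (stt_of_mem_Btw c.1 c.2 h1) (stt_of_mem_Btw c.1 c.2 h2)

/-- a hyperplane between `t` and `u` and disjoint from `k` is between `k` and one of them -/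
theorem Btw_or {k t u r : Hyp G} (hr : r ∈ Btw t u) (hk : ¬ Stt k r) :
    r ∈ Btw k t ∨ r ∈ Btw k u := by
  by_contra hc
  simp only [Btw, Set.mem_ofPred_eq, not_or, not_forall] at hc
  obtain ⟨⟨p, q, a1, a2, a3⟩, ⟨p', q', b1, b2, b3⟩⟩ := hc
  obtain ⟨y, hy, hcy, -, -⟩ := exists_cross_pt a1
  obtain ⟨y', hy', hcy', -, -⟩ := exists_cross_pt b1
  have c1 : r ∉ sep p y := fun h => a3 (hy h)
  have c2 : r ∉ sep p' y' := fun h => b3 (hy' h)
  have c3 : r ∉ sep y y' := fun h => hk (stt_of_car hcy hcy' h)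
  have c4 : r ∉ sep p p' := by
    have e1 := mem_sep_trans (h := r) p y p'
    have e2 := mem_sep_trans (h := r) y y' p'
    rw [sep_comm y' p'] at e2
    tauto
  have c5 : r ∉ sep p q' := by
    have e1 := mem_sep_trans (h := r) p p' q'
    tauto
  obtain ⟨a, ha, b, hb, h1, h2⟩ := exists_sep_both a2 b2
  have h3 := hr a b h1 h2
  have c6 : r ∉ sep p a := by
    rcases ha with rfl | rfl | rfl | rfl <;> simp [*]
  have c7 : r ∉ sep p b := by
    rcases hb with rfl | rfl | rfl | rfl <;> simp [*]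
  rw [mem_sep_trans a p b, sep_comm a p] at h3
  tauto

/-- a hyperplane outside the star of `k` that separates `p` from one point of the carrier of `k`
lies in every interval from `p` crossed by `k` -/
theorem mem_sep_of_car {k r : Hyp G} {p q w : W G} (hk : k ∈ sep p q) (hw : w ∈ car k)
    (hr : r ∈ sep p w) (hn : ¬ Stt k r) : r ∈ sep p q := by
  obtain ⟨y, hy, hcy, -, -⟩ := exists_cross_pt hk
  have c : r ∉ sep w y := fun h => hn (stt_of_car hw hcy h)
  refine hy ?_
  rw [mem_sep_trans p w y]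
  tauto

section Height

variable {R R' : Hyp G → Hyp G → Prop}

theorem le_ht {A B : Finset (Hyp G)} (h : B ⊆ A) (hB : (B : Set (Hyp G)).Pairwise R) :
    B.card ≤ ht R A := by
  classical
  exact Finset.le_sup (f := Finset.card) (Finset.mem_filter.2 ⟨Finset.mem_powerset.2 h, hB⟩)

theorem exists_ht (R : Hyp G → Hyp G → Prop) (A : Finset (Hyp G)) :
    ∃ B, B ⊆ A ∧ (B : Set (Hyp G)).Pairwise R ∧ B.card = ht R A := by
  classical
  obtain ⟨B, hB, e⟩ := Finset.exists_mem_eq_sup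
    (A.powerset.filter (fun B : Finset (Hyp G) => (B : Set (Hyp G)).Pairwise R))
    ⟨∅, by simp⟩ Finset.card
  rw [Finset.mem_filter, Finset.mem_powerset] at hB
  exact ⟨B, hB.1, hB.2, e.symm⟩

theorem ht_le {A : Finset (Hyp G)} {n : ℕ}
    (h : ∀ B, B ⊆ A → (B : Set (Hyp G)).Pairwise R → B.card ≤ n) : ht R A ≤ n := by
  obtain ⟨B, h1, h2, e⟩ := exists_ht R A
  exact e ▸ h B h1 h2

theorem ht_mono {A A' : Finset (Hyp G)} (h : A ⊆ A') : ht R A ≤ ht R A' :=
  ht_le fun _ h1 h2 => le_ht (h1.trans h) h2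

theorem ht_mono_rel (h : ∀ t u, R t u → R' t u) (A : Finset (Hyp G)) : ht R A ≤ ht R' A :=
  ht_le fun _ h1 h2 => le_ht h1 (h2.mono' fun a b => h a b)

theorem ht_le_card (A : Finset (Hyp G)) : ht R A ≤ A.card :=
  ht_le fun _ h1 _ => Finset.card_le_card h1

theorem ht_union_le (A A' : Finset (Hyp G)) : ht R (A ∪ A') ≤ ht R A + ht R A' := by
  refine ht_le fun B h1 h2 => ?_
  have e1 : (B ∩ A).card ≤ ht R A :=
    le_ht Finset.inter_subset_right (h2.mono (by simp))
  have e2 : (B \ A).card ≤ ht R A' := by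
    refine le_ht (fun x hx => ?_) (h2.mono (by simp))
    rw [Finset.mem_sdiff] at hx
    exact (Finset.mem_union.1 (h1 hx.1)).resolve_left hx.2
  have := Finset.card_sdiff_add_card_inter B A
  omega

theorem ht_le_one_of_stt (hR : ∀ t u, R t u → TB0 t u) {A : Finset (Hyp G)} {k : Hyp G}
    (h : ∀ r ∈ A, Stt k r) : ht R A ≤ 1 := by
  refine ht_le fun B h1 h2 => Finset.card_le_one.2 fun a ha b hb => ?_
  by_contra hne
  exact (hR _ _ (h2 ha hb hne)).not_both (h a (h1 ha)) (h b (h1 hb))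

@[simp] theorem D_self (p : W G) : D R p p = 0 := by
  have := ht_le_card (R := R) (sep p p)
  simpa [D] using this

theorem D_comm (p q : W G) : D R p q = D R q p := by unfold D; rw [sep_comm]

theorem D_le_d (p q : W G) : D R p q ≤ d p q := ht_le_card _

theorem D_triangle (p q r : W G) : D R p r ≤ D R p q + D R q r :=
  (ht_mono (sep_subset_union p q r)).trans (ht_union_le _ _)

theorem D_le_tb (hR : Adm R) (p q : W G) : D R p q ≤ D TB0 p q := ht_mono_rel hR.tb _

theorem D_car (hR : Adm R) {k : Hyp G} {a b : W G} (ha : a ∈ car k) (hb : b ∈ car k) :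
    D R a b ≤ 1 := ht_le_one_of_stt hR.tb fun _ hr => stt_of_car ha hb hr

theorem D_smul_le (hR : Adm R) (g p q : W G) : D R p q ≤ D R (g * p) (g * q) := by
  refine ht_le fun B h1 h2 => ?_
  rw [← Finset.card_image_of_injective B (MulAction.injective g)]
  refine le_ht ?_ ?_
  · rw [sep_smul]
    exact Finset.image_subset_image h1
  · rw [Finset.coe_image]
    rintro _ ⟨a, ha, rfl⟩ _ ⟨b, hb, rfl⟩ hne
    exact hR.inv g a b (h2 ha hb fun e => hne (by rw [e]))

theorem D_smul (hR : Adm R) (g p q : W G) : D R (g * p) (g * q) = D R p q := by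
  refine le_antisymm ?_ (D_smul_le hR g p q)
  simpa using D_smul_le hR g⁻¹ (g * p) (g * q)

/-- a point on the carrier of a hyperplane separating `p` and `q` is close to `p` -/
theorem D_close (hR : Adm R) {k : Hyp G} {p q z : W G} (hk : k ∈ sep p q) (hz : z ∈ car k) :
    D R z p ≤ d p q + 1 := by
  obtain ⟨y, hy, hcy, -, -⟩ := exists_cross_pt hk
  have h1 := D_triangle (R := R) z y p
  have h2 := D_car hR hz hcy
  have h3 := D_le_d (R := R) y p
  have h4 : d p y ≤ d p q := Finset.card_le_card hy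
  rw [d_comm] at h3
  omega

theorem lt_or_lt {p q : W G} {a b : Hyp G} (ha : a ∈ sep p q) (hb : b ∈ sep p q)
    (h : ¬ Stt a b) : Lt p a b ∨ Lt p b a := by
  have hne : a ≠ b := fun e => h (Or.inl e.symm)
  rcases trichotomy ha hb hne with c | c | c
  · exact Or.inl c
  · exact Or.inr c
  · exact absurd (Or.inr c) h

theorem exists_lt_max (p : W G) {B : Finset (Hyp G)} (hne : B.Nonempty) :
    ∃ m ∈ B, ∀ b ∈ B, ¬ Lt p m b := by
  induction hne using Finset.Nonempty.cons_induction with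
  | singleton a => exact ⟨a, by simp, fun b hb h => h.ne (Finset.mem_singleton.1 hb).symm⟩
  | cons a s ha _ ih =>
    obtain ⟨m, hm, h⟩ := ih
    by_cases c : Lt p m a
    · refine ⟨a, by simp, fun b hb h' => ?_⟩
      rcases Finset.mem_cons.1 hb with rfl | hb
      · exact h'.ne rfl
      · exact h b hb (c.trans h')
    · refine ⟨m, by simp [hm], fun b hb => ?_⟩
      rcases Finset.mem_cons.1 hb with rfl | hb
      · exact c
      · exact h b hb

theorem exists_lt_min (p : W G) {B : Finset (Hyp G)} (hne : B.Nonempty) :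
    ∃ m ∈ B, ∀ b ∈ B, ¬ Lt p b m := by
  induction hne using Finset.Nonempty.cons_induction with
  | singleton a => exact ⟨a, by simp, fun b hb h => h.ne (Finset.mem_singleton.1 hb)⟩
  | cons a s ha _ ih =>
    obtain ⟨m, hm, h⟩ := ih
    by_cases c : Lt p a m
    · refine ⟨a, by simp, fun b hb h' => ?_⟩
      rcases Finset.mem_cons.1 hb with rfl | hb
      · exact h'.ne rfl
      · exact h b hb (h'.trans c)
    · refine ⟨m, by simp [hm], fun b hb => ?_⟩
      rcases Finset.mem_cons.1 hb with rfl | hb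
      · exact c
      · exact h b hb

/-- superadditivity of the height -/
theorem ht_superadd (hR : Adm R) {o y y' : W G} {A B : Finset (Hyp G)}
    (hA : ∀ a ∈ A, a ∈ sep o y ∧ a ∈ sep o y') (hB : ∀ b ∈ B, b ∉ sep o y ∧ b ∈ sep o y') :
    ht R A + ht R B ≤ ht R (A ∪ B) + 2 := by
  obtain ⟨A', hA1, hA2, eA⟩ := exists_ht R A
  obtain ⟨B', hB1, hB2, eB⟩ := exists_ht R B
  have l1 : ht R A ≤ ht R (A ∪ B) := ht_mono Finset.subset_union_left
  have l2 : ht R B ≤ ht R (A ∪ B) := ht_mono Finset.subset_union_right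
  rcases A'.eq_empty_or_nonempty with rfl | hAne
  · simp at eA; omega
  rcases B'.eq_empty_or_nonempty with rfl | hBne
  · simp at eB; omega
  obtain ⟨a₁, ha₁, hmax⟩ := exists_lt_max o hAne
  obtain ⟨b₁, hb₁, hmin⟩ := exists_lt_min o hBne
  have ord : ∀ a ∈ A', ∀ b ∈ B', ¬ Stt a b → Lt o a b := by
    intro a ha b hb hn
    rcases lt_or_lt (hA a (hA1 ha)).2 (hB b (hB1 hb)).2 hn with c | c
    · exact c
    · exact absurd (c.mem (hA a (hA1 ha)).1) (hB b (hB1 hb)).1
  have cross : ∀ a ∈ A'.erase a₁, ∀ b ∈ B'.erase b₁, R a b := by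
    intro a ha b hb
    rw [Finset.mem_erase] at ha hb
    have r1 : R a a₁ := hA2 ha.2 ha₁ ha.1
    have r2 : R b₁ b := hB2 hb₁ hb.2 hb.1.symm
    have l1 : Lt o a a₁ := (lt_or_lt (hA a (hA1 ha.2)).2 (hA a₁ (hA1 ha₁)).2
      (hR.tb _ _ r1).not_stt).resolve_right (hmax a ha.2)
    have l2 : Lt o b₁ b := (lt_or_lt (hB b₁ (hB1 hb₁)).2 (hB b (hB1 hb.2)).2
      (hR.tb _ _ r2).not_stt).resolve_right (hmin b hb.2)
    by_cases c : Stt a₁ b₁
    · have c2 : ¬ Stt a b₁ := fun c' => (hR.tb _ _ r1).not_both c'.symm c.symm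
      exact hR.up a b b₁ b r2 (mem_Btw_of_lt (ord a ha.2 b₁ hb₁ c2) l2) (right_mem_Btw _ _)
    · exact hR.up a b a a₁ r1 (left_mem_Btw _ _)
        (mem_Btw_of_lt l1 ((ord a₁ ha₁ b₁ hb₁ c).trans l2))
  have hd : Disjoint (A'.erase a₁) (B'.erase b₁) := by
    refine Finset.disjoint_left.2 fun x hx hx' => ?_
    exact (hB x (hB1 (Finset.mem_of_mem_erase hx'))).1 (hA x (hA1 (Finset.mem_of_mem_erase hx))).1
  have key : (A'.erase a₁ ∪ B'.erase b₁).card ≤ ht R (A ∪ B) := by
    refine le_ht (Finset.union_subset_union ((Finset.erase_subset _ _).trans hA1)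
      ((Finset.erase_subset _ _).trans hB1)) ?_
    intro x hx z hz hne
    simp only [Finset.coe_union, Set.mem_union, Finset.mem_coe] at hx hz
    rcases hx with hx | hx <;> rcases hz with hz | hz
    · exact hA2 (Finset.mem_of_mem_erase hx) (Finset.mem_of_mem_erase hz) hne
    · exact cross x hx z hz
    · exact hR.symm _ _ (cross z hz x hx)
    · exact hB2 (Finset.mem_of_mem_erase hx) (Finset.mem_of_mem_erase hz) hne
  rw [Finset.card_union_of_disjoint hd, Finset.card_erase_of_mem ha₁,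
    Finset.card_erase_of_mem hb₁] at key
  have p1 := hAne.card_pos
  have p2 := hBne.card_pos
  omega

end Height

section Walks

variable {A Y : Type} {step : Y → A → Y} {pos : Y → W G}

@[simp] theorem run_nil (y : Y) : run step y [] = y := rfl

@[simp] theorem run_cons (y : Y) (a : A) (γ : List A) :
    run step y (a :: γ) = run step (step y a) γ := rfl

theorem run_append (y : Y) (γ γ' : List A) :
    run step y (γ ++ γ') = run step (run step y γ) γ' := List.foldl_append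

theorem Edge.d_run (h : Edge step pos) (y : Y) (γ : List A) :
    d (pos y) (pos (run step y γ)) ≤ γ.length := by
  induction γ generalizing y with
  | nil => simp
  | cons a γ ih =>
    obtain ⟨s, hs⟩ := h y a
    have h1 := d_triangle (pos y) (pos (step y a)) (pos (run step (step y a) γ))
    have h2 := ih (step y a)
    rw [hs, d_gen, ← hs] at h1
    simp only [run_cons, List.length_cons]
    omega

/-- a word whose ends are separated by `k` has a last crossing of `k` -/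
theorem Edge.exists_cut (h : Edge step pos) {k : Hyp G} {y : Y} {γ : List A}
    (hk : k ∈ sep (pos y) (pos (run step y γ))) :
    ∃ γ₁ γ₂, γ = γ₁ ++ γ₂ ∧ pos (run step y γ₁) ∈ car k ∧
      k ∉ sep (pos (run step y γ₁)) (pos (run step y γ)) := by
  induction γ generalizing y with
  | nil => simp at hk
  | cons a γ ih =>
    by_cases c : k ∈ sep (pos (step y a)) (pos (run step (step y a) γ))
    · obtain ⟨γ₁, γ₂, e, h1, h2⟩ := ih c
      exact ⟨a :: γ₁, γ₂, by rw [e]; rfl, h1, h2⟩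
    · obtain ⟨s, hs⟩ := h y a
      refine ⟨[a], γ, rfl, ?_, c⟩
      rw [run_cons, mem_sep_trans _ (pos (step y a))] at hk
      have h1 : k ∈ sep (pos y) (pos (step y a)) := by tauto
      rw [hs, sep_gen, Finset.mem_singleton] at h1
      change pos (step y a) ∈ car k
      rw [hs, h1]
      exact mul_gen_mem_car (mem_car_hyp _ _) (mem_st_self _)

theorem Good.mono {R : Hyp G → Hyp G → Prop} {θ x x' K : ℝ≥0∞} (h : Good step pos R θ x K)
    (hx : x' ≤ x) : Good step pos R θ x' K := fun o y =>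
  le_trans (ENNReal.tsum_le_tsum fun γ => by gcongr) (h o y)

theorem GoodAt.mono {x x' : ℝ≥0∞} (h : GoodAt step pos x) (hx : x' ≤ x) : GoodAt step pos x' := by
  obtain ⟨R, θ, K, h1, h2, h3, h4, h5⟩ := h
  exact ⟨R, θ, K, h1, h2, h3, h4, h5.mono hx⟩

theorem run_map {Y' : Type} {step' : Y' → A → Y'} {f : Y' → Y}
    (hf : ∀ y a, f (step' y a) = step (f y) a) (y : Y') (γ : List A) :
    f (run step' y γ) = run step (f y) γ := by
  induction γ generalizing y with
  | nil => rfl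
  | cons a γ ih => rw [run_cons, ih, hf, run_cons]

theorem GoodAt.comap {Y' : Type} {step' : Y' → A → Y'} {f : Y' → Y} {x : ℝ≥0∞}
    (h : GoodAt step pos x) (hf : ∀ y a, f (step' y a) = step (f y) a) :
    GoodAt step' (fun y => pos (f y)) x := by
  obtain ⟨R, θ, K, h1, h2, h3, h4, h5⟩ := h
  refine ⟨R, θ, K, h1, h2, h3, h4, fun o y => ?_⟩
  simp only [run_map hf]
  exact h5 o (f y)

/-- the invariant passes to the system of all translates -/
theorem GoodAt.translates {x : ℝ≥0∞} (h : GoodAt step pos x) :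
    GoodAt (fun (z : W G × Y) a => (z.1, step z.2 a)) (fun z => z.1 * pos z.2) x := by
  obtain ⟨R, θ, K, h1, h2, h3, h4, h5⟩ := h
  refine ⟨R, θ, K, h1, h2, h3, h4, fun o z => ?_⟩
  have e1 : ∀ γ, run (fun (z : W G × Y) a => (z.1, step z.2 a)) z γ = (z.1, run step z.2 γ) := by
    intro γ
    induction γ generalizing z with
    | nil => rfl
    | cons a γ ih => rw [run_cons, ih]; rfl
  have e2 : ∀ p, D R o (z.1 * p) = D R (z.1⁻¹ * o) p := by
    intro p
    rw [← D_smul h1 z.1 (z.1⁻¹ * o) p]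
    simp
  simp only [e1, e2]
  exact h5 _ _

/-- words ending where the potential relative to `o` is at most `n` -/
theorem Good.gr_le {R : Hyp G → Hyp G → Prop} {θ x K : ℝ≥0∞} (h : Good step pos R θ x K)
    (h0 : θ ≠ 0) (h1 : θ < 1) (o : W G) (y : Y) {P : Y → Prop} {n : ℕ}
    (hP : ∀ y', P y' → D R o (pos y') ≤ n) :
    Gr step x y P ≤ θ⁻¹ ^ n * (K * θ ^ D R o (pos y)) := by
  refine le_trans ?_ (mul_le_mul_right (h o y) _)
  rw [← ENNReal.tsum_mul_left]
  refine ENNReal.tsum_le_tsum fun γ => ?_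
  split_ifs with c
  · have e : θ⁻¹ ^ n * θ ^ n = 1 := by
      rw [← mul_pow, ENNReal.inv_mul_cancel h0 (h1.trans ENNReal.one_lt_top).ne, one_pow]
    calc x ^ γ.length = θ⁻¹ ^ n * (x ^ γ.length * θ ^ n) := by rw [mul_left_comm, e, mul_one]
      _ ≤ _ := mul_le_mul_right (mul_le_mul_right
        (pow_le_pow_right_of_le_one' h1.le (hP _ c)) _) _
  · exact zero_le

theorem GoodAt.gr_tb {x : ℝ≥0∞} (h : GoodAt step pos x) (n : ℕ) :
    ∃ C : ℝ≥0∞, C ≠ ∞ ∧ ∀ y, Gr step x y (fun y' => D TB0 (pos y) (pos y') ≤ n) ≤ C := by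
  obtain ⟨R, θ, K, h1, h2, h3, h4, h5⟩ := h
  refine ⟨θ⁻¹ ^ n * K, ENNReal.mul_ne_top (ENNReal.pow_ne_top (ENNReal.inv_ne_top.2 h2)) h4,
    fun y => ?_⟩
  have := h5.gr_le h2 h3 (pos y) y (P := fun y' => D TB0 (pos y) (pos y') ≤ n) (n := n)
    fun y' hy' => (D_le_tb h1 _ _).trans hy'
  simpa using this

theorem Gr_mono {x : ℝ≥0∞} {y : Y} {P Q : Y → Prop} (h : ∀ y', P y' → Q y') :
    Gr step x y P ≤ Gr step x y Q := by
  refine ENNReal.tsum_le_tsum fun γ => ?_
  by_cases c : P (run step y γ)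
  · rw [if_pos c, if_pos (h _ c)]
  · rw [if_neg c]; exact zero_le

/-- splitting a sum over words at a chosen cut -/
theorem tsum_split {F : List A → ℝ≥0∞} {F' : List A → List A → ℝ≥0∞}
    (h : ∀ γ, F γ = 0 ∨ ∃ γ₁ γ₂, γ = γ₁ ++ γ₂ ∧ F γ ≤ F' γ₁ γ₂) :
    ∑' γ, F γ ≤ ∑' γ₁, ∑' γ₂, F' γ₁ γ₂ := by
  classical
  have h' : ∀ γ, ∃ q : List A × List A, γ = q.1 ++ q.2 ∧ F γ ≤ F' q.1 q.2 := by
    intro γ
    rcases h γ with e | ⟨γ₁, γ₂, e1, e2⟩
    · exact ⟨(γ, []), by simp, by rw [e]; exact zero_le⟩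
    · exact ⟨(γ₁, γ₂), e1, e2⟩
  choose q hq using h'
  have hinj : Function.Injective q := fun a b e => by rw [(hq a).1, (hq b).1, e]
  rw [← ENNReal.tsum_prod]
  exact le_trans (ENNReal.tsum_le_tsum fun γ => (hq γ).2)
    (ENNReal.tsum_comp_le_tsum_of_injective hinj (fun p : List A × List A => F' p.1 p.2))

end Walks

end Pool.Agent.MP_c34dea_an.H23
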