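import Pool.Agent.MP_c34dea_an.H23.MeasSpec

set_option autoImplicit false

namespace Pool.Agent.MP_c34dea_an.H23

variable {Γ : Type} [Group Γ] {r : ℕ} {Y : Type} [MulAction Γ Y]

namespace PF

theorem symm' (P : PF r Γ Y) {x : Y} {l : Fin r × Bool} {g : Γ} (h : P.lab x l = some g) :
    P.lab (g • x) (l.1, !l.2) = some g⁻¹ := P.symm x l.1 l.2 g h

@[simp] theorem walk_nil (P : PF r Γ Y) (x : Y) : P.walk [] x = some 1 := rfl

theorem walk_cons (P : PF r Γ Y) (l : Fin r × Bool) (w : List (Fin r × Bool)) (x : Y) :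
    P.walk (l :: w) x = (P.lab x l).bind fun g => (P.walk w (g • x)).map fun k => k * g := rfl

theorem walk_cons_eq_some (P : PF r Γ Y) {l : Fin r × Bool} {w : List (Fin r × Bool)} {x : Y}
    {k : Γ} : P.walk (l :: w) x = some k ↔
      ∃ g k', P.lab x l = some g ∧ P.walk w (g • x) = some k' ∧ k = k' * g := by
  rw [walk_cons]
  simp only [Option.bind_eq_some_iff, Option.map_eq_some_iff]
  constructor
  · rintro ⟨g, hg, k', hk', rfl⟩
    exact ⟨g, k', hg, hk', rfl⟩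
  · rintro ⟨g, k', hg, hk', rfl⟩
    exact ⟨g, hg, k', hk', rfl⟩

theorem walk_append_eq_some (P : PF r Γ Y) {w₁ w₂ : List (Fin r × Bool)} {x : Y} {k : Γ} :
    P.walk (w₁ ++ w₂) x = some k ↔
      ∃ g k', P.walk w₁ x = some g ∧ P.walk w₂ (g • x) = some k' ∧ k = k' * g := by
  induction w₁ generalizing x k with
  | nil => simp
  | cons l w ih =>
    simp only [List.cons_append, walk_cons_eq_some, ih]
    constructor
    · rintro ⟨g, k', hg, ⟨g', k'', h1, h2, rfl⟩, rfl⟩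
      exact ⟨g' * g, k'', ⟨g, g', hg, h1, rfl⟩, by rwa [mul_smul], by group⟩
    · rintro ⟨_, k'', ⟨g, g', hg, h1, rfl⟩, h2, rfl⟩
      exact ⟨g, k'' * g', hg, ⟨g', k'', h1, by rwa [mul_smul] at h2, rfl⟩, by group⟩

/-- Darts of `P` with both ends in `F`. -/
def darts (P : PF r Γ Y) (F : Finset Y) : Set (Y × (Fin r × Bool)) :=
  {p | p.1 ∈ F ∧ ∃ g, P.lab p.1 p.2 = some g ∧ g • p.1 ∈ F}

theorem darts_finite (P : PF r Γ Y) (F : Finset Y) : (P.darts F).Finite := by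
  refine ((F.finite_toSet).prod (Set.finite_univ (α := Fin r × Bool))).subset ?_
  intro p hp
  exact ⟨hp.1, trivial⟩

theorem darts_univ [Fintype Y] (P : PF r Γ Y) : (P.darts Finset.univ).ncard = P.size := by
  unfold size
  rw [← Nat.card_coe_set_eq]
  refine Nat.card_congr (Equiv.subtypeEquivRight fun p => ?_)
  simp [darts, Option.isSome_iff_exists]

theorem darts_erase [DecidableEq Y] (P : PF r Γ Y) (F : Finset Y) (v : Y)
    (hv : ∀ l₁ l₂, (v, l₁) ∈ P.darts F → (v, l₂) ∈ P.darts F → l₁ = l₂) :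
    (P.darts F).ncard ≤ (P.darts (F.erase v)).ncard + 2 := by
  have hO : ({p | p ∈ P.darts F ∧ p.1 = v} : Set _).Subsingleton := by
    rintro ⟨y, l⟩ ⟨h1, rfl⟩ ⟨y', l'⟩ ⟨h2, h3⟩
    obtain rfl : y' = y := h3
    rw [hv l l' h1 h2]
  have hI : ({p | p ∈ P.darts F ∧ ∃ g, P.lab p.1 p.2 = some g ∧ g • p.1 = v} : Set _).Subsingleton := by
    rintro ⟨y, l⟩ ⟨h1, g, hg, hgv⟩ ⟨y', l'⟩ ⟨h2, g', hg', hgv'⟩
    simp only at hg hgv hg' hgv'
    have e1 := P.symm' hg
    have e2 := P.symm' hg'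
    rw [hgv] at e1
    rw [hgv'] at e2
    have hvF : v ∈ F := by
      obtain ⟨_, g₀, h3, h4⟩ := h1
      simp only at h3 h4
      rw [hg] at h3
      obtain rfl := Option.some.inj h3
      exact hgv ▸ h4
    have d1 : (v, (l.1, !l.2)) ∈ P.darts F :=
      ⟨hvF, g⁻¹, e1, by rw [← hgv, inv_smul_smul]; exact h1.1⟩
    have d2 : (v, (l'.1, !l'.2)) ∈ P.darts F :=
      ⟨hvF, g'⁻¹, e2, by rw [← hgv', inv_smul_smul]; exact h2.1⟩
    have hl := hv _ _ d1 d2
    have hl' : l = l' := by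
      obtain ⟨a, b⟩ := l
      obtain ⟨a', b'⟩ := l'
      simp only [Prod.mk.injEq, Bool.not_inj_iff] at hl ⊢
      exact hl
    subst hl'
    rw [e1] at e2
    have hgg : g = g' := inv_injective (Option.some.inj e2)
    subst hgg
    have : y = y' := by
      have := hgv.trans hgv'.symm
      exact smul_left_cancel g this
    rw [this]
  have hsub : P.darts F ⊆ (P.darts (F.erase v) ∪ {p | p ∈ P.darts F ∧ p.1 = v}) ∪
      {p | p ∈ P.darts F ∧ ∃ g, P.lab p.1 p.2 = some g ∧ g • p.1 = v} := by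
    intro p hp
    obtain ⟨h1, g, hg, h2⟩ := hp
    by_cases e1 : p.1 = v
    · exact Or.inl (Or.inr ⟨⟨h1, g, hg, h2⟩, e1⟩)
    by_cases e2 : g • p.1 = v
    · exact Or.inr ⟨⟨h1, g, hg, h2⟩, g, hg, e2⟩
    exact Or.inl (Or.inl ⟨Finset.mem_erase.2 ⟨e1, h1⟩, g, hg, Finset.mem_erase.2 ⟨e2, h2⟩⟩)
  have f1 := P.darts_finite (F.erase v)
  have c1 := Set.ncard_le_ncard hsub ((f1.union hO.finite).union hI.finite)
  have c2 := Set.ncard_union_le (P.darts (F.erase v) ∪ {p | p ∈ P.darts F ∧ p.1 = v})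
    {p | p ∈ P.darts F ∧ ∃ g, P.lab p.1 p.2 = some g ∧ g • p.1 = v}
  have c3 := Set.ncard_union_le (P.darts (F.erase v)) {p | p ∈ P.darts F ∧ p.1 = v}
  have c4 := (Set.ncard_le_one hO.finite).2 (fun a ha b hb => hO ha hb)
  have c5 := (Set.ncard_le_one hI.finite).2 (fun a ha b hb => hI ha hb)
  omega

/-- The two-core lemma. -/
theorem exists_core (P : PF r Γ Y) (F : Finset Y) (hne : F.Nonempty)
    (h : 2 * F.card ≤ (P.darts F).ncard) :
    ∃ F' : Finset Y, F' ⊆ F ∧ F'.Nonempty ∧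
      ∀ v ∈ F', ∃ l₁ l₂, l₁ ≠ l₂ ∧ (v, l₁) ∈ P.darts F' ∧ (v, l₂) ∈ P.darts F' := by
  classical
  induction hn : F.card using Nat.strong_induction_on generalizing F with
  | _ n ih =>
    by_cases hc : ∀ v ∈ F, ∃ l₁ l₂, l₁ ≠ l₂ ∧ (v, l₁) ∈ P.darts F ∧ (v, l₂) ∈ P.darts F
    · exact ⟨F, le_rfl, hne, hc⟩
    push Not at hc
    obtain ⟨v, hvF, hv⟩ := hc
    have hv' : ∀ l₁ l₂, (v, l₁) ∈ P.darts F → (v, l₂) ∈ P.darts F → l₁ = l₂ := by
      intro l₁ l₂ h1 h2
      by_contra hne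
      exact hv l₁ l₂ hne h1 h2
    have h1 := P.darts_erase F v hv'
    have h2 := Finset.card_erase_of_mem hvF
    have h3 : 0 < F.card := hne.card_pos
    have hne' : (F.erase v).Nonempty := by
      rw [Finset.nonempty_iff_ne_empty]
      intro he
      have hF : ∀ y ∈ F, y = v := by
        intro y hy
        by_contra hyv
        have : y ∈ F.erase v := Finset.mem_erase.2 ⟨hyv, hy⟩
        rw [he] at this
        simp at this
      have : (P.darts F).ncard ≤ 1 := by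
        refine (Set.ncard_le_one (P.darts_finite F)).2 ?_
        rintro ⟨y, l⟩ ha ⟨y', l'⟩ hb
        obtain rfl := hF y ha.1
        obtain rfl := hF y' hb.1
        rw [hv' l l' ha hb]
      omega
    obtain ⟨F', hs, hn', hF'⟩ := ih (F.erase v).card (by omega) (F.erase v) hne' (by omega) rfl
    exact ⟨F', hs.trans (Finset.erase_subset _ _), hn', hF'⟩

/-- An infinite reduced walk: points `y n ∈ F` and letters `l n`. -/
theorem exists_ray (P : PF r Γ Y) (F : Finset Y) (hne : F.Nonempty)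
    (h : 2 * F.card ≤ (P.darts F).ncard) :
    ∃ (y : ℕ → Y) (l : ℕ → Fin r × Bool), (∀ n, y n ∈ F) ∧
      (∀ n, ∃ g, P.lab (y n) (l n) = some g ∧ g • y n = y (n + 1)) ∧
      ∀ n, (l n).1 = (l (n + 1)).1 → (l n).2 = (l (n + 1)).2 := by
  obtain ⟨F', hs, ⟨v, hv⟩, hF'⟩ := P.exists_core F hne h
  have step : ∀ d : P.darts F', ∃ d' : P.darts F',
      (∃ g, P.lab d.1.1 d.1.2 = some g ∧ g • d.1.1 = d'.1.1) ∧
      (d.1.2.1 = d'.1.2.1 → d.1.2.2 = d'.1.2.2) := by
    rintro ⟨⟨y, l⟩, hy, g, hg, hgy⟩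
    obtain ⟨l₁, l₂, hl, h1, h2⟩ := hF' _ hgy
    by_cases hc : l.1 = l₁.1 → l.2 = l₁.2
    · exact ⟨⟨_, h1⟩, ⟨g, hg, rfl⟩, hc⟩
    · refine ⟨⟨_, h2⟩, ⟨g, hg, rfl⟩, ?_⟩
      obtain ⟨a, b⟩ := l
      obtain ⟨a₁, b₁⟩ := l₁
      obtain ⟨a₂, b₂⟩ := l₂
      simp only [ne_eq, Prod.mk.injEq, not_and, Classical.not_imp] at hc hl ⊢
      obtain ⟨rfl, hb⟩ := hc
      rintro rfl
      have := hl rfl
      cases b <;> cases b₁ <;> cases b₂ <;> simp_all
  choose nx hnx using step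
  obtain ⟨l₁, _, _, h1, _⟩ := hF' v hv
  let d : ℕ → P.darts F' := fun n => nx^[n] ⟨_, h1⟩
  have hd : ∀ n, d (n + 1) = nx (d n) := fun n => Function.iterate_succ_apply' _ _ _
  refine ⟨fun n => (d n).1.1, fun n => (d n).1.2, fun n => hs (d n).2.1, fun n => ?_, fun n => ?_⟩
  · simp only [hd]; exact (hnx (d n)).1
  · simp only [hd]; exact (hnx (d n)).2

theorem ray_walk (P : PF r Γ Y) {y : ℕ → Y} {l : ℕ → Fin r × Bool}
    (h1 : ∀ n, ∃ g, P.lab (y n) (l n) = some g ∧ g • y n = y (n + 1))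
    (h2 : ∀ n, (l n).1 = (l (n + 1)).1 → (l n).2 = (l (n + 1)).2) (k i : ℕ) :
    FreeGroup.IsReduced ((List.range' i k).map l) ∧
      ∃ g, P.walk ((List.range' i k).map l) (y i) = some g ∧ g • y i = y (i + k) := by
  induction k generalizing i with
  | zero => simp
  | succ k ih =>
    obtain ⟨hr, g', hg', he⟩ := ih (i + 1)
    obtain ⟨g, hg, hy⟩ := h1 i
    rw [List.range'_succ, List.map_cons]
    refine ⟨?_, g' * g, P.walk_cons_eq_some.2 ⟨g, g', hg, by rwa [hy], rfl⟩, ?_⟩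
    · cases k with
      | zero => simp
      | succ k =>
        rw [List.range'_succ, List.map_cons] at hr ⊢
        exact FreeGroup.isReduced_cons_cons.2 ⟨h2 i, hr⟩
    · rw [mul_smul, hy, he]; congr 1; omega

/-- At least two darts per vertex give arbitrarily long reduced walks. -/
theorem exists_long_walk (P : PF r Γ Y) (F : Finset Y) (hne : F.Nonempty)
    (h : 2 * F.card ≤ (P.darts F).ncard) (n : ℕ) :
    ∃ y ∈ F, ∃ (w : List (Fin r × Bool)) (g : Γ), w.length = n ∧ FreeGroup.IsReduced w ∧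
      P.walk w y = some g := by
  obtain ⟨y, l, hF, h1, h2⟩ := P.exists_ray F hne h
  obtain ⟨hr, g, hg, _⟩ := P.ray_walk h1 h2 n 0
  exact ⟨y 0, hF 0, _, g, by simp, hr, hg⟩

/-- At least two darts per vertex give a closed reduced walk (forest inequality). -/
theorem exists_closed_walk (P : PF r Γ Y) (F : Finset Y) (hne : F.Nonempty)
    (h : 2 * F.card ≤ (P.darts F).ncard) :
    ∃ y ∈ F, ∃ (w : List (Fin r × Bool)) (g : Γ), w ≠ [] ∧ w.length ≤ F.card ∧
      FreeGroup.IsReduced w ∧ P.walk w y = some g ∧ g • y = y := by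
  obtain ⟨y, l, hF, h1, h2⟩ := P.exists_ray F hne h
  obtain ⟨i, hi, j, hj, hij, he⟩ := Finset.exists_ne_map_eq_of_card_lt_of_maps_to
    (s := Finset.range (F.card + 1)) (t := F) (by simp) (f := y) (fun n _ => hF n)
  simp only [Finset.mem_range] at hi hj
  wlog hlt : i < j generalizing i j
  · exact this j i hij.symm he.symm hj hi (by omega)
  obtain ⟨hr, g, hg, hy⟩ := P.ray_walk h1 h2 (j - i) i
  refine ⟨y i, hF i, _, g, ?_, ?_, hr, hg, ?_⟩
  · intro h0
    have := congrArg List.length h0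
    simp at this
    omega
  · simp; omega
  · rw [hy, he]; congr 1; omega

end PF

end Pool.Agent.MP_c34dea_an.H23
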