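import Pool.Agent.MP_c34dea_an.H66.Lab
import Pool.Agent.MP_c34dea_an.H23.Forest

set_option autoImplicit false

open scoped Pointwise ENNReal

namespace Pool.Agent.MP_c34dea_an.H23

open Pool.Agent.MP_c34dea_an.H66

section Geometry

variable {S : Type} {G : SimpleGraph S}

/-- `r` equals or crosses `t` -/
def Stt (t r : Hyp G) : Prop := r = t ∨ Cross t r

/-- strongly separated hyperplanes -/
def TB0 (t u : Hyp G) : Prop := t ≠ u ∧ ¬ Cross t u ∧ ∀ r, ¬ (Cross r t ∧ Cross r u)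

/-- hyperplanes weakly between `t` and `u` -/
def Btw (t u : Hyp G) : Set (Hyp G) := {r | ∀ p q, t ∈ sep p q → u ∈ sep p q → r ∈ sep p q}

/-- carriers within distance `R` -/
def Nr (R : ℕ) (t u : Hyp G) : Prop := ∃ y ∈ car t, ∃ y' ∈ car u, d y y' ≤ R

/-- admissible relations on hyperplanes -/
structure Adm (R : Hyp G → Hyp G → Prop) : Prop where
  symm : ∀ t u, R t u → R u t
  inv : ∀ (g : W G) t u, R t u → R (g • t) (g • u)
  tb : ∀ t u, R t u → TB0 t u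
  up : ∀ t u t' u', R t' u' → t' ∈ Btw t u → u' ∈ Btw t u → R t u

open Classical in
/-- the largest size of a pairwise related subset -/
noncomputable def ht (R : Hyp G → Hyp G → Prop) (A : Finset (Hyp G)) : ℕ :=
  (A.powerset.filter (fun B : Finset (Hyp G) => (B : Set (Hyp G)).Pairwise R)).sup Finset.card

/-- the chain distance -/
noncomputable def D (R : Hyp G → Hyp G → Prop) (p q : W G) : ℕ := ht R (sep p q)

/-- no accidents within range `R` -/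
def F0 (N : Subgroup (W G)) (R : ℕ) : Prop :=
  ∀ t u : Hyp G, Nr R t u → ∀ n ∈ N, Stt t (n • u) → Stt t u

def LTP (N : Subgroup (W G)) (R : ℕ) : Prop :=
  ∀ t u k : Hyp G, Nr R t u → TB0 t u → ∀ n ∈ N, ¬ (Cross t k ∧ Cross (n • u) k)

def UP (N : Subgroup (W G)) (R : ℕ) : Prop :=
  ∀ t u : Hyp G, Nr R t u → t ≠ u → ¬ Cross t u → ∀ n ∈ N, Nr R t (n • u) →
    ∃ c : W G, c • t = t ∧ c • u = n • u

/-- the parity property of `N'` relative to `N` -/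
def UseP (N N' : Subgroup (W G)) : Prop :=
  ∀ n ∈ N', ∀ (p q z : W G) (f : Hyp G), f ∈ sep p q → (∀ v ∈ N, v • f ∈ sep p q → v • f = f) →
    ∃ v ∈ N, v • f ∈ sep z p ∨ v • f ∈ sep q (n * z)

def InjP (N : Subgroup (W G)) (R : ℕ) : Prop := ∀ g ∈ N, ∀ p, d p (g * p) ≤ R → g = 1

/-- normal of finite index -/
def NF (N : Subgroup (W G)) : Prop := N.Normal ∧ N.FiniteIndex

end Geometry

/-- module Bridge -/
def BridgeStmt : Prop :=
  ∀ (S : Type) (G : SimpleGraph S) (t u : Hyp G), ∃ y ∈ car t, ∃ y' ∈ car u,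
    (∀ r, r ∈ sep y y' ↔ r ∈ Btw t u ∧ r ≠ t ∧ r ≠ u) ∧
    (∀ r ∈ sep y y', ¬ Cross t r ∧ ¬ Cross u r) ∧
    ∀ z ∈ car t, ∀ z' ∈ car u, sep y y' ⊆ sep z z'

/-- module Levels -/
def LevelsStmt : Prop :=
  ∀ (S : Type) [Finite S] (G : SimpleGraph S),
    (∀ N : Subgroup (W G), NF N → ∃ N', NF N' ∧ N' ≤ N ∧ UseP N N') ∧
    ∀ R : ℕ, ∃ N : Subgroup (W G), NF N ∧ F0 N R ∧ LTP N R ∧ UP N R ∧ InjP N R

section Walks

variable {A Y : Type}

/-- the end point of a word -/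
def run (step : Y → A → Y) (y : Y) (γ : List A) : Y := γ.foldl step y

variable {S : Type} {G : SimpleGraph S}

/-- steps are mapped to edges -/
def Edge (step : Y → A → Y) (pos : Y → W G) : Prop :=
  ∀ y a, ∃ s, pos (step y a) = pos y * gen G s

def Good (step : Y → A → Y) (pos : Y → W G) (R : Hyp G → Hyp G → Prop) (θ x K : ℝ≥0∞) : Prop :=
  ∀ o y, ∑' γ : List A, x ^ γ.length * θ ^ D R o (pos (run step y γ)) ≤ K * θ ^ D R o (pos y)

/-- the invariant of the construction -/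
def GoodAt (step : Y → A → Y) (pos : Y → W G) (x : ℝ≥0∞) : Prop :=
  ∃ (R : Hyp G → Hyp G → Prop) (θ K : ℝ≥0∞), Adm R ∧ θ ≠ 0 ∧ θ < 1 ∧ K ≠ ∞ ∧ Good step pos R θ x K

open Classical in
/-- weighted number of words whose end point satisfies `P` -/
noncomputable def Gr (step : Y → A → Y) (x : ℝ≥0∞) (y : Y) (P : Y → Prop) : ℝ≥0∞ :=
  ∑' γ : List A, if P (run step y γ) then x ^ γ.length else 0

end Walks

/-- module Update -/
def UpdateStmt : Prop :=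
  ∀ (S : Type) [Finite S] (G : SimpleGraph S) (A : Type) [Finite A] (Y : Type) (step : Y → A → Y)
    (pos : Y → W G) (x x' : ℝ≥0∞) (𝒮 : Set (Set (Hyp G))) (E : Hyp G → Hyp G → Prop),
    Edge step pos → x' < x → GoodAt step pos x →
    (∀ g : W G, ∀ T ∈ 𝒮, g • T ∈ 𝒮) → (∀ T ∈ 𝒮, ∀ t ∈ T, ∀ u ∈ T, Btw t u ⊆ T) →
    (∀ t u, E t u → E u t) → (∀ (g : W G) t u, E t u → E (g • t) (g • u)) →
    (∀ t u t' u', E t u → t' ∈ Btw t u → u' ∈ Btw t u → E t' u') →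
    (∀ R, ∃ N : Subgroup (W G), NF N ∧ ∀ t u, Nr R t u → t ≠ u → ¬ Cross t u →
      ∀ T ∈ 𝒮, ∀ n ∈ N, t ∈ T → n • u ∈ T → E t u) →
    (∃ Θ : ℝ≥0∞, Θ ≠ ∞ ∧ ∀ y, Gr step x y
      (fun y' => ∃ t u, E t u ∧ pos y ∈ car t ∧ pos y' ∈ car u) ≤ Θ) →
    ∀ N₀ : Subgroup (W G), NF N₀ → ∃ N : Subgroup (W G), NF N ∧ N ≤ N₀ ∧
      ∃ (S' : Type) (_ : Finite S') (G' : SimpleGraph S') (L : Lab G G'),
        (∀ n ∈ N, ∀ h, L.lab (n • h) = L.lab h) ∧ (∀ T ∈ 𝒮, Clq G' (L.lab '' T)) ∧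
        GoodAt step (fun y => L.phi (pos y)) x'

/-- module B -/
def BStmt : Prop :=
  ∀ (S : Type) [Finite S] (G : SimpleGraph S) (A : Type) [Finite A] (Y : Type) (step : Y → A → Y)
    (pos : Y → W G) (x x' : ℝ≥0∞), Edge step pos → x' < x → GoodAt step pos x →
    ∀ N₀ : Subgroup (W G), NF N₀ → ∃ N : Subgroup (W G), NF N ∧ N ≤ N₀ ∧
      ∃ (S' : Type) (_ : Finite S') (G' : SimpleGraph S') (L : Lab G G'),
        (∀ n ∈ N, ∀ h, L.lab (n • h) = L.lab h) ∧ GoodAt step (fun y => L.phi (pos y)) x' ∧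
        ∀ p q, d (L.phi p) (L.phi q) ≤ D TB0 p q * Nat.card S'

/-- letters of the free group of rank two -/
abbrev Lt2 : Type := Fin 2 × Bool

/-- `Z` is part of `P` -/
def PF.Le {r : ℕ} {Γ X : Type} [Group Γ] [MulAction Γ X] (Z P : PF r Γ X) : Prop :=
  ∀ x l g, Z.lab x l = some g → P.lab x l = some g

open Classical in
/-- module Percolation -/
def PercStmt : Prop :=
  ∀ (Γ X : Type) [Group Γ] [MulAction Γ X] [Finite X] (P : PF 2 Γ X) (r : ℕ)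
    (c : X → List Lt2 → ℝ≥0∞), 39 * Nat.card X ≤ 10 * P.size →
    (∀ x w g, w ≠ [] → FreeGroup.IsReduced w → w.length ≤ r → P.walk w x = some g → g • x ≠ x) →
    (∀ x w, c x w ≠ 0 → w ≠ [] ∧ FreeGroup.IsReduced w ∧ w.length ≤ r) →
    (∀ x, ∑' w : List Lt2,
      (if (P.walk w x).isSome then (11 / 20 : ℝ≥0∞) ^ w.length * c x w else 0) ≤ 1 / 200) →
    ∃ Z : PF 2 Γ X, Z.Le P ∧ 21 * Nat.card X ≤ 10 * Z.size ∧
      ∀ x, ∑' w : List Lt2, (if (Z.walk w x).isSome then c x w else 0) < 1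

section Trees

variable {S : Type} {G : SimpleGraph S}

/-- a sequence of points that makes definite progress in the chain distance -/
structure Prog (x : ℕ → W G) (n L s g ν : ℕ) : Prop where
  step : ∀ i < n, d (x i) (x (i + 1)) ≤ L
  far : ∀ i j, i + s ≤ j → j ≤ i + g → j ≤ n → 2 * L + 2 ≤ D TB0 (x i) (x j)
  big : ∀ i, i + g ≤ n → 2 * s * L + ν ≤ D TB0 (x i) (x (i + g))

/-- a hyperplane crossed only inside the window starting at `j` -/
def Loc (x : ℕ → W G) (n g j : ℕ) (e : Hyp G) : Prop :=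
  (∀ a ≤ j, e ∉ sep (x 0) (x a)) ∧ ∀ a, j + g ≤ a → a ≤ n → e ∈ sep (x 0) (x a)

variable {Γ X : Type} [Group Γ] [MulAction Γ X]

/-- a cocycle with values in the Coxeter group -/
structure Coc (δ : Γ → X → W G) : Prop where
  one : ∀ b, δ 1 b = 1
  mul : ∀ g g' b, δ (g * g') b = δ g' b * δ g (g' • b)

/-- the skew product action -/
noncomputable def skew (δ : Γ → X → W G) (g : Γ) (υ : W G × X) : W G × X := (υ.1 * δ g υ.2, g • υ.2)

/-- the position after reading `w` -/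
noncomputable def pt (δ : Γ → X → W G) (Z : PF 2 Γ X) (υ : W G × X) (w : List Lt2) : W G :=
  υ.1 * δ ((Z.walk w υ.2).getD 1) υ.2

/-- the positions of the component of `υ` -/
def Tree (δ : Γ → X → W G) (Z : PF 2 Γ X) (υ : W G × X) : Set (W G) :=
  {α | ∃ w g, Z.walk w υ.2 = some g ∧ α = υ.1 * δ g υ.2}

/-- all reduced walks make progress -/
def ZProg (δ : Γ → X → W G) (Z : PF 2 Γ X) (L s g ν : ℕ) : Prop :=
  ∀ (υ : W G × X) (w : List Lt2), FreeGroup.IsReduced w → (Z.walk w υ.2).isSome →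
    Prog (fun i => pt δ Z υ (w.take i)) w.length L s g ν

/-- two hyperplanes meet a common tree -/
def ET (δ : Γ → X → W G) (Z : PF 2 Γ X) (t u : Hyp G) : Prop :=
  ∃ υ, t ∈ WH (Tree δ Z υ) ∧ u ∈ WH (Tree δ Z υ)

/-- the cost of a long walk from `α` to `β` -/
noncomputable def Fh {A Y : Type} (step : Y → A → Y) (pos : Y → W G) (x : ℝ≥0∞) (u : ℕ)
    (α β : W G) : ℝ≥0∞ :=
  ⨆ (ζ : Y) (_ : D TB0 (pos ζ) α ≤ u), Gr step x ζ (fun ζ' => D TB0 (pos ζ') β ≤ u)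

end Trees

/-- module GC: located hyperplanes -/
def LocStmt : Prop :=
  ∀ (S : Type) (G : SimpleGraph S) (x : ℕ → W G) (n L s g ν : ℕ), 1 ≤ s → s ≤ g → 2 ≤ ν →
    Prog x n L s g ν →
    (∀ i j e, i ≤ j → j < n → e ∈ sep (x i) (x (i + 1)) → e ∈ sep (x j) (x (j + 1)) → j < i + s) ∧
    ∀ j, j + g ≤ n → ∃ B : Finset (Hyp G), ν ≤ B.card ∧ (B : Set (Hyp G)).Pairwise TB0 ∧
      ∀ e ∈ B, Loc x n g j e

/-- module Faith -/
def FaithStmt : Prop :=
  ∀ (S : Type) [Finite S] (G : SimpleGraph S) (Γ X : Type) [Group Γ] [MulAction Γ X] [Finite X]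
    (δ : Γ → X → W G) (Z : PF 2 Γ X) (L s g ν : ℕ), Coc δ → 1 ≤ s → s ≤ g → 4 ≤ ν →
    ZProg δ Z L s g ν → ∀ R, ∃ N : Subgroup (W G), NF N ∧
      ∀ t u, Nr R t u → t ≠ u → ¬ Cross t u → ∀ υ, ∀ n ∈ N, t ∈ WH (Tree δ Z υ) →
        n • u ∈ WH (Tree δ Z υ) → ET δ Z t u

open Classical in
/-- module Thin -/
def ThinStmt : Prop :=
  ∀ (S : Type) [Finite S] (G : SimpleGraph S) (Γ X : Type) [Group Γ] [MulAction Γ X] [Finite X]
    (δ : Γ → X → W G) (Z : PF 2 Γ X) (L s g ν k : ℕ) (A : Type) [Finite A] (Y : Type)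
    (step : Y → A → Y) (pos : Y → W G) (x : ℝ≥0∞), Coc δ → 1 ≤ s → s ≤ g → L + 4 ≤ ν →
    2 * g ≤ k → ZProg δ Z L s g ν → Edge step pos → GoodAt step pos x →
    (∀ υ : W G × X, ∑' w : List Lt2,
      (if w.length = k ∧ FreeGroup.IsReduced w ∧ (Z.walk w υ.2).isSome then
        Fh step pos x (g * L + 1) υ.1 (pt δ Z υ w) else 0) ≤ 1 / 2) →
    ∃ Θ : ℝ≥0∞, Θ ≠ ∞ ∧ ∀ y, Gr step x y
      (fun y' => ∃ t u, ET δ Z t u ∧ pos y ∈ car t ∧ pos y' ∈ car u) ≤ Θ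

open Classical in
/-- module Cost: `ψ` is the map to the auxiliary group, `κ` a finite invariant that together with
the position in the auxiliary group determines all future positions there; end points of different
reduced walks are distinguished by their position in the auxiliary group and a finite invariant. -/
def CostStmt : Prop :=
  ∀ (S : Type) (G : SimpleGraph S) (S' : Type) [Finite S'] (G' : SimpleGraph S') (ψ : W G → W G')
    (A Y : Type) (step : Y → A → Y) (pos : Y → W G) (x : ℝ≥0∞) (V : Type) [Finite V] (κ : Y → V)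
    (V' : Type) [Finite V'] (c L ν : ℕ),
    (∀ p q, d (ψ p) (ψ q) ≤ D TB0 p q * c) → GoodAt step (fun y => ψ (pos y)) x →
    (∀ ζ ζ' γ, κ ζ = κ ζ' → ψ (pos ζ) = ψ (pos ζ') →
      ψ (pos (run step ζ γ)) = ψ (pos (run step ζ' γ))) →
    ∃ s g k : ℕ, 1 ≤ s ∧ s ≤ g ∧ 2 * g ≤ k ∧
      ∀ (α : W G) (B : Set (List Lt2)) (e : List Lt2 → W G) (v : List Lt2 → V'),
        (∀ w ∈ B, FreeGroup.IsReduced w) →
        (∀ w ∈ B, ∀ w' ∈ B, w.length = w'.length → w.length ≤ k → ψ (e w) = ψ (e w') →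
          v w = v w' → w = w') →
        ∑' w : List Lt2, (if w ∈ B then (11 / 20 : ℝ≥0∞) ^ w.length *
          ((if s ≤ w.length ∧ w.length ≤ g ∧ D TB0 α (e w) < 2 * L + 2 then 1 else 0) +
           (if w.length = g ∧ D TB0 α (e w) < 2 * s * L + ν then 1 else 0) +
           (if w.length = k then 2 * Fh step pos x (g * L + 1) α (e w) else 0)) else 0) ≤ 1 / 200

/-- the graph defining the acting group -/
abbrev G5 : SimpleGraph (Fin 5) := ⊥

/-- the acting group -/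
abbrev Γ5 : Type := W G5

/-- a stage of the construction -/
structure Stage where
  S : Type
  fin : Finite S
  G : SimpleGraph S
  pos : Γ5 → W G
  H : Subgroup Γ5
  fi : H.FiniteIndex
  edge : ∀ y s, ∃ l, pos (gen G5 s * y) = pos y * gen G l
  mul : ∀ h ∈ H, ∀ y, pos (y * h) = pos h * pos y

/-- one step in the acting group -/
noncomputable def st5 (y : Γ5) (s : Fin 5) : Γ5 := gen G5 s * y

namespace Stage

variable (σ : Stage)

def Ker (k : Γ5) : Prop := k ∈ σ.H ∧ σ.pos k = 1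

/-- subgroups that come from finite quotients of the Coxeter group -/
def Sub (K : Subgroup Γ5) : Prop :=
  K ≤ σ.H ∧ ∃ N : Subgroup (W σ.G), NF N ∧ ∀ h ∈ σ.H, σ.pos h ∈ N → h ∈ K

def Far {B : Subgroup Γ5} (Q : PF 2 Γ5 (Γ5 ⧸ B)) (R : ℕ) : Prop :=
  ∀ K : Subgroup Γ5, σ.Sub K → ∀ P : PF 2 Γ5 (Γ5 ⧸ K), P.Below Q →
    39 * Nat.card (Γ5 ⧸ K) ≤ 10 * P.size →
    ∃ (y : Γ5) (w : List Lt2) (g : Γ5), w ≠ [] ∧ FreeGroup.IsReduced w ∧ w.length ≤ R ∧
      P.walk w (y : Γ5 ⧸ K) = some g ∧ σ.Ker (y⁻¹ * g * y)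

def Inj (ρ : ℕ) : Prop := ∀ y g : Γ5, d 1 g ≤ ρ → y⁻¹ * g * y ∈ σ.H → σ.Ker (y⁻¹ * g * y)

def Ext (σ' : Stage) : Prop := (∀ k, σ.Ker k → σ'.Ker k) ∧ ∀ K, σ'.Sub K → σ.Sub K

def Gd (x : ℝ≥0∞) : Prop := GoodAt st5 σ.pos x

end Stage

/-- module Step -/
def StepStmt : Prop :=
  ∀ (σ : Stage) (x x' : ℝ≥0∞) (B : Subgroup Γ5) (Q : PF 2 Γ5 (Γ5 ⧸ B)) (ρ : ℕ), B.FiniteIndex →
    x' < x → σ.Gd x → ∃ σ' : Stage, σ.Ext σ' ∧ σ'.Gd x' ∧ σ'.Inj ρ ∧ ∃ R, σ'.Far Q R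

/-- module Tower -/
def TowerBStmt : Prop :=
  StepStmt → ∃ H : ℕ → Subgroup Γ5, Antitone H ∧ (∀ n, (H n).FiniteIndex) ∧ TowerN H ∧ TowerF H

end Pool.Agent.MP_c34dea_an.H23
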