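import Pool.Agent.MP_c34dea_an.H23.BChain

set_option autoImplicit false

open scoped Pointwise ENNReal

namespace Pool.Agent.MP_c34dea_an.H23

open Pool.Agent.MP_c34dea_an.H66

variable {S : Type} {G : SimpleGraph S}

/-- an exceptional interval of a chain that is ascending (seen from `o`) between `y` and `y'` -/
structure Itv (R E : Hyp G → Hyp G → Prop) (o y y' : W G) (J : Finset (Hyp G)) : Prop where
  pw : (J : Set (Hyp G)).Pairwise R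
  asc : ∀ r ∈ J, r ∉ sep o y ∧ r ∈ sep o y'
  ends : ∃ t ∈ J, ∃ u ∈ J, E t u ∧ ∀ r ∈ J, (t = r ∨ Lt o t r) ∧ (r = u ∨ Lt o r u)

/-- an ordered list of exceptional intervals -/
def ItvList (R E : Hyp G → Hyp G → Prop) (o y y' : W G) (Js : List (Finset (Hyp G))) : Prop :=
  (∀ J ∈ Js, Itv R E o y y' J) ∧ Js.Pairwise fun J J' => ∀ r ∈ J, ∀ r' ∈ J', Lt o r r'

/-- the geometric half of the update lemma -/
def BlockStmt : Prop :=
  ∀ (S : Type) [Finite S] (G : SimpleGraph S) (R : Hyp G → Hyp G → Prop)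
    (𝒮 : Set (Set (Hyp G))) (E : Hyp G → Hyp G → Prop), Adm R →
    (∀ g : W G, ∀ T ∈ 𝒮, g • T ∈ 𝒮) → (∀ T ∈ 𝒮, ∀ t ∈ T, ∀ u ∈ T, Btw t u ⊆ T) →
    (∀ t u, E t u → E u t) → (∀ (g : W G) t u, E t u → E (g • t) (g • u)) →
    (∀ t u t' u', E t u → t' ∈ Btw t u → u' ∈ Btw t u → E t' u') →
    (∀ R, ∃ N : Subgroup (W G), NF N ∧ ∀ t u, Nr R t u → t ≠ u → ¬ Cross t u →
      ∀ T ∈ 𝒮, ∀ n ∈ N, t ∈ T → n • u ∈ T → E t u) →
    ∀ a m : ℕ, 1 ≤ a → ∀ N₀ : Subgroup (W G), NF N₀ → ∃ N : Subgroup (W G), NF N ∧ N ≤ N₀ ∧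
      ∃ (S' : Type) (_ : Finite S') (G' : SimpleGraph S') (L : Lab G G')
        (R' : Hyp G' → Hyp G' → Prop), Adm R' ∧
        (∀ n ∈ N, ∀ h, L.lab (n • h) = L.lab h) ∧ (∀ T ∈ 𝒮, Clq G' (L.lab '' T)) ∧
        ∀ (o : W G') (y : W G), ∃ o' : W G, ∀ y', d y y' ≤ m →
          ∃ Js : List (Finset (Hyp G)), ItvList R E o' y y' Js ∧ Js.length * a ≤ m ∧
            10 * a * D R' o (L.phi y) + D R o' y' ≤
              10 * a * D R' o (L.phi y') + D R o' y + (Js.map Finset.card).sum + 200 * a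

end Pool.Agent.MP_c34dea_an.H23
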