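import Pool.Agent.MP_c34dea_an.H23.Lim

set_option autoImplicit false
open MeasureTheory
open scoped symmDiff ENNReal

namespace Pool.Agent.MP_c34dea_an.H23

variable {Γ : Type} [Group Γ] {H : ℕ → Subgroup Γ} {X : Type} [MeasurableSpace X] [MulAction Γ X]
  {μ : Measure X}

theorem tail_small [IsFiniteMeasure μ] {A : ℕ → Set X} (hm : ∀ k, MeasurableSet (A k))
    (ha : Antitone A) (h0 : μ (⋂ k, A k) = 0) {η : ℝ} (hη : 0 < η) : ∃ k, μ.real (A k) ≤ η := by
  have h := tendsto_measure_iInter_atTop (μ := μ) (fun k => (hm k).nullMeasurableSet) ha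
    ⟨0, measure_ne_top _ _⟩
  rw [h0] at h
  have h2 := (ENNReal.tendsto_toReal ENNReal.zero_ne_top).comp h
  simp only [ENNReal.toReal_zero] at h2
  obtain ⟨k, hk⟩ := (h2.eventually (ge_mem_nhds hη)).exists
  exact ⟨k, hk⟩

theorem measurableSet_of_fibres {V : Type} [Countable V] {w : X → V}
    (hw : ∀ v, MeasurableSet (w ⁻¹' {v})) (C : Set V) : MeasurableSet (w ⁻¹' C) := by
  have : w ⁻¹' C = ⋃ v ∈ C, w ⁻¹' {v} := by ext x; simp
  rw [this]
  exact MeasurableSet.biUnion C.to_countable fun v _ => hw v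

theorem exists_finset_tail [IsFiniteMeasure μ] {V : Type} [Countable V] {w : X → V}
    (hw : ∀ v, MeasurableSet (w ⁻¹' {v})) {η : ℝ} (hη : 0 < η) :
    ∃ T : Finset V, μ.real {x | w x ∉ T} ≤ η := by
  obtain ⟨f, hf⟩ := Countable.exists_injective_nat (α := V)
  obtain ⟨k, hk⟩ := tail_small (μ := μ) (A := fun k => w ⁻¹' {v | k ≤ f v})
    (fun k => measurableSet_of_fibres hw _)
    (fun i j hij x hx => le_trans hij hx) (by
      have : (⋂ k, w ⁻¹' {v | k ≤ f v}) = ∅ := by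
        ext x
        simp only [Set.mem_iInter, Set.mem_preimage, Set.mem_ofPred_eq, Set.mem_empty_iff_false,
          iff_false, not_forall, not_le]
        exact ⟨f (w x) + 1, Nat.lt_succ_self _⟩
      rw [this, measure_empty]) hη
  have hfin : {v | f v < k}.Finite := (Set.finite_lt_nat k).preimage hf.injOn
  refine ⟨hfin.toFinset, ?_⟩
  convert hk using 3 with x
  simp

namespace Sys

variable (S : Sys H X μ)

include S in
theorem real_preimage (g : Γ) (B : Set X) : μ.real ((fun x => g • x) ⁻¹' B) = μ.real B := by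
  let e : X ≃ᵐ X := ⟨MulAction.toPerm g, (S.mp g).measurable, (S.mp g⁻¹).measurable⟩
  have h : MeasurePreserving e μ μ := S.mp g
  unfold Measure.real
  exact congrArg _ (h.measure_preimage_equiv B)

/-- Conditional probability of `B` given the atom `a` of level `n`. -/
noncomputable def cond (n : ℕ) (B : Set X) (a : Γ ⧸ H n) : ℝ :=
  Nat.card (Γ ⧸ H n) * μ.real (B ∩ S.p n ⁻¹' {a})

theorem cond_smul (n : ℕ) (B : Set X) (g : Γ) (a : Γ ⧸ H n) :
    S.cond n B (g • a) = S.cond n ((fun x => g • x) ⁻¹' B) a := by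
  unfold cond
  rw [← S.real_preimage g (B ∩ _)]
  congr 2
  ext x
  simp [S.equiv]

theorem sum_atoms [IsFiniteMeasure μ] (n : ℕ) {B : Set X} (hB : MeasurableSet B)
    (D : Finset (Γ ⧸ H n)) :
    ∑ a ∈ D, μ.real (B ∩ S.p n ⁻¹' {a}) = μ.real (B ∩ S.p n ⁻¹' D) := by
  rw [← measureReal_biUnion_finset]
  · congr 1
    ext x
    simp only [Set.mem_iUnion, Set.mem_inter_iff, Set.mem_preimage, Set.mem_singleton_iff,
      exists_prop, Finset.mem_coe]
    constructor
    · rintro ⟨a, ha, hx, rfl⟩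
      exact ⟨hx, ha⟩
    · rintro ⟨hx, ha⟩
      exact ⟨_, ha, hx, rfl⟩
  · intro a _ b _ hab
    exact Set.disjoint_left.2 fun x h1 h2 => hab (h1.2.symm.trans h2.2)
  · exact fun a _ => hB.inter (S.meas_p n _)

theorem card_pos' (n : ℕ) [(H n).FiniteIndex] : (0 : ℝ) < Nat.card (Γ ⧸ H n) :=
  Nat.cast_pos.2 Nat.card_pos

theorem cond_inv [IsFiniteMeasure μ] (n : ℕ) [(H n).FiniteIndex] {B : Set X}
    (hB : MeasurableSet B) (hinv : ∀ g : Γ, (fun x => g • x) ⁻¹' B = B) (a : Γ ⧸ H n) :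
    S.cond n B a = μ.real B := by
  have := Fintype.ofFinite (Γ ⧸ H n)
  have h1 : ∀ b, S.cond n B b = S.cond n B a := by
    intro b
    obtain ⟨g, rfl⟩ := MulAction.exists_smul_eq Γ a b
    rw [cond_smul, hinv]
  have h2 := S.sum_atoms n hB Finset.univ
  have h3 : ∑ b, S.cond n B b = Nat.card (Γ ⧸ H n) * μ.real B := by
    unfold cond
    rw [← Finset.mul_sum, h2]
    simp
  simp only [h1, Finset.sum_const, Finset.card_univ, nsmul_eq_mul,
    ← Nat.card_eq_fintype_card] at h3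
  exact mul_left_cancel₀ (card_pos' n).ne' h3

theorem cond_univ [IsProbabilityMeasure μ] (n : ℕ) [(H n).FiniteIndex] (a : Γ ⧸ H n) :
    S.cond n Set.univ a = 1 := by
  rw [S.cond_inv n MeasurableSet.univ (fun _ => rfl)]
  simp

theorem real_atom [IsProbabilityMeasure μ] (n : ℕ) [(H n).FiniteIndex] (a : Γ ⧸ H n) :
    Nat.card (Γ ⧸ H n) * μ.real (S.p n ⁻¹' {a}) = 1 := by
  have := S.cond_univ n a
  simpa [cond] using this

theorem real_cyl [IsProbabilityMeasure μ] (n : ℕ) [(H n).FiniteIndex] (C : Set (Γ ⧸ H n)) :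
    Nat.card (Γ ⧸ H n) * μ.real (S.p n ⁻¹' C) = C.ncard := by
  have hC : C.Finite := Set.toFinite C
  have h := S.sum_atoms n MeasurableSet.univ hC.toFinset
  simp only [Set.univ_inter, Set.Finite.coe_toFinset] at h
  rw [← h, Finset.mul_sum]
  simp only [S.real_atom, Finset.sum_const, nsmul_eq_mul, mul_one]
  rw [Set.ncard_eq_toFinset_card C hC]

theorem cond_compl [IsProbabilityMeasure μ] (n : ℕ) [(H n).FiniteIndex] {B : Set X}
    (hB : MeasurableSet B) (a : Γ ⧸ H n) : S.cond n Bᶜ a = 1 - S.cond n B a := by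
  have h := measureReal_inter_add_sdiff (μ := μ) (s := S.p n ⁻¹' {a}) hB
  have h2 := S.real_atom n a
  unfold cond
  rw [Set.inter_comm B, Set.inter_comm Bᶜ, ← Set.sdiff_eq, ← h2, ← h]
  ring

theorem cond_mono [IsFiniteMeasure μ] (n : ℕ) {B B' : Set X} (a : Γ ⧸ H n)
    (h : ∀ x ∈ B, S.p n x = a → x ∈ B') : S.cond n B a ≤ S.cond n B' a := by
  unfold cond
  exact mul_le_mul_of_nonneg_left
    (measureReal_mono fun x hx => ⟨h x hx.1 hx.2, hx.2⟩) (Nat.cast_nonneg _)

theorem cond_union_le (n : ℕ) (B B' : Set X) (a : Γ ⧸ H n) :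
    S.cond n (B ∪ B') a ≤ S.cond n B a + S.cond n B' a := by
  unfold cond
  rw [← mul_add, Set.union_inter_distrib_right]
  exact mul_le_mul_of_nonneg_left (measureReal_union_le _ _) (Nat.cast_nonneg _)

theorem cond_null (n : ℕ) {B : Set X} (h : μ B = 0) (a : Γ ⧸ H n) : S.cond n B a = 0 := by
  unfold cond Measure.real
  rw [measure_mono_null Set.inter_subset_left h]
  simp

theorem cond_unique [IsProbabilityMeasure μ] (n : ℕ) [(H n).FiniteIndex] {B B' : Set X}
    (hB : MeasurableSet B) (a : Γ ⧸ H n) (h1 : 1 / 2 < S.cond n B a) (h2 : 1 / 2 < S.cond n B' a) :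
    (B ∩ B').Nonempty := by
  by_contra hne
  have : S.cond n B' a ≤ S.cond n Bᶜ a :=
    S.cond_mono n a fun x hx _ hx' => hne ⟨x, hx', hx⟩
  rw [S.cond_compl n hB] at this
  linarith

/-- Density lemma for one set. -/
theorem dens [IsProbabilityMeasure μ] (hfi : ∀ n, (H n).FiniteIndex) {B : Set X}
    (hB : MeasurableSet B) {θ η : ℝ} (hθ : θ < 1) (hη : 0 < η) :
    ∃ n₀, ∀ n, n₀ ≤ n → μ.real {x | x ∈ B ∧ S.cond n B (S.p n x) ≤ θ} ≤ η := by
  have h1 : 0 < 1 - θ := by linarith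
  set η' := η * (1 - θ) / (2 - θ) with hη'
  have h2 : 0 < η' := by
    have : 0 < 2 - θ := by linarith
    positivity
  obtain ⟨n₀, hn₀⟩ := S.approx B hB (ENNReal.ofReal η') (ENNReal.ofReal_pos.2 h2)
  refine ⟨n₀, fun n hn => ?_⟩
  obtain ⟨C, hC⟩ := hn₀ n hn
  have hC' : μ.real ((S.p n ⁻¹' C) ∆ B) ≤ η' := ENNReal.toReal_le_of_le_ofReal h2.le hC.le
  have hD : ({a | a ∈ C ∧ S.cond n B a ≤ θ} : Set _).Finite := Set.toFinite _
  have hN := card_pos' (H := H) n
  have e1 : {x | x ∈ B ∧ S.cond n B (S.p n x) ≤ θ} ⊆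
      ((S.p n ⁻¹' C) ∆ B) ∪ S.p n ⁻¹' hD.toFinset := by
    rintro x ⟨hx, hc⟩
    by_cases hxC : S.p n x ∈ C
    · right
      simp [hxC, hc]
    · left
      exact Or.inr ⟨hx, hxC⟩
  have e2 : (1 - θ) * μ.real (S.p n ⁻¹' hD.toFinset) ≤ η' := by
    have a1 := S.sum_atoms n hB.compl hD.toFinset
    have a2 := S.sum_atoms n MeasurableSet.univ hD.toFinset
    simp only [Set.univ_inter] at a2
    have a3 : μ.real (Bᶜ ∩ S.p n ⁻¹' hD.toFinset) ≤ η' := by
      refine le_trans (measureReal_mono ?_) hC'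
      rintro x ⟨hx, hp⟩
      have : S.p n x ∈ C := by
        simp only [Set.Finite.coe_toFinset, Set.mem_preimage, Set.mem_ofPred_eq] at hp
        exact hp.1
      exact Or.inl ⟨this, hx⟩
    rw [← a2, Finset.mul_sum]
    refine le_trans (Finset.sum_le_sum fun a ha => ?_) (a1.le.trans a3)
    have b1 := S.cond_compl n hB a
    have b2 := S.real_atom n a
    have b3 : S.cond n B a ≤ θ := by
      simp only [Set.Finite.mem_toFinset, Set.mem_ofPred_eq] at ha
      exact ha.2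
    refine le_of_mul_le_mul_left ?_ hN
    have b4 : S.cond n Bᶜ a = Nat.card (Γ ⧸ H n) * μ.real (Bᶜ ∩ S.p n ⁻¹' {a}) := rfl
    rw [← b4, b1, mul_left_comm, b2]
    linarith
  have e3 := (measureReal_mono (μ := μ) e1).trans (measureReal_union_le _ _)
  have e4 : η' * (2 - θ) = η * (1 - θ) := by
    rw [hη']
    field_simp [show (2 - θ) ≠ 0 by linarith]
  refine le_of_mul_le_mul_left ?_ h1
  nlinarith

/-- Density lemma for a function with countably many values. -/
theorem densW [IsProbabilityMeasure μ] (hfi : ∀ n, (H n).FiniteIndex) {V : Type} [Countable V]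
    {w : X → V} (hw : ∀ v, MeasurableSet (w ⁻¹' {v})) {θ η : ℝ} (hθ : θ < 1) (hη : 0 < η) :
    ∃ n₀, ∀ n, n₀ ≤ n → μ.real {x | S.cond n (w ⁻¹' {w x}) (S.p n x) ≤ θ} ≤ η := by
  obtain ⟨T, hT⟩ := exists_finset_tail (μ := μ) hw (half_pos hη)
  have hη' : 0 < η / 2 / (T.card + 1) := by positivity
  choose n₁ hn₁ using fun v => S.dens hfi (hw v) hθ hη'
  refine ⟨T.sup n₁, fun n hn => ?_⟩
  have e1 : {x | S.cond n (w ⁻¹' {w x}) (S.p n x) ≤ θ} ⊆ {x | w x ∉ T} ∪
      ⋃ v ∈ T, {x | x ∈ w ⁻¹' {v} ∧ S.cond n (w ⁻¹' {v}) (S.p n x) ≤ θ} := by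
    intro x hx
    by_cases hxT : w x ∈ T
    · right
      simp only [Set.mem_iUnion]
      exact ⟨w x, hxT, rfl, hx⟩
    · exact Or.inl hxT
  have e2 := (measureReal_mono (μ := μ) e1).trans (measureReal_union_le _ _)
  have e3 := measureReal_biUnion_finset_le (μ := μ) T
    (fun v => {x | x ∈ w ⁻¹' {v} ∧ S.cond n (w ⁻¹' {v}) (S.p n x) ≤ θ})
  have e4 : ∑ v ∈ T, μ.real {x | x ∈ w ⁻¹' {v} ∧ S.cond n (w ⁻¹' {v}) (S.p n x) ≤ θ}
      ≤ ∑ v ∈ T, η / 2 / (T.card + 1) :=
    Finset.sum_le_sum fun v hv => hn₁ v n (le_trans (Finset.le_sup hv) hn)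
  rw [Finset.sum_const, nsmul_eq_mul] at e4
  have e5 : (T.card : ℝ) * (η / 2 / (T.card + 1)) ≤ η / 2 := by
    rw [← mul_div_assoc, div_le_iff₀ (by positivity)]
    nlinarith
  linarith

include S in
/-- Ergodicity. -/
theorem ergodic [IsProbabilityMeasure μ] (hfi : ∀ n, (H n).FiniteIndex) {B : Set X}
    (hB : MeasurableSet B) (hinv : ∀ g : Γ, (fun x => g • x) ⁻¹' B = B) : μ B = 0 ∨ μ B = 1 := by
  by_cases h1 : μ.real B < 1
  · left
    have : μ.real B ≤ 0 := by
      refine le_of_forall_pos_le_add fun η hη => ?_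
      obtain ⟨n, hn⟩ := S.dens hfi hB h1 hη
      have := hn n le_rfl
      simp only [S.cond_inv n hB hinv, le_refl, and_true, Set.ofPred_mem_eq] at this
      linarith
    have h0 : μ.real B = 0 := le_antisymm this measureReal_nonneg
    exact (measureReal_eq_zero_iff (measure_ne_top _ _)).1 h0
  · right
    have : μ.real B = 1 := le_antisymm measureReal_le_one (not_lt.1 h1)
    rw [← ENNReal.toReal_eq_one_iff]
    exact this

end Sys

end Pool.Agent.MP_c34dea_an.H23
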