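import Pool.Agent.MP_c34dea_an.H23.BChain

set_option autoImplicit false

open scoped Pointwise ENNReal

namespace Pool.Agent.MP_c34dea_an.H23

open Pool.Agent.MP_c34dea_an.H66

namespace LocAux

variable {S : Type} {G : SimpleGraph S}

/-- a hyperplane separating two points of a sequence is crossed at some step in between -/
theorem exists_step_of_sep (x : ℕ → W G) {e : Hyp G} {a b : ℕ} (hab : a ≤ b)
    (h : e ∈ sep (x a) (x b)) : ∃ c, a ≤ c ∧ c < b ∧ e ∈ sep (x c) (x (c + 1)) := by
  induction b, hab using Nat.le_induction with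
  | base => simp at h
  | succ b hb ih =>
    rw [mem_sep_trans _ (x b)] at h
    rcases h with h | h
    · obtain ⟨c, h1, h2, h3⟩ := ih h.1
      exact ⟨c, h1, by omega, h3⟩
    · exact ⟨b, hb, by omega, h.1⟩

/-- the hyperplanes crossed at the steps `j, …, j + s - 1` -/
noncomputable def crossed (x : ℕ → W G) (j s : ℕ) : Finset (Hyp G) :=
  (Finset.range s).biUnion fun a => sep (x (j + a)) (x (j + a + 1))

theorem mem_crossed {x : ℕ → W G} {j s c : ℕ} {e : Hyp G} (h1 : j ≤ c) (h2 : c < j + s)
    (h : e ∈ sep (x c) (x (c + 1))) : e ∈ crossed x j s := by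
  refine Finset.mem_biUnion.2 ⟨c - j, Finset.mem_range.2 (by omega), ?_⟩
  have e1 : j + (c - j) = c := by omega
  rw [e1]
  exact h

theorem card_crossed {x : ℕ → W G} {n L j s : ℕ} (hL : ∀ i < n, d (x i) (x (i + 1)) ≤ L)
    (h : j + s ≤ n) : (crossed x j s).card ≤ s * L := by
  refine Finset.card_biUnion_le.trans ?_
  refine (Finset.sum_le_card_nsmul _ _ L fun a ha => ?_).trans (by simp)
  exact hL _ (by have := Finset.mem_range.1 ha; omega)

/-- the walls of a window that are crossed only in the middle of the window -/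
theorem exists_core {x : ℕ → W G} {n L s g ν : ℕ} (hsg : s ≤ g) (h : Prog x n L s g ν) {j : ℕ}
    (hj : j + g ≤ n) : ∃ B : Finset (Hyp G), ν ≤ B.card ∧ (B : Set (Hyp G)).Pairwise TB0 ∧
      ∀ e ∈ B, e ∈ sep (x j) (x (j + g)) ∧
        ∃ c, j + s ≤ c ∧ c + s < j + g ∧ e ∈ sep (x c) (x (c + 1)) := by
  obtain ⟨B, hB1, hB2, hB3⟩ := exists_ht (TB0 (G := G)) (sep (x j) (x (j + g)))
  have h1 := h.big j hj
  have h2 := card_crossed h.step (j := j) (s := s) (by omega)
  have h3 := card_crossed h.step (j := j + g - s) (s := s) (by omega)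
  have h4 := Finset.card_union_le (crossed x j s) (crossed x (j + g - s) s)
  have h5 := Finset.le_card_sdiff (crossed x j s ∪ crossed x (j + g - s) s) B
  refine ⟨B \ (crossed x j s ∪ crossed x (j + g - s) s), ?_, hB2.mono (by simp), fun e he => ?_⟩
  · unfold D at h1
    have : 2 * s * L = s * L + s * L := by ring
    omega
  · rw [Finset.mem_sdiff, Finset.mem_union, not_or] at he
    refine ⟨hB1 he.1, ?_⟩
    obtain ⟨c, c1, c2, c3⟩ := exists_step_of_sep x (Nat.le_add_right j g) (hB1 he.1)
    refine ⟨c, ?_, ?_, c3⟩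
    · by_contra hc
      exact he.2.1 (mem_crossed c1 (by omega) c3)
    · by_contra hc
      exact he.2.2 (mem_crossed (by omega) (by omega) c3)

theorem once {x : ℕ → W G} {n L s g ν : ℕ} (hsg : s ≤ g) (hν : 2 ≤ ν) (h : Prog x n L s g ν)
    (m : ℕ) : ∀ i j e, j - i = m → i ≤ j → j < n → e ∈ sep (x i) (x (i + 1)) →
      e ∈ sep (x j) (x (j + 1)) → j < i + s := by
  induction m using Nat.strong_induction_on with
  | _ m ih =>
    intro i j e hm hij hjn hi hj
    by_contra hc
    obtain ⟨w', hw', hcw', -, -⟩ := exists_cross_pt hj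
    by_cases hg : j ≤ i + g
    · have h1 := h.far i j (by omega) hg hjn.le
      have h2 := D_close adm_tb0 hi hcw'
      have h3 := h.step i (by omega)
      have h4 := h.step j hjn
      have h5 := D_triangle (R := TB0) (x i) w' (x j)
      have h6 := D_le_d (R := TB0) w' (x j)
      have h7 : d (x j) w' ≤ d (x j) (x (j + 1)) := Finset.card_le_card hw'
      rw [D_comm] at h2
      rw [d_comm] at h6
      omega
    · obtain ⟨w, hw, hcw, -, -⟩ := exists_cross_pt hi
      obtain ⟨B, hB1, hB2, hB3⟩ := exists_core hsg h (j := i + 1) (by omega)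
      have key : ∀ r ∈ B, Stt e r := by
        intro r hr
        obtain ⟨r1, c, c1, c2, c3⟩ := hB3 r hr
        have n1 : r ∉ sep (x i) (x (i + 1)) := fun hx => by
          have := ih (c - i) (by omega) i c r rfl (by omega) (by omega) hx c3
          omega
        have n2 : ∀ a, i + 1 + g ≤ a → a ≤ j → r ∉ sep (x a) (x (a + 1)) := fun a a1 a2 hx => by
          have := ih (a - c) (by omega) c a r rfl (by omega) (by omega) c3 hx
          omega
        have n3 : r ∉ sep w (x (i + 1)) := fun hx => n1 (sep_right_subset_of_mem_I hw hx)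
        have n4 : r ∉ sep (x (i + 1 + g)) (x j) := fun hx => by
          obtain ⟨a, a1, a2, a3⟩ := exists_step_of_sep x (by omega) hx
          exact n2 a a1 a2.le a3
        have n5 : r ∉ sep (x j) w' := fun hx => n2 j (by omega) le_rfl (hw' hx)
        refine stt_of_car hcw hcw' ?_
        simp only [mem_sep_sd] at r1 n3 n4 n5 ⊢
        grind
      obtain ⟨a, ha, b, hb, hab⟩ := Finset.one_lt_card.1 (show 1 < B.card by omega)
      exact (hB2 ha hb hab).not_both (key a ha) (key b hb)

end LocAux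

theorem loc : LocStmt := by
  intro S G x n L s g ν _ hsg hν h
  have h1 : ∀ i j e, i ≤ j → j < n → e ∈ sep (x i) (x (i + 1)) → e ∈ sep (x j) (x (j + 1)) →
      j < i + s := fun i j e => LocAux.once hsg hν h _ i j e rfl
  refine ⟨h1, fun j hj => ?_⟩
  obtain ⟨B, hB1, hB2, hB3⟩ := LocAux.exists_core hsg h hj
  refine ⟨B, hB1, hB2, fun e he => ?_⟩
  obtain ⟨r1, c, c1, c2, c3⟩ := hB3 e he
  have n1 : ∀ a ≤ j, e ∉ sep (x 0) (x a) := fun a ha hx => by
    obtain ⟨b, -, b2, b3⟩ := LocAux.exists_step_of_sep x (Nat.zero_le a) hx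
    have := h1 b c e (by omega) (by omega) b3 c3
    omega
  refine ⟨n1, fun a a1 a2 => ?_⟩
  have n2 : e ∉ sep (x (j + g)) (x a) := fun hx => by
    obtain ⟨b, b1, b2, b3⟩ := LocAux.exists_step_of_sep x a1 hx
    have := h1 c b e (by omega) (by omega) c3 b3
    omega
  have n3 := n1 j le_rfl
  simp only [mem_sep_sd] at r1 n2 n3 ⊢
  grind

end Pool.Agent.MP_c34dea_an.H23
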