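import Pool.Agent.MP_c34dea_an.H23.BChain

set_option autoImplicit false

open scoped ENNReal
open Finset

namespace Pool.Agent.MP_c34dea_an.H23

namespace Perc

/-- weights of the two states of an edge -/
noncomputable def wb (b : Bool) : ℝ≥0∞ := if b then 11 / 20 else 9 / 20

theorem wb_sum : ∑ b, wb b = 1 := by
  simp only [Fintype.sum_bool, wb, if_true, Bool.false_eq_true, if_false]
  rw [ENNReal.div_add_div_same, show (11 + 9 : ℝ≥0∞) = 20 by norm_num]
  exact ENNReal.div_self (by norm_num) (by norm_num)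

theorem prob {E : Type} [Fintype E] [DecidableEq E] (A : Finset E) (b : Bool) :
    ∑ ω : E → Bool, (∏ e, wb (ω e)) * (if ∀ e ∈ A, ω e = b then 1 else 0) = wb b ^ A.card := by
  have h := Finset.prod_univ_sum (fun _ : E => (univ : Finset Bool))
    fun e b' => wb b' * if e ∈ A → b' = b then 1 else 0
  rw [Fintype.piFinset_univ] at h
  simp only [prod_mul_distrib, Fintype.prod_boole] at h
  rw [← h, ← prod_const, ← Fintype.prod_extend_by_one A]
  refine prod_congr rfl fun e _ => ?_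
  split_ifs with he
  · simp [he]
  · simpa [he] using wb_sum

theorem exists_le {E : Type} [Fintype E] [DecidableEq E] (F : (E → Bool) → ℝ≥0∞) :
    ∃ ω₀, F ω₀ ≤ ∑ ω : E → Bool, (∏ e, wb (ω e)) * F ω := by
  obtain ⟨ω₀, h⟩ := Finite.exists_min F
  have h1 := prob (∅ : Finset E) true
  simp only [notMem_empty, IsEmpty.forall_iff, implies_true, if_true, mul_one, card_empty,
    pow_zero] at h1
  refine ⟨ω₀, ?_⟩
  calc F ω₀ = ∑ ω : E → Bool, (∏ e, wb (ω e)) * F ω₀ := by rw [← sum_mul, h1, one_mul]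
    _ ≤ _ := sum_le_sum fun ω _ => mul_le_mul_right (h ω) _

variable {Γ X : Type} [Group Γ] [MulAction Γ X] (P : PF 2 Γ X)

/-- the end of a dart -/
def tgt (y : X) (l : Lt2) : X := (P.lab y l).getD 1 • y

/-- the edge of a dart -/
def ed (y : X) (l : Lt2) : X × Fin 2 := (if l.2 then y else tgt P y l, l.1)

/-- the edges of a walk -/
def eds [DecidableEq X] : List Lt2 → X → Finset (X × Fin 2)
  | [], _ => ∅
  | l :: w, y => insert (ed P y l) (eds w (tgt P y l))

variable {P}

theorem tgt_eq {y : X} {l : Lt2} {g : Γ} (h : P.lab y l = some g) : tgt P y l = g • y := by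
  rw [tgt, h]; rfl

theorem tgt_rev {y : X} {l : Lt2} {g : Γ} (h : P.lab y l = some g) :
    tgt P (tgt P y l) (l.1, !l.2) = y := by
  rw [tgt_eq h, tgt_eq (P.symm' h), inv_smul_smul]

theorem ed_rev {y : X} {l : Lt2} {g : Γ} (h : P.lab y l = some g) :
    ed P (tgt P y l) (l.1, !l.2) = ed P y l := by
  rw [ed, tgt_rev h, ed]
  cases l.2 <;> rfl

theorem ed_eq {x y : X} {l l' : Lt2} {g g' : Γ} (h : P.lab x l = some g) (h' : P.lab y l' = some g')
    (e : ed P x l = ed P y l') : x = y ∨ x = tgt P y l' := by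
  have h1 := tgt_rev h
  have h2 := tgt_rev h'
  obtain ⟨i, b⟩ := l
  obtain ⟨j, b'⟩ := l'
  simp only [ed, Prod.mk.injEq] at e
  obtain ⟨e, rfl⟩ := e
  cases b <;> cases b' <;> simp_all

theorem visit [DecidableEq X] {x : X} {l : Lt2} {g : Γ} (h : P.lab x l = some g) {w : List Lt2}
    {y : X} {k : Γ} (hw : P.walk w y = some k) (e : ed P x l ∈ eds P w y) :
    ∃ w₁ w₂ k₁, w = w₁ ++ w₂ ∧ P.walk w₁ y = some k₁ ∧ k₁ • y = x := by
  induction w generalizing y k with
  | nil => simp [eds] at e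
  | cons l' w ih =>
    obtain ⟨g', k', h1, h2, -⟩ := P.walk_cons_eq_some.1 hw
    rcases mem_insert.1 e with e | e
    · rcases ed_eq h h1 e with rfl | rfl
      · exact ⟨[], _, 1, rfl, rfl, one_smul _ _⟩
      · exact ⟨[l'], w, _, rfl, P.walk_cons_eq_some.2 ⟨g', 1, h1, rfl, rfl⟩, by
          rw [one_mul, tgt_eq h1]⟩
    · rw [tgt_eq h1] at e
      obtain ⟨w₁, w₂, k₁, rfl, h3, h4⟩ := ih h2 e
      exact ⟨l' :: w₁, w₂, _, rfl, P.walk_cons_eq_some.2 ⟨g', k₁, h1, h3, rfl⟩, by
        rw [mul_smul, h4]⟩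

theorem card_eds [DecidableEq X] {r : ℕ} (hr : ∀ x w g, w ≠ [] → FreeGroup.IsReduced w →
    w.length ≤ r → P.walk w x = some g → g • x ≠ x) {w : List Lt2} {x : X} {k : Γ}
    (h1 : FreeGroup.IsReduced w) (h2 : w.length ≤ r) (hw : P.walk w x = some k) :
    (eds P w x).card = w.length := by
  induction w generalizing x k with
  | nil => rfl
  | cons l w ih =>
    obtain ⟨g, k', h3, h4, -⟩ := P.walk_cons_eq_some.1 hw
    rw [eds, tgt_eq h3, card_insert_of_notMem fun e => ?_,
      ih (List.IsChain.tail h1) (Nat.le_of_succ_le h2) h4, List.length_cons]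
    obtain ⟨w₁, w₂, k₁, rfl, h5, h6⟩ := visit h3 h4 e
    exact hr x (l :: w₁) _ (by simp) (List.IsChain.left_of_append (l₁ := l :: w₁) h1)
      (by simp at h2 ⊢; omega) (P.walk_cons_eq_some.2 ⟨g, k₁, h3, h5, rfl⟩) (by rw [mul_smul, h6])

open Classical in
/-- the darts with open edge and both ends outside `B` -/
noncomputable def sub (P : PF 2 Γ X) (ω : X × Fin 2 → Bool) (B : Finset X) : PF 2 Γ X where
  lab y l := if ω (ed P y l) = true ∧ y ∉ B ∧ tgt P y l ∉ B then P.lab y l else none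
  symm y i b g h := by
    obtain ⟨⟨h1, h2, h3⟩, h⟩ := Option.ite_none_right_eq_some.1 h
    rw [← P.symm y i b g h, ← tgt_eq h, if_pos]
    exact ⟨ed_rev h ▸ h1, h3, (tgt_rev h).symm ▸ h2⟩

theorem sub_lab {ω : X × Fin 2 → Bool} {B : Finset X} {y : X} {l : Lt2} {g : Γ} :
    (sub P ω B).lab y l = some g ↔
      (ω (ed P y l) = true ∧ y ∉ B ∧ tgt P y l ∉ B) ∧ P.lab y l = some g := by
  classical exact Option.ite_none_right_eq_some

theorem sub_walk [DecidableEq X] {ω : X × Fin 2 → Bool} {B : Finset X} {w : List Lt2} {y : X}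
    {k : Γ} (h : (sub P ω B).walk w y = some k) :
    P.walk w y = some k ∧ (∀ e ∈ eds P w y, ω e = true) ∧ (w ≠ [] → y ∉ B) := by
  induction w generalizing y k with
  | nil => exact ⟨h, by simp [eds], by simp⟩
  | cons l w ih =>
    obtain ⟨g, k', h1, h2, rfl⟩ := (PF.walk_cons_eq_some _).1 h
    obtain ⟨h3, h1⟩ := sub_lab.1 h1
    obtain ⟨h4, h5, -⟩ := ih h2
    refine ⟨P.walk_cons_eq_some.2 ⟨g, k', h1, h4, rfl⟩, ?_, fun _ => h3.2.1⟩
    rw [eds, tgt_eq h1, forall_mem_insert]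
    exact ⟨h3.1, h5⟩

theorem size_eq [Fintype X] (P : PF 2 Γ X) :
    P.size = #{p : X × Lt2 | (P.lab p.1 p.2).isSome} := by
  rw [PF.size, Nat.card_eq_fintype_card, Fintype.card_subtype]

theorem size_le [Fintype X] [DecidableEq X] (ω : X × Fin 2 → Bool) (B : Finset X) :
    P.size ≤ (sub P ω B).size +
      #{p : X × Lt2 | (P.lab p.1 p.2).isSome ∧ ω (ed P p.1 p.2) = false} + 8 * B.card := by
  have h1 : (B ×ˢ (univ : Finset Lt2)).card = 4 * B.card := by simp [mul_comm]
  have h2 := card_image_le (s := B ×ˢ (univ : Finset Lt2))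
    (f := fun p : X × Lt2 => (tgt P p.1 p.2, (p.2.1, !p.2.2)))
  rw [size_eq, size_eq, show 8 * B.card = 4 * B.card + 4 * B.card by ring, ← add_assoc]
  refine le_trans (card_le_card ?_) ((card_union_le _ _).trans (add_le_add ((card_union_le _ _).trans
    (add_le_add (card_union_le _ _) h1.le)) (h2.trans h1.le)))
  rintro ⟨y, l⟩ h
  obtain ⟨g, hg⟩ := Option.isSome_iff_exists.1 (mem_filter.1 h).2
  simp only [mem_union, mem_filter, mem_univ, true_and, mem_product, and_true, mem_image]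
  by_cases c : tgt P y l ∈ B
  · exact Or.inr ⟨(tgt P y l, (l.1, !l.2)), c, by simp [tgt_rev hg]⟩
  by_cases c' : y ∈ B
  · exact Or.inl (Or.inr c')
  refine Or.inl (Or.inl ?_)
  cases e : ω (ed P y l)
  · exact Or.inr ⟨(mem_filter.1 h).2, rfl⟩
  · exact Or.inl (Option.isSome_iff_exists.2 ⟨g, sub_lab.2 ⟨⟨e, c', c⟩, hg⟩⟩)

end Perc

open Perc

theorem perc : PercStmt := by
  intro Γ X _ _ _ P r c hs hr hc hP
  classical
  have := Fintype.ofFinite X
  let cost : (X × Fin 2 → Bool) → X → ℝ≥0∞ := fun ω x => ∑' w : List Lt2,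
    if (P.walk w x).isSome ∧ ∀ e ∈ eds P w x, ω e = true then c x w else 0
  let m : (X × Fin 2 → Bool) → ℕ := fun ω =>
    #{p : X × Lt2 | (P.lab p.1 p.2).isSome ∧ ω (ed P p.1 p.2) = false}
  have h1 : ∀ x, ∑ ω : X × Fin 2 → Bool, (∏ e, wb (ω e)) * cost ω x ≤ 1 / 200 := fun x => by
    simp only [cost, ← ENNReal.tsum_mul_left]
    rw [← Summable.tsum_finsetSum fun _ _ => ENNReal.summable]
    refine le_trans (ENNReal.tsum_le_tsum fun w => ?_) (hP x)
    by_cases h0 : c x w = 0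
    · simp [h0]
    split_ifs with h
    · obtain ⟨k, hk⟩ := Option.isSome_iff_exists.1 h
      rw [← card_eds hr (hc x w h0).2.1 (hc x w h0).2.2 hk]
      refine le_of_eq (Eq.trans ?_ (congrArg (· * c x w) (prob (eds P w x) true)))
      simp [h, sum_mul]
    · simp [h]
  have h2 : ∑ ω : X × Fin 2 → Bool, (∏ e, wb (ω e)) * m ω = P.size * (9 / 20) := by
    have h := fun p : X × Lt2 => prob {ed P p.1 p.2} false
    simp only [mem_singleton, forall_eq, card_singleton, pow_one] at h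
    simp only [m, ← filter_filter, card_filter, Nat.cast_sum, Nat.cast_ite, Nat.cast_one,
      Nat.cast_zero, mul_sum]
    rw [sum_comm, sum_congr rfl fun p _ => h p, sum_const, size_eq, nsmul_eq_mul]
    rfl
  obtain ⟨ω, hω⟩ := exists_le fun ω => 200 * m ω + 1600 * ∑ x, cost ω x
  let B : Finset X := {x | 1 ≤ cost ω x}
  have h3 : (B.card : ℝ≥0∞) ≤ ∑ x, cost ω x := by
    rw [card_eq_sum_ones, Nat.cast_sum]
    exact (sum_le_sum fun x hx => by simpa using (mem_filter.1 hx).2).trans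
      (sum_le_sum_of_subset (subset_univ _))
  have h4 : ((200 * m ω + 1600 * B.card : ℕ) : ℝ≥0∞) ≤ (90 * P.size + 8 * Nat.card X : ℕ) := by
    push_cast
    refine (add_le_add le_rfl (mul_le_mul_right h3 _)).trans (hω.trans ?_)
    simp only [mul_add, sum_add_distrib, mul_left_comm _ (200 : ℝ≥0∞),
      mul_left_comm _ (1600 : ℝ≥0∞), ← mul_sum]
    rw [h2, sum_congr rfl fun ω _ => mul_sum _ (cost ω) _, sum_comm]
    refine add_le_add (le_of_eq ?_) ((mul_le_mul_right (sum_le_sum fun x _ => h1 x) _).trans_eq ?_)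
    · rw [mul_comm _ (9 / 20 : ℝ≥0∞), ← mul_assoc, ← mul_div_assoc]
      congr 1
      rw [eq_comm, ENNReal.eq_div_iff] <;> norm_num
    · rw [sum_const, card_univ, Nat.card_eq_fintype_card, nsmul_eq_mul, mul_left_comm, mul_comm,
        ← mul_div_assoc]
      congr 1
      rw [eq_comm, ENNReal.eq_div_iff] <;> norm_num
  have h5 := size_le (P := P) ω B
  refine ⟨sub P ω B, fun _ _ _ h => (sub_lab.1 h).2, ?_, fun x => ?_⟩
  · have := Nat.cast_le.1 h4
    simp only [m] at this
    omega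
  by_cases hx : x ∈ B
  · refine lt_of_eq_of_lt (ENNReal.tsum_eq_zero.2 fun w => ?_) zero_lt_one
    split_ifs with h
    · obtain ⟨k, hk⟩ := Option.isSome_iff_exists.1 h
      exact by_contra fun h0 => (sub_walk hk).2.2 (hc x w h0).1 hx
    · rfl
  · refine lt_of_le_of_lt (ENNReal.tsum_le_tsum fun w => ?_)
      (show cost ω x < 1 from not_le.1 fun h => hx (mem_filter.2 ⟨mem_univ _, h⟩))
    by_cases h : ((sub P ω B).walk w x).isSome
    · obtain ⟨k, hk⟩ := Option.isSome_iff_exists.1 h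
      rw [if_pos h, if_pos ⟨by rw [(sub_walk hk).1]; rfl, (sub_walk hk).2.1⟩]
    · rw [if_neg h]; exact zero_le

end Pool.Agent.MP_c34dea_an.H23
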