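import Pool.Agent.MP_c34dea_an.H23.Adapter
import Pool.Agent.MP_c34dea_an.H23.BLevels
import Pool.Agent.MP_c34dea_an.H23.BStep
import Pool.Agent.MP_c34dea_an.H23.Faith
import Pool.Agent.MP_c34dea_an.H23.Loc
import Pool.Agent.MP_c34dea_an.H23.Perc
import Pool.Agent.MP_c34dea_an.H23.Step
import Pool.Agent.MP_c34dea_an.H23.Thin
import Pool.Agent.MP_c34dea_an.H23.Update
import Pool.Agent.MP_c34dea_an.H6.Block

set_option autoImplicit false

namespace Pool.Agent.MP_c34dea_an.H23

theorem stepAll (hK : CostStmt) : StepStmt :=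
  stepB levels (bstep bridge levels (update H6.block)) (update H6.block) perc (faith levels loc)
    (thin loc) hK

theorem final (hK : CostStmt) (hT : TowerBStmt) : ¬ Main := by
  obtain ⟨H, h1, h2, h3, h4⟩ := hT (stepAll hK)
  exact measThm Γ5 H h1 h2 h3 h4.towerG

end Pool.Agent.MP_c34dea_an.H23
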