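import Mathlib

set_option autoImplicit false
open MeasureTheory

namespace Pool.Agent.MP_c34dea_an.H23

/-- A symmetric partially defined labelling of the letters of the free group of rank `r`
by elements of a group `Γ` acting on `X`. -/
structure PF (r : ℕ) (Γ X : Type) [Group Γ] [MulAction Γ X] where
  lab : X → Fin r × Bool → Option Γ
  symm : ∀ x i b g, lab x (i, b) = some g → lab (g • x) (i, !b) = some g⁻¹

variable {Γ : Type} [Group Γ]

/-- The product of the labels read along a word (the head of the list is read first). -/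
def PF.walk {r : ℕ} {X : Type} [MulAction Γ X] (P : PF r Γ X) :
    List (Fin r × Bool) → X → Option Γ
  | [], _ => some 1
  | l :: w, x => (P.lab x l).bind fun g => (P.walk w (g • x)).map fun k => k * g

/-- The number of labelled pairs (at most `2 r` times the number of points). -/
noncomputable def PF.size {r : ℕ} {X : Type} [MulAction Γ X] (P : PF r Γ X) : ℕ :=
  Nat.card {p : X × (Fin r × Bool) // (P.lab p.1 p.2).isSome}

/-- `k` fixes, at every level, all points above the base point of level `m`. -/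
def Deep (H : ℕ → Subgroup Γ) (m : ℕ) (k : Γ) : Prop :=
  ∀ h ∈ H m, ∀ n, h⁻¹ * k * h ∈ H n

/-- `P` (on level `m`) is part of the pull back of `Q` (on level `j`). -/
def PF.Below {r : ℕ} {A B : Subgroup Γ} (P : PF r Γ (Γ ⧸ A)) (Q : PF r Γ (Γ ⧸ B)) : Prop :=
  ∀ (y : Γ) l g, P.lab (y : Γ ⧸ A) l = some g → Q.lab (y : Γ ⧸ B) l = some g

/-- `P` has a reduced nonempty walk of length at most `R` whose label fixes all lifts of its
start. -/
def PF.HasClosed {r : ℕ} (H : ℕ → Subgroup Γ) {m : ℕ} (P : PF r Γ (Γ ⧸ H m)) (R : ℕ) : Prop :=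
  ∃ (x : Γ) (w : List (Fin r × Bool)) (g : Γ), w ≠ [] ∧ FreeGroup.IsReduced w ∧
    w.length ≤ R ∧ P.walk w (x : Γ ⧸ H m) = some g ∧ Deep H m (x⁻¹ * g * x)

/-- Arboricity bound for the lifts of `P` to the coset spaces of deep subgroups. -/
def PF.Arb {r : ℕ} (H : ℕ → Subgroup Γ) {m : ℕ} (P : PF r Γ (Γ ⧸ H m)) : Prop :=
  ∀ K : Subgroup Γ, (∀ k ∈ K, Deep H m k) → ∀ F : Finset (Γ ⧸ K),
    Nat.card {p : (Γ ⧸ K) × (Fin r × Bool) // p.1 ∈ F ∧
      ∃ g, P.lab ((p.1.out : Γ) : Γ ⧸ H m) p.2 = some g ∧ g • p.1 ∈ F} ≤ 4 * F.card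

/-- Finitary non-hyperfiniteness of the tower of coset spaces. -/
def TowerN (H : ℕ → Subgroup Γ) : Prop :=
  ∃ (k : ℕ) (s : Fin k → Γ) (ε : ℝ), 0 < ε ∧ ∀ T : Finset Γ, ∀ m₀ : ℕ, ∃ m, m₀ ≤ m ∧
    ∀ r : Setoid (Γ ⧸ H m), (∀ a b, r a b → ∃ γ ∈ T, b = γ • a) →
      ε * Nat.card (Γ ⧸ H m) ≤ Nat.card {p : (Γ ⧸ H m) × Fin k // ¬ r p.1 (s p.2 • p.1)}

/-- Finitary absence of free actions of the free group of rank two: every large part of the pull
back of a labelling contains a short reduced walk whose label fixes all lifts of its start. -/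
def TowerF (H : ℕ → Subgroup Γ) : Prop :=
  ∃ ε : ℝ, 0 < ε ∧ ∀ (j : ℕ) (Q : PF 2 Γ (Γ ⧸ H j)), ∃ R : ℕ, ∀ m₀ : ℕ, ∃ m, m₀ ≤ m ∧
    ∀ P : PF 2 Γ (Γ ⧸ H m), P.Below Q → (4 - ε) * Nat.card (Γ ⧸ H m) ≤ P.size → P.HasClosed H R

/-- A weaker (easier to establish) form of `TowerF`: any rank `r`; the labels lie in a finite set
`T` fixed first, the loss `δ` may depend on `T`, and `P` may be assumed to satisfy the arboricity
bound. -/
def TowerG (H : ℕ → Subgroup Γ) : Prop :=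
  ∃ (r : ℕ) (ε : ℝ), 0 < ε ∧ ∀ T : Finset Γ, ∃ δ : ℝ, 0 < δ ∧ ∀ j₀ : ℕ, ∃ j, j₀ ≤ j ∧
    ∀ Q : PF r Γ (Γ ⧸ H j), (∀ x l g, Q.lab x l = some g → g ∈ T) →
      ∃ R : ℕ, ∀ m₀ : ℕ, ∃ m, m₀ ≤ m ∧ ∀ P : PF r Γ (Γ ⧸ H m), P.Below Q →
        (2 * r - ε) * Nat.card (Γ ⧸ H m) ≤ P.size →
        (Nat.card {p : (Γ ⧸ H m) × (Fin r × Bool) //
          (Q.lab ((p.1.out : Γ) : Γ ⧸ H j) p.2).isSome ∧ P.lab p.1 p.2 = none} : ℝ)
            ≤ δ * Nat.card (Γ ⧸ H m) →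
        P.Arb H → P.HasClosed H R

theorem TowerF.towerG {H : ℕ → Subgroup Γ} (h : TowerF H) : TowerG H := by
  obtain ⟨ε, hε, h⟩ := h
  refine ⟨2, ε, hε, fun T => ⟨1, one_pos, fun j => ⟨j, le_rfl, fun Q _ => ?_⟩⟩⟩
  obtain ⟨R, hR⟩ := h j Q
  refine ⟨R, fun m₀ => ?_⟩
  obtain ⟨m, hm, h'⟩ := hR m₀
  refine ⟨m, hm, fun P hP hs _ _ => h' P hP ?_⟩
  convert hs using 2
  norm_num

/-- The statement whose negation is the target. -/
def Main : Prop :=
    ∀ (X : Type) [MeasurableSpace X] [StandardBorelSpace X]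
      (E : Set (X × X)) (μ : Measure X) [IsProbabilityMeasure μ],
      MeasurableSet E →
      (∀ x, (x, x) ∈ E) →
      (∀ x y, (x, y) ∈ E → (y, x) ∈ E) →
      (∀ x y z, (x, y) ∈ E → (y, z) ∈ E → (x, z) ∈ E) →
      (∀ x, {y : X | (x, y) ∈ E}.Countable) →
      (∀ f : X → X, Measurable f → Function.Bijective f →
          (∀ x, (x, f x) ∈ E) → μ.map f = μ) →
      (∀ B : Set X, MeasurableSet B →
          (∀ x y, (x, y) ∈ E → x ∈ B → y ∈ B) → μ B = 0 ∨ μ B = 1) →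
      Xor'
        (∃ Y : Set X, MeasurableSet Y ∧ μ Yᶜ = 0 ∧
          ∃ F : ℕ → Set (X × X),
            (∀ n, MeasurableSet (F n)) ∧
            (∀ n x, (x, x) ∈ F n) ∧
            (∀ n x y, (x, y) ∈ F n → (y, x) ∈ F n) ∧
            (∀ n x y z, (x, y) ∈ F n → (y, z) ∈ F n → (x, z) ∈ F n) ∧
            (∀ n x, {y : X | (x, y) ∈ F n}.Finite) ∧
            (∀ n, F n ⊆ F (n + 1)) ∧
            (∀ x ∈ Y, ∀ y ∈ Y, ((x, y) ∈ E ↔ ∃ n, (x, y) ∈ F n)))
        (∃ A : Set X, MeasurableSet A ∧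
          (∀ x y, (x, y) ∈ E → x ∈ A → y ∈ A) ∧ μ A = 1 ∧
          ∃ a : FreeGroup (Fin 2) → X → X,
            (∀ g, Measurable (a g)) ∧
            (∀ g, ∀ x ∈ A, a g x ∈ A) ∧
            (∀ x ∈ A, a 1 x = x) ∧
            (∀ g h, ∀ x ∈ A, a (g * h) x = a g (a h x)) ∧
            (∀ g, g ≠ 1 → ∀ x ∈ A, a g x ≠ x) ∧
            (∀ g, ∀ x ∈ A, (x, a g x) ∈ E))

/-- The measure module. -/
def MeasThm : Prop :=
  ∀ (Γ : Type) [Group Γ] [Countable Γ] (H : ℕ → Subgroup Γ), Antitone H →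
    (∀ n, (H n).FiniteIndex) → TowerN H → TowerG H → ¬ Main

end Pool.Agent.MP_c34dea_an.H23
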