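import Pool.Agent.MP_c34dea_an.H23.Density
import Pool.Agent.MP_c34dea_an.H23.MeasSpec

set_option autoImplicit false
open MeasureTheory
open scoped ENNReal

namespace Pool.Agent.MP_c34dea_an.H23

variable {Γ : Type} [Group Γ] {H : ℕ → Subgroup Γ} {X : Type} [MeasurableSpace X] [MulAction Γ X]
  {μ : Measure X}

theorem card_prod_pred {A ι : Type} [Finite A] [Fintype ι] (q : A → ι → Prop) :
    Nat.card {p : A × ι // q p.1 p.2} = ∑ i, {a | q a i}.ncard := by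
  have e : {p : A × ι // q p.1 p.2} ≃ Σ i : ι, {a | q a i} :=
    { toFun := fun p => ⟨p.1.2, p.1.1, p.2⟩
      invFun := fun p => ⟨(p.2.1, p.1), p.2.2⟩
      left_inv := fun _ => rfl
      right_inv := fun _ => rfl }
  rw [Nat.card_congr e, Nat.card_sigma]
  simp only [Nat.card_coe_set_eq]

namespace Sys

variable (S : Sys H X μ)

theorem card_le [IsProbabilityMeasure μ] (n : ℕ) [(H n).FiniteIndex] {ι : Type} [Fintype ι]
    (q : Γ ⧸ H n → ι → Prop) {c : ℝ} (h : ∀ i, μ.real {x | q (S.p n x) i} ≤ c) :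
    (Nat.card {p : (Γ ⧸ H n) × ι // q p.1 p.2} : ℝ) ≤
      Fintype.card ι * c * Nat.card (Γ ⧸ H n) := by
  rw [card_prod_pred, Nat.cast_sum]
  have : ∀ i, (({a | q a i}.ncard : ℕ) : ℝ) ≤ c * Nat.card (Γ ⧸ H n) := by
    intro i
    rw [← S.real_cyl n, mul_comm]
    exact mul_le_mul_of_nonneg_right (h i) (Nat.cast_nonneg _)
  refine (Finset.sum_le_sum fun i _ => this i).trans ?_
  simp [mul_assoc]

include S in
theorem meas_eq [StandardBorelSpace X] {φ : X → X} (hφ : Measurable φ) (g : Γ) :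
    MeasurableSet {x | φ x = g • x} := measurableSet_eq_fun hφ (S.mp g).measurable

include S in
/-- Measurable selection of a group element. -/
theorem exists_sel [StandardBorelSpace X] [Countable Γ] {φ : X → X} (hφ : Measurable φ) :
    ∃ w : X → Γ, (∀ g, MeasurableSet (w ⁻¹' {g})) ∧ ∀ x, (∃ g : Γ, φ x = g • x) → φ x = w x • x := by
  classical
  obtain ⟨e, he⟩ := exists_surjective_nat Γ
  have hp : ∀ x, ∃ n, φ x = e n • x ∨ ¬ ∃ g : Γ, φ x = g • x := by
    intro x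
    by_cases h : ∃ g : Γ, φ x = g • x
    · obtain ⟨g, hg⟩ := h
      obtain ⟨n, rfl⟩ := he g
      exact ⟨n, Or.inl hg⟩
    · exact ⟨0, Or.inr h⟩
  have hm : Measurable fun x => Nat.find (hp x) := by
    refine measurable_find hp fun k => ?_
    have h2 : MeasurableSet {x | ∃ g : Γ, φ x = g • x} := by
      rw [Set.ofPred_exists]
      exact MeasurableSet.iUnion fun g => S.meas_eq hφ g
    exact (S.meas_eq hφ _).union h2.compl
  refine ⟨fun x => e (Nat.find (hp x)), fun g => hm (MeasurableSet.of_discrete (s := e ⁻¹' {g})),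
    fun x hx => ?_⟩
  exact (Nat.find_spec (hp x)).resolve_right (not_not.2 hx)

include S in
theorem map_eq [StandardBorelSpace X] [Countable Γ] {f : X → X} (hf : Measurable f)
    (hb : Function.Bijective f) (hE : ∀ x, ∃ g : Γ, f x = g • x) : μ.map f = μ := by
  obtain ⟨w, hw, hwf⟩ := S.exists_sel hf
  have hwf' : ∀ x, f x = w x • x := fun x => hwf x (hE x)
  ext B hB
  rw [Measure.map_apply hf hB]
  let D : Γ → Set X := fun g => (fun y => g⁻¹ • y) ⁻¹' (w ⁻¹' {g})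
  have hD : ∀ g, MeasurableSet (D g) := fun g => (S.mp g⁻¹).measurable (hw g)
  have e1 : f ⁻¹' B = ⋃ g, (f ⁻¹' B ∩ w ⁻¹' {g}) := by ext x; simp
  have e2 : B = ⋃ g, (B ∩ D g) := by
    ext y
    simp only [Set.mem_iUnion, Set.mem_inter_iff, exists_and_left, iff_self_and]
    intro _
    obtain ⟨x, rfl⟩ := hb.2 y
    refine ⟨w x, ?_⟩
    change w ((w x)⁻¹ • f x) = w x
    rw [hwf' x, inv_smul_smul]
  have e3 : ∀ g, f ⁻¹' B ∩ w ⁻¹' {g} = (fun x => g • x) ⁻¹' (B ∩ D g) := by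
    intro g
    ext x
    simp only [D, Set.mem_inter_iff, Set.mem_preimage, Set.mem_singleton_iff, inv_smul_smul]
    constructor
    · rintro ⟨h1, rfl⟩
      exact ⟨hwf' x ▸ h1, rfl⟩
    · rintro ⟨h1, rfl⟩
      exact ⟨(hwf' x).symm ▸ h1, rfl⟩
  rw [e1, measure_iUnion, e2, measure_iUnion, ← e2]
  · refine tsum_congr fun g => ?_
    rw [e3, (S.mp g).measure_preimage (hB.inter (hD g)).nullMeasurableSet]
  · intro g g' hgg
    refine Set.disjoint_left.2 fun y h1 h2 => hgg ?_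
    have a1 : w (g⁻¹ • y) = g := h1.2
    have a2 : w (g'⁻¹ • y) = g' := h2.2
    have a3 : f (g⁻¹ • y) = f (g'⁻¹ • y) := by
      rw [hwf', hwf', a1, a2, smul_inv_smul, smul_inv_smul]
    rw [← a1, ← a2, hb.1 a3]
  · exact fun g => hB.inter (hD g)
  · intro g g' hgg
    exact Set.disjoint_left.2 fun y h1 h2 => hgg (h1.2.symm.trans h2.2)
  · exact fun g => (hf hB).inter (hw g)

include S in
/-- The orbit relation is not hyperfinite. -/
theorem not_hyperfinite [StandardBorelSpace X] [Countable Γ] [IsProbabilityMeasure μ]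
    (hfi : ∀ n, (H n).FiniteIndex) (hN : TowerN H) {Y : Set X} (hY : MeasurableSet Y)
    (hY0 : μ Yᶜ = 0) {F : ℕ → Set (X × X)} (hFm : ∀ n, MeasurableSet (F n))
    (hrefl : ∀ n x, (x, x) ∈ F n) (hsymm : ∀ n x y, (x, y) ∈ F n → (y, x) ∈ F n)
    (htrans : ∀ n x y z, (x, y) ∈ F n → (y, z) ∈ F n → (x, z) ∈ F n)
    (hfin : ∀ n x, {y : X | (x, y) ∈ F n}.Finite) (hmono : ∀ n, F n ⊆ F (n + 1))
    (hE : ∀ x ∈ Y, ∀ y ∈ Y, ((∃ g : Γ, y = g • x) ↔ ∃ n, (x, y) ∈ F n)) : False := by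
  classical
  obtain ⟨k, s, ε, hε, hN⟩ := hN
  have hmono' : Monotone F := monotone_nat_of_le_succ hmono
  set η := ε / (10 * (k + 1)) with hη
  have hη0 : 0 < η := by positivity
  have hR : ∀ n (g : Γ), MeasurableSet {x | x ∈ Y ∧ g • x ∈ Y ∧ (x, g • x) ∈ F n} := fun n g =>
    hY.inter (((S.mp g).measurable hY).inter
      ((measurable_id.prodMk (S.mp g).measurable) (hFm n)))
  -- step 1
  obtain ⟨n, hn⟩ := tail_small (μ := μ)
    (A := fun n => ⋃ i, {x | x ∈ Y ∧ s i • x ∈ Y ∧ (x, s i • x) ∈ F n}ᶜ)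
    (fun n => MeasurableSet.iUnion fun i => (hR n _).compl)
    (fun a b hab => Set.iUnion_mono fun i => Set.compl_subset_compl.2
      fun x hx => ⟨hx.1, hx.2.1, hmono' hab hx.2.2⟩) (by
      refine measure_mono_null (t := Yᶜ ∪ ⋃ i, (fun x => s i • x) ⁻¹' Yᶜ) ?_ ?_
      · intro x hx
        by_contra hc
        simp only [Set.mem_union, Set.mem_compl_iff, Set.mem_iUnion, Set.mem_preimage, not_or,
          not_not, not_exists] at hc
        choose N hN' using fun i => (hE x hc.1 _ (hc.2 i)).1 ⟨s i, rfl⟩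
        obtain ⟨i, hi⟩ := Set.mem_iUnion.1 (Set.mem_iInter.1 hx (Finset.univ.sup N))
        exact hi ⟨hc.1, hc.2 i, hmono' (Finset.le_sup (Finset.mem_univ i)) (hN' i)⟩
      · refine measure_union_null hY0 (measure_iUnion_null fun i => ?_)
        rw [(S.mp (s i)).measure_preimage hY.compl.nullMeasurableSet, hY0]) hη0
  -- step 2
  obtain ⟨e, he⟩ := exists_surjective_nat Γ
  obtain ⟨t, ht⟩ := tail_small (μ := μ)
    (A := fun t => ⋃ g : Γ, {x | x ∈ Y ∧ g • x ∈ Y ∧ (x, g • x) ∈ F n} ∩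
      ⋂ j, ⋂ (_ : j < t), {x | g • x = e j • x}ᶜ)
    (fun t => MeasurableSet.iUnion fun g => (hR n g).inter
      (MeasurableSet.iInter fun j => MeasurableSet.iInter fun _ =>
        (S.meas_eq (S.mp g).measurable _).compl))
    (fun a b hab => Set.iUnion_mono fun g => Set.inter_subset_inter_right _ fun x hx =>
      Set.mem_iInter₂.2 fun j hj => Set.mem_iInter₂.1 hx j (lt_of_lt_of_le hj hab)) (by
      refine measure_mono_null (t := ∅) ?_ measure_empty
      intro x hx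
      have h1 : ∀ y, ∃ j, (∃ g : Γ, y = g • x) → y = e j • x := by
        intro y
        by_cases h : ∃ g : Γ, y = g • x
        · obtain ⟨g, hg⟩ := h
          obtain ⟨j, rfl⟩ := he g
          exact ⟨j, fun _ => hg⟩
        · exact ⟨0, fun h' => absurd h' h⟩
      choose J hJ using h1
      obtain ⟨g, h2, h3⟩ := Set.mem_iUnion.1
        (Set.mem_iInter.1 hx ((hfin n x).toFinset.sup J + 1))
      refine Set.mem_iInter₂.1 h3 (J (g • x)) (Nat.lt_succ_of_le (Finset.le_sup ?_)) (hJ _ ⟨g, rfl⟩)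
      simpa using h2.2.2) hη0
  -- step 3
  let T : Finset Γ := insert 1 ((Finset.range t).image e)
  let τ : X → Finset Γ := fun x => T.filter fun g => x ∈ Y ∧ g • x ∈ Y ∧ (x, g • x) ∈ F n
  have hτ : ∀ U, MeasurableSet (τ ⁻¹' {U}) := by
    intro U
    have : τ ⁻¹' {U} = ⋂ g : Γ, {x | (g ∈ T ∧ x ∈ Y ∧ g • x ∈ Y ∧ (x, g • x) ∈ F n) ↔ g ∈ U} := by
      ext x
      simp [τ, Finset.ext_iff]
    rw [this]
    refine MeasurableSet.iInter fun g => ?_
    by_cases h1 : g ∈ T <;> by_cases h2 : g ∈ U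
    · simpa [h1, h2] using hR n g
    · convert (hR n g).compl using 1
      ext x
      simp only [h1, h2, true_and, iff_false, Set.mem_ofPred_eq, Set.mem_compl_iff]
    · simp [h1, h2]
    · simp [h1, h2]
  obtain ⟨m₀, hm₀⟩ := S.densW hfi hτ (θ := 1 / 2) (by norm_num) hη0
  obtain ⟨m, hm, hN⟩ := hN T m₀
  have hD := hm₀ m hm
  have := hfi m
  -- step 4
  let C : Γ ⧸ H m → Set (Γ ⧸ H m) := fun a =>
    {b | b = a ∨ ∃ U : Finset Γ, 1 / 2 < S.cond m (τ ⁻¹' {U}) a ∧ ∃ g ∈ U, g ∈ T ∧ b = g • a}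
  have hN' := hN (Setoid.ker C) (by
    intro a b hab
    have h1 : b ∈ C a := by
      rw [show C a = C b from hab]
      exact Or.inl rfl
    rcases h1 with rfl | ⟨U, _, g, _, hg, rfl⟩
    · exact ⟨1, Finset.mem_insert_self _ _, (one_smul _ _).symm⟩
    · exact ⟨g, hg, rfl⟩)
  have hC : ∀ x, x ∈ Y → x ∉ (⋃ g : Γ, {x | x ∈ Y ∧ g • x ∈ Y ∧ (x, g • x) ∈ F n} ∩
      ⋂ j, ⋂ (_ : j < t), {x | g • x = e j • x}ᶜ) →
      x ∉ {x | S.cond m (τ ⁻¹' {τ x}) (S.p m x) ≤ 1 / 2} →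
      C (S.p m x) = S.p m '' {y | y ∈ Y ∧ (x, y) ∈ F n} := by
    intro x hx h1 h2
    have h2' : 1 / 2 < S.cond m (τ ⁻¹' {τ x}) (S.p m x) := not_le.1 h2
    ext b
    constructor
    · rintro (rfl | ⟨U, hU, g, hg, _, rfl⟩)
      · exact ⟨x, ⟨hx, hrefl n x⟩, rfl⟩
      · obtain ⟨z, hz1, hz2⟩ := S.cond_unique m (hτ U) _ hU h2'
        have : U = τ x := hz1.symm.trans hz2
        subst this
        have := (Finset.mem_filter.1 hg).2
        exact ⟨g • x, this.2, S.equiv m g x⟩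
    · rintro ⟨y, ⟨hy, hxy⟩, rfl⟩
      obtain ⟨g, rfl⟩ := (hE x hx y hy).2 ⟨n, hxy⟩
      have h3 : ∃ j < t, g • x = e j • x := by
        by_contra hc
        push Not at hc
        exact h1 (Set.mem_iUnion.2 ⟨g, ⟨hx, hy, hxy⟩, Set.mem_iInter₂.2 fun j hj => hc j hj⟩)
      obtain ⟨j, hj, hg⟩ := h3
      have hT : e j ∈ T := Finset.mem_insert_of_mem (Finset.mem_image_of_mem _ (by simpa using hj))
      refine Or.inr ⟨τ x, h2', e j, Finset.mem_filter.2 ⟨hT, hx, hg ▸ hy, hg ▸ hxy⟩, hT, ?_⟩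
      rw [hg, S.equiv]
  -- step 5
  have hcut := S.card_le m (fun a i => ¬ Setoid.ker C a (s i • a)) (c := 5 * η) (by
    intro i
    set A₁ := ⋃ i, {x | x ∈ Y ∧ s i • x ∈ Y ∧ (x, s i • x) ∈ F n}ᶜ
    set A₂ := ⋃ g : Γ, {x | x ∈ Y ∧ g • x ∈ Y ∧ (x, g • x) ∈ F n} ∩
      ⋂ j, ⋂ (_ : j < t), {x | g • x = e j • x}ᶜ
    set A₃ := {x | S.cond m (τ ⁻¹' {τ x}) (S.p m x) ≤ 1 / 2}
    have hsub : {x | ¬ Setoid.ker C (S.p m x) (s i • S.p m x)} ⊆
        (((A₁ ∪ A₂) ∪ A₃) ∪ (fun x => s i • x) ⁻¹' A₂) ∪ (fun x => s i • x) ⁻¹' A₃ := by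
      intro x hx
      by_contra hc
      simp only [Set.mem_union, not_or, Set.mem_preimage] at hc
      obtain ⟨⟨⟨⟨c1, c2⟩, c3⟩, c4⟩, c5⟩ := hc
      have c6 : x ∈ Y ∧ s i • x ∈ Y ∧ (x, s i • x) ∈ F n := by
        by_contra h
        exact c1 (Set.mem_iUnion.2 ⟨i, h⟩)
      apply hx
      change C (S.p m x) = C (s i • S.p m x)
      rw [← S.equiv, hC x c6.1 c2 c3, hC _ c6.2.1 c4 c5]
      congr 1
      ext y
      exact ⟨fun h => ⟨h.1, htrans n _ _ _ (hsymm n _ _ c6.2.2) h.2⟩,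
        fun h => ⟨h.1, htrans n _ _ _ c6.2.2 h.2⟩⟩
    have b1 := measureReal_mono (μ := μ) hsub
    have b2 := measureReal_union_le (μ := μ) (((A₁ ∪ A₂) ∪ A₃) ∪ (fun x => s i • x) ⁻¹' A₂)
      ((fun x => s i • x) ⁻¹' A₃)
    have b3 := measureReal_union_le (μ := μ) ((A₁ ∪ A₂) ∪ A₃) ((fun x => s i • x) ⁻¹' A₂)
    have b4 := measureReal_union_le (μ := μ) (A₁ ∪ A₂) A₃
    have b5 := measureReal_union_le (μ := μ) A₁ A₂
    rw [S.real_preimage] at b2 b3
    linarith)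
  have hpos := card_pos' (H := H) m
  have h1 := hN'.trans hcut
  have h2 : ε ≤ Fintype.card (Fin k) * (5 * η) := le_of_mul_le_mul_right h1 hpos
  rw [Fintype.card_fin] at h2
  have h3 : η * (10 * (k + 1)) = ε := by
    rw [hη]; field_simp
  nlinarith

end Sys

end Pool.Agent.MP_c34dea_an.H23
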