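import Pool.Agent.MP_c34dea_an.H23.Hyper
import Pool.Agent.MP_c34dea_an.H23.Forest

set_option autoImplicit false
open MeasureTheory
open scoped ENNReal

namespace Pool.Agent.MP_c34dea_an.H23

variable {Γ : Type} [Group Γ] {H : ℕ → Subgroup Γ} {X : Type} [MeasurableSpace X] [MulAction Γ X]
  {μ : Measure X} {r : ℕ}

theorem mk_reverse_ne_one {w : List (Fin r × Bool)} (hw : w ≠ []) (hr : FreeGroup.IsReduced w) :
    FreeGroup.mk w.reverse ≠ 1 := by
  intro h
  have h1 : FreeGroup.IsReduced w.reverse := by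
    unfold FreeGroup.IsReduced at hr ⊢
    rw [List.isChain_reverse]
    exact hr.imp fun a b hab e => (hab e.symm).symm
  have h2 := congrArg FreeGroup.toWord h
  rw [FreeGroup.toWord_mk, h1.reduce_eq, FreeGroup.toWord_one] at h2
  exact hw (List.reverse_eq_nil_iff.1 h2)

omit [MeasurableSpace X] in
theorem PF.walk_map {Y : Type} [MulAction Γ Y] {P : PF r Γ Y} {W : PF r Γ X} {f : Y → X}
    (hf : ∀ (g : Γ) y, f (g • y) = g • f y)
    (h : ∀ y l g, P.lab y l = some g → W.lab (f y) l = some g)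
    {w : List (Fin r × Bool)} {y : Y} {g : Γ} (hw : P.walk w y = some g) :
    W.walk w (f y) = some g := by
  induction w generalizing y g with
  | nil => exact hw
  | cons l w ih =>
    obtain ⟨g₀, k, h1, h2, rfl⟩ := P.walk_cons_eq_some.1 hw
    exact W.walk_cons_eq_some.2 ⟨g₀, k, h _ _ _ h1, hf g₀ y ▸ ih h2, rfl⟩

theorem sum_real_le [IsFiniteMeasure μ] {ι : Type} (D : Finset ι) {G : ι → Set X}
    (hG : ∀ d, MeasurableSet (G d)) {Z : Set X} (hZ : MeasurableSet Z) {c : ℝ}
    (h : ∀ x ∈ Z, (({d | d ∈ D ∧ x ∈ G d}.ncard : ℕ) : ℝ) ≤ c) :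
    ∑ d ∈ D, μ.real (G d ∩ Z) ≤ c * μ.real Z := by
  classical
  have e1 : ∀ d, μ.real (G d ∩ Z) = ∫ x, (G d ∩ Z).indicator (1 : X → ℝ) x ∂μ := fun d =>
    (integral_indicator_one ((hG d).inter hZ)).symm
  have i1 : ∀ d, Integrable ((G d ∩ Z).indicator (1 : X → ℝ)) μ := fun d =>
    (integrable_const (1 : ℝ)).indicator ((hG d).inter hZ)
  simp only [e1]
  rw [← integral_finsetSum _ fun d _ => i1 d, ← integral_indicator_one hZ, ← integral_const_mul]
  refine integral_mono (integrable_finsetSum _ fun d _ => i1 d)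
    (((integrable_const (1 : ℝ)).indicator hZ).const_mul c) fun x => ?_
  by_cases hx : x ∈ Z
  · have := h x hx
    simp only [Set.indicator, Set.mem_inter_iff, hx, and_true, Pi.one_apply, if_true, mul_one]
    rw [Finset.sum_boole]
    refine le_of_eq_of_le ?_ this
    rw [← Set.ncard_coe_finset, Finset.coe_filter]
  · simp [Set.indicator, hx]

theorem out_smul_eq {A B : Subgroup Γ} (h : A ≤ B) (g : Γ) (a : Γ ⧸ A) :
    (((g • a).out : Γ) : Γ ⧸ B) = g • ((a.out : Γ) : Γ ⧸ B) := by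
  rw [MulAction.Quotient.smul_coe, smul_eq_mul]
  refine coe_eq_of_le h ?_
  rw [QuotientGroup.out_eq', ← smul_eq_mul, ← MulAction.Quotient.smul_coe, QuotientGroup.out_eq']

namespace Sys

variable (S : Sys H X μ)

theorem out_p {j m : ℕ} (h : j ≤ m) (x : X) : (((S.p m x).out : Γ) : Γ ⧸ H j) = S.p j x :=
  (S.compat j m h x _ (QuotientGroup.out_eq' _).symm).symm

theorem deep_fix {m : ℕ} {y g : Γ} (h : Deep H m (y⁻¹ * g * y)) {x : X} (hx : S.p m x = y) :
    g • x = x := by
  refine S.sep _ _ fun n => ?_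
  obtain ⟨z, hz⟩ := QuotientGroup.mk_surjective (S.p (max n m) x)
  have h1 := S.compat n _ (le_max_left n m) x z hz.symm
  have h2 := S.compat m _ (le_max_right n m) x z hz.symm
  have h3 : y⁻¹ * z ∈ H m := QuotientGroup.eq.1 (hx.symm.trans h2)
  have h4 := h _ h3 n
  rw [S.equiv, h1, MulAction.Quotient.smul_coe, smul_eq_mul]
  refine (QuotientGroup.eq.2 ?_).symm
  convert h4 using 1
  group

include S in
/-- A free action gives an almost everywhere defined acyclic labelling. -/
theorem exists_label [StandardBorelSpace X] [Countable Γ] {A : Set X} (hA : MeasurableSet A)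
    {b : FreeGroup (Fin r) → X → X} (hm : ∀ g, Measurable (b g)) (hAA : ∀ g, ∀ x ∈ A, b g x ∈ A)
    (h1 : ∀ x ∈ A, b 1 x = x) (hmul : ∀ g h, ∀ x ∈ A, b (g * h) x = b g (b h x))
    (hfree : ∀ g, g ≠ 1 → ∀ x ∈ A, b g x ≠ x) (hE : ∀ g, ∀ x ∈ A, ∃ γ : Γ, b g x = γ • x) :
    ∃ W : PF r Γ X, (∀ l v, MeasurableSet ((fun x => W.lab x l) ⁻¹' {v})) ∧
      (∀ l, ∀ x ∈ A, W.lab x l ≠ none) ∧
      ∀ w x g, w ≠ [] → FreeGroup.IsReduced w → W.walk w x = some g → g • x ≠ x := by
  classical
  choose u hu hub using fun i : Fin r => S.exists_sel (hm (FreeGroup.mk [(i, true)]))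
  have hinv : ∀ (i : Fin r) (c : Bool), ∀ x ∈ A,
      b (FreeGroup.mk [(i, !c)]) (b (FreeGroup.mk [(i, c)]) x) = x := by
    intro i c x hx
    rw [← hmul _ _ x hx]
    have : FreeGroup.mk [(i, !c)] * FreeGroup.mk [(i, c)] = 1 := by
      rw [mul_eq_one_iff_eq_inv, FreeGroup.inv_mk]
      rfl
    rw [this, h1 x hx]
  let w : Fin r × Bool → X → Γ := fun l x =>
    if l.2 then u l.1 x else (u l.1 (b (FreeGroup.mk [(l.1, false)]) x))⁻¹
  have hw1 : ∀ l, ∀ x ∈ A, b (FreeGroup.mk [l]) x = w l x • x := by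
    rintro ⟨i, c⟩ x hx
    cases c
    · have h2 := hub i _ (hE _ _ (hAA (FreeGroup.mk [(i, false)]) x hx))
      have h3 := hinv i false x hx
      simp only [Bool.not_false] at h3
      rw [h3] at h2
      simp only [w, Bool.false_eq_true, if_false]
      rw [eq_inv_smul_iff]
      exact h2.symm
    · exact hub i x (hE _ x hx)
  have hw2 : ∀ l, ∀ x ∈ A, w (l.1, !l.2) (w l x • x) = (w l x)⁻¹ := by
    rintro ⟨i, c⟩ x hx
    rw [← hw1 _ x hx]
    cases c
    · simp [w]
    · have h3 := hinv i true x hx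
      simp only [Bool.not_true] at h3
      simp [w, h3]
  have hwm : ∀ l g, MeasurableSet (w l ⁻¹' {g}) := by
    rintro ⟨i, c⟩ g
    cases c
    · have : w (i, false) ⁻¹' {g} = b (FreeGroup.mk [(i, false)]) ⁻¹' (u i ⁻¹' {g⁻¹}) := by
        ext x
        simp [w, inv_eq_iff_eq_inv]
      rw [this]
      exact hm _ (hu i _)
    · exact hu i g
  have hlab : ∀ x l g, (if x ∈ A then some (w l x) else none) = some g ↔ x ∈ A ∧ w l x = g := by
    intro x l g
    by_cases hx : x ∈ A <;> simp [hx]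
  let W : PF r Γ X := ⟨fun x l => if x ∈ A then some (w l x) else none, fun x i c g h => by
    obtain ⟨hx, rfl⟩ := (hlab _ _ _).1 h
    exact (hlab _ _ _).2 ⟨hw1 _ x hx ▸ hAA _ x hx, hw2 (i, c) x hx⟩⟩
  have hwalk : ∀ (v : List (Fin r × Bool)) x g, x ∈ A → W.walk v x = some g →
      b (FreeGroup.mk v.reverse) x = g • x := by
    intro v
    induction v with
    | nil =>
      intro x g hx h
      obtain rfl : 1 = g := Option.some.inj h
      rw [one_smul]
      exact h1 x hx
    | cons l v ih =>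
      intro x g hx h
      obtain ⟨g₀, k, h2, h3, rfl⟩ := W.walk_cons_eq_some.1 h
      obtain ⟨_, rfl⟩ := (hlab _ _ _).1 h2
      rw [List.reverse_cons, ← FreeGroup.mul_mk, hmul _ _ x hx, hw1 _ x hx, mul_smul]
      exact ih _ _ (hw1 _ x hx ▸ hAA _ x hx) h3
  refine ⟨W, fun l v => ?_, fun l x hx => by simp [W, hx], fun v x g hv hr h => ?_⟩
  · cases v with
    | none =>
      convert hA.compl using 1
      ext x
      simp [W]
    | some g =>
      convert hA.inter (hwm l g) using 1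
      ext x
      exact hlab x l g
  · have hx : x ∈ A := by
      obtain ⟨l, v', rfl⟩ := List.exists_cons_of_ne_nil hv
      obtain ⟨g₀, k, h2, _, _⟩ := W.walk_cons_eq_some.1 h
      exact ((hlab _ _ _).1 h2).1
    rw [← hwalk v x g hx h]
    exact hfree _ (mk_reverse_ne_one hv hr) x hx

/-- The labelling of a level by the labels of large conditional probability. -/
theorem exists_level [IsProbabilityMeasure μ] (n : ℕ) [(H n).FiniteIndex] (W : PF r Γ X)
    (hW : ∀ l v, MeasurableSet ((fun x => W.lab x l) ⁻¹' {v})) {θ : ℝ} (hθ : 1 / 2 ≤ θ)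
    (ok : Γ ⧸ H n → Fin r × Bool → Γ → Prop)
    (hok : ∀ a l g, ok a l g → ok (g • a) (l.1, !l.2) g⁻¹) :
    ∃ P : PF r Γ (Γ ⧸ H n), ∀ a l g, P.lab a l = some g ↔
      ok a l g ∧ θ < S.cond n ((fun x => W.lab x l) ⁻¹' {some g}) a := by
  classical
  let lab : Γ ⧸ H n → Fin r × Bool → Option Γ := fun a l =>
    if h : ∃ g, ok a l g ∧ θ < S.cond n ((fun x => W.lab x l) ⁻¹' {some g}) a then
      some h.choose else none
  have hlab : ∀ a l g, lab a l = some g ↔
      ok a l g ∧ θ < S.cond n ((fun x => W.lab x l) ⁻¹' {some g}) a := by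
    intro a l g
    constructor
    · intro h
      simp only [lab] at h
      split_ifs at h with h'
      obtain rfl := Option.some.inj h
      exact h'.choose_spec
    · intro h
      have h' : ∃ g, ok a l g ∧ θ < S.cond n ((fun x => W.lab x l) ⁻¹' {some g}) a := ⟨g, h⟩
      simp only [lab, dif_pos h']
      obtain ⟨z, h1, h2⟩ := S.cond_unique n (hW l _) a (hθ.trans_lt h'.choose_spec.2)
        (hθ.trans_lt h.2)
      exact (show W.lab z l = _ from h1).symm.trans h2
  refine ⟨⟨lab, fun a i c g h => ?_⟩, hlab⟩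
  obtain ⟨h1, h2⟩ := (hlab _ _ _).1 h
  refine (hlab _ _ _).2 ⟨hok a (i, c) g h1, ?_⟩
  rw [S.cond_smul]
  exact h2.trans_le (S.cond_mono n a fun x hx _ => W.symm x i c g hx)

theorem cond_walk [IsProbabilityMeasure μ] (n : ℕ) [(H n).FiniteIndex] {W : PF r Γ X}
    (hW : ∀ l v, MeasurableSet ((fun x => W.lab x l) ⁻¹' {v})) {θ : ℝ} {P : PF r Γ (Γ ⧸ H n)}
    (hP : ∀ a l g, P.lab a l = some g → θ < S.cond n ((fun x => W.lab x l) ⁻¹' {some g}) a)
    {w : List (Fin r × Bool)} {a : Γ ⧸ H n} {g : Γ} (h : P.walk w a = some g) :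
    S.cond n {x | W.walk w x ≠ some g} a ≤ w.length * (1 - θ) := by
  induction w generalizing a g with
  | nil =>
    obtain rfl : 1 = g := Option.some.inj h
    rw [S.cond_null n (by simp)]
    simp
  | cons l w ih =>
    obtain ⟨g₀, k, h1, h2, rfl⟩ := P.walk_cons_eq_some.1 h
    have e1 := ih h2
    rw [S.cond_smul] at e1
    have e2 := S.cond_compl n (hW l (some g₀)) a
    have e3 := hP _ _ _ h1
    have e4 := S.cond_union_le n ((fun x => W.lab x l) ⁻¹' {some g₀})ᶜ
      ((fun x => g₀ • x) ⁻¹' {x | W.walk w x ≠ some k}) a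
    have e5 : S.cond n {x | W.walk (l :: w) x ≠ some (k * g₀)} a ≤ S.cond n
        (((fun x => W.lab x l) ⁻¹' {some g₀})ᶜ ∪
          ((fun x => g₀ • x) ⁻¹' {x | W.walk w x ≠ some k})) a := by
      refine S.cond_mono n a fun x hx _ => ?_
      by_contra hc
      simp only [Set.mem_union, Set.mem_compl_iff, Set.mem_preimage, Set.mem_singleton_iff,
        Set.mem_ofPred_eq, not_or, not_not] at hc
      exact hx (W.walk_cons_eq_some.2 ⟨g₀, k, hc.1, hc.2, rfl⟩)
    rw [List.length_cons]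
    push_cast
    linarith

theorem arb [IsProbabilityMeasure μ] (m : ℕ) [(H m).FiniteIndex] {W : PF r Γ X}
    (hW : ∀ l v, MeasurableSet ((fun x => W.lab x l) ⁻¹' {v}))
    (hac : ∀ w x g, w ≠ [] → FreeGroup.IsReduced w → W.walk w x = some g → g • x ≠ x)
    {P : PF r Γ (Γ ⧸ H m)}
    (hP : ∀ a l g, P.lab a l = some g → 1 / 2 < S.cond m ((fun x => W.lab x l) ⁻¹' {some g}) a) :
    P.Arb H := by
  classical
  intro K hK F
  have hKH : K ≤ H m := fun k hk => by simpa using hK k hk 1 (H m).one_mem m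
  set D : Set ((Γ ⧸ K) × (Fin r × Bool)) := {p | p.1 ∈ F ∧
      ∃ g, P.lab ((p.1.out : Γ) : Γ ⧸ H m) p.2 = some g ∧ g • p.1 ∈ F} with hD
  have hDf : D.Finite := by
    refine ((F.finite_toSet).prod (Set.finite_univ (α := Fin r × Bool))).subset ?_
    intro p hp
    exact ⟨hp.1, trivial⟩
  change Nat.card D ≤ _
  rw [Nat.card_coe_set_eq, Set.ncard_eq_toFinset_card D hDf]
  let G : (Γ ⧸ K) × (Fin r × Bool) → Set X := fun p => (fun x => (p.1.out : Γ) • x) ⁻¹'
    ((fun x => W.lab x p.2) ⁻¹' {P.lab ((p.1.out : Γ) : Γ ⧸ H m) p.2})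
  have hG : ∀ d, MeasurableSet (G d) := fun d => (S.mp _).measurable (hW _ _)
  have key := sum_real_le (μ := μ) hDf.toFinset hG (S.meas_p m {((1 : Γ) : Γ ⧸ H m)})
    (c := 2 * F.card) (by
      intro x hx
      have hf : ∀ (g : Γ) (y : Γ ⧸ K), ((g • y).out : Γ) • x = g • (y.out : Γ) • x := by
        intro g y
        have h1 : (((g • y).out : Γ) : Γ ⧸ K) = ((g * y.out : Γ) : Γ ⧸ K) :=
          out_smul_eq le_rfl g y
        have h2 := hK _ (QuotientGroup.eq.1 h1)
        have h3 := S.deep_fix (y := 1) (g := ((g • y).out)⁻¹ * (g * y.out)) (by simpa using h2) hx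
        rw [mul_smul, inv_smul_eq_iff, mul_smul] at h3
        exact h3.symm
      let P' : PF r Γ (Γ ⧸ K) := ⟨fun y l =>
        if W.lab ((y.out : Γ) • x) l = P.lab ((y.out : Γ) : Γ ⧸ H m) l then
          P.lab ((y.out : Γ) : Γ ⧸ H m) l else none, fun y i c g h => by
        split_ifs at h with h'
        have a1 := P.symm _ i c g h
        have a2 := W.symm _ i c g (h'.trans h)
        rw [out_smul_eq hKH, hf, a1, a2, if_pos rfl]⟩
      have hsub : {d | d ∈ hDf.toFinset ∧ x ∈ G d} ⊆ P'.darts F := by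
        rintro ⟨y, l⟩ ⟨h1, h2⟩
        rw [Set.Finite.mem_toFinset] at h1
        obtain ⟨h3, g, h4, h5⟩ := h1
        refine ⟨h3, g, ?_, h5⟩
        exact (if_pos h2).trans h4
      have hle : (P'.darts F).ncard ≤ 2 * F.card := by
        rcases F.eq_empty_or_nonempty with rfl | hne
        · have : P'.darts ∅ = ∅ := by
            ext p
            simp [PF.darts]
          simp [this]
        by_contra hc
        obtain ⟨y, _, w, g, h1, _, h2, h3, h4⟩ := P'.exists_closed_walk F hne (not_le.1 hc).le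
        have h5 := PF.walk_map (W := W) (f := fun y : Γ ⧸ K => (y.out : Γ) • x) hf (by
          intro y l g h
          simp only [P'] at h
          split_ifs at h with h'
          exact h'.trans h) h3
        exact hac w _ g h1 h2 h5 (by rw [← hf, h4])
      have := (Set.ncard_le_ncard hsub (P'.darts_finite F)).trans hle
      exact_mod_cast this)
  have hN := card_pos' (H := H) m
  have k2 := mul_le_mul_of_nonneg_left key hN.le
  rw [mul_left_comm, S.real_atom, Finset.mul_sum] at k2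
  have k3 : ∑ d ∈ hDf.toFinset, (1 / 2 : ℝ) ≤ ∑ d ∈ hDf.toFinset,
      Nat.card (Γ ⧸ H m) * μ.real (G d ∩ S.p m ⁻¹' {((1 : Γ) : Γ ⧸ H m)}) := by
    refine Finset.sum_le_sum fun d hd => ?_
    rw [Set.Finite.mem_toFinset] at hd
    obtain ⟨_, g, h4, _⟩ := hd
    have h5 := hP _ _ _ h4
    have h6 : ((d.1.out : Γ) : Γ ⧸ H m) = (d.1.out : Γ) • ((1 : Γ) : Γ ⧸ H m) := by
      rw [MulAction.Quotient.smul_coe]; simp
    rw [h6, S.cond_smul, ← h4] at h5
    exact h5.le
  rw [Finset.sum_const, nsmul_eq_mul] at k3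
  have : (hDf.toFinset.card : ℝ) ≤ 4 * F.card := by linarith
  exact_mod_cast this

end Sys

end Pool.Agent.MP_c34dea_an.H23
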