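import Pool.Agent.MP_c34dea_an.H23.Forest

set_option autoImplicit false

namespace Pool.Agent.MP_c34dea_an.H23

variable {Γ : Type} [Group Γ] {r : ℕ}

theorem coe_eq_of_le' {A B : Subgroup Γ} (h : A ≤ B) {g g' : Γ} (e : (g : Γ ⧸ A) = g') :
    (g : Γ ⧸ B) = g' := QuotientGroup.eq.2 (h (QuotientGroup.eq.1 e))

theorem coe_out_coe {A B : Subgroup Γ} (h : A ≤ B) (y : Γ) :
    ((((y : Γ ⧸ A).out : Γ)) : Γ ⧸ B) = y := coe_eq_of_le' h (QuotientGroup.out_eq' _)

theorem smul_coe' (A : Subgroup Γ) (g y : Γ) : g • (y : Γ ⧸ A) = ((g * y : Γ) : Γ ⧸ A) := rfl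

theorem out_smul_eq' {A B : Subgroup Γ} (h : A ≤ B) (g : Γ) (a : Γ ⧸ A) :
    (((g • a).out : Γ) : Γ ⧸ B) = g • ((a.out : Γ) : Γ ⧸ B) := by
  rw [smul_coe']
  refine coe_eq_of_le' h ?_
  rw [QuotientGroup.out_eq', ← smul_coe', QuotientGroup.out_eq']

namespace PF

/-- pull back to a smaller subgroup -/
noncomputable def pull {A B : Subgroup Γ} (h : A ≤ B) (Q : PF r Γ (Γ ⧸ B)) : PF r Γ (Γ ⧸ A) where
  lab a l := Q.lab ((a.out : Γ) : Γ ⧸ B) l
  symm a i b g e := by
    rw [out_smul_eq' h]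
    exact Q.symm _ i b g e

theorem pull_lab {A B : Subgroup Γ} (h : A ≤ B) (Q : PF r Γ (Γ ⧸ B)) (y : Γ) (l : Fin r × Bool) :
    (Q.pull h).lab (y : Γ ⧸ A) l = Q.lab (y : Γ ⧸ B) l := by
  change Q.lab _ l = _
  rw [coe_out_coe h]

theorem pull_walk {A B : Subgroup Γ} (h : A ≤ B) (Q : PF r Γ (Γ ⧸ B)) (w : List (Fin r × Bool))
    (y : Γ) : (Q.pull h).walk w (y : Γ ⧸ A) = Q.walk w (y : Γ ⧸ B) := by
  induction w generalizing y with
  | nil => rfl
  | cons l w ih => simp only [walk_cons, pull_lab, smul_coe', ih]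

variable {Y : Type} [MulAction Γ Y]

theorem walk_mono {P Q : PF r Γ Y} (h : ∀ x l g, P.lab x l = some g → Q.lab x l = some g)
    {w : List (Fin r × Bool)} {x : Y} {g : Γ} (hw : P.walk w x = some g) : Q.walk w x = some g := by
  induction w generalizing x g with
  | nil => exact hw
  | cons l w ih =>
    obtain ⟨g₀, k, h1, h2, rfl⟩ := P.walk_cons_eq_some.1 hw
    exact Q.walk_cons_eq_some.2 ⟨g₀, k, h _ _ _ h1, ih h2, rfl⟩

/-- the inverse word -/
def rv (w : List (Fin r × Bool)) : List (Fin r × Bool) := (w.map fun a => (a.1, !a.2)).reverse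

theorem rv_rv (w : List (Fin r × Bool)) : rv (rv w) = w := by
  simp [rv, List.map_reverse, Function.comp_def]

theorem walk_rv (P : PF r Γ Y) {w : List (Fin r × Bool)} {x : Y} {g : Γ}
    (hw : P.walk w x = some g) : P.walk (rv w) (g • x) = some g⁻¹ := by
  induction w generalizing x g with
  | nil =>
    obtain rfl : 1 = g := Option.some.inj hw
    simp [rv]
  | cons l w ih =>
    obtain ⟨g₀, k, h1, h2, rfl⟩ := P.walk_cons_eq_some.1 hw
    have e : rv (l :: w) = rv w ++ [(l.1, !l.2)] := by simp [rv]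
    rw [e]
    refine P.walk_append_eq_some.2 ⟨k⁻¹, g₀⁻¹, by rw [mul_smul]; exact ih h2, ?_, by group⟩
    refine P.walk_cons_eq_some.2 ⟨g₀⁻¹, 1, ?_, rfl, by group⟩
    rw [mul_smul, inv_smul_smul]
    exact P.symm' h1

theorem walk_inj (P : PF r Γ Y) {w : List (Fin r × Bool)} {x x' : Y} {g g' : Γ}
    (h : P.walk w x = some g) (h' : P.walk w x' = some g') (e : g • x = g' • x') : x = x' := by
  have h1 := P.walk_rv h
  have h2 := P.walk_rv h'
  rw [e, h2] at h1
  have : g' = g := inv_injective (Option.some.inj h1)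
  subst this
  exact smul_left_cancel _ e

theorem exists_fail {P Q : PF r Γ Y} (h : ∀ x l g, P.lab x l = some g → Q.lab x l = some g)
    {w : List (Fin r × Bool)} {x : Y} {g : Γ} (hQ : Q.walk w x = some g) (hP : P.walk w x = none) :
    ∃ w₁ c w₂ k, w = w₁ ++ c :: w₂ ∧ Q.walk w₁ x = some k ∧ (Q.lab (k • x) c).isSome ∧
      P.lab (k • x) c = none := by
  induction w generalizing x g with
  | nil => simp at hP
  | cons l w ih =>
    obtain ⟨g₀, k, h1, h2, rfl⟩ := Q.walk_cons_eq_some.1 hQ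
    cases hl : P.lab x l with
    | none => exact ⟨[], l, w, 1, rfl, rfl, by simp [h1], by simpa using hl⟩
    | some g₁ =>
      have e := h _ _ _ hl
      rw [h1] at e
      obtain rfl := Option.some.inj e
      have h3 : P.walk w (g₀ • x) = none := by
        rw [walk_cons, hl] at hP
        simpa using hP
      obtain ⟨w₁, c, w₂, k', e1, e2, e3, e4⟩ := ih h2 h3
      refine ⟨l :: w₁, c, w₂, k' * g₀, by rw [e1]; rfl,
        Q.walk_cons_eq_some.2 ⟨g₀, k', h1, e2, rfl⟩, ?_, ?_⟩ <;> rwa [mul_smul]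

theorem two_mul_pos_le (P : PF r Γ Y) (F : Finset Y) :
    2 * {p : Y × Fin r | (p.1, (p.2, true)) ∈ P.darts F}.ncard ≤ (P.darts F).ncard := by
  set A := {p : Y × Fin r | (p.1, (p.2, true)) ∈ P.darts F}
  let f : (Y × Fin r) × Bool → Y × (Fin r × Bool) := fun q =>
    if q.2 then (q.1.1, (q.1.2, true))
    else ((P.lab q.1.1 (q.1.2, true)).getD 1 • q.1.1, (q.1.2, false))
  have h := Set.ncard_le_ncard_of_injOn (s := A ×ˢ (Set.univ : Set Bool)) (t := P.darts F) f (by
    rintro ⟨⟨y, i⟩, c⟩ ⟨hp, -⟩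
    cases c
    · obtain ⟨h1, g, h2, h3⟩ := hp
      simp only at h1 h2 h3
      simp only [f, Bool.false_eq_true, if_false, h2, Option.getD_some]
      exact ⟨h3, g⁻¹, P.symm y i true g h2, by simpa using h1⟩
    · exact hp) (by
    rintro ⟨⟨y, i⟩, c⟩ ⟨hp, -⟩ ⟨⟨y', i'⟩, c'⟩ ⟨hp', -⟩ e
    cases c <;> cases c'
    · obtain ⟨h1, g, h2, h3⟩ := hp
      obtain ⟨h1', g', h2', h3'⟩ := hp'
      simp only at h2 h2'
      simp only [f, Bool.false_eq_true, if_false, h2, h2', Option.getD_some, Prod.mk.injEq,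
        and_true] at e
      obtain ⟨e1, rfl⟩ := e
      have a1 := P.symm y i true g h2
      have a2 := P.symm y' i true g' h2'
      rw [e1, a2] at a1
      obtain rfl : g' = g := inv_injective (Option.some.inj a1)
      rw [smul_left_cancel _ e1]
    · simp [f] at e
    · simp [f] at e
    · simp only [f, if_true, Prod.mk.injEq, and_true] at e
      rw [e.1, e.2]) (P.darts_finite F)
  rw [Set.ncard_prod, Set.ncard_univ] at h
  simpa [mul_comm] using h

end PF

/-- an infinite non-backtracking sequence in a finite graph with two darts per vertex -/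
theorem exists_dart_ray {V Δ : Type} (src : Δ → V) (rev : Δ → Δ) (F : Finset V) (𝒟 : Finset Δ)
    (hne : F.Nonempty) (h1 : ∀ e ∈ 𝒟, src e ∈ F) (h2 : ∀ e ∈ 𝒟, rev e ∈ 𝒟 ∧ rev (rev e) = e)
    (h : 2 * F.card ≤ 𝒟.card) :
    ∃ e : ℕ → Δ, ∀ n, e n ∈ 𝒟 ∧ src (e (n + 1)) = src (rev (e n)) ∧ e (n + 1) ≠ rev (e n) := by
  classical
  induction hn : F.card using Nat.strong_induction_on generalizing F 𝒟 with
  | _ n ih =>
    by_cases hc : ∀ v ∈ F, 2 ≤ (𝒟.filter fun e => src e = v).card
    · have step : ∀ e : 𝒟, ∃ e' : 𝒟, src e'.1 = src (rev e.1) ∧ e'.1 ≠ rev e.1 := by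
        rintro ⟨e, he⟩
        obtain ⟨a, ha, hae⟩ := Finset.exists_mem_ne (hc _ (h1 _ (h2 e he).1)) (rev e)
        rw [Finset.mem_filter] at ha
        exact ⟨⟨a, ha.1⟩, ha.2, hae⟩
      choose nx hnx using step
      have hp : 0 < 𝒟.card := by have := hne.card_pos; omega
      obtain ⟨e₀, he₀⟩ := Finset.card_pos.1 hp
      refine ⟨fun n => (nx^[n] ⟨e₀, he₀⟩).1, fun n => ⟨(nx^[n] ⟨e₀, he₀⟩).2, ?_⟩⟩
      simp only [Function.iterate_succ_apply']
      exact hnx _
    · push Not at hc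
      obtain ⟨v, hv, hlt⟩ := hc
      set O := 𝒟.filter fun e => src e = v with hO
      have hsub : 𝒟 ⊆ (𝒟.filter fun e => src e ≠ v ∧ src (rev e) ≠ v) ∪ (O ∪ O.image rev) := by
        intro e he
        by_cases c1 : src e = v
        · simp [hO, he, c1]
        by_cases c2 : src (rev e) = v
        · refine Finset.mem_union_right _ (Finset.mem_union_right _ ?_)
          exact Finset.mem_image.2 ⟨rev e, Finset.mem_filter.2 ⟨(h2 e he).1, c2⟩, (h2 e he).2⟩
        · simp [he, c1, c2]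
      have c1 := (Finset.card_le_card hsub).trans (Finset.card_union_le _ _)
      have c2 := Finset.card_union_le O (O.image rev)
      have c3 : (O.image rev).card ≤ O.card := Finset.card_image_le
      have c4 := Finset.card_erase_of_mem hv
      have c5 := hne.card_pos
      have hne' : (F.erase v).Nonempty := by
        rw [← Finset.card_pos]
        by_contra h0
        have : O = 𝒟 := Finset.filter_true_of_mem fun e he => by
          by_contra hx
          have := Finset.card_pos.2 ⟨src e, Finset.mem_erase.2 ⟨hx, h1 e he⟩⟩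
          omega
        rw [this] at hlt
        omega
      obtain ⟨e, he⟩ := ih (F.erase v).card (by omega) (F.erase v)
        (𝒟.filter fun e => src e ≠ v ∧ src (rev e) ≠ v) hne' (fun e he => by
          rw [Finset.mem_filter] at he
          exact Finset.mem_erase.2 ⟨he.2.1, h1 e he.1⟩) (fun e he => by
          rw [Finset.mem_filter] at he ⊢
          refine ⟨⟨(h2 e he.1).1, he.2.2, ?_⟩, (h2 e he.1).2⟩
          rw [(h2 e he.1).2]
          exact he.2.1) (by omega) rfl
      exact ⟨e, fun n => ⟨(Finset.mem_filter.1 (he n).1).1, (he n).2⟩⟩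

end Pool.Agent.MP_c34dea_an.H23
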