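import Pool.Agent.MP_c34dea_an.H23.BChain

set_option autoImplicit false

open scoped Pointwise ENNReal

namespace Pool.Agent.MP_c34dea_an.H23.Thin

open Pool.Agent.MP_c34dea_an.H66

variable {S : Type} {G : SimpleGraph S}

theorem exists_block {x : ℕ → W G} {H : Hyp G} {i : ℕ} : ∀ j, i ≤ j → H ∈ sep (x i) (x j) →
    ∃ c, i ≤ c ∧ c < j ∧ H ∈ sep (x c) (x (c + 1)) := by
  intro j hj
  induction j, hj using Nat.le_induction with
  | base => simp
  | succ j hj ih =>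
    intro h
    by_cases e : H ∈ sep (x j) (x (j + 1))
    · exact ⟨j, hj, by omega, e⟩
    · rw [mem_sep_trans (x i) (x j)] at h
      obtain ⟨c, a, b, e'⟩ := ih (by tauto)
      exact ⟨c, a, by omega, e'⟩

open Classical in
theorem card_stt_le {B : Finset (Hyp G)} (hB : (B : Set (Hyp G)).Pairwise TB0) (k : Hyp G) :
    (B.filter (fun e => Stt k e)).card ≤ 1 := by
  refine Finset.card_le_one.2 fun a ha b hb => ?_
  rw [Finset.mem_filter] at ha hb
  by_contra hne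
  exact (hB ha.1 hb.1 hne).not_both ha.2 hb.2

/-- a progressing sequence with located walls in all windows -/
structure Lw (x : ℕ → W G) (n L g ν : ℕ) : Prop where
  step : ∀ i < n, d (x i) (x (i + 1)) ≤ L
  big : ∀ j, j + g ≤ n → ∃ B : Finset (Hyp G), ν ≤ B.card ∧ (B : Set (Hyp G)).Pairwise TB0 ∧
    ∀ e ∈ B, Loc x n g j e
  nu : L + 4 ≤ ν

section

variable {x : ℕ → W G} {n L g ν : ℕ}

theorem Lw.d_le (h : Lw x n L g ν) {i : ℕ} : ∀ j, i ≤ j → j ≤ n → d (x i) (x j) ≤ (j - i) * L := by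
  intro j hj
  induction j, hj using Nat.le_induction with
  | base => simp
  | succ j hj ih =>
    intro hn
    have h1 := ih (by omega)
    have h2 := h.step j (by omega)
    have h3 := d_triangle (x i) (x j) (x (j + 1))
    have h4 : j + 1 - i = (j - i) + 1 := by omega
    rw [h4, add_mul, one_mul]
    omega

theorem Lw.ex (h : Lw x n L g ν) {j : ℕ} (hj : j + g ≤ n) : ∃ K, Loc x n g j K := by
  obtain ⟨B, h1, -, h3⟩ := h.big j hj
  have := h.nu
  obtain ⟨K, hK⟩ := Finset.card_pos.1 (show 0 < B.card by omega)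
  exact ⟨K, h3 K hK⟩

theorem loc_sep {j : ℕ} {K : Hyp G} (hK : Loc x n g j K) (hj : j + g ≤ n) :
    K ∈ sep (x j) (x (j + g)) := by
  have h1 := hK.1 j le_rfl
  have h2 := hK.2 (j + g) le_rfl hj
  rw [mem_sep_trans (x 0) (x j)] at h2
  tauto

theorem loc_pt {j : ℕ} {K : Hyp G} (hK : Loc x n g j K) (hj : j + g ≤ n) :
    ∃ i w, j ≤ i ∧ i < j + g ∧ w ∈ I (x i) (x (i + 1)) ∧ w ∈ car K := by
  obtain ⟨i, h1, h2, h3⟩ := exists_block (j + g) (by omega) (loc_sep hK hj)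
  obtain ⟨w, h4, h5, -, -⟩ := exists_cross_pt h3
  exact ⟨i, w, h1, h2, h4, h5⟩

theorem loc_after {j i : ℕ} {e : Hyp G} {w : W G} (he : Loc x n g j e) (h1 : j + g ≤ i)
    (h2 : i < n) (hw : w ∈ I (x i) (x (i + 1))) : e ∈ sep (x 0) w := by
  have a1 := he.2 i h1 h2.le
  have a2 := he.2 (i + 1) (by omega) h2
  have a3 : e ∈ sep (x i) w → e ∈ sep (x i) (x (i + 1)) := fun a => hw a
  simp only [mem_sep_sd] at *
  grind

theorem loc_before {j i : ℕ} {e : Hyp G} {w : W G} (he : Loc x n g j e) (h1 : i < j)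
    (hw : w ∈ I (x i) (x (i + 1))) : e ∉ sep (x 0) w := by
  have a1 := he.1 i h1.le
  have a2 := he.1 (i + 1) h1
  have a3 : e ∈ sep (x i) w → e ∈ sep (x i) (x (i + 1)) := fun a => hw a
  simp only [mem_sep_sd] at *
  grind

theorem D_ge {B : Finset (Hyp G)} (hB : (B : Set (Hyp G)).Pairwise TB0) {K : Hyp G} {p z w : W G}
    (hK : K ∈ sep p z) (hw : w ∈ car K) (h : ∀ e ∈ B, e ∈ sep p w) : B.card ≤ D TB0 p z + 1 := by
  classical
  have h1 := card_stt_le hB K
  have h2 := Finset.card_filter_add_card_filter_not (s := B) (fun e => Stt K e)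
  have h3 : (B.filter (fun e => ¬ Stt K e)).card ≤ D TB0 p z := by
    refine le_ht (fun e he => ?_) (hB.mono (Finset.coe_subset.2 (Finset.filter_subset _ _)))
    rw [Finset.mem_filter] at he
    exact mem_sep_of_car hK hw (h e he.1) he.2
  omega

theorem Lw.start (h : Lw x n L g ν) {j : ℕ} {K : Hyp G} (hK : Loc x n g j K) (h1 : g ≤ j)
    (h2 : j + g ≤ n) {z : W G} (hz : D TB0 z (x 0) ≤ L + 1) : K ∉ sep (x 0) z := by
  intro c
  obtain ⟨B, b1, b2, b3⟩ := h.big 0 (by omega)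
  obtain ⟨i, w, a1, a2, a3, a4⟩ := loc_pt hK h2
  have := D_ge b2 c a4 fun e he => loc_after (b3 e he) (by omega) (by omega) a3
  have := h.nu
  rw [D_comm] at hz
  omega

theorem Lw.stop (h : Lw x n L g ν) {j : ℕ} {K : Hyp G} (hK : Loc x n g j K)
    (h2 : j + 2 * g ≤ n) {z : W G} (hz : D TB0 z (x n) ≤ L + 1) : K ∈ sep (x 0) z := by
  have key : K ∉ sep (x n) z := by
    intro c
    obtain ⟨B, b1, b2, b3⟩ := h.big (j + g) (by omega)
    obtain ⟨i, w, a1, a2, a3, a4⟩ := loc_pt hK (by omega)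
    have := D_ge b2 c a4 fun e he => by
      have c1 := loc_before (b3 e he) a2 a3
      have c2 := (b3 e he).2 n (by omega) le_rfl
      simp only [mem_sep_sd] at *
      grind
    have := h.nu
    rw [D_comm] at hz
    omega
  have c2 := hK.2 n (by omega) le_rfl
  simp only [mem_sep_sd] at *
  grind

theorem Lw.tb (h : Lw x n L g ν) {j j' : ℕ} {K K' : Hyp G} (hK : Loc x n g j K)
    (hK' : Loc x n g j' K') (h1 : j + 2 * g ≤ j') (h2 : j' + g ≤ n) : TB0 K K' := by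
  classical
  rw [tb0_iff]
  rintro r ⟨r1, r2⟩
  obtain ⟨B, b1, b2, b3⟩ := h.big (j + g) (by omega)
  obtain ⟨i, w, a1, a2, a3, a4⟩ := loc_pt hK (by omega)
  obtain ⟨i', w', a1', a2', a3', a4'⟩ := loc_pt hK' h2
  obtain ⟨p, p1, p2⟩ := r1.exists_mem
  obtain ⟨p', p1', p2'⟩ := r2.exists_mem
  have key : B ⊆ B.filter (fun e => Stt K e) ∪ B.filter (fun e => Stt r e) ∪
      B.filter (fun e => Stt K' e) := by
    intro e he
    have c1 := loc_before (b3 e he) a2 a3
    have c2 := loc_after (b3 e he) (by omega) (by omega) a3'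
    have c3 : e ∈ sep w p ∨ e ∈ sep p p' ∨ e ∈ sep p' w' := by
      simp only [mem_sep_sd] at *
      grind
    simp only [Finset.mem_union, Finset.mem_filter]
    rcases c3 with c | c | c
    · exact Or.inl (Or.inl ⟨he, stt_of_car a4 p2 c⟩)
    · exact Or.inl (Or.inr ⟨he, stt_of_car p1 p1' c⟩)
    · exact Or.inr ⟨he, stt_of_car p2' a4' c⟩
  have c1 := (Finset.card_le_card key).trans (Finset.card_union_le _ _)
  have c2 := Finset.card_union_le (B.filter (fun e => Stt K e)) (B.filter (fun e => Stt r e))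
  have := card_stt_le b2 K
  have := card_stt_le b2 r
  have := card_stt_le b2 K'
  have := h.nu
  omega

theorem Lw.near (h : Lw x n L g ν) {j j' : ℕ} {K K' : Hyp G} (hK : Loc x n g j K)
    (hK' : Loc x n g j' K') (h1 : j + 2 * g ≤ j') (h2 : j' + g ≤ n) {p : W G} (hp : p ∈ car K) :
    K' ∉ sep (x 0) p := by
  obtain ⟨i, w, a1, a2, a3, a4⟩ := loc_pt hK (by omega)
  have c1 := loc_before hK' (by omega) a3
  have c2 : K' ∉ sep w p := fun c => (h.tb hK hK' h1 h2).not_stt (stt_of_car a4 hp c)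
  simp only [mem_sep_sd] at *
  grind

theorem Lw.close (h : Lw x n L g ν) {j : ℕ} {K : Hyp G} (hK : Loc x n g j K) (hj : j + g ≤ n)
    {p : W G} (hp : p ∈ car K) : D TB0 p (x j) ≤ g * L + 1 := by
  have h1 := D_close adm_tb0 (loc_sep hK hj) hp
  have h2 := h.d_le (j + g) (Nat.le_add_right j g) hj
  rw [Nat.add_sub_cancel_left] at h2
  omega

theorem Lw.dist_car (h : Lw x n L g ν) {j m : ℕ} {K : Hyp G} (hK : Loc x n g j K)
    (hj : j + g ≤ n) (h1 : j ≤ m) (h2 : m ≤ j + 2 * g) (h3 : m ≤ n) :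
    ∃ w ∈ car K, d (x m) w ≤ 2 * g * L := by
  obtain ⟨i, w, a1, a2, a3, a4⟩ := loc_pt hK hj
  refine ⟨w, a4, ?_⟩
  have c1 := mem_I_iff_d.1 a3
  have c2 := h.step i (by omega)
  by_cases e : m ≤ i
  · have c3 := h.d_le i e (by omega)
    have c4 := d_triangle (x m) (x i) w
    have c5 : (i - m + 1) * L ≤ 2 * g * L := Nat.mul_le_mul_right _ (by omega)
    rw [add_mul, one_mul] at c5
    omega
  · have c3 := h.d_le (i := i + 1) m (by omega) h3
    have c4 := d_triangle (x m) (x (i + 1)) w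
    have c5 : (m - (i + 1) + 1) * L ≤ 2 * g * L := Nat.mul_le_mul_right _ (by omega)
    rw [add_mul, one_mul] at c5
    rw [d_comm (x (i + 1)) (x m)] at c3
    rw [d_comm (x (i + 1)) w] at c4
    omega

end

/-- points close to the carriers of two strongly separated walls through given points -/
def Cand (ρ : ℕ) (p1 p2 p : W G) : Prop :=
  ∃ K1 K2, p1 ∈ car K1 ∧ p2 ∈ car K2 ∧ TB0 K1 K2 ∧ (∃ a ∈ car K1, d p a ≤ ρ) ∧
    ∃ b ∈ car K2, d p b ≤ ρ

theorem diam_le {K1 K2 : Hyp G} (h : TB0 K1 K2) {p p' a a' b b' : W G} (ha : a ∈ car K1)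
    (ha' : a' ∈ car K1) (hb : b ∈ car K2) (hb' : b' ∈ car K2) :
    d p p' ≤ d p a + d p' a' + d p b + d p' b' := by
  have key : sep p p' ⊆ sep p a ∪ sep p' a' ∪ sep p b ∪ sep p' b' := by
    intro r hr
    by_contra hn
    simp only [Finset.mem_union, not_or] at hn
    obtain ⟨⟨⟨n1, n2⟩, n3⟩, n4⟩ := hn
    have c1 : r ∈ sep a a' := by
      clear n3 n4
      simp only [mem_sep_sd] at *
      grind
    have c2 : r ∈ sep b b' := by
      clear n1 n2 c1
      simp only [mem_sep_sd] at *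
      grind
    exact h.not_both (stt_of_car ha ha' c1).symm (stt_of_car hb hb' c2).symm
  have c1 := (Finset.card_le_card key).trans (Finset.card_union_le _ _)
  have c2 := Finset.card_union_le (sep p a ∪ sep p' a') (sep p b)
  have c3 := Finset.card_union_le (sep p a) (sep p' a')
  unfold d
  omega

theorem cand_card [Finite S] (ρ : ℕ) : ∃ M : ℕ, ∀ p1 p2 : W G, ∃ F : Finset (W G),
    F.card ≤ M ∧ ∀ p, Cand ρ p1 p2 p → p ∈ F := by
  classical
  have := Fintype.ofFinite S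
  set B0 : Finset (W G) := (ball_finite (1 : W G) (4 * ρ)).toFinset with hB0
  refine ⟨Fintype.card (S × S) * B0.card, fun p1 p2 => ?_⟩
  have key : ∀ c : S × S, ∃ F : Finset (W G), F.card ≤ B0.card ∧
      ∀ p, TB0 (hyp p1 c.1) (hyp p2 c.2) → (∃ a ∈ car (hyp p1 c.1), d p a ≤ ρ) →
        (∃ b ∈ car (hyp p2 c.2), d p b ≤ ρ) → p ∈ F := by
    intro c
    by_cases e : ∃ p0, (∃ a ∈ car (hyp p1 c.1), d p0 a ≤ ρ) ∧ ∃ b ∈ car (hyp p2 c.2), d p0 b ≤ ρ
    · obtain ⟨p0, ⟨a0, a1, a2⟩, b0, b1, b2⟩ := e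
      refine ⟨B0.image (fun q => p0 * q), Finset.card_image_le, ?_⟩
      rintro p ht ⟨a, a3, a4⟩ ⟨b, b3, b4⟩
      refine Finset.mem_image.2 ⟨p0⁻¹ * p, ?_, by simp⟩
      rw [hB0, Set.Finite.mem_toFinset]
      show d 1 (p0⁻¹ * p) ≤ 4 * ρ
      rw [← d_smul p0]
      have := diam_le (p := p0) (p' := p) ht a1 a3 b1 b3
      simp only [mul_one, mul_inv_cancel_left]
      omega
    · exact ⟨∅, by simp, fun p _ h1 h2 => absurd ⟨p, h1, h2⟩ e⟩
  choose F hF using key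
  refine ⟨Finset.univ.biUnion F, ?_, ?_⟩
  · refine Finset.card_biUnion_le.trans ?_
    rw [← Finset.card_univ, ← smul_eq_mul]
    exact Finset.sum_le_card_nsmul _ _ _ fun c _ => (hF c).1
  · rintro p ⟨K1, K2, h1, h2, h3, h4, h5⟩
    have e1 : hyp p1 K1.1 = K1 := h1
    have e2 : hyp p2 K2.1 = K2 := h2
    refine Finset.mem_biUnion.2 ⟨(K1.1, K2.1), Finset.mem_univ _, (hF _).2 p ?_ ?_ ?_⟩
    · simpa only [e1, e2] using h3
    · simpa only [e1] using h4
    · simpa only [e2] using h5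

section Trees

variable {Γ X : Type} [Group Γ] [MulAction Γ X] {δ : Γ → X → W G} {Z : PF 2 Γ X}

theorem exists_reduced : ∀ (w : List Lt2) (b : X) (g : Γ), Z.walk w b = some g →
    ∃ w', FreeGroup.IsReduced w' ∧ Z.walk w' b = some g
  | [], _, _, h => ⟨[], FreeGroup.IsReduced.nil, h⟩
  | l :: w, b, g, h => by
    obtain ⟨g1, k, h1, h2, rfl⟩ := Z.walk_cons_eq_some.1 h
    obtain ⟨w', r, h3⟩ := exists_reduced w _ k h2
    cases w' with
    | nil => exact ⟨[l], FreeGroup.IsReduced.singleton, Z.walk_cons_eq_some.2 ⟨g1, k, h1, h3, rfl⟩⟩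
    | cons l' w1 =>
      by_cases c : l.1 = l'.1 → l.2 = l'.2
      · exact ⟨l :: l' :: w1, List.isChain_cons_cons.2 ⟨c, r⟩,
          Z.walk_cons_eq_some.2 ⟨g1, k, h1, h3, rfl⟩⟩
      · obtain ⟨g2, k2, h4, h5, rfl⟩ := Z.walk_cons_eq_some.1 h3
        have e : l' = (l.1, !l.2) := by
          rw [Classical.not_imp] at c
          refine Prod.ext c.1.symm ?_
          have := c.2
          revert this
          cases l.2 <;> cases l'.2 <;> simp
        have h6 := Z.symm' h1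
        rw [← e, h4] at h6
        have e2 : g2 = g1⁻¹ := Option.some.inj h6
        subst e2
        refine ⟨w1, List.IsChain.tail r, ?_⟩
        simpa using h5

theorem exists_inv : ∀ (w : List Lt2) (b : X) (g : Γ), Z.walk w b = some g →
    ∃ w', Z.walk w' (g • b) = some g⁻¹
  | [], _, _, h => by
    obtain rfl : (1 : Γ) = _ := Option.some.inj h
    exact ⟨[], by simp⟩
  | l :: w, b, g, h => by
    obtain ⟨g1, k, h1, h2, rfl⟩ := Z.walk_cons_eq_some.1 h
    obtain ⟨w', h3⟩ := exists_inv w _ k h2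
    refine ⟨w' ++ [(l.1, !l.2)], Z.walk_append_eq_some.2 ⟨k⁻¹, g1⁻¹, by rwa [mul_smul], ?_, by simp⟩⟩
    refine Z.walk_cons_eq_some.2 ⟨g1⁻¹, 1, ?_, rfl, by simp⟩
    simpa [mul_smul] using Z.symm' h1

/-- the state after reading a word -/
noncomputable def nx (δ : Γ → X → W G) (Z : PF 2 Γ X) (υ : W G × X) (w : List Lt2) : W G × X :=
  (pt δ Z υ w, (Z.walk w υ.2).getD 1 • υ.2)

theorem nx_append (hδ : Coc δ) {υ : W G × X} {w1 w2 : List Lt2}
    (h : (Z.walk (w1 ++ w2) υ.2).isSome) :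
    (Z.walk w2 (nx δ Z υ w1).2).isSome ∧ nx δ Z (nx δ Z υ w1) w2 = nx δ Z υ (w1 ++ w2) := by
  obtain ⟨k, hk⟩ := Option.isSome_iff_exists.1 h
  obtain ⟨g, k', h1, h2, rfl⟩ := Z.walk_append_eq_some.1 hk
  simp only [nx, pt, h1, h2, hk, Option.getD_some, Option.isSome_some, true_and, hδ.mul, mul_smul,
    mul_assoc]

theorem isSome_take {b : X} {w : List Lt2} (h : (Z.walk w b).isSome) (i : ℕ) :
    (Z.walk (w.take i) b).isSome := by
  obtain ⟨k, hk⟩ := Option.isSome_iff_exists.1 h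
  rw [← List.take_append_drop i w] at hk
  obtain ⟨g, k', h1, -, -⟩ := Z.walk_append_eq_some.1 hk
  rw [h1]
  rfl

theorem tree_near (hδ : Coc δ) {L s g ν : ℕ} (hZ : ZProg δ Z L s g ν) {υ : W G × X} {t : Hyp G}
    (ht : t ∈ WH (Tree δ Z υ)) {z : W G} (hz : z ∈ car t) :
    ∃ w g, Z.walk w υ.2 = some g ∧ D TB0 z (υ.1 * δ g υ.2) ≤ L + 1 := by
  have key : ∀ a ∈ Tree δ Z υ, t ∈ sep υ.1 a →
      ∃ w g, Z.walk w υ.2 = some g ∧ D TB0 z (υ.1 * δ g υ.2) ≤ L + 1 := by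
    rintro _ ⟨w, g0, h1, rfl⟩ h2
    obtain ⟨w', r, h3⟩ := exists_reduced w _ _ h1
    have hs : (Z.walk w' υ.2).isSome := by rw [h3]; rfl
    have P := hZ υ w' r hs
    obtain ⟨i, -, a2, a3⟩ := exists_block (x := fun i => pt δ Z υ (w'.take i)) (H := t) (i := 0)
      w'.length (Nat.zero_le _) (by simpa [pt, hδ.one, h3] using h2)
    obtain ⟨k, hk⟩ := Option.isSome_iff_exists.1 (isSome_take hs i)
    refine ⟨w'.take i, k, hk, ?_⟩
    have c1 := D_close adm_tb0 a3 hz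
    have c2 := P.step i a2
    simp only [pt, hk, Option.getD_some] at c1 c2
    omega
  obtain ⟨a, ha, b, hb, h⟩ := ht
  rw [mem_sep_trans a υ.1 b, sep_comm a] at h
  rcases h with h | h
  · exact key a ha h.1
  · exact key b hb h.1

theorem exists_path (hδ : Coc δ) {L s g ν : ℕ} (hZ : ZProg δ Z L s g ν) {t u : Hyp G}
    (h : ET δ Z t u) {z z' : W G} (hz : z ∈ car t) (hz' : z' ∈ car u) :
    ∃ (υ : W G × X) (w : List Lt2), FreeGroup.IsReduced w ∧ (Z.walk w υ.2).isSome ∧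
      D TB0 z (pt δ Z υ (w.take 0)) ≤ L + 1 ∧ D TB0 z' (pt δ Z υ (w.take w.length)) ≤ L + 1 := by
  obtain ⟨υ, ht, hu⟩ := h
  obtain ⟨w1, g1, a1, a2⟩ := tree_near hδ hZ ht hz
  obtain ⟨w2, g2, b1, b2⟩ := tree_near hδ hZ hu hz'
  obtain ⟨w3, c1⟩ := exists_inv w1 _ _ a1
  have c2 : Z.walk (w3 ++ w2) (g1 • υ.2) = some (g2 * g1⁻¹) :=
    Z.walk_append_eq_some.2 ⟨g1⁻¹, g2, c1, by simpa using b1, rfl⟩
  obtain ⟨w, r, c3⟩ := exists_reduced _ _ _ c2
  refine ⟨(υ.1 * δ g1 υ.2, g1 • υ.2), w, r, by rw [c3]; rfl, by simpa [pt, hδ.one] using a2, ?_⟩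
  have c4 := hδ.mul (g2 * g1⁻¹) g1 υ.2
  rw [inv_mul_cancel_right] at c4
  simp only [List.take_length, pt, c3, Option.getD_some]
  rw [mul_assoc, ← c4]
  exact b2

end Trees

end Pool.Agent.MP_c34dea_an.H23.Thin
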